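import Pool.Agent.MP_9096b7_lc.Base

/-! Measure theoretic tools: exhaustion, gluing, hulls, measurable selection, cluster points. -/

set_option autoImplicit false

namespace Pool.Agent.MP9096b7

open Filter MeasureTheory

variable {X : Type}

instance instMSList : MeasurableSpace (List ℕ) := ⊤

instance : DiscreteMeasurableSpace (List ℕ) := ⟨fun _ => trivial⟩

theorem freq_exists {N : Filter X} [CountableInterFilter N] {ι : Type} [Countable ι]
    {p : ι → X → Prop} (h : ∃ᶠ ω in N, ∃ i, p i ω) : ∃ i, ∃ᶠ ω in N, p i ω := by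
  by_contra hcon
  push Not at hcon
  apply h
  filter_upwards [eventually_countable_forall.2 hcon] with ω hω
  rintro ⟨i, hi⟩
  exact hω i hi

/-- Shrinking a non-null event so that a function with countably many values is constant. -/
theorem freq_const {N : Filter X} [CountableInterFilter N] {ι : Type} [Countable ι]
    {p : X → Prop} (F : X → ι) (h : ∃ᶠ ω in N, p ω) : ∃ i, ∃ᶠ ω in N, p ω ∧ F ω = i :=
  freq_exists (h.mono fun ω hω => ⟨F ω, hω, rfl⟩)

/-- The countable chain condition for the filter `N` and the σ-algebra `m`. -/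
def CCC (N : Filter X) (m : MeasurableSpace X) : Prop :=
  ∀ 𝒮 : Set (Set X), (∀ A ∈ 𝒮, MeasurableSet[m] A ∧ ∃ᶠ ω in N, ω ∈ A) →
    𝒮.PairwiseDisjoint id → 𝒮.Countable

theorem CCC.mono {N : Filter X} {m m' : MeasurableSpace X} (h : CCC N m') (hm : m ≤ m') :
    CCC N m := fun 𝒮 h1 h2 => h 𝒮 (fun A hA => ⟨hm _ (h1 A hA).1, (h1 A hA).2⟩) h2

/-- Exhaustion: each family of measurable sets has a countable subfamily with the same
essential supremum. -/
theorem exhaust {N : Filter X} [CountableInterFilter N] {m : MeasurableSpace X} (hc : CCC N m)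
    (𝒮 : Set (Set X)) (hne : 𝒮.Nonempty) (hm : ∀ A ∈ 𝒮, MeasurableSet[m] A) :
    ∃ T : ℕ → Set X, (∀ i, T i ∈ 𝒮) ∧ ∀ A ∈ 𝒮, ∀ᶠ ω in N, ω ∈ A → ∃ i, ω ∈ T i := by
  classical
  -- a maximal disjoint family of non-null sets each contained in a member of `𝒮`
  let P : Set (Set (Set X)) := {𝒟 | (∀ C ∈ 𝒟, MeasurableSet[m] C ∧ (∃ᶠ ω in N, ω ∈ C) ∧
    ∃ A ∈ 𝒮, C ⊆ A) ∧ 𝒟.PairwiseDisjoint id}
  obtain ⟨𝒟, hmax⟩ : ∃ 𝒟, Maximal (· ∈ P) 𝒟 := by
    refine zorn_subset P fun c hc hchain => ?_
    refine ⟨⋃₀ c, ⟨?_, ?_⟩, fun s hs => Set.subset_sUnion_of_mem hs⟩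
    · rintro C ⟨𝒟, h𝒟, hC⟩
      exact (hc h𝒟).1 C hC
    · rintro C ⟨𝒟, h𝒟, hC⟩ C' ⟨𝒟', h𝒟', hC'⟩ hne
      rcases hchain.total h𝒟 h𝒟' with h | h
      · exact (hc h𝒟').2 (h hC) hC' hne
      · exact (hc h𝒟).2 hC (h hC') hne
  have hD := hmax.prop
  have hcount : 𝒟.Countable := hc 𝒟 (fun A hA => ⟨(hD.1 A hA).1, (hD.1 A hA).2.1⟩) hD.2
  have h3 : ∀ C : 𝒟, ∃ A ∈ 𝒮, C.1 ⊆ A := fun C => (hD.1 C.1 C.2).2.2
  choose g hg hg' using h3
  obtain ⟨A₀, hA₀⟩ := hne
  have hcr : (insert A₀ (Set.range g)).Countable := by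
    have := hcount.to_subtype
    exact (Set.countable_range g).insert _
  obtain ⟨T, hT⟩ := hcr.exists_eq_range ⟨A₀, Set.mem_insert _ _⟩
  have hT' : ∀ i, T i ∈ 𝒮 := by
    intro i
    have : T i ∈ insert A₀ (Set.range g) := by rw [hT]; exact ⟨i, rfl⟩
    rcases this with h | ⟨C, hC⟩
    · rw [h]; exact hA₀
    · rw [← hC]; exact hg C
  refine ⟨T, hT', fun A hA => ?_⟩
  by_contra hcon
  have h4 : ∃ᶠ ω in N, ω ∈ A \ ⋃ i, T i := by
    refine (not_eventually.1 hcon).mono fun ω hω => ?_
    push Not at hω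
    exact ⟨hω.1, by simpa using hω.2⟩
  have hmT : MeasurableSet[m] (⋃ i, T i) := MeasurableSet.iUnion fun i => hm _ (hT' i)
  have h5 : insert (A \ ⋃ i, T i) 𝒟 ∈ P := by
    refine ⟨?_, ?_⟩
    · intro C hC
      rcases hC with rfl | hC
      · exact ⟨(hm A hA).diff hmT, h4, A, hA, Set.sdiff_subset⟩
      · exact hD.1 C hC
    · refine hD.2.insert fun C hC _ => ?_
      change Disjoint (A \ ⋃ i, T i) C
      rw [Set.disjoint_left]
      rintro ω ⟨_, hω⟩ hωC
      apply hω
      have : g ⟨C, hC⟩ ∈ Set.range T := by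
        rw [← hT]; exact Set.mem_insert_of_mem _ ⟨_, rfl⟩
      obtain ⟨i, hi⟩ := this
      refine Set.mem_iUnion.2 ⟨i, ?_⟩
      rw [hi]
      exact hg' ⟨C, hC⟩ hωC
  have h6 : A \ ⋃ i, T i ∈ 𝒟 := hmax.le_of_ge h5 (Set.subset_insert _ _) (Set.mem_insert _ _)
  obtain ⟨ω, hω⟩ := h4.exists
  apply hω.2
  have : g ⟨_, h6⟩ ∈ Set.range T := by
    rw [← hT]; exact Set.mem_insert_of_mem _ ⟨_, rfl⟩
  obtain ⟨i, hi⟩ := this
  refine Set.mem_iUnion.2 ⟨i, ?_⟩
  rw [hi]
  exact hg' ⟨_, h6⟩ hω

/-- The hull of a set with respect to a σ-algebra. -/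
theorem exists_hull {N : Filter X} [CountableInterFilter N] {m : MeasurableSpace X} (hc : CCC N m)
    (A : Set X) : ∃ H : Set X, MeasurableSet[m] H ∧ (∀ᶠ ω in N, ω ∈ A → ω ∈ H) ∧
      ∀ C, MeasurableSet[m] C → (∃ᶠ ω in N, ω ∈ C ∧ ω ∈ H) → ∃ᶠ ω in N, ω ∈ C ∧ ω ∈ A := by
  obtain ⟨T, hT, hT'⟩ := exhaust hc {C | MeasurableSet[m] C ∧ ∀ᶠ ω in N, ω ∈ C → ω ∉ A}
    ⟨∅, MeasurableSet.empty, Eventually.of_forall fun ω h => h.elim⟩ (fun C hC => hC.1)
  refine ⟨(⋃ i, T i)ᶜ, (MeasurableSet.iUnion fun i => (hT i).1).compl, ?_, ?_⟩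
  · have h1 : ∀ᶠ ω in N, ∀ i, ω ∈ T i → ω ∉ A := eventually_countable_forall.2 fun i => (hT i).2
    filter_upwards [h1] with ω h hA hU
    obtain ⟨i, hi⟩ := Set.mem_iUnion.1 hU
    exact h i hi hA
  · intro C hC hf
    by_contra hcon
    rw [not_frequently] at hcon
    have h1 := hT' C ⟨hC, hcon.mono fun ω h h1 h2 => h ⟨h1, h2⟩⟩
    apply hf
    filter_upwards [h1] with ω h
    rintro ⟨h2, h3⟩
    exact h3 (Set.mem_iUnion.2 (h h2))

/-- Composition with a measurable index. -/
theorem meas_app {m : MeasurableSpace X} {ι β : Type} [Countable ι] [MeasurableSpace ι]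
    [MeasurableSingletonClass ι] [MeasurableSpace β] {idx : X → ι} (hidx : Measurable[m] idx)
    {F : ι → X → β} (hF : ∀ i, Measurable[m] (F i)) : Measurable[m] fun ω => F (idx ω) ω := by
  intro s hs
  have h1 : (fun ω => F (idx ω) ω) ⁻¹' s = ⋃ i, (idx ⁻¹' {i} ∩ F i ⁻¹' s) := by
    ext ω; simp
  rw [h1]
  exact MeasurableSet.iUnion fun i => (hidx (measurableSet_singleton i)).inter (hF i hs)

theorem meas_nat {m : MeasurableSpace X} {ι : Type} [Countable ι] [MeasurableSpace ι]
    {idx : X → ι} (h : ∀ i, MeasurableSet[m] {ω | idx ω = i}) : Measurable[m] idx :=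
  measurable_to_countable' h

/-- The least `i` such that `ω ∈ T i`. -/
noncomputable def lst (T : ℕ → Set X) (ω : X) : ℕ := sInf {i | ω ∈ T i}

theorem lst_mem {T : ℕ → Set X} {ω : X} (h : ∃ i, ω ∈ T i) : ω ∈ T (lst T ω) :=
  Nat.sInf_mem (s := {i | ω ∈ T i}) h

theorem lst_le {T : ℕ → Set X} {ω : X} {i : ℕ} (h : ω ∈ T i) : lst T ω ≤ i :=
  Nat.sInf_le (s := {i | ω ∈ T i}) h

theorem meas_lst {m : MeasurableSpace X} {T : ℕ → Set X} (hT : ∀ i, MeasurableSet[m] (T i)) :
    Measurable[m] (lst T) := by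
  refine meas_nat fun i => ?_
  have h1 : {ω | lst T ω = i} = (T i \ ⋃ j < i, T j) ∪ (if i = 0 then (⋃ j, T j)ᶜ else ∅) := by
    ext ω
    simp only [Set.mem_ofPred_eq, Set.mem_union, Set.mem_sdiff, Set.mem_iUnion, not_exists]
    constructor
    · intro h
      by_cases h2 : ∃ j, ω ∈ T j
      · left
        rw [← h]
        exact ⟨lst_mem h2, fun j hj hj' => absurd (lst_le hj') (not_le.2 hj)⟩
      · right
        have h3 : lst T ω = 0 := by
          unfold lst
          have : {i | ω ∈ T i} = ∅ := by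
            ext j; simpa using fun hj => h2 ⟨j, hj⟩
          rw [this, Nat.sInf_empty]
        rw [← h, h3, if_pos rfl]
        simpa using h2
    · rintro (⟨h1, h2⟩ | h)
      · apply le_antisymm (lst_le h1)
        by_contra hlt
        push Not at hlt
        exact h2 _ hlt (lst_mem ⟨i, h1⟩)
      · split_ifs at h with h0
        · subst h0
          unfold lst
          have : {i | ω ∈ T i} = ∅ := by
            ext j
            simp only [Set.mem_compl_iff, Set.mem_iUnion, not_exists] at h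
            simpa using h j
          rw [this, Nat.sInf_empty]
        · exact h.elim
  rw [h1]
  refine ((hT i).diff (MeasurableSet.iUnion fun j => MeasurableSet.iUnion fun _ => hT j)).union ?_
  split_ifs
  · exact (MeasurableSet.iUnion hT).compl
  · exact MeasurableSet.empty

/-- Measurable selection of a sequence of states. -/
theorem exists_meas_seq {m : MeasurableSpace X} {σ : Type} [Countable σ] [Nonempty σ]
    [MeasurableSpace σ] [MeasurableSingletonClass σ] (E : ℕ → σ → σ → Set X)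
    (hE : ∀ k a a', MeasurableSet[m] (E k a a')) (a₀ : X → σ) (ha₀ : Measurable[m] a₀) :
    ∃ s : ℕ → X → σ, (∀ k, Measurable[m] (s k)) ∧ s 0 = a₀ ∧
      ∀ k ω, (∃ a', ω ∈ E k (s k ω) a') → ω ∈ E k (s k ω) (s (k + 1) ω) := by
  obtain ⟨e, he⟩ := exists_surjective_nat σ
  let s : ℕ → X → σ := fun k => Nat.rec a₀ (fun k a ω => e (lst (fun i => E k (a ω) (e i)) ω)) k
  have hs : ∀ k, s (k + 1) = fun ω => e (lst (fun i => E k (s k ω) (e i)) ω) := fun k => rfl
  refine ⟨s, fun k => ?_, rfl, fun k ω => ?_⟩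
  · induction k with
    | zero => exact ha₀
    | succ k ih =>
      rw [hs]
      exact meas_app (F := fun a ω => e (lst (fun i => E k a (e i)) ω)) ih fun a =>
        (measurable_from_nat).comp (meas_lst fun i => hE k a (e i))
  · rintro ⟨a', ha'⟩
    obtain ⟨i, rfl⟩ := he a'
    rw [hs]
    exact lst_mem (T := fun i => E k (s k ω) (e i)) ⟨i, ha'⟩

theorem meas_pi {m : MeasurableSpace X} {ι : Type} {F : X → ι → ℕ}
    (h : ∀ k v, MeasurableSet[m] {ω | F ω k = v}) : Measurable[m] F := by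
  rw [@measurable_pi_iff]
  intro k
  exact meas_nat fun v => h k v

theorem meas_coord {m : MeasurableSpace X} {ι : Type} {F : X → ι → ℕ} (h : Measurable[m] F)
    (k : ι) : Measurable[m] fun ω => F ω k := (measurable_pi_apply k).comp h

theorem meas_coord_app {m : MeasurableSpace X} {ι : Type} [Countable ι] [MeasurableSpace ι]
    [MeasurableSingletonClass ι] {F : X → ι → ℕ} (h : Measurable[m] F) {g : X → ι}
    (hg : Measurable[m] g) : Measurable[m] fun ω => F ω (g ω) :=
  meas_app (F := fun k ω => F ω k) hg (meas_coord h)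

/-- Measurability of predicates with a measurable natural number as a parameter. -/
theorem meas_pred {m : MeasurableSpace X} {ι : Type} [Countable ι] [MeasurableSpace ι]
    [MeasurableSingletonClass ι] {g : X → ι} (hg : Measurable[m] g) {P : ι → X → Prop}
    (hP : ∀ i, MeasurableSet[m] {ω | P i ω}) : MeasurableSet[m] {ω | P (g ω) ω} := by
  have h1 : {ω | P (g ω) ω} = ⋃ i, (g ⁻¹' {i} ∩ {ω | P i ω}) := by
    ext ω; simp
  rw [h1]
  exact MeasurableSet.iUnion fun i => (hg (measurableSet_singleton i)).inter (hP i)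

/-- Gluing functions along a countable cover. -/
theorem glue {m : MeasurableSpace X} {β : Type} [MeasurableSpace β] (T : ℕ → Set X)
    (hT : ∀ i, MeasurableSet[m] (T i)) (F : ℕ → X → β) (hF : ∀ i, Measurable[m] (F i)) :
    Measurable[m] (fun ω => F (lst T ω) ω) := meas_app (meas_lst hT) hF

/-- Existence of a measurable cluster point of a sequence of measurable functions which is
pointwise bounded. -/
theorem exists_cluster {m : MeasurableSpace X} (F : ℕ → X → ℕ → ℕ)
    (hF : ∀ i, Measurable[m] (F i)) (b : X → ℕ → ℕ) (hb : ∀ i ω k, F i ω k ≤ b ω k) :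
    ∃ G : X → ℕ → ℕ, Measurable[m] G ∧ (∀ ω k, G ω k ≤ b ω k) ∧
      ∀ ω L, ∃ᶠ i in atTop, ∀ k < L, F i ω k = G ω k := by
  classical
  -- states: finite sequences
  let E : ℕ → List ℕ → List ℕ → Set X := fun _ a a' =>
    {ω | (∃ v, a' = a ++ [v]) ∧ ∃ᶠ i in atTop, ∀ k < a'.length, F i ω k = a'.getD k 0}
  have hE : ∀ k a a', MeasurableSet[m] (E k a a') := by
    intro k a a'
    have : E k a a' = {ω | ∃ v, a' = a ++ [v]} ∩
        ⋂ n : ℕ, ⋃ i : {i : ℕ // n ≤ i}, ⋂ k : {k : ℕ // k < a'.length},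
          {ω | F i.1 ω k.1 = a'.getD k.1 0} := by
      ext ω
      simp only [E, Set.mem_ofPred_eq, Set.mem_inter_iff, Set.mem_iInter, Set.mem_iUnion,
        frequently_atTop, Subtype.forall, Subtype.exists, exists_prop]
    rw [this]
    refine (MeasurableSet.const _).inter (MeasurableSet.iInter fun n => MeasurableSet.iUnion
      fun i => MeasurableSet.iInter fun k => ?_)
    exact (meas_coord (hF i.1) k.1) (measurableSet_singleton _)
  obtain ⟨s, hs1, hs2, hs3⟩ := exists_meas_seq E hE (fun _ => []) measurable_const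
  -- invariants
  have inv : ∀ k ω, (s k ω).length = k ∧ ∃ᶠ i in atTop, ∀ j < k, F i ω j = (s k ω).getD j 0 := by
    intro k
    induction k with
    | zero =>
      intro ω
      rw [hs2]
      refine ⟨rfl, Eventually.frequently (Eventually.of_forall fun i => ?_)⟩
      intro j hj; omega
    | succ k ih =>
      intro ω
      obtain ⟨h1, h2⟩ := ih ω
      have h3 : ∃ a', ω ∈ E k (s k ω) a' := by
        have h4 : ∃ᶠ i in atTop, ∃ v : Fin (b ω k + 1), (∀ j < k, F i ω j = (s k ω).getD j 0) ∧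
            F i ω k = v := by
          refine h2.mono fun i hi => ⟨⟨F i ω k, Nat.lt_succ_of_le (hb i ω k)⟩, hi, rfl⟩
        have h5 : ∃ v : Fin (b ω k + 1), ∃ᶠ i in atTop, (∀ j < k, F i ω j = (s k ω).getD j 0) ∧
            F i ω k = v := by
          by_contra hcon
          push Not at hcon
          apply h4
          filter_upwards [eventually_all.2 hcon] with i hi
          rintro ⟨v, hv1, hv2⟩
          exact hi v hv1 hv2
        obtain ⟨v, hv⟩ := h5
        refine ⟨s k ω ++ [v.1], ⟨v.1, rfl⟩, hv.mono fun i hi j hj => ?_⟩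
        rw [List.length_append, h1, List.length_singleton] at hj
        rcases Nat.lt_succ_iff_lt_or_eq.1 hj with hj | rfl
        · rw [hi.1 j hj, List.getD_append _ _ _ _ (by rw [h1]; exact hj)]
        · rw [hi.2, List.getD_append_right _ _ _ _ (by rw [h1]), h1, Nat.sub_self]
          rfl
      obtain ⟨⟨v, hv⟩, h6⟩ := hs3 k ω h3
      have h7 : (s (k + 1) ω).length = k + 1 := by rw [hv, List.length_append, h1]; rfl
      refine ⟨h7, ?_⟩
      rw [h7] at h6
      exact h6
  have hext : ∀ k ω, ∃ v, s (k + 1) ω = s k ω ++ [v] := by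
    intro k ω
    obtain ⟨h1, h2⟩ := inv k ω
    have h3 : ∃ a', ω ∈ E k (s k ω) a' := by
      have h4 : ∃ᶠ i in atTop, ∃ v : Fin (b ω k + 1), (∀ j < k, F i ω j = (s k ω).getD j 0) ∧
          F i ω k = v := by
        refine h2.mono fun i hi => ⟨⟨F i ω k, Nat.lt_succ_of_le (hb i ω k)⟩, hi, rfl⟩
      have h5 : ∃ v : Fin (b ω k + 1), ∃ᶠ i in atTop, (∀ j < k, F i ω j = (s k ω).getD j 0) ∧
          F i ω k = v := by
        by_contra hcon
        push Not at hcon
        apply h4
        filter_upwards [eventually_all.2 hcon] with i hi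
        rintro ⟨v, hv1, hv2⟩
        exact hi v hv1 hv2
      obtain ⟨v, hv⟩ := h5
      refine ⟨s k ω ++ [v.1], ⟨v.1, rfl⟩, hv.mono fun i hi j hj => ?_⟩
      rw [List.length_append, h1, List.length_singleton] at hj
      rcases Nat.lt_succ_iff_lt_or_eq.1 hj with hj | rfl
      · rw [hi.1 j hj, List.getD_append _ _ _ _ (by rw [h1]; exact hj)]
      · rw [hi.2, List.getD_append_right _ _ _ _ (by rw [h1]), h1, Nat.sub_self]
        rfl
    exact (hs3 k ω h3).1
  -- the limit
  let G : X → ℕ → ℕ := fun ω k => (s (k + 1) ω).getD k 0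
  have hG : ∀ ω L, ∀ k < L, (s L ω).getD k 0 = G ω k := by
    intro ω L k hk
    induction L with
    | zero => omega
    | succ L ih =>
      rcases Nat.lt_succ_iff_lt_or_eq.1 hk with hk | rfl
      · obtain ⟨v, hv⟩ := hext L ω
        rw [hv, List.getD_append _ _ _ _ (by rw [(inv L ω).1]; exact hk)]
        exact ih hk
      · rfl
  have hfreq : ∀ ω L, ∃ᶠ i in atTop, ∀ k < L, F i ω k = G ω k := by
    intro ω L
    refine (inv L ω).2.mono fun i hi k hk => ?_
    rw [hi k hk, hG ω L k hk]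
  refine ⟨G, ?_, fun ω k => ?_, hfreq⟩
  · refine meas_pi fun k v => ?_
    have h1 : {ω | G ω k = v} = (s (k + 1)) ⁻¹' {a | a.getD k 0 = v} := rfl
    rw [h1]
    exact hs1 (k + 1) (MeasurableSet.of_discrete)
  · obtain ⟨i, hi⟩ := (hfreq ω (k + 1)).exists
    rw [← hi k (Nat.lt_succ_self k)]
    exact hb i ω k

/-! ### Automation for measurability -/

section ms

variable {m : MeasurableSpace X}

theorem ms_and {p q : X → Prop} (hp : MeasurableSet[m] {ω | p ω}) (hq : MeasurableSet[m] {ω | q ω}) :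
    MeasurableSet[m] {ω | p ω ∧ q ω} := hp.inter hq

theorem ms_or {p q : X → Prop} (hp : MeasurableSet[m] {ω | p ω}) (hq : MeasurableSet[m] {ω | q ω}) :
    MeasurableSet[m] {ω | p ω ∨ q ω} := hp.union hq

theorem ms_not {p : X → Prop} (hp : MeasurableSet[m] {ω | p ω}) :
    MeasurableSet[m] {ω | ¬ p ω} := hp.compl

theorem ms_imp {p q : X → Prop} (hp : MeasurableSet[m] {ω | p ω}) (hq : MeasurableSet[m] {ω | q ω}) :
    MeasurableSet[m] {ω | p ω → q ω} := by
  have : {ω | p ω → q ω} = {ω | ¬ p ω ∨ q ω} := by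
    ext ω; simp only [Set.mem_ofPred_eq]; tauto
  rw [this]
  exact ms_or (ms_not hp) hq

theorem ms_iff {p q : X → Prop} (hp : MeasurableSet[m] {ω | p ω}) (hq : MeasurableSet[m] {ω | q ω}) :
    MeasurableSet[m] {ω | p ω ↔ q ω} := by
  have : {ω | p ω ↔ q ω} = {ω | (p ω → q ω) ∧ (q ω → p ω)} := by
    ext ω; simp only [Set.mem_ofPred_eq]; tauto
  rw [this]
  exact ms_and (ms_imp hp hq) (ms_imp hq hp)

theorem ms_const (p : Prop) : MeasurableSet[m] {_ω : X | p} := MeasurableSet.const p

theorem ms_all {ι : Sort*} [Countable ι] {p : ι → X → Prop}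
    (h : ∀ i, MeasurableSet[m] {ω | p i ω}) : MeasurableSet[m] {ω | ∀ i, p i ω} := by
  have : {ω | ∀ i, p i ω} = ⋂ i, {ω | p i ω} := by ext ω; simp
  rw [this]
  exact MeasurableSet.iInter h

theorem ms_ex {ι : Sort*} [Countable ι] {p : ι → X → Prop}
    (h : ∀ i, MeasurableSet[m] {ω | p i ω}) : MeasurableSet[m] {ω | ∃ i, p i ω} := by
  have : {ω | ∃ i, p i ω} = ⋃ i, {ω | p i ω} := by ext ω; simp
  rw [this]
  exact MeasurableSet.iUnion h

theorem ms_eq {ι : Type} [Countable ι] [MeasurableSpace ι] [MeasurableSingletonClass ι]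
    {f g : X → ι} (hf : Measurable[m] f) (hg : Measurable[m] g) :
    MeasurableSet[m] {ω | f ω = g ω} := by
  refine meas_pred (P := fun v ω => f ω = v) hg fun v => hf (measurableSet_singleton v)

theorem ms_le {f g : X → ℕ} (hf : Measurable[m] f) (hg : Measurable[m] g) :
    MeasurableSet[m] {ω | f ω ≤ g ω} := by
  refine meas_pred (P := fun v ω => f ω ≤ v) hg fun v => ?_
  exact hf (t := {u | u ≤ v}) (MeasurableSet.of_discrete)

theorem ms_lt {f g : X → ℕ} (hf : Measurable[m] f) (hg : Measurable[m] g) :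
    MeasurableSet[m] {ω | f ω < g ω} := ms_le (f := fun ω => f ω + 1)
  ((measurable_from_nat (f := fun n => n + 1)).comp hf) hg

/-- functions of two natural numbers -/
theorem mf_two {β : Type} [MeasurableSpace β] (op : ℕ → ℕ → β) {f g : X → ℕ}
    (hf : Measurable[m] f) (hg : Measurable[m] g) : Measurable[m] fun ω => op (f ω) (g ω) :=
  meas_app (F := fun v ω => op v (g ω)) hf fun v => (measurable_from_nat (f := op v)).comp hg

theorem mf_one {ι β : Type} [MeasurableSpace β] [MeasurableSpace ι] [DiscreteMeasurableSpace ι]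
    (op : ι → β) {f : X → ι}
    (hf : Measurable[m] f) : Measurable[m] fun ω => op (f ω) :=
  (Measurable.of_discrete (f := op)).comp hf

theorem mf_add {f g : X → ℕ} (hf : Measurable[m] f) (hg : Measurable[m] g) :
    Measurable[m] fun ω => f ω + g ω := mf_two (· + ·) hf hg

theorem mf_sub {f g : X → ℕ} (hf : Measurable[m] f) (hg : Measurable[m] g) :
    Measurable[m] fun ω => f ω - g ω := mf_two (· - ·) hf hg

theorem mf_max {f g : X → ℕ} (hf : Measurable[m] f) (hg : Measurable[m] g) :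
    Measurable[m] fun ω => max (f ω) (g ω) := mf_two max hf hg

theorem mf_min {f g : X → ℕ} (hf : Measurable[m] f) (hg : Measurable[m] g) :
    Measurable[m] fun ω => min (f ω) (g ω) := mf_two min hf hg

theorem mf_sum {f : ℕ → X → ℕ} {g : X → ℕ} (hf : ∀ i, Measurable[m] (f i)) (hg : Measurable[m] g) :
    Measurable[m] fun ω => ∑ i ∈ Finset.range (g ω), f i ω := by
  refine meas_app (F := fun v ω => ∑ i ∈ Finset.range v, f i ω) hg fun v => ?_
  induction v with
  | zero => simp
  | succ v ih =>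
    simp only [Finset.sum_range_succ]
    exact mf_add ih (hf v)

theorem mf_const {β : Type} [MeasurableSpace β] (c : β) : Measurable[m] fun _ : X => c :=
  measurable_const

/-- measurability by recursion -/
theorem mf_rec {f : X → ℕ → ℕ} (h0 : Measurable[m] fun ω => f ω 0)
    (hs : ∀ k, Measurable[m] (fun ω => f ω k) → Measurable[m] fun ω => f ω (k + 1)) :
    Measurable[m] f := by
  rw [@measurable_pi_iff]
  intro k
  induction k with
  | zero => exact h0
  | succ k ih => exact hs k ih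

theorem mf_pi {f : X → ℕ → ℕ} (h : ∀ k, Measurable[m] fun ω => f ω k) : Measurable[m] f := by
  rw [@measurable_pi_iff]
  exact h

end ms

theorem ev_meas {m : MeasurableSpace X} {y : X → ℕ → ℕ} (hy : Measurable[m] y) (n : ℕ)
    (s : ℕ → ℕ) (j : ℕ) {F : ℕ → X → ℕ → ℕ} (hF : ∀ i, Measurable[m] (F i)) :
    MeasurableSet[m] (ev y n s j F) := by
  unfold ev
  (repeat' first
      | with_reducible assumption
      | with_reducible exact ms_const _
      | with_reducible refine ms_and ?_ ?_
      | with_reducible refine ms_or ?_ ?_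
      | with_reducible refine ms_iff ?_ ?_
      | with_reducible refine ms_not ?_
      | with_reducible refine ms_le ?_ ?_
      | with_reducible refine ms_lt ?_ ?_
      | with_reducible refine ms_eq ?_ ?_
      | with_reducible refine ms_imp ?_ ?_
      | with_reducible refine ms_all fun _ => ?_
      | with_reducible refine ms_ex fun _ => ?_
      | with_reducible exact mf_const _
      | with_reducible apply mf_add
      | with_reducible apply mf_sub
      | with_reducible apply mf_max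
      | with_reducible apply mf_min
      | (with_reducible apply meas_coord; with_reducible assumption)
      | with_reducible (refine meas_coord_app ?_ ?_))
  exact hF _

end Pool.Agent.MP9096b7
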