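import Pool.Agent.MP_9096b7_lc.A1

/-! The one step lemma. -/

set_option autoImplicit false
set_option linter.unusedVariables false
set_option linter.unusedSectionVars false

namespace Pool.Agent.MP9096b7

open Filter MeasureTheory

variable {X : Type}

/-- `Q` holds on all the blocks of `f` inside `[a, c]`. -/
def Good (f : ℕ → ℕ) (Q : ℕ → ℕ → Prop) (a c : ℕ) : Prop :=
  ∀ i, a ≤ f i → f (i + 1) ≤ c → Q (f i) (f (i + 1))

theorem exists_cmp : ∃ cmp : ℕ → ℕ × (ℕ → ℕ) × ℕ, (∀ c, (cmp c).2.2 ≤ (cmp c).1) ∧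
    ∀ n (s : ℕ → ℕ) j, j ≤ n → ∃ c, (cmp c).1 = n ∧ (cmp c).2.2 = j ∧
      ∀ k < pos n, (cmp c).2.1 k = s k := by
  obtain ⟨e, he⟩ := exists_surjective_nat (ℕ × List ℕ × ℕ)
  refine ⟨fun c => ((e c).1, fun k => (e c).2.1.getD k 0, min (e c).2.2 (e c).1),
    fun c => min_le_right _ _, fun n s j hj => ?_⟩
  obtain ⟨c, hc⟩ := he (n, (List.range (pos n)).map s, j)
  refine ⟨c, by simp [hc], by simp [hc, hj], fun k hk => ?_⟩
  simp [hc, List.getD_eq_getElem?_getD, hk]

/-- The components of the forcing of one step, coded by natural numbers. -/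
noncomputable def cmp : ℕ → ℕ × (ℕ → ℕ) × ℕ := exists_cmp.choose

theorem cmp_le (c : ℕ) : (cmp c).2.2 ≤ (cmp c).1 := exists_cmp.choose_spec.1 c

theorem exists_ccode (n : ℕ) (s : ℕ → ℕ) (j : ℕ) (hj : j ≤ n) : ∃ c, (cmp c).1 = n ∧
    (cmp c).2.2 = j ∧ ∀ k < pos n, (cmp c).2.1 k = s k := exists_cmp.choose_spec.2 n s j hj

/-- The event of the component `c` with side functions `F`. -/
def evc (y : X → ℕ → ℕ) (c : ℕ) (F : ℕ → X → ℕ → ℕ) : Set X :=
  ev y (cmp c).1 (cmp c).2.1 (cmp c).2.2 F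

theorem exists_evc (y : X → ℕ → ℕ) (n : ℕ) (s : ℕ → ℕ) (j : ℕ) (hj : j ≤ n) :
    ∃ c, (cmp c).1 = n ∧ (cmp c).2.2 = j ∧ ∀ F, evc y c F = ev y n s j F := by
  obtain ⟨c, h1, h2, h3⟩ := exists_ccode n s j hj
  refine ⟨c, h1, h2, fun F => ?_⟩
  ext ω
  unfold evc ev
  rw [h1, h2]
  simp only [Set.mem_ofPred_eq]
  refine and_congr (forall₂_congr fun k hk => ?_) Iff.rfl
  rw [h3 k hk]

/-- Side functions. -/
def Side (m : MeasurableSpace X) (b : X → ℕ → ℕ) (F : ℕ → X → ℕ → ℕ) : Prop :=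
  ∀ i, Measurable[m] (F i) ∧ ∀ ω k, F i ω k ≤ b ω k

/-- Points of the Cantor space. -/
def Zok (m : MeasurableSpace X) (z : X → ℕ → ℕ) : Prop :=
  Measurable[m] z ∧ ∀ ω k, z ω k ≤ 1

/-- One step of the iteration. -/
structure Step (N : Filter X) (m m' : MeasurableSpace X) (y b : X → ℕ → ℕ) : Prop where
  le : m ≤ m'
  ccc : CCC N m
  hy : Measurable[m'] y
  hb : Measurable[m] b
  dense : ∀ A, MeasurableSet[m'] A → (∃ᶠ ω in N, ω ∈ A) → ∃ C n s j F, MeasurableSet[m] C ∧
    (∃ᶠ ω in N, ω ∈ C) ∧ j ≤ n ∧ Side m b F ∧ ∀ᶠ ω in N, ω ∈ C → ω ∈ ev y n s j F → ω ∈ A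
  posi : ∀ C n s j F, MeasurableSet[m] C → (∃ᶠ ω in N, ω ∈ C) → j ≤ n → Side m b F →
    ∃ᶠ ω in N, ω ∈ C ∧ ω ∈ ev y n s j F

/-- The families of events to which the one step lemma applies. -/
structure UF (N : Filter X) (m m' : MeasurableSpace X) (U : ℕ → ℕ → (X → ℕ → ℕ) → Set X) :
    Prop where
  meas : ∀ k M z, Zok m z → MeasurableSet[m'] (U k M z)
  loc : ∀ k M z z' ω, (∀ u < M, z ω u = z' ω u) → ω ∈ U k M z → ω ∈ U k M z'
  mono : ∀ k M M' z, M ≤ M' → U k M z ⊆ U k M' z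
  tot : ∀ z, Zok m z → ∀ k, ∀ᶠ ω in N, ∃ M, ω ∈ U k M z

/-- Good conditions. -/
def GdC (N : Filter X) (m : MeasurableSpace X) (y b : X → ℕ → ℕ)
    (U : ℕ → ℕ → (X → ℕ → ℕ) → Set X) (C : Set X) (F : ℕ → X → ℕ → ℕ) (z : X → ℕ → ℕ)
    (c k M : ℕ) : Prop :=
  ∃ c' ≤ M, ∃ F', Side m b F' ∧
    ∀ᶠ ω in N, ω ∈ C → ω ∈ evc y c' F' → ω ∈ evc y c F ∧ ω ∈ U k M z

section

variable {N : Filter X} [CountableInterFilter N] {m m' : MeasurableSpace X} {y b : X → ℕ → ℕ}
  {U : ℕ → ℕ → (X → ℕ → ℕ) → Set X}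

theorem Step.posc (h : Step N m m' y b) {C : Set X} (hC : MeasurableSet[m] C)
    (hf : ∃ᶠ ω in N, ω ∈ C) (c : ℕ) {F : ℕ → X → ℕ → ℕ} (hF : Side m b F) :
    ∃ᶠ ω in N, ω ∈ C ∧ ω ∈ evc y c F := h.posi C _ _ _ F hC hf (cmp_le c) hF

theorem Step.meas_evc (h : Step N m m' y b) (c : ℕ) {F : ℕ → X → ℕ → ℕ} (hF : Side m b F) :
    MeasurableSet[m'] (evc y c F) :=
  ev_meas h.hy _ _ _ fun i => (hF i).1.mono h.le le_rfl

theorem GdC.mono {C C' : Set X} {F : ℕ → X → ℕ → ℕ} {z : X → ℕ → ℕ} {c k M M' : ℕ}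
    (hU : UF N m m' U) (h : GdC N m y b U C F z c k M) (hC : C' ⊆ C) (hM : M ≤ M') :
    GdC N m y b U C' F z c k M' := by
  obtain ⟨c', hc', F', hF', h1⟩ := h
  refine ⟨c', hc'.trans hM, F', hF', h1.mono fun ω hω hC' hev => ?_⟩
  obtain ⟨h2, h3⟩ := hω (hC hC') hev
  exact ⟨h2, hU.mono _ _ _ _ hM h3⟩

/-- `GdC` only depends on the values of the side functions on `C`. -/
theorem GdC.congr {C : Set X} {F F₁ : ℕ → X → ℕ → ℕ} {z z₁ : X → ℕ → ℕ} {c k M : ℕ}
    (hU : UF N m m' U) (h : GdC N m y b U C F z c k M)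
    (hF : ∀ ω ∈ C, (∀ i, F i ω = F₁ i ω) ∧ z ω = z₁ ω) :
    GdC N m y b U C F₁ z₁ c k M := by
  obtain ⟨c', hc', F', hF', h1⟩ := h
  refine ⟨c', hc', F', hF', h1.mono fun ω hω hC' hev => ?_⟩
  obtain ⟨h2, h3⟩ := hω hC' hev
  obtain ⟨h4, h5⟩ := hF ω hC'
  refine ⟨⟨h2.1, fun i hi l hl => ?_⟩, hU.loc _ _ _ _ _ (fun u _ => by rw [h5]) h3⟩
  rw [← h4 i]
  exact h2.2 i hi l hl

/-- Shrinking to a condition below. -/
theorem Step.below (h : Step N m m' y b) {A : Set X} (hA : MeasurableSet[m'] A)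
    (hf : ∃ᶠ ω in N, ω ∈ A) {C : Set X} (hC : MeasurableSet[m] C)
    (hAC : ∀ᶠ ω in N, ω ∈ A → ω ∈ C) :
    ∃ C' ⊆ C, MeasurableSet[m] C' ∧ (∃ᶠ ω in N, ω ∈ C') ∧ ∃ c F, Side m b F ∧
      ∀ᶠ ω in N, ω ∈ C' → ω ∈ evc y c F → ω ∈ A := by
  obtain ⟨C₁, n, s, j, F, h1, h2, h3, h4, h5⟩ := h.dense A hA hf
  obtain ⟨c, hc1, hc2, hc3⟩ := exists_evc y n s j h3
  refine ⟨C ∩ C₁, Set.inter_subset_left, hC.inter h1, ?_, c, F, h4, ?_⟩
  · have h6 := h.posi C₁ n s j F h1 h2 h3 h4
    refine (h6.and_eventually (h5.and hAC)).mono ?_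
    rintro ω ⟨⟨h7, h8⟩, h9, h10⟩
    exact ⟨h10 (h9 h7 h8), h7⟩
  · filter_upwards [h5] with ω hω h6 h7
    rw [hc3] at h7
    exact hω h6.2 h7

/-- Claim 1: good conditions are dense. -/
theorem gd_dense (h : Step N m m' y b) (hU : UF N m m' U) {F : ℕ → X → ℕ → ℕ}
    (hF : Side m b F) {z : X → ℕ → ℕ} (hz : Zok m z) (c k : ℕ) {C : Set X}
    (hC : MeasurableSet[m] C) (hf : ∃ᶠ ω in N, ω ∈ C) :
    ∃ C' ⊆ C, MeasurableSet[m] C' ∧ (∃ᶠ ω in N, ω ∈ C') ∧ ∃ M, GdC N m y b U C' F z c k M := by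
  have h1 := h.posc hC hf c hF
  have h2 : ∃ᶠ ω in N, ∃ M, (ω ∈ C ∧ ω ∈ evc y c F) ∧ ω ∈ U k M z :=
    (h1.and_eventually (hU.tot z hz k)).mono fun ω hω => by
      obtain ⟨h3, M, hM⟩ := hω
      exact ⟨M, h3, hM⟩
  obtain ⟨M, hM⟩ := freq_exists h2
  obtain ⟨C', hC', h4, h5, c', F', hF', h6⟩ := h.below (A := (C ∩ evc y c F) ∩ U k M z)
    (((h.le _ hC).inter (h.meas_evc c hF)).inter (hU.meas k M z hz)) hM hC
    (Eventually.of_forall fun ω hω => hω.1.1)
  refine ⟨C', hC', h4, h5, max M c', c', le_max_right _ _, F', hF', h6.mono fun ω hω h7 h8 => ?_⟩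
  obtain ⟨h9, h10⟩ := hω h7 h8
  exact ⟨h9.2, hU.mono _ _ _ _ (le_max_left _ _) h10⟩

/-! ### Positions -/

omit [CountableInterFilter N]

theorem pos_add_one (l : ℕ) : pos (l + 1) = pos l + (l + 1) := rfl

theorem pos_smono : StrictMono pos := strictMono_nat_of_lt_succ fun l => by rw [pos_add_one]; omega

theorem le_pos' (l : ℕ) : l ≤ pos l := pos_smono.id_le l

/-- The level of a position. -/
def lev (k : ℕ) : ℕ := Nat.findGreatest (fun l => pos l ≤ k) k

theorem lev_spec (k : ℕ) : pos (lev k) ≤ k ∧ k < pos (lev k + 1) := by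
  have h0 : pos 0 ≤ k := Nat.zero_le _
  have h1 : pos (lev k) ≤ k := Nat.findGreatest_spec (P := fun l => pos l ≤ k) (Nat.zero_le k) h0
  refine ⟨h1, ?_⟩
  by_contra hcon
  push Not at hcon
  have h2 : lev k + 1 ≤ k := (le_pos' _).trans hcon
  have h3 : lev k + 1 ≤ lev k := Nat.le_findGreatest (P := fun l => pos l ≤ k) h2 hcon
  omega

theorem lev_eq {k l : ℕ} (h1 : pos l ≤ k) (h2 : k < pos (l + 1)) : lev k = l := by
  obtain ⟨h3, h4⟩ := lev_spec k
  have h5 : l < lev k + 1 := pos_smono.lt_iff_lt.1 (h1.trans_lt h4)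
  have h6 : lev k < l + 1 := pos_smono.lt_iff_lt.1 (h3.trans_lt h2)
  omega

/-- The offset of a position in its block. -/
def off (k : ℕ) : ℕ := k - pos (lev k)

theorem off_eq {l i : ℕ} (hi : i ≤ l) : off (pos l + i) = i := by
  unfold off
  rw [lev_eq (l := l) (by omega) (by rw [pos_add_one]; omega)]
  omega

variable [CountableInterFilter N]

/-- Extending the stem. -/
theorem ev_ext {C : Set X} (hC : MeasurableSet[m] C) (hf : ∃ᶠ ω in N, ω ∈ C) {n n' j : ℕ}
    (s : ℕ → ℕ) (hj : j ≤ n) (hn : n ≤ n') {F : ℕ → X → ℕ → ℕ} (hF : Side m b F) :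
    ∃ (s' : ℕ → ℕ), ∃ C' ⊆ C, MeasurableSet[m] C' ∧ (∃ᶠ ω in N, ω ∈ C') ∧
      (∀ k < pos n, s' k = s k) ∧ ∀ ω ∈ C', ω ∈ ev y n' s' j F → ω ∈ ev y n s j F := by
  classical
  let Φ : X → List ℕ := fun ω => (List.range (pos n')).map (fun k => F (off k) ω k)
  have hΦ : ∀ a, MeasurableSet[m] {ω | Φ ω = a} := by
    intro a
    have h1 : {ω | Φ ω = a} = {ω | a.length = pos n' ∧ ∀ k, k < pos n' →
        F (off k) ω k = a.getD k 0} := by
      ext ω
      simp only [Φ, Set.mem_ofPred_eq]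
      constructor
      · rintro rfl
        refine ⟨by simp, fun k hk => ?_⟩
        simp [List.getD_eq_getElem?_getD, hk]
      · rintro ⟨h2, h3⟩
        refine List.ext_getElem (by simp [h2]) fun k hk hk' => ?_
        rw [List.length_map, List.length_range] at hk
        rw [List.getElem_map, List.getElem_range, h3 k hk, List.getD_eq_getElem _ _ hk']
    rw [h1]
    (repeat' first
        | with_reducible assumption
        | with_reducible exact ms_const _
        | with_reducible refine ms_and ?_ ?_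
        | with_reducible refine ms_or ?_ ?_
        | with_reducible refine ms_iff ?_ ?_
        | with_reducible refine ms_not ?_
        | with_reducible refine ms_le ?_ ?_
        | with_reducible refine ms_lt ?_ ?_
        | with_reducible refine ms_eq ?_ ?_
        | with_reducible refine ms_imp ?_ ?_
        | with_reducible refine ms_all fun _ => ?_
        | with_reducible refine ms_ex fun _ => ?_
        | with_reducible exact mf_const _
        | with_reducible apply mf_add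
        | with_reducible apply mf_sub
        | with_reducible apply mf_max
        | with_reducible apply mf_min
        | (with_reducible apply meas_coord; with_reducible assumption)
        | with_reducible (refine meas_coord_app ?_ ?_))
    exact (hF _).1
  obtain ⟨a, ha⟩ := freq_const Φ hf
  refine ⟨fun k => if k < pos n then s k else a.getD k 0, C ∩ {ω | Φ ω = a},
    Set.inter_subset_left, hC.inter (hΦ a), ha, fun k hk => by simp [hk], ?_⟩
  rintro ω ⟨hω, hωa⟩ ⟨h1, h2⟩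
  refine ⟨fun k hk => ?_, fun i hi l hl => ?_⟩
  · rw [h1 k (hk.trans_le (pos_smono.monotone hn))]
    exact if_pos hk
  · by_cases hl' : n' ≤ l
    · exact h2 i hi l hl'
    · push Not at hl'
      have h3 : pos l + i < pos n' := by
        have : pos (l + 1) ≤ pos n' := pos_smono.monotone hl'
        rw [pos_add_one] at this
        omega
      refine ⟨pos l + i, by omega, by rw [pos_add_one]; omega, ?_⟩
      have h4 : ¬ pos l + i < pos n := by
        have : pos n ≤ pos l := pos_smono.monotone hl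
        omega
      rw [h1 _ h3]
      dsimp only
      rw [if_neg h4]
      have h5 : Φ ω = a := hωa
      rw [← h5]
      simp only [Φ]
      rw [List.getD_eq_getElem _ _ (by simpa using h3), List.getElem_map, List.getElem_range,
        off_eq (by omega)]

theorem Side.zero : Side m b (fun _ _ _ => 0) := fun _ => ⟨measurable_const, fun _ _ => Nat.zero_le _⟩

theorem Zok.zero : Zok m (fun _ _ => 0) := ⟨measurable_const, fun _ _ => Nat.zero_le _⟩

/-- Claim 2: a uniform bound. -/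
theorem gd_unif (h : Step N m m' y b) (hU : UF N m m' U) (c k : ℕ) :
    ∃ Mf : X → ℕ, Measurable[m] Mf ∧ ∀ F z, Side m b F → Zok m z → ∀ (M : ℕ) (C : Set X),
      MeasurableSet[m] C → (∃ᶠ ω in N, ω ∈ C) → (∀ ω ∈ C, Mf ω ≤ M) →
        ∃ C' ⊆ C, MeasurableSet[m] C' ∧ (∃ᶠ ω in N, ω ∈ C') ∧ GdC N m y b U C' F z c k M := by
  classical
  let 𝒮 : ℕ → Set (Set X) := fun M => {C | MeasurableSet[m] C ∧ ∃ F z, Side m b F ∧ Zok m z ∧
    ∀ C' ⊆ C, MeasurableSet[m] C' → (∃ᶠ ω in N, ω ∈ C') → ¬ GdC N m y b U C' F z c k M}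
  have h𝒮 : ∀ M, ∃ T : ℕ → Set X, (∀ i, T i ∈ 𝒮 M) ∧ ∀ A ∈ 𝒮 M, ∀ᶠ ω in N, ω ∈ A → ∃ i, ω ∈ T i :=
    fun M => exhaust h.ccc (𝒮 M) ⟨∅, @MeasurableSet.empty _ m, _, _, Side.zero, Zok.zero,
      fun C' hC' _ hf => by
        obtain ⟨ω, hω⟩ := hf.exists
        exact (hC' hω).elim⟩ fun A hA => hA.1
  choose T hT hT' using h𝒮
  have hTm : ∀ M i, MeasurableSet[m] (T M i) := fun M i => (hT M i).1
  choose F₀ z₀ hF₀ hz₀ hbad using fun M i => (hT M i).2
  let FF : ℕ → ℕ → X → ℕ → ℕ := fun M j ω => F₀ M (lst (T M) ω) j ω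
  let ZZ : ℕ → X → ℕ → ℕ := fun M ω => z₀ M (lst (T M) ω) ω
  have hFF : ∀ M, Side m b (FF M) := fun M j =>
    ⟨meas_app (F := fun i ω => F₀ M i j ω) (meas_lst (hTm M)) fun i => (hF₀ M i j).1,
      fun ω k => (hF₀ M _ j).2 ω k⟩
  have hZZ : ∀ M, Zok m (ZZ M) := fun M =>
    ⟨meas_app (F := fun i ω => z₀ M i ω) (meas_lst (hTm M)) fun i => (hz₀ M i).1,
      fun ω k => (hz₀ M _).2 ω k⟩
  let TT : ℕ → Set X := fun M => ⋃ i, T M i
  have hTT : ∀ M, MeasurableSet[m] (TT M) := fun M => MeasurableSet.iUnion (hTm M)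
  -- (a)
  have ha : ∀ M C', C' ⊆ TT M → MeasurableSet[m] C' → (∃ᶠ ω in N, ω ∈ C') →
      ¬ GdC N m y b U C' (FF M) (ZZ M) c k M := by
    intro M C' hC' hm hf hg
    obtain ⟨i, hi⟩ := freq_const (lst (T M)) hf
    have h1 : MeasurableSet[m] (C' ∩ {ω | lst (T M) ω = i}) :=
      hm.inter (meas_lst (hTm M) (measurableSet_singleton i))
    refine hbad M i _ ?_ h1 hi ((hg.mono hU Set.inter_subset_left le_rfl).congr hU ?_)
    · rintro ω ⟨h2, h3⟩
      have h3 : lst (T M) ω = i := h3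
      rw [← h3]
      exact lst_mem (Set.mem_iUnion.1 (hC' h2))
    · rintro ω ⟨h2, h3⟩
      have h3 : lst (T M) ω = i := h3
      simp only [FF, ZZ]
      rw [h3]
      exact ⟨fun _ => rfl, rfl⟩
  -- (b)
  have hb' : ∀ M C, MeasurableSet[m] C → (∃ᶠ ω in N, ω ∈ C) → (∀ ω ∈ C, ω ∉ TT M) →
      ∀ F z, Side m b F → Zok m z →
        ∃ C' ⊆ C, MeasurableSet[m] C' ∧ (∃ᶠ ω in N, ω ∈ C') ∧ GdC N m y b U C' F z c k M := by
    intro M C hC hf hdis F z hF hz
    by_contra hcon
    push Not at hcon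
    have h1 := hT' M C ⟨hC, F, z, hF, hz, hcon⟩
    obtain ⟨ω, h2, h3⟩ := (hf.and_eventually h1).exists
    exact hdis ω h2 (Set.mem_iUnion.2 (h3 h2))
  -- (c)
  have hc : ∀ᶠ ω in N, ∃ M, ω ∉ TT M := by
    by_contra hcon
    have h0 : ∃ᶠ ω in N, ω ∈ ⋂ M, TT M := by
      refine (not_eventually.1 hcon).mono fun ω hω => ?_
      push Not at hω
      exact Set.mem_iInter.2 hω
    -- the cluster point
    let Φ : ℕ → X → ℕ → ℕ := fun M ω q =>
      if q.unpair.1 = 0 then ZZ M ω q.unpair.2 else FF M (q.unpair.1 - 1) ω q.unpair.2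
    have hΦ : ∀ M, Measurable[m] (Φ M) := by
      intro M
      refine mf_pi fun q => ?_
      by_cases hq : q.unpair.1 = 0
      · simp only [Φ, hq, if_true]
        exact meas_coord (hZZ M).1 _
      · simp only [Φ, hq, if_false]
        exact meas_coord (hFF M _).1 _
    let B : X → ℕ → ℕ := fun ω q => if q.unpair.1 = 0 then 1 else b ω q.unpair.2
    have hΦB : ∀ M ω q, Φ M ω q ≤ B ω q := by
      intro M ω q
      by_cases hq : q.unpair.1 = 0
      · simp only [Φ, B, hq, if_true]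
        exact (hZZ M).2 _ _
      · simp only [Φ, B, hq, if_false]
        exact (hFF M _).2 _ _
    obtain ⟨G, hG1, hG2, hG3⟩ := exists_cluster Φ hΦ B hΦB
    let z : X → ℕ → ℕ := fun ω k => G ω (Nat.pair 0 k)
    let F : ℕ → X → ℕ → ℕ := fun j ω k => G ω (Nat.pair (j + 1) k)
    have hz : Zok m z := by
      refine ⟨mf_pi fun k => meas_coord hG1 _, fun ω k => ?_⟩
      have := hG2 ω (Nat.pair 0 k)
      simpa [B, z] using this
    have hF : Side m b F := by
      intro j
      refine ⟨mf_pi fun k => meas_coord hG1 _, fun ω k => ?_⟩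
      have := hG2 ω (Nat.pair (j + 1) k)
      simpa [B, F] using this
    have hagree : ∀ ω L, ∃ᶠ M in atTop, ∀ k < L, ZZ M ω k = z ω k ∧ ∀ j < L, FF M j ω k = F j ω k := by
      intro ω L
      refine (hG3 ω ((L + 1 + 1) ^ 2)).mono fun M hM k hk => ⟨?_, fun j hj => ?_⟩
      · have h1 := hM (Nat.pair 0 k) (lt_of_lt_of_le (Nat.pair_lt_max_add_one_sq 0 k) (by
          apply Nat.pow_le_pow_left
          have : max 0 k = k := by simp
          omega))
        simpa [Φ, z] using h1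
      · have h1 := hM (Nat.pair (j + 1) k) (lt_of_lt_of_le (Nat.pair_lt_max_add_one_sq (j + 1) k) (by
          apply Nat.pow_le_pow_left
          have : max (j + 1) k ≤ L + 1 := by
            apply max_le <;> omega
          omega))
        simpa [Φ, F] using h1
    obtain ⟨C, hC, hCm, hCf, M, c', hc', F', hF', hgd⟩ :=
      gd_dense h hU hF hz c k (MeasurableSet.iInter hTT) h0
    -- extend the stem
    obtain ⟨s'', C₁, hC₁, hC₁m, hC₁f, -, hs''⟩ := ev_ext (b := b) (y := y) hCm hCf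
      (n' := (cmp c').1 + (cmp c').2.2 + (cmp c).2.2) (cmp c').2.1 (cmp_le c') (by omega) hF'
    set n'' := (cmp c').1 + (cmp c').2.2 + (cmp c).2.2 with hn''
    obtain ⟨c'', hc1, hc2, hc3⟩ := exists_evc y n'' s'' ((cmp c').2.2 + (cmp c).2.2) (by omega)
    let L : ℕ := max (pos n'') M + (cmp c).2.2 + 1
    have h1 : ∃ᶠ ω in N, ∃ M', ω ∈ C₁ ∧ max M c'' ≤ M' ∧
        ∀ k < L, ZZ M' ω k = z ω k ∧ ∀ j < L, FF M' j ω k = F j ω k := by
      refine hC₁f.mono fun ω hω => ?_
      obtain ⟨M', h2, h3⟩ := (frequently_atTop.1 (hagree ω L)) (max M c'')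
      exact ⟨M', hω, h2, h3⟩
    obtain ⟨M', hM'⟩ := freq_exists h1
    let C₂ : Set X := C₁ ∩ {ω | max M c'' ≤ M' ∧
      ∀ k < L, ZZ M' ω k = z ω k ∧ ∀ j < L, FF M' j ω k = F j ω k}
    have hC₂m : MeasurableSet[m] C₂ := by
      refine hC₁m.inter ?_
      have hz1 := hz.1
      have hz2 := (hZZ M').1
      (repeat' first
          | with_reducible assumption
          | with_reducible exact ms_const _
          | with_reducible refine ms_and ?_ ?_
          | with_reducible refine ms_or ?_ ?_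
          | with_reducible refine ms_iff ?_ ?_
          | with_reducible refine ms_not ?_
          | with_reducible refine ms_le ?_ ?_
          | with_reducible refine ms_lt ?_ ?_
          | with_reducible refine ms_eq ?_ ?_
          | with_reducible refine ms_imp ?_ ?_
          | with_reducible refine ms_all fun _ => ?_
          | with_reducible refine ms_ex fun _ => ?_
          | with_reducible exact mf_const _
          | with_reducible apply mf_add
          | with_reducible apply mf_sub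
          | with_reducible apply mf_max
          | with_reducible apply mf_min
          | (with_reducible apply meas_coord; with_reducible assumption)
          | with_reducible (refine meas_coord_app ?_ ?_))
      · exact (hFF M' _).1
      · exact (hF _).1
    have hMc : max M c'' ≤ M' := by
      obtain ⟨ω, hω⟩ := hM'.exists
      exact hω.2.1
    refine ha M' C₂ ?_ hC₂m hM' ⟨c'', (le_max_right _ _).trans hMc,
      fun i => if i < (cmp c').2.2 then F' i else FF M' (i - (cmp c').2.2), ?_, ?_⟩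
    · rintro ω ⟨hω, -⟩
      exact Set.mem_iInter.1 (hC (hC₁ hω)) M'
    · intro i
      by_cases hi : i < (cmp c').2.2
      · simp only [hi, if_true]; exact hF' i
      · simp only [hi, if_false]; exact hFF M' _
    · filter_upwards [hgd] with ω hgd hω hev
      obtain ⟨hω1, -, hω2⟩ := hω
      rw [hc3] at hev
      have h2 : ω ∈ ev y n'' s'' (cmp c').2.2 F' := by
        refine ⟨hev.1, fun i hi l hl => ?_⟩
        have := hev.2 i (by omega) l hl
        simpa only [hi, if_true] using this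
      obtain ⟨h3, h4⟩ := hgd (hC₁ hω1) (hs'' ω hω1 h2)
      refine ⟨⟨h3.1, fun i hi l hl => ?_⟩, ?_⟩
      · by_cases hl' : n'' ≤ l
        · have := hev.2 (i + (cmp c').2.2) (by omega) l hl'
          have e1 : ¬ i + (cmp c').2.2 < (cmp c').2.2 := by omega
          have e2 : i + (cmp c').2.2 - (cmp c').2.2 = i := by omega
          simpa only [e1, if_false, e2] using this
        · push Not at hl'
          obtain ⟨k', h5, h6, h7⟩ := h3.2 i hi l hl
          refine ⟨k', h5, h6, ?_⟩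
          have h8 : pos (l + 1) ≤ pos n'' := pos_smono.monotone hl'
          have h9 : k' < L := by
            have : pos n'' ≤ max (pos n'') M := le_max_left _ _
            omega
          rw [h7, (hω2 k' h9).2 i (by omega)]
      · refine hU.mono _ _ _ _ ((le_max_left _ _).trans hMc) (hU.loc _ _ z _ ω ?_ h4)
        intro u hu
        have h9 : u < L := by
          have : M ≤ max (pos n'') M := le_max_right _ _
          omega
        exact (hω2 u h9).1.symm
  -- conclusion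
  refine ⟨lst fun M => (TT M)ᶜ, meas_lst fun M => (hTT M).compl, ?_⟩
  intro F z hF hz M C hC hf hM
  have h1 : ∃ᶠ ω in N, ω ∈ C ∧ ω ∉ TT (lst (fun M => (TT M)ᶜ) ω) :=
    (hf.and_eventually hc).mono fun ω hω => ⟨hω.1, lst_mem (T := fun M => (TT M)ᶜ) hω.2⟩
  obtain ⟨M', hM'⟩ := freq_const (lst fun M => (TT M)ᶜ) h1
  let C₃ : Set X := C ∩ (TT M')ᶜ ∩ {ω | lst (fun M => (TT M)ᶜ) ω = M'}
  have hC₃f : ∃ᶠ ω in N, ω ∈ C₃ := hM'.mono fun ω hω => ⟨⟨hω.1.1, by rw [← hω.2]; exact hω.1.2⟩, hω.2⟩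
  have hC₃m : MeasurableSet[m] C₃ := (hC.inter (hTT M').compl).inter
    (meas_lst (fun M => (hTT M).compl) (measurableSet_singleton M'))
  obtain ⟨C', hC', hm', hf', hg'⟩ := hb' M' C₃ hC₃m hC₃f (fun ω hω => hω.1.2) F z hF hz
  have hle : M' ≤ M := by
    obtain ⟨ω, hω⟩ := hC₃f.exists
    have h2 := hM ω hω.1.1
    have h3 : lst (fun M => (TT M)ᶜ) ω = M' := hω.2
    omega
  exact ⟨C', fun ω hω => (hC' hω).1.1, hm', hf', hg'.mono hU subset_rfl hle⟩

/-- The one step lemma. -/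
theorem one_step (h : Step N m m' y b) (hU : UF N m m' U) :
    ∃ f : X → ℕ → ℕ, Measurable[m] f ∧ (∀ ω, StrictMono (f ω)) ∧
      ∀ z lo hi : X → ℕ → ℕ, Zok m z → Measurable[m] lo → Measurable[m] hi →
        (∀ ω n, n ≤ lo ω n) →
          ∀ᶠ ω in N, ∃ n, Good (f ω) (fun u v => ω ∈ U u v z) (lo ω n) (hi ω n) := by
  classical
  choose Mf hMf hMf' using fun c k => gd_unif h hU c k
  let f : X → ℕ → ℕ := fun ω i =>
    Nat.rec 0 (fun _ u => u + 1 + ∑ c ∈ Finset.range (u + 1), Mf c u ω) i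
  have hf0 : ∀ ω, f ω 0 = 0 := fun _ => rfl
  have hfs : ∀ ω i, f ω (i + 1) = f ω i + 1 + ∑ c ∈ Finset.range (f ω i + 1), Mf c (f ω i) ω :=
    fun _ _ => rfl
  have hfm : Measurable[m] f := by
    refine mf_rec (mf_const 0) fun i hi => ?_
    exact meas_app (F := fun u ω => u + 1 + ∑ c ∈ Finset.range (u + 1), Mf c u ω) hi fun u =>
      mf_add (mf_const _) (mf_sum (fun c => hMf c u) (mf_const _))
  have hmono : ∀ ω, StrictMono (f ω) := fun ω => strictMono_nat_of_lt_succ fun i => by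
    rw [hfs]; omega
  have hMle : ∀ ω i c, c ≤ f ω i → Mf c (f ω i) ω ≤ f ω (i + 1) := by
    intro ω i c hc
    rw [hfs]
    have := Finset.single_le_sum (s := Finset.range (f ω i + 1)) (f := fun c => Mf c (f ω i) ω)
      (fun _ _ => Nat.zero_le _) (Finset.mem_range.2 (Nat.lt_succ_of_le hc))
    omega
  clear_value f
  refine ⟨f, hfm, hmono, fun z lo hi hz hlo hhi hn => ?_⟩
  by_contra hcon
  rw [not_eventually] at hcon
  have hUm : ∀ i, MeasurableSet[m'] {ω | ω ∈ U (f ω i) (f ω (i + 1)) z} := by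
    intro i
    have e1 : Measurable[m'] (fun ω => f ω i) := (meas_coord hfm i).mono h.le le_rfl
    have e2 : Measurable[m'] (fun ω => f ω (i + 1)) := (meas_coord hfm (i + 1)).mono h.le le_rfl
    refine meas_pred (g := fun ω => f ω i) (P := fun u ω => ω ∈ U u (f ω (i + 1)) z) e1 fun u => ?_
    exact meas_pred (g := fun ω => f ω (i + 1)) (P := fun v ω => ω ∈ U u v z) e2
      fun v => hU.meas u v z hz
  have hfm' : Measurable[m'] f := hfm.mono h.le le_rfl
  have hlo' : Measurable[m'] lo := hlo.mono h.le le_rfl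
  have hhi' : Measurable[m'] hi := hhi.mono h.le le_rfl
  have hA : MeasurableSet[m'] {ω | ¬ ∃ n, Good (f ω) (fun u v => ω ∈ U u v z) (lo ω n) (hi ω n)} := by
    simp only [Good]
    (repeat' first
        | with_reducible assumption
        | with_reducible exact ms_const _
        | with_reducible refine ms_and ?_ ?_
        | with_reducible refine ms_or ?_ ?_
        | with_reducible refine ms_iff ?_ ?_
        | with_reducible refine ms_not ?_
        | with_reducible refine ms_le ?_ ?_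
        | with_reducible refine ms_lt ?_ ?_
        | with_reducible refine ms_eq ?_ ?_
        | with_reducible refine ms_imp ?_ ?_
        | with_reducible refine ms_all fun _ => ?_
        | with_reducible refine ms_ex fun _ => ?_
        | with_reducible exact mf_const _
        | with_reducible apply mf_add
        | with_reducible apply mf_sub
        | with_reducible apply mf_max
        | with_reducible apply mf_min
        | (with_reducible apply meas_coord; with_reducible assumption)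
        | with_reducible (refine meas_coord_app ?_ ?_))
    exact hUm _
  obtain ⟨C, -, hCm, hCf, c, F, hF, hCA⟩ := h.below hA hcon (C := Set.univ) (@MeasurableSet.univ _ m)
    (Eventually.of_forall fun _ _ => trivial)
  -- decide the interval
  obtain ⟨a, ha⟩ := freq_const (fun ω => lo ω c) hCf
  obtain ⟨e, he⟩ := freq_const (fun ω => hi ω c) ha
  let C₁ : Set X := C ∩ {ω | lo ω c = a} ∩ {ω | hi ω c = e}
  have hC₁m : MeasurableSet[m] C₁ :=
    (hCm.inter (ms_eq (meas_coord hlo c) (mf_const a))).inter (ms_eq (meas_coord hhi c) (mf_const e))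
  have hC₁f : ∃ᶠ ω in N, ω ∈ C₁ := he
  have hca : c ≤ a := by
    obtain ⟨ω, hω⟩ := hC₁f.exists
    have h1 : lo ω c = a := hω.1.2
    rw [← h1]; exact hn ω c
  have key : ∀ i, ∃ C' ⊆ C₁, MeasurableSet[m] C' ∧ (∃ᶠ ω in N, ω ∈ C') ∧ ∃ v c' F', Side m b F' ∧
      (∀ ω ∈ C', f ω i = v) ∧ c' ≤ max a v ∧ ∀ᶠ ω in N, ω ∈ C' → ω ∈ evc y c' F' →
        ω ∈ evc y c F ∧ ∀ i' < i, a ≤ f ω i' → ω ∈ U (f ω i') (f ω (i' + 1)) z := by
    intro i
    induction i with
    | zero =>
      refine ⟨C₁, subset_rfl, hC₁m, hC₁f, 0, c, F, hF, fun ω _ => hf0 ω, hca.trans (le_max_left _ _),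
        Eventually.of_forall fun ω _ hω => ⟨hω, fun i' hi' => by omega⟩⟩
    | succ i ih =>
      obtain ⟨C', hC', hm, hf, v, c', F', hF', hv, hcv, hev⟩ := ih
      obtain ⟨v', hv'⟩ := freq_const (fun ω => f ω (i + 1)) hf
      let C'' : Set X := C' ∩ {ω | f ω (i + 1) = v'}
      have hm'' : MeasurableSet[m] C'' := hm.inter (ms_eq (meas_coord hfm (i + 1)) (mf_const v'))
      have hf'' : ∃ᶠ ω in N, ω ∈ C'' := hv'
      by_cases hav : a ≤ v
      · have hc'v : c' ≤ v := by rwa [max_eq_right hav] at hcv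
        obtain ⟨C₃, hC₃, hm₃, hf₃, c'', hc'', F'', hF'', hg⟩ := hMf' c' v F' z hF' hz v' C'' hm'' hf''
          (fun ω hω => by
            have h1 : f ω (i + 1) = v' := hω.2
            have h2 := hv ω hω.1
            rw [← h1, ← h2]
            exact hMle ω i c' (by rw [h2]; exact hc'v))
        refine ⟨C₃, fun ω hω => hC' (hC₃ hω).1, hm₃, hf₃, v', c'', F'', hF'',
          fun ω hω => (hC₃ hω).2, hc''.trans (le_max_right _ _), ?_⟩
        filter_upwards [hg, hev] with ω h1 h2 h3 h4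
        obtain ⟨h5, h6⟩ := h1 h3 h4
        obtain ⟨h7, h8⟩ := h2 (hC₃ h3).1 h5
        refine ⟨h7, fun i' hi' hai => ?_⟩
        rcases Nat.lt_succ_iff_lt_or_eq.1 hi' with hi' | rfl
        · exact h8 i' hi' hai
        · have e1 := hv ω (hC₃ h3).1
          have e2 : f ω (i' + 1) = v' := (hC₃ h3).2
          rw [e1, e2]
          exact h6
      · push Not at hav
        refine ⟨C'', fun ω hω => hC' hω.1, hm'', hf'', v', c', F', hF', fun ω hω => hω.2, ?_, ?_⟩
        · rw [max_eq_left hav.le] at hcv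
          exact hcv.trans (le_max_left _ _)
        · filter_upwards [hev] with ω h2 h3 h4
          obtain ⟨h7, h8⟩ := h2 h3.1 h4
          refine ⟨h7, fun i' hi' hai => ?_⟩
          rcases Nat.lt_succ_iff_lt_or_eq.1 hi' with hi' | rfl
          · exact h8 i' hi' hai
          · rw [hv ω h3.1] at hai
            omega
  obtain ⟨C', hC', hm, hf, v, c', F', hF', hv, hcv, hev⟩ := key (e + 1)
  have h1 := h.posc hm hf c' hF'
  obtain ⟨ω, ⟨h2, h3⟩, h4, h5⟩ := (h1.and_eventually (hev.and hCA)).exists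
  obtain ⟨h6, h7⟩ := h4 h2 h3
  obtain ⟨⟨h8, h9⟩, h10⟩ := hC' h2
  have h9 : lo ω c = a := h9
  have h10 : hi ω c = e := h10
  refine h5 h8 h6 ⟨c, fun i hi1 hi2 => ?_⟩
  rw [h9] at hi1
  rw [h10] at hi2
  exact h7 i (by have := (hmono ω).id_le (i + 1); simp only [id] at this; omega) hi1

end

end Pool.Agent.MP9096b7
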