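import Pool.Agent.MP_9096b7_lc.A2

/-! The two preservation properties; composition. -/

set_option autoImplicit false
set_option linter.unusedVariables false
set_option linter.unusedSectionVars false

namespace Pool.Agent.MP9096b7

open Filter MeasureTheory

variable {X : Type}

/-- `Q` is monotone in the interval. -/
def IMono (Q : ℕ → ℕ → Prop) : Prop := ∀ u v u' v', u' ≤ u → v ≤ v' → Q u v → Q u' v'

/-- The function `f` handles the requirement `Q` on the event `A`. -/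
def Cap (N : Filter X) (m : MeasurableSpace X) (A : Set X)
    (Q : (X → ℕ → ℕ) → X → ℕ → ℕ → Prop) (f : X → ℕ → ℕ) : Prop :=
  ∀ z lo hi : X → ℕ → ℕ, Zok m z → Measurable[m] lo → Measurable[m] hi → (∀ ω n, n ≤ lo ω n) →
    ∀ᶠ ω in N, ω ∈ A → ∃ n, Good (f ω) (Q z ω) (lo ω n) (hi ω n)

/-- The requirement of being dominated. -/
def QD (h : X → ℕ → ℕ) : (X → ℕ → ℕ) → X → ℕ → ℕ → Prop := fun _ ω u v => h ω u ≤ v

/-- The requirement of being different from all the functions in the Cantor space. -/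
def QS (x : X → ℕ → ℕ) (zs : ℕ → X → ℕ → ℕ) : (X → ℕ → ℕ) → X → ℕ → ℕ → Prop :=
  fun z ω u v => (∃ i, x ω = zs i ω) ∨ ∃ t, u ≤ t ∧ t < v ∧ x ω t ≠ z ω t

theorem IMono.qs (x : X → ℕ → ℕ) (zs : ℕ → X → ℕ → ℕ) (z : X → ℕ → ℕ) (ω : X) :
    IMono (QS x zs z ω) := by
  rintro u v u' v' hu hv (h | ⟨t, h1, h2, h3⟩)
  · exact Or.inl h
  · exact Or.inr ⟨t, hu.trans h1, h2.trans_le hv, h3⟩

theorem IMono.qd {h : X → ℕ → ℕ} (z : X → ℕ → ℕ) (ω : X) (hh : Monotone (h ω)) :
    IMono (QD h z ω) := fun u v u' v' hu hv h1 => ((hh hu).trans h1).trans hv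

/-- No dominating functions. -/
def Dp (N : Filter X) (m₁ m₂ : MeasurableSpace X) : Prop :=
  ∀ h : X → ℕ → ℕ, Measurable[m₂] h → (∀ ω, Monotone (h ω)) →
    ∃ f : X → ℕ → ℕ, Measurable[m₁] f ∧ (∀ ω, StrictMono (f ω)) ∧
      Cap N m₁ Set.univ (QD h) f

/-- New reals are not captured. -/
def Sp (N : Filter X) (m₁ m₂ : MeasurableSpace X) : Prop :=
  ∀ x : X → ℕ → ℕ, Zok m₂ x →
    ∃ (zs : ℕ → X → ℕ → ℕ) (f : X → ℕ → ℕ), (∀ i, Zok m₁ (zs i)) ∧ Measurable[m₁] f ∧
      (∀ ω, StrictMono (f ω)) ∧ Cap N m₁ Set.univ (QS x zs) f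

section

variable {N : Filter X} [CountableInterFilter N] {m m₁ m₂ m₃ : MeasurableSpace X}

theorem exists_coarse (f : ℕ → X → ℕ → ℕ) (hf : ∀ i, Measurable[m] (f i))
    (hmono : ∀ i ω, StrictMono (f i ω)) :
    ∃ g : X → ℕ → ℕ, Measurable[m] g ∧ (∀ ω, StrictMono (g ω)) ∧
      ∀ i ω Q a c, IMono Q → g ω i ≤ a → Good (f i ω) Q a c → Good (g ω) Q a c := by
  let g : X → ℕ → ℕ := fun ω k =>
    Nat.rec 0 (fun k u => u + 1 + ∑ i ∈ Finset.range (k + 1), f i ω (u + 1)) k
  have hgs : ∀ ω k, g ω (k + 1) =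
      g ω k + 1 + ∑ i ∈ Finset.range (k + 1), f i ω (g ω k + 1) := fun _ _ => rfl
  have hgm : Measurable[m] g := by
    refine mf_rec (mf_const 0) fun k hk => ?_
    exact meas_app (F := fun u ω => u + 1 + ∑ i ∈ Finset.range (k + 1), f i ω (u + 1)) hk fun u =>
      mf_add (mf_const _) (mf_sum (fun i => meas_coord (hf i) _) (mf_const _))
  have hmg : ∀ ω, StrictMono (g ω) := fun ω => strictMono_nat_of_lt_succ fun i => by
    rw [hgs]; omega
  refine ⟨g, hgm, hmg, fun i ω Q a c hQ ha hG k hk1 hk2 => ?_⟩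
  have hik : i ≤ k := (hmg ω).le_iff_le.1 (ha.trans hk1)
  have h1 : f i ω (g ω k + 1) ≤ g ω (k + 1) := by
    rw [hgs]
    have := Finset.single_le_sum (s := Finset.range (k + 1)) (f := fun i => f i ω (g ω k + 1))
      (fun _ _ => Nat.zero_le _) (Finset.mem_range.2 (Nat.lt_succ_of_le hik))
    omega
  have h2 : g ω k ≤ f i ω (g ω k) := (hmono i ω).id_le _
  exact hQ _ _ _ _ h2 h1 (hG (g ω k) (hk1.trans h2) (h1.trans hk2))

theorem Cap.mono {A A' : Set X} {Q Q' : (X → ℕ → ℕ) → X → ℕ → ℕ → Prop} {f : X → ℕ → ℕ}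
    (h : Cap N m A Q f)
    (hA : ∀ z, Zok m z → ∀ᶠ ω in N, ω ∈ A' → ω ∈ A ∧ ∀ u v, Q z ω u v → Q' z ω u v) :
    Cap N m A' Q' f := by
  intro z lo hi hz hlo hhi hn
  filter_upwards [h z lo hi hz hlo hhi hn, hA z hz] with ω h1 h2 h3
  obtain ⟨h4, h5⟩ := h2 h3
  obtain ⟨n, hn⟩ := h1 h4
  exact ⟨n, fun i hi1 hi2 => h5 _ _ (hn i hi1 hi2)⟩

/-- Passing to a coarser function, with a bound on the index. -/
theorem Cap.coarse {A : Set X} {Q : (X → ℕ → ℕ) → X → ℕ → ℕ → Prop} {f g : X → ℕ → ℕ}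
    (h : Cap N m A Q f) (hQ : ∀ z ω, ω ∈ A → IMono (Q z ω)) (hg : Measurable[m] g) {i : ℕ}
    (hfg : ∀ ω Q a c, IMono Q → g ω i ≤ a → Good (f ω) Q a c → Good (g ω) Q a c) :
    Cap N m A Q g := by
  intro z lo hi hz hlo hhi hn
  have e1 : Measurable[m] fun ω (n : ℕ) => lo ω (n + g ω i) :=
    mf_pi fun n => meas_coord_app hlo (mf_add (mf_const _) (meas_coord hg i))
  have e2 : Measurable[m] fun ω (n : ℕ) => hi ω (n + g ω i) :=
    mf_pi fun n => meas_coord_app hhi (mf_add (mf_const _) (meas_coord hg i))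
  filter_upwards [h z _ _ hz e1 e2 (fun ω n => by
    have := hn ω (n + g ω i)
    omega)] with ω h1 h2
  obtain ⟨n, h3⟩ := h1 h2
  refine ⟨n + g ω i, hfg ω _ _ _ (hQ z ω h2) ?_ h3⟩
  have := hn ω (n + g ω i)
  omega

/-- Good intervals with arbitrarily large index. -/
theorem Cap.large {A : Set X} {Q : (X → ℕ → ℕ) → X → ℕ → ℕ → Prop} {f : X → ℕ → ℕ}
    (h : Cap N m A Q f) {z lo hi : X → ℕ → ℕ} (hz : Zok m z) (hlo : Measurable[m] lo)
    (hhi : Measurable[m] hi) (hn : ∀ ω n, n ≤ lo ω n) :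
    ∀ᶠ ω in N, ω ∈ A → ∀ L, ∃ n, L ≤ n ∧ Good (f ω) (Q z ω) (lo ω n) (hi ω n) := by
  have h1 : ∀ L : ℕ, ∀ᶠ ω in N, ω ∈ A → ∃ n, L ≤ n ∧ Good (f ω) (Q z ω) (lo ω n) (hi ω n) := by
    intro L
    have e1 : Measurable[m] fun ω (n : ℕ) => lo ω (n + L) := mf_pi fun n => meas_coord hlo _
    have e2 : Measurable[m] fun ω (n : ℕ) => hi ω (n + L) := mf_pi fun n => meas_coord hhi _
    filter_upwards [h z _ _ hz e1 e2 (fun ω n => (Nat.le_add_right n L).trans (hn _ _))]
      with ω h1 h2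
    obtain ⟨n, h3⟩ := h1 h2
    exact ⟨n + L, by omega, h3⟩
  filter_upwards [eventually_countable_forall.2 h1] with ω h2 h3 L
  exact h2 L h3

theorem ms_mem {A : Set X} (hA : MeasurableSet[m] A) : MeasurableSet[m] {ω | ω ∈ A} := hA

theorem ms_feq {x z : X → ℕ → ℕ} (hx : Measurable[m] x) (hz : Measurable[m] z) :
    MeasurableSet[m] {ω | x ω = z ω} := by
  have : {ω | x ω = z ω} = {ω | ∀ k, x ω k = z ω k} := by
    ext ω
    exact funext_iff
  rw [this]
  (repeat' first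
      | with_reducible assumption
      | with_reducible exact ms_const _
      | with_reducible refine ms_and ?_ ?_
      | with_reducible refine ms_or ?_ ?_
      | with_reducible refine ms_iff ?_ ?_
      | with_reducible refine ms_not ?_
      | with_reducible refine ms_le ?_ ?_
      | with_reducible refine ms_lt ?_ ?_
      | with_reducible refine ms_eq ?_ ?_
      | with_reducible refine ms_imp ?_ ?_
      | with_reducible refine ms_all fun _ => ?_
      | with_reducible refine ms_ex fun _ => ?_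
      | with_reducible exact mf_const _
      | with_reducible apply mf_add
      | with_reducible apply mf_sub
      | with_reducible apply mf_max
      | with_reducible apply mf_min
      | (with_reducible apply meas_coord; with_reducible assumption)
      | with_reducible (refine meas_coord_app ?_ ?_))

/-- Composition. -/
theorem Cap.comp (h12 : m₁ ≤ m₂) {A : Set X} {Q : (X → ℕ → ℕ) → X → ℕ → ℕ → Prop}
    (hQ : ∀ z ω, IMono (Q z ω)) {f₁ : X → ℕ → ℕ} (hf₁ : Measurable[m₂] f₁)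
    (hm₁ : ∀ ω, StrictMono (f₁ ω)) (hcap : Cap N m₂ A Q f₁) (hD : Dp N m₁ m₂) :
    ∃ f : X → ℕ → ℕ, Measurable[m₁] f ∧ (∀ ω, StrictMono (f ω)) ∧ Cap N m₁ A Q f := by
  obtain ⟨f, hf, hm, hc⟩ := hD (fun ω k => f₁ ω (k + 1)) (mf_pi fun k => meas_coord hf₁ _)
    (fun ω a c hac => (hm₁ ω).monotone (Nat.succ_le_succ hac))
  refine ⟨f, hf, hm, fun z lo hi hz hlo hhi hn => ?_⟩
  have hlarge := hc.large hz hlo hhi hn
  have hf' := hf.mono h12 le_rfl
  have hlo' := hlo.mono h12 le_rfl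
  have hhi' := hhi.mono h12 le_rfl
  let T : ℕ → ℕ → Set X := fun k n => {ω | k ≤ n ∧ ∀ i, lo ω n ≤ f ω i → f ω (i + 1) ≤ hi ω n →
    f₁ ω (f ω i + 1) ≤ f ω (i + 1)}
  have hT : ∀ k n, MeasurableSet[m₂] (T k n) := by
    intro k n
    simp only [T]
    (repeat' first
        | with_reducible assumption
        | with_reducible exact ms_const _
        | with_reducible refine ms_and ?_ ?_
        | with_reducible refine ms_or ?_ ?_
        | with_reducible refine ms_iff ?_ ?_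
        | with_reducible refine ms_not ?_
        | with_reducible refine ms_le ?_ ?_
        | with_reducible refine ms_lt ?_ ?_
        | with_reducible refine ms_eq ?_ ?_
        | with_reducible refine ms_imp ?_ ?_
        | with_reducible refine ms_all fun _ => ?_
        | with_reducible refine ms_ex fun _ => ?_
        | with_reducible exact mf_const _
        | with_reducible apply mf_add
        | with_reducible apply mf_sub
        | with_reducible apply mf_max
        | with_reducible apply mf_min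
        | (with_reducible apply meas_coord; with_reducible assumption)
        | with_reducible (refine meas_coord_app ?_ ?_))
  have e1 : Measurable[m₂] fun ω (k : ℕ) => lo ω (lst (T k) ω) :=
    mf_pi fun k => meas_coord_app hlo' (meas_lst (hT k))
  have e2 : Measurable[m₂] fun ω (k : ℕ) => hi ω (lst (T k) ω) :=
    mf_pi fun k => meas_coord_app hhi' (meas_lst (hT k))
  -- modify on the null set where there is no good interval
  have e3 : Measurable[m₂] fun ω (k : ℕ) => max k (lo ω (lst (T k) ω)) :=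
    mf_pi fun k => mf_max (mf_const k) (meas_coord_app hlo' (meas_lst (hT k)))
  filter_upwards [hcap z _ _ ⟨hz.1.mono h12 le_rfl, hz.2⟩ e3 e2 (fun ω n => le_max_left _ _),
    hlarge] with ω h1 h2 h3
  obtain ⟨k, hk⟩ := h1 h3
  have h4 : ∃ n, ω ∈ T k n := by
    obtain ⟨n, hn1, hn2⟩ := h2 trivial k
    exact ⟨n, hn1, hn2⟩
  obtain ⟨h5, h6⟩ := lst_mem h4
  refine ⟨lst (T k) ω, fun i hi1 hi2 => ?_⟩
  have h7 := h6 i hi1 hi2
  have h8 : f ω i ≤ f₁ ω (f ω i) := (hm₁ ω).id_le _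
  refine hQ z ω _ _ _ _ h8 h7 (hk (f ω i) ?_ (h7.trans hi2))
  refine max_le ?_ (hi1.trans h8)
  exact (h5.trans (hn ω _)).trans (hi1.trans h8)

theorem Dp.refl (m : MeasurableSpace X) : Dp N m m := by
  intro h hh hmon
  let f : X → ℕ → ℕ := fun ω i => Nat.rec 0 (fun _ u => u + 1 + h ω u) i
  have hfs : ∀ ω i, f ω (i + 1) = f ω i + 1 + h ω (f ω i) := fun _ _ => rfl
  refine ⟨f, ?_, fun ω => strictMono_nat_of_lt_succ fun i => by rw [hfs]; omega, ?_⟩
  · refine mf_rec (mf_const 0) fun i hi => ?_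
    exact mf_add (mf_add hi (mf_const 1)) (meas_coord_app hh hi)
  · intro z lo hi hz hlo hhi hn
    refine Eventually.of_forall fun ω _ => ⟨0, fun i _ _ => ?_⟩
    change h ω (f ω i) ≤ f ω (i + 1)
    rw [hfs]
    omega

theorem Sp.refl (m : MeasurableSpace X) : Sp N m m := by
  intro x hx
  refine ⟨fun _ => x, fun _ i => i, fun _ => hx, measurable_const, fun _ => strictMono_id, ?_⟩
  intro z lo hi hz hlo hhi hn
  exact Eventually.of_forall fun ω _ => ⟨0, fun i _ _ => Or.inl ⟨0, rfl⟩⟩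

theorem Dp.comp (h12 : m₁ ≤ m₂) (h1 : Dp N m₁ m₂) (h2 : Dp N m₂ m₃) : Dp N m₁ m₃ := by
  intro h hh hmon
  obtain ⟨f₁, hf₁, hm₁, hc₁⟩ := h2 h hh hmon
  exact hc₁.comp h12 (fun z ω => IMono.qd z ω (hmon ω)) hf₁ hm₁ h1

/-- Splitting off countably many old reals. -/
theorem Sp.of_pieces (h12 : m₁ ≤ m₂) {x : X → ℕ → ℕ} {zs : ℕ → X → ℕ → ℕ}
    {mm : ℕ → MeasurableSpace X} (hzs : ∀ i, Zok (mm i) (zs i)) (hS : ∀ i, Sp N m₁ (mm i))
    {f : X → ℕ → ℕ} (hf : Measurable[m₁] f) (hm : ∀ ω, StrictMono (f ω))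
    (hc : Cap N m₁ {ω | ∀ i, x ω ≠ zs i ω} (QS x zs) f) :
    ∃ (zs' : ℕ → X → ℕ → ℕ) (f : X → ℕ → ℕ), (∀ i, Zok m₁ (zs' i)) ∧ Measurable[m₁] f ∧
      (∀ ω, StrictMono (f ω)) ∧ Cap N m₁ Set.univ (QS x zs') f := by
  choose ws fs hws hfs hms hcs using fun i => hS i (zs i) (hzs i)
  let zs' : ℕ → X → ℕ → ℕ := fun p => ws p.unpair.1 p.unpair.2
  let F : ℕ → X → ℕ → ℕ := fun i => Nat.casesOn i f fs
  obtain ⟨g, hg, hmg, hgF⟩ := exists_coarse (m := m₁) F (fun i => by
    cases i with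
    | zero => exact hf
    | succ i => exact hfs i) (fun i => by
    cases i with
    | zero => exact hm
    | succ i => exact hms i)
  refine ⟨zs', g, fun p => hws _ _, hg, hmg, ?_⟩
  have h0 : Cap N m₁ {ω | ∀ i, x ω ≠ zs i ω} (QS x zs') g := by
    have h1 : Cap N m₁ {ω | ∀ i, x ω ≠ zs i ω} (QS x zs') f :=
      hc.mono fun z hz => Eventually.of_forall fun ω hω => ⟨hω, by
        rintro u v (⟨i, hi⟩ | h)
        · exact absurd hi (hω i)
        · exact Or.inr h⟩
    exact h1.coarse (fun z ω _ => IMono.qs _ _ _ _) hg (i := 0) fun ω Q a c => hgF 0 ω Q a c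
  have h1 : ∀ i, Cap N m₁ {ω | x ω = zs i ω} (QS x zs') g := by
    intro i
    have h1 : Cap N m₁ {ω | x ω = zs i ω} (QS x zs') (fs i) :=
      (hcs i).mono fun z hz => Eventually.of_forall fun ω hω => ⟨trivial, by
        have hω : x ω = zs i ω := hω
        rintro u v (⟨j, hj⟩ | ⟨t, h3, h4, h5⟩)
        · refine Or.inl ⟨Nat.pair i j, ?_⟩
          simp only [zs', Nat.unpair_pair]
          rw [hω, hj]
        · refine Or.inr ⟨t, h3, h4, ?_⟩
          rw [hω]
          exact h5⟩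
    exact h1.coarse (fun z ω _ => IMono.qs _ _ _ _) hg (i := i + 1)
      fun ω Q a c => hgF (i + 1) ω Q a c
  intro z lo hi hz hlo hhi hn
  filter_upwards [h0 z lo hi hz hlo hhi hn,
    eventually_countable_forall.2 fun i => h1 i z lo hi hz hlo hhi hn] with ω h2 h3 _
  by_cases h4 : ∀ i, x ω ≠ zs i ω
  · exact h2 h4
  · push Not at h4
    obtain ⟨i, hi⟩ := h4
    exact h3 i hi

theorem Sp.comp (h12 : m₁ ≤ m₂) (hD : Dp N m₁ m₂) (h1 : Sp N m₁ m₂) (h2 : Sp N m₂ m₃) :
    Sp N m₁ m₃ := by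
  intro x hx
  obtain ⟨zs, f₁, hzs, hf₁, hm₁, hc₁⟩ := h2 x hx
  have hc₁' : Cap N m₂ {ω | ∀ i, x ω ≠ zs i ω} (QS x zs) f₁ :=
    hc₁.mono fun z hz => Eventually.of_forall fun ω _ => ⟨trivial, fun _ _ h => h⟩
  obtain ⟨f, hf, hm, hc⟩ := hc₁'.comp h12 (fun z ω => IMono.qs _ _ _ _) hf₁ hm₁ hD
  exact Sp.of_pieces h12 hzs (fun _ => h1) hf hm hc

/-- The old reals which are equal to `x` with positive probability. -/
theorem exists_olds (hle : m ≤ m₂) (hc : CCC N m₂) {x : X → ℕ → ℕ} (hx : Measurable[m₂] x) :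
    ∃ zs : ℕ → X → ℕ → ℕ, (∀ i, Zok m (zs i)) ∧
      ∀ z, Zok m z → ∀ᶠ ω in N, x ω = z ω → ∃ i, x ω = zs i ω := by
  obtain ⟨T, hT, hT'⟩ := exhaust hc {A | MeasurableSet[m₂] A ∧ ∃ z, Zok m z ∧ ∀ ω ∈ A, x ω = z ω}
    ⟨∅, @MeasurableSet.empty _ m₂, _, Zok.zero, fun ω h => h.elim⟩ (fun A hA => hA.1)
  choose zs hzs hzs' using fun i => (hT i).2
  refine ⟨zs, hzs, fun z hz => ?_⟩
  filter_upwards [hT' {ω | x ω = z ω} ⟨ms_feq hx (hz.1.mono hle le_rfl), z, hz, fun ω hω => hω⟩]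
    with ω h1 h2
  obtain ⟨i, hi⟩ := h1 h2
  exact ⟨i, hzs' i ω hi⟩

theorem Dp.step {y b : X → ℕ → ℕ} (h : Step N m₁ m₂ y b) : Dp N m₁ m₂ := by
  intro x hx hmon
  obtain ⟨f, hf, hm, hc⟩ := one_step h (U := fun k M _ => {ω | x ω k ≤ M})
    { meas := fun k M z _ => ms_le (meas_coord hx k) (mf_const M)
      loc := fun k M z z' ω _ h => h
      mono := fun k M M' z hM ω hω => le_trans hω hM
      tot := fun z _ k => Eventually.of_forall fun ω => ⟨x ω k, le_refl (x ω k)⟩ }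
  refine ⟨f, hf, hm, fun z lo hi hz hlo hhi hn => ?_⟩
  exact (hc z lo hi hz hlo hhi hn).mono fun ω h _ => h

theorem Sp.step {y b : X → ℕ → ℕ} (h : Step N m₁ m₂ y b) (hc : CCC N m₂) : Sp N m₁ m₂ := by
  intro x hx
  obtain ⟨zs, hzs, hzs'⟩ := exists_olds (m := m₁) h.le hc hx.1
  obtain ⟨f, hf, hm, hc⟩ := one_step h (U := fun k M z => {ω | QS x zs z ω k M})
    { meas := fun k M z hz => by
        have h1 := hx.1
        have h2 := hz.1.mono h.le le_rfl
        unfold QS
        refine ms_or (ms_ex fun i => ms_feq h1 ((hzs i).1.mono h.le le_rfl)) ?_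
        refine ms_ex fun t => ms_and (ms_const _) (ms_and (ms_const _) (ms_not ?_))
        exact ms_eq (meas_coord h1 _) (meas_coord h2 _)
      loc := by
        rintro k M z z' ω hzz (h | ⟨t, h1, h2, h3⟩)
        · exact Or.inl h
        · exact Or.inr ⟨t, h1, h2, by rw [← hzz t h2]; exact h3⟩
      mono := fun k M M' z hM ω hω => IMono.qs x zs z ω _ _ _ _ le_rfl hM hω
      tot := by
        intro z hz k
        have h1 : ∀ l : List ℕ, ∀ᶠ ω in N, (x ω = fun u => if u < k then min (l.getD u 0) 1 else z ω u) →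
            ∃ i, x ω = zs i ω := by
          intro l
          refine hzs' (fun ω u => if u < k then min (l.getD u 0) 1 else z ω u) ⟨?_, ?_⟩
          · refine mf_pi fun u => ?_
            by_cases hu : u < k
            · simp only [hu, if_true]; exact mf_const _
            · simp only [hu, if_false]; exact meas_coord hz.1 u
          · intro ω u
            by_cases hu : u < k
            · simp only [hu, if_true]; exact min_le_right _ _
            · simp only [hu, if_false]; exact hz.2 ω u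
        filter_upwards [eventually_countable_forall.2 h1] with ω h2
        by_cases h3 : ∃ i, x ω = zs i ω
        · exact ⟨0, Or.inl h3⟩
        · by_contra hcon
          push Not at hcon
          apply h3
          refine h2 ((List.range k).map (x ω)) (funext fun u => ?_)
          by_cases hu : u < k
          · rw [if_pos hu, List.getD_eq_getElem _ _ (by simpa using hu), List.getElem_map,
              List.getElem_range, min_eq_left (hx.2 ω u)]
          · rw [if_neg hu]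
            by_contra hne
            exact hcon (u + 1) (Or.inr ⟨u, by omega, by omega, hne⟩) }
  refine ⟨zs, f, hzs, hf, hm, fun z lo hi hz hlo hhi hn => ?_⟩
  exact (hc z lo hi hz hlo hhi hn).mono fun ω h _ => h

end

end Pool.Agent.MP9096b7
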