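import Pool.Agent.MP_9096b7_lc.A3

/-! Preservation at limits of countable cofinality. -/

set_option autoImplicit false
set_option linter.unusedVariables false
set_option linter.unusedSectionVars false

namespace Pool.Agent.MP9096b7

open Filter MeasureTheory

variable {X : Type}

/-- `t` is an initial segment of `x`. -/
def Ini (x : ℕ → ℕ) (t : List ℕ) : Prop := ∀ k < t.length, x k = t.getD k 0

/-- The initial segment of `x` of length `k`. -/
def seg (x : ℕ → ℕ) (k : ℕ) : List ℕ := (List.range k).map x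

theorem length_seg (x : ℕ → ℕ) (k : ℕ) : (seg x k).length = k := by simp [seg]

theorem getD_seg (x : ℕ → ℕ) {k j : ℕ} (h : j < k) : (seg x k).getD j 0 = x j := by
  rw [List.getD_eq_getElem _ _ (by rw [length_seg]; exact h)]
  simp [seg]

theorem ini_seg (x : ℕ → ℕ) (k : ℕ) : Ini x (seg x k) := fun j hj => by
  rw [length_seg] at hj
  rw [getD_seg x hj]

theorem seg_succ (x : ℕ → ℕ) (k : ℕ) : seg x (k + 1) = seg x k ++ [x k] := by
  simp [seg, List.range_succ]

theorem Ini.eq_seg {x : ℕ → ℕ} {t : List ℕ} (h : Ini x t) : t = seg x t.length := by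
  refine List.ext_getElem (by rw [length_seg]) fun k hk hk' => ?_
  have h1 := h k hk
  rw [List.getD_eq_getElem _ _ hk] at h1
  rw [← h1]
  simp [seg]

theorem seg_prefix (x : ℕ → ℕ) {k j : ℕ} (h : k ≤ j) : seg x k <+: seg x j := by
  obtain ⟨d, rfl⟩ := Nat.exists_eq_add_of_le h
  exact ⟨(List.range d).map fun i => x (k + i), by simp [seg, List.range_add, Function.comp_def]⟩

section

variable {N : Filter X} [CountableInterFilter N] {m m₁ m₂ mi : MeasurableSpace X}

/-- The tree of possibilities for `x` on the event `W`, from the point of view of `m`. -/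
theorem exists_tree (hc : CCC N m) (W : Set X) (x : X → ℕ → ℕ) :
    ∃ H : List ℕ → Set X, (∀ t, MeasurableSet[m] (H t)) ∧
      (∀ᶠ ω in N, ∀ t, ω ∈ W → Ini (x ω) t → ω ∈ H t) ∧
      (∀ t C, MeasurableSet[m] C → (∃ᶠ ω in N, ω ∈ C ∧ ω ∈ H t) →
        ∃ᶠ ω in N, ω ∈ C ∧ ω ∈ W ∧ Ini (x ω) t) ∧
      ∀ᶠ ω in N, ∀ t, ω ∈ H t → ∃ v, ω ∈ H (t ++ [v]) := by
  choose H hH1 hH2 hH3 using fun t => exists_hull hc {ω | ω ∈ W ∧ Ini (x ω) t}
  have h2 : ∀ᶠ ω in N, ∀ t, ω ∈ W → Ini (x ω) t → ω ∈ H t := by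
    filter_upwards [eventually_countable_forall.2 hH2] with ω h t h1 h2
    exact h t ⟨h1, h2⟩
  refine ⟨H, hH1, h2, hH3, ?_⟩
  rw [eventually_countable_forall]
  intro t
  by_contra hcon
  rw [not_eventually] at hcon
  have hCm : MeasurableSet[m] (H t ∩ {ω | ∀ v, ¬ ω ∈ H (t ++ [v])}) := by
    refine (hH1 t).inter (ms_all fun v => ms_not (hH1 _))
  have h3 := hH3 t _ hCm (hcon.mono fun ω hω => by
    push Not at hω
    exact ⟨⟨hω.1, hω.2⟩, hω.1⟩)
  obtain ⟨ω, ⟨⟨h4, h5⟩, h6, h7⟩, h8⟩ := (h3.and_eventually h2).exists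
  refine h5 (x ω t.length) (h8 _ h6 ?_)
  rw [h7.eq_seg, length_seg, ← seg_succ]
  exact ini_seg _ _

theorem exists_branch {H : List ℕ → Set X} (hH : ∀ t, MeasurableSet[m] (H t))
    (hext : ∀ᶠ ω in N, ∀ t, ω ∈ H t → ∃ v, ω ∈ H (t ++ [v])) :
    ∃ y : X → ℕ → ℕ, Measurable[m] y ∧ ∀ᶠ ω in N, ω ∈ H [] → ∀ k, ω ∈ H (seg (y ω) k) := by
  obtain ⟨s, hs1, hs2, hs3⟩ := exists_meas_seq (m := m)
    (fun _ a a' => {ω | (∃ v, a' = a ++ [v]) ∧ ω ∈ H a'})
    (fun _ a a' => ms_and (ms_const _) (hH a')) (fun _ => []) (mf_const _)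
  refine ⟨fun ω k => (s (k + 1) ω).getD k 0, mf_pi fun k => ?_, ?_⟩
  · exact mf_one (fun l : List ℕ => l.getD k 0) (hs1 (k + 1))
  · filter_upwards [hext] with ω h1 h0 k
    have key : ∀ k, s k ω = seg (fun k => (s (k + 1) ω).getD k 0) k ∧ ω ∈ H (s k ω) := by
      intro k
      induction k with
      | zero =>
        rw [hs2]
        exact ⟨rfl, h0⟩
      | succ k ih =>
        obtain ⟨h2, h3⟩ := ih
        obtain ⟨v, hv⟩ := h1 _ h3
        obtain ⟨⟨v', h4⟩, h5⟩ := hs3 k ω ⟨_, ⟨v, rfl⟩, hv⟩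
        refine ⟨?_, h5⟩
        have h6 : (s k ω).length = k := by rw [h2, length_seg]
        rw [seg_succ, ← h2]
        have h7 : (s (k + 1) ω).getD k 0 = v' := by
          rw [h4, List.getD_append_right _ _ _ _ (by rw [h6]), h6, Nat.sub_self]
          rfl
        rw [h7, h4]
    obtain ⟨h2, h3⟩ := key k
    rw [← h2]
    exact h3

/-- The limit hypothesis. -/
def LimH (N : Filter X) (mn : ℕ → MeasurableSpace X) (mi : MeasurableSpace X) : Prop :=
  ∀ A, MeasurableSet[mi] A → (∃ᶠ ω in N, ω ∈ A) →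
    ∃ n C, MeasurableSet[mn n] C ∧ (∃ᶠ ω in N, ω ∈ C) ∧ ∀ᶠ ω in N, ω ∈ C → ω ∈ A

theorem Dp.lim {mn : ℕ → MeasurableSpace X} (hle : ∀ n, mn n ≤ mi) (hle₁ : ∀ n, m₁ ≤ mn n)
    (hc : CCC N mi) (hlim : LimH N mn mi) (hD : ∀ n, Dp N m₁ (mn n)) : Dp N m₁ mi := by
  intro h hh hmon
  choose H hH1 hH2 hH3 hH4 using fun n => exists_tree (hc.mono (hle n)) Set.univ h
  choose y hy hyH using fun n => exists_branch (m := mn n) (hH1 n) (hH4 n)
  choose f hf hm hcap using fun n => hD n (fun ω k => ∑ i ∈ Finset.range (k + 1), y n ω i)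
    (mf_pi fun k => mf_sum (fun i => meas_coord (hy n) i) (mf_const _))
    (fun ω a c hac => Finset.sum_le_sum_of_subset (Finset.range_mono (Nat.succ_le_succ hac)))
  obtain ⟨g, hg, hmg, hfg⟩ := exists_coarse f hf hm
  refine ⟨g, hg, hmg, fun z lo hi hz hlo hhi hn => ?_⟩
  by_contra hcon
  rw [not_eventually] at hcon
  have hgi : Measurable[mi] g := hg.mono ((hle₁ 0).trans (hle 0)) le_rfl
  have hloi : Measurable[mi] lo := hlo.mono ((hle₁ 0).trans (hle 0)) le_rfl
  have hhii : Measurable[mi] hi := hhi.mono ((hle₁ 0).trans (hle 0)) le_rfl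
  have hAm : MeasurableSet[mi] {ω | ¬ ∃ n, ∀ i, lo ω n ≤ g ω i → g ω (i + 1) ≤ hi ω n →
      h ω (g ω i) ≤ g ω (i + 1)} := by
    (repeat' first
        | with_reducible assumption
        | with_reducible exact ms_const _
        | with_reducible refine ms_and ?_ ?_
        | with_reducible refine ms_or ?_ ?_
        | with_reducible refine ms_iff ?_ ?_
        | with_reducible refine ms_not ?_
        | with_reducible refine ms_le ?_ ?_
        | with_reducible refine ms_lt ?_ ?_
        | with_reducible refine ms_eq ?_ ?_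
        | with_reducible refine ms_imp ?_ ?_
        | with_reducible refine ms_all fun _ => ?_
        | with_reducible refine ms_ex fun _ => ?_
        | with_reducible exact mf_const _
        | with_reducible apply mf_add
        | with_reducible apply mf_sub
        | with_reducible apply mf_max
        | with_reducible apply mf_min
        | (with_reducible apply meas_coord; with_reducible assumption)
        | with_reducible (refine meas_coord_app ?_ ?_))
  obtain ⟨n, C, hCm, hCf, hCA⟩ := hlim _ hAm (hcon.mono fun ω hω => by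
    push Not at hω
    rintro ⟨n, hn⟩
    exact hω.2 n fun i h1 h2 => hn i h1 h2)
  have hcn : Cap N m₁ Set.univ (QD fun ω k => ∑ i ∈ Finset.range (k + 1), y n ω i) g :=
    (hcap n).coarse (fun z ω _ => IMono.qd z ω (fun a c hac =>
      Finset.sum_le_sum_of_subset (Finset.range_mono (Nat.succ_le_succ hac)))) hg (i := n)
        (fun ω Q a c => hfg n ω Q a c)
  have hgn : Measurable[mn n] g := hg.mono (hle₁ n) le_rfl
  have hlon : Measurable[mn n] lo := hlo.mono (hle₁ n) le_rfl
  have hhin : Measurable[mn n] hi := hhi.mono (hle₁ n) le_rfl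
  -- a finite possibility
  have h1 : ∃ᶠ ω in N, ∃ p : ℕ × List ℕ, ω ∈ C ∧ ω ∈ H n p.2 ∧ p.2.length = hi ω p.1 + 1 ∧
      ∀ i, lo ω p.1 ≤ g ω i → g ω (i + 1) ≤ hi ω p.1 → p.2.getD (g ω i) 0 ≤ g ω (i + 1) := by
    refine (hCf.and_eventually ((hcn z lo hi hz hlo hhi hn).and ((hyH n).and (hH2 n)))).mono ?_
    rintro ω ⟨h1, h2, h3, h4⟩
    obtain ⟨n', hn'⟩ := h2 trivial
    refine ⟨(n', seg (y n ω) (hi ω n' + 1)), h1, ?_, length_seg _ _, fun i h5 h6 => ?_⟩
    · refine h3 (h4 [] trivial ?_) _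
      intro k hk
      simp at hk
    · have h7 : g ω i < hi ω n' + 1 := by
        have := hmg ω (Nat.lt_add_one i)
        have h6' : g ω (i + 1) ≤ hi ω n' := h6
        omega
      rw [getD_seg _ h7]
      have h8 := hn' i h5 h6
      have h9 : y n ω (g ω i) ≤ ∑ i ∈ Finset.range (g ω i + 1), y n ω i :=
        Finset.single_le_sum (f := fun i => y n ω i) (fun _ _ => Nat.zero_le _)
          (Finset.mem_range.2 (Nat.lt_succ_self _))
      exact h9.trans h8
  obtain ⟨⟨n', t⟩, h2⟩ := freq_exists h1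
  simp only at h2
  have hC' : MeasurableSet[mn n] (C ∩ {ω | t.length = hi ω n' + 1 ∧
      ∀ i, lo ω n' ≤ g ω i → g ω (i + 1) ≤ hi ω n' → t.getD (g ω i) 0 ≤ g ω (i + 1)}) := by
    refine hCm.inter (ms_and ?_ (ms_all fun i => ms_imp ?_ (ms_imp ?_ (ms_le
      (mf_one (fun u => t.getD u 0) (meas_coord hgn i)) ?_))))
    all_goals (repeat' first
        | with_reducible assumption
        | with_reducible exact ms_const _
        | with_reducible refine ms_and ?_ ?_
        | with_reducible refine ms_or ?_ ?_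
        | with_reducible refine ms_iff ?_ ?_
        | with_reducible refine ms_not ?_
        | with_reducible refine ms_le ?_ ?_
        | with_reducible refine ms_lt ?_ ?_
        | with_reducible refine ms_eq ?_ ?_
        | with_reducible refine ms_imp ?_ ?_
        | with_reducible refine ms_all fun _ => ?_
        | with_reducible refine ms_ex fun _ => ?_
        | with_reducible exact mf_const _
        | with_reducible apply mf_add
        | with_reducible apply mf_sub
        | with_reducible apply mf_max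
        | with_reducible apply mf_min
        | (with_reducible apply meas_coord; with_reducible assumption)
        | with_reducible (refine meas_coord_app ?_ ?_))
  have h3 := hH3 n t _ hC' (h2.mono fun ω hω => ⟨⟨hω.1, hω.2.2.1, hω.2.2.2⟩, hω.2.1⟩)
  obtain ⟨ω, ⟨⟨h4, h5, h6⟩, -, h7⟩, h8⟩ := (h3.and_eventually hCA).exists
  refine h8 h4 ⟨n', fun i hi1 hi2 => ?_⟩
  have h9 : g ω i < t.length := by
    have := hmg ω (Nat.lt_add_one i)
    omega
  rw [h7 _ h9]
  exact h6 i hi1 hi2

/-- A perfect tree contains branches which avoid a given point on many intervals. -/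
theorem tree_avoid {Tr : List ℕ → Prop} (h0 : Tr []) (hext : ∀ t, Tr t → ∃ v, Tr (t ++ [v]))
    {h : ℕ → ℕ} (hsplit : ∀ k M, h k ≤ M → ∀ t, Tr t → t.length = k → ∃ t₁ t₂, t₁ ≠ t₂ ∧
      t₁.length = M ∧ t₂.length = M ∧ t <+: t₁ ∧ t <+: t₂ ∧ Tr t₁ ∧ Tr t₂)
    {g z : ℕ → ℕ} (hg : StrictMono g) {a e : ℕ} (hG : Good g (fun u v => h u ≤ v) a e) :
    ∃ t, Tr t ∧ t.length = e ∧ ∀ i, a ≤ g i → g (i + 1) ≤ e →
      ∃ u, g i ≤ u ∧ u < g (i + 1) ∧ t.getD u 0 ≠ z u := by
  have hext' : ∀ t, Tr t → ∀ L, t.length ≤ L → ∃ t', Tr t' ∧ t'.length = L ∧ t <+: t' := by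
    intro t ht L hL
    induction L with
    | zero => exact ⟨t, ht, by omega, List.prefix_rfl⟩
    | succ L ih =>
      rcases Nat.lt_or_ge L t.length with h1 | h1
      · exact ⟨t, ht, by omega, List.prefix_rfl⟩
      · obtain ⟨t', h2, h3, h4⟩ := ih h1
        obtain ⟨v, hv⟩ := hext t' h2
        exact ⟨t' ++ [v], hv, by simp [h3], h4.trans (List.prefix_append _ _)⟩
  have hpre : ∀ t t' : List ℕ, t <+: t' → ∀ u < t.length, t'.getD u 0 = t.getD u 0 := by
    rintro t t' ⟨s, rfl⟩ u hu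
    rw [List.getD_append _ _ _ _ hu]
  have key : ∀ i, ∃ t, Tr t ∧ t.length = min (g i) e ∧ ∀ i' < i, a ≤ g i' → g (i' + 1) ≤ e →
      ∃ u, g i' ≤ u ∧ u < g (i' + 1) ∧ t.getD u 0 ≠ z u := by
    intro i
    induction i with
    | zero =>
      obtain ⟨t, h1, h2, -⟩ := hext' [] h0 (min (g 0) e) (Nat.zero_le _)
      exact ⟨t, h1, h2, fun i' hi' => by omega⟩
    | succ i ih =>
      obtain ⟨t, h1, h2, h3⟩ := ih
      have hgi : g i < g (i + 1) := hg (Nat.lt_add_one i)
      by_cases hcase : a ≤ g i ∧ g (i + 1) ≤ e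
      · obtain ⟨h4, h5⟩ := hcase
        have h6 : min (g i) e = g i := min_eq_left (by omega)
        rw [h6] at h2
        obtain ⟨t₁, t₂, hne, l1, l2, p1, p2, T1, T2⟩ := hsplit (g i) (g (i + 1)) (hG i h4 h5) t h1 h2
        have h7 : ∃ t', Tr t' ∧ t'.length = g (i + 1) ∧ t <+: t' ∧
            ∃ u, g i ≤ u ∧ u < g (i + 1) ∧ t'.getD u 0 ≠ z u := by
          by_contra hcon
          push Not at hcon
          apply hne
          have h8 := hcon t₁ T1 l1 p1
          have h9 := hcon t₂ T2 l2 p2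
          refine List.ext_getElem (by rw [l1, l2]) fun u hu hu' => ?_
          rw [← List.getD_eq_getElem _ 0 hu, ← List.getD_eq_getElem _ 0 hu']
          rcases Nat.lt_or_ge u (g i) with h10 | h10
          · rw [hpre t t₁ p1 u (by omega), hpre t t₂ p2 u (by omega)]
          · rw [h8 u h10 (by omega), h9 u h10 (by omega)]
        obtain ⟨t', T', l', p', u, hu1, hu2, hu3⟩ := h7
        refine ⟨t', T', by rw [l', min_eq_left h5], fun i' hi' h8 h9 => ?_⟩
        rcases Nat.lt_succ_iff_lt_or_eq.1 hi' with hi' | rfl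
        · obtain ⟨u, h10, h11, h12⟩ := h3 i' hi' h8 h9
          refine ⟨u, h10, h11, ?_⟩
          rw [hpre t t' p' u]
          · exact h12
          · rw [h2]
            exact h11.trans_le (hg.monotone hi')
        · exact ⟨u, hu1, hu2, hu3⟩
      · obtain ⟨t', T', l', p'⟩ := hext' t h1 (min (g (i + 1)) e) (by
          rw [h2]; exact min_le_min_right _ hgi.le)
        refine ⟨t', T', l', fun i' hi' h8 h9 => ?_⟩
        rcases Nat.lt_succ_iff_lt_or_eq.1 hi' with hi' | rfl
        · obtain ⟨u, h10, h11, h12⟩ := h3 i' hi' h8 h9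
          refine ⟨u, h10, h11, ?_⟩
          rw [hpre t t' p' u]
          · exact h12
          · rw [h2]
            exact lt_min (h11.trans_le (hg.monotone hi')) (by omega)
        · exact absurd ⟨h8, h9⟩ hcase
  obtain ⟨t, h1, h2, h3⟩ := key e
  refine ⟨t, h1, by rw [h2, min_eq_right (show e ≤ g e from hg.id_le e)], fun i h4 h5 => h3 i ?_ h4 h5⟩
  have := hg.id_le (i + 1)
  simp only [id] at this
  omega

end

end Pool.Agent.MP9096b7
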