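import Pool.Agent.MP_9096b7_lc.A4

/-! Preservation of the second property at limits of countable cofinality, and the induction. -/

set_option autoImplicit false
set_option linter.unusedVariables false
set_option linter.unusedSectionVars false

namespace Pool.Agent.MP9096b7

open Filter MeasureTheory

variable {X : Type}

section

variable {N : Filter X} [CountableInterFilter N] {m m₁ m₂ mi : MeasurableSpace X}

theorem Sp.lim {mn : ℕ → MeasurableSpace X} (hle : ∀ n, mn n ≤ mi) (hle₁ : ∀ n, m₁ ≤ mn n)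
    (hc : CCC N mi) (hlim : LimH N mn mi) (hD : ∀ n, Dp N m₁ (mn n)) (hS : ∀ n, Sp N m₁ (mn n)) :
    Sp N m₁ mi := by
  classical
  intro x hx
  choose zs hzs hzs' using fun n => exists_olds (m := mn n) (hle n) hc hx.1
  let zs' : ℕ → X → ℕ → ℕ := fun p => zs p.unpair.1 p.unpair.2
  let W : Set X := {ω | ∀ i, x ω ≠ zs' i ω}
  have hWm : MeasurableSet[mi] W :=
    ms_all fun i => ms_not (ms_feq hx.1 ((hzs _ _).1.mono (hle _) le_rfl))
  have hW : ∀ ω ∈ W, ∀ n i, x ω ≠ zs n i ω := by
    intro ω hω n i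
    have := hω (Nat.pair n i)
    simpa only [zs', Nat.unpair_pair] using this
  choose H hH1 hH2 hH3 hH4 using fun n => exists_tree (hc.mono (hle n)) W x
  -- the nodes are sequences of zeros and ones
  have h01 : ∀ n, ∀ᶠ ω in N, ∀ t, ω ∈ H n t → ∀ j < t.length, t.getD j 0 ≤ 1 := by
    intro n
    rw [eventually_countable_forall]
    intro t
    by_contra hcon
    rw [not_eventually] at hcon
    have h1 : ∃ᶠ ω in N, ω ∈ H n t ∧ ω ∈ H n t := hcon.mono fun ω hω => by
      push Not at hω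
      exact ⟨hω.1, hω.1⟩
    obtain ⟨ω', hω'⟩ := hcon.exists
    push Not at hω'
    obtain ⟨-, j, hj, hj'⟩ := hω'
    obtain ⟨ω, -, -, h2⟩ := (hH3 n t _ (hH1 n t) h1).exists
    have h3 := hx.2 ω j
    rw [h2 j hj] at h3
    omega
  -- the trees are perfect
  have hsplit : ∀ n, ∀ᶠ ω in N, ∀ t, ω ∈ H n t → ∃ t₁ t₂, t₁ ≠ t₂ ∧ t₁.length = t₂.length ∧
      t <+: t₁ ∧ t <+: t₂ ∧ ω ∈ H n t₁ ∧ ω ∈ H n t₂ := by
    intro n
    rw [eventually_countable_forall]
    intro t
    by_contra hcon
    rw [not_eventually] at hcon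
    let C : Set X := {ω | ω ∈ H n t ∧ ∀ t₁ t₂, ¬ (t₁ ≠ t₂ ∧ t₁.length = t₂.length ∧
      t <+: t₁ ∧ t <+: t₂ ∧ ω ∈ H n t₁ ∧ ω ∈ H n t₂)}
    have hCm : MeasurableSet[mn n] C := by
      refine ms_and (hH1 n t) (ms_all fun t₁ => ms_all fun t₂ => ms_not (ms_and (ms_const _)
        (ms_and (ms_const _) (ms_and (ms_const _) (ms_and (ms_const _) (ms_and ?_ ?_))))))
      · exact hH1 n t₁
      · exact hH1 n t₂
    have h1 := hH3 n t C hCm (hcon.mono fun ω hω => by
      rw [Classical.not_imp] at hω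
      exact ⟨⟨hω.1, fun t₁ t₂ h => hω.2 ⟨t₁, t₂, h⟩⟩, hω.1⟩)
    let z : X → ℕ → ℕ := fun ω u =>
      if ∃ t', t <+: t' ∧ u < t'.length ∧ ω ∈ H n t' ∧ t'.getD u 0 = 1 then 1 else 0
    have hz : Zok (mn n) z := by
      refine ⟨mf_pi fun u => ?_, fun ω u => ?_⟩
      · refine Measurable.ite (m := mn n) ?_ measurable_const measurable_const
        refine ms_ex fun t' => ms_and (ms_const _) (ms_and (ms_const _) (ms_and (hH1 n t') (ms_const _)))
      · simp only [z]
        split_ifs <;> omega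
    obtain ⟨ω, ⟨⟨h2, h3⟩, h4, h5⟩, h6, h7⟩ := (h1.and_eventually ((hH2 n).and (hzs' n z hz))).exists
    have hxz : x ω = z ω := by
      funext u
      let L : ℕ := max (u + 1) t.length
      have hp : t <+: seg (x ω) L := by
        rw [h5.eq_seg]
        exact seg_prefix _ (le_max_right _ _)
      have hT : ω ∈ H n (seg (x ω) L) := h6 _ h4 (ini_seg _ _)
      have hu : u < L := lt_of_lt_of_le (Nat.lt_succ_self u) (le_max_left _ _)
      simp only [z]
      by_cases h8 : x ω u = 1
      · rw [if_pos ⟨seg (x ω) L, hp, by rw [length_seg]; exact hu, hT, by rw [getD_seg _ hu, h8]⟩, h8]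
      · rw [if_neg]
        · have := hx.2 ω u
          omega
        · rintro ⟨t', h9, h10, h11, h12⟩
          refine h3 t' (seg (x ω) t'.length) ⟨fun heq => ?_, by rw [length_seg], h9, ?_, h11,
            h6 _ h4 (ini_seg _ _)⟩
          · rw [heq, getD_seg _ h10] at h12
            exact h8 h12
          · rw [h5.eq_seg]
            exact seg_prefix _ h9.length_le
    obtain ⟨i, hi⟩ := h7 hxz
    exact hW ω h4 n i hi
  -- the splitting function
  let T : ℕ → ℕ → ℕ → Set X := fun n k M => {ω | ∀ M', M ≤ M' → ∀ t, t.length = k → ω ∈ H n t →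
    ∃ t₁ t₂, t₁ ≠ t₂ ∧ t₁.length = M' ∧ t₂.length = M' ∧ t <+: t₁ ∧ t <+: t₂ ∧
      ω ∈ H n t₁ ∧ ω ∈ H n t₂}
  have hTm : ∀ n k M, MeasurableSet[mn n] (T n k M) := by
    intro n k M
    refine ms_all fun M' => ms_imp (ms_const _) (ms_all fun t => ms_imp (ms_const _)
      (ms_imp (hH1 n t) (ms_ex fun t₁ => ms_ex fun t₂ => ms_and (ms_const _) (ms_and (ms_const _)
        (ms_and (ms_const _) (ms_and (ms_const _) (ms_and (ms_const _) (ms_and ?_ ?_))))))))
    · exact hH1 n t₁
    · exact hH1 n t₂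
  have hT : ∀ n, ∀ᶠ ω in N, ∀ k, ∃ M, ω ∈ T n k M := by
    intro n
    filter_upwards [h01 n, hsplit n, hH4 n] with ω h1 h2 h3 k
    have hext : ∀ t, ω ∈ H n t → ∀ L, t.length ≤ L → ∃ t', ω ∈ H n t' ∧ t'.length = L ∧
        t <+: t' := by
      intro t ht L hL
      induction L with
      | zero => exact ⟨t, ht, by omega, List.prefix_rfl⟩
      | succ L ih =>
        rcases Nat.lt_or_ge L t.length with h4 | h4
        · exact ⟨t, ht, by omega, List.prefix_rfl⟩
        · obtain ⟨t', h5, h6, h7⟩ := ih h4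
          obtain ⟨v, hv⟩ := h3 t' h5
          exact ⟨t' ++ [v], hv, by simp [h6], h7.trans (List.prefix_append _ _)⟩
    let S : Set (List ℕ) := {t | t.length = k ∧ ω ∈ H n t}
    have hSf : S.Finite := by
      refine Set.Finite.subset (Set.finite_range
        (fun s : Fin k → Fin 2 => List.ofFn (fun i => (s i : ℕ)))) ?_
      rintro t ⟨h4, h5⟩
      refine ⟨fun i => ⟨t.getD i 0, Nat.lt_succ_of_le (h1 t h5 i (by rw [h4]; exact i.2))⟩, ?_⟩
      refine List.ext_getElem (by simp [h4]) fun u hu hu' => ?_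
      simp [List.getElem?_eq_getElem hu']
    have h4 : ∀ᶠ M' in atTop, ∀ t ∈ S, ∃ t₁ t₂, t₁ ≠ t₂ ∧ t₁.length = M' ∧ t₂.length = M' ∧
        t <+: t₁ ∧ t <+: t₂ ∧ ω ∈ H n t₁ ∧ ω ∈ H n t₂ := by
      rw [eventually_all_finite hSf]
      rintro t ⟨h5, h6⟩
      obtain ⟨t₁, t₂, h7, h8, h9, h10, h11, h12⟩ := h2 t h6
      filter_upwards [eventually_ge_atTop t₁.length] with M' hM'
      obtain ⟨t₁', a1, a2, a3⟩ := hext t₁ h11 M' hM'
      obtain ⟨t₂', b1, b2, b3⟩ := hext t₂ h12 M' (by omega)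
      refine ⟨t₁', t₂', ?_, a2, b2, h9.trans a3, h10.trans b3, a1, b1⟩
      rintro rfl
      exact h7 (List.prefix_of_prefix_length_le a3 b3 h8.le |>.eq_of_length h8)
    obtain ⟨M, hM⟩ := eventually_atTop.1 h4
    exact ⟨M, fun M' hM' t h5 h6 => hM M' hM' t ⟨h5, h6⟩⟩
  choose f hf hm hcap using fun n => hD n
    (fun ω k => ∑ i ∈ Finset.range (k + 1), lst (T n i) ω)
    (mf_pi fun k => mf_sum (fun i => meas_lst (hTm n i)) (mf_const _))
    (fun ω a c hac => Finset.sum_le_sum_of_subset (Finset.range_mono (Nat.succ_le_succ hac)))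
  obtain ⟨g, hg, hmg, hfg⟩ := exists_coarse f hf hm
  refine Sp.of_pieces (m₂ := mn 0) (hle₁ 0) (zs := zs') (mm := fun i => mn i.unpair.1)
    (fun i => hzs _ _) (fun i => hS _) hg hmg ?_
  intro z lo hi hz hlo hhi hn
  by_contra hcon
  rw [not_eventually] at hcon
  have h1i : m₁ ≤ mi := (hle₁ 0).trans (hle 0)
  have hgi : Measurable[mi] g := hg.mono h1i le_rfl
  have hloi : Measurable[mi] lo := hlo.mono h1i le_rfl
  have hhii : Measurable[mi] hi := hhi.mono h1i le_rfl
  have hzi : Measurable[mi] z := hz.1.mono h1i le_rfl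
  have hxi : Measurable[mi] x := hx.1
  have hAm : MeasurableSet[mi] {ω | ω ∈ W ∧ ¬ ∃ n, ∀ i, lo ω n ≤ g ω i → g ω (i + 1) ≤ hi ω n →
      ∃ t, g ω i ≤ t ∧ t < g ω (i + 1) ∧ x ω t ≠ z ω t} := by
    refine ms_and hWm ?_
    (repeat' first
        | with_reducible assumption
        | with_reducible exact ms_const _
        | with_reducible refine ms_and ?_ ?_
        | with_reducible refine ms_or ?_ ?_
        | with_reducible refine ms_iff ?_ ?_
        | with_reducible refine ms_not ?_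
        | with_reducible refine ms_le ?_ ?_
        | with_reducible refine ms_lt ?_ ?_
        | with_reducible refine ms_eq ?_ ?_
        | with_reducible refine ms_imp ?_ ?_
        | with_reducible refine ms_all fun _ => ?_
        | with_reducible refine ms_ex fun _ => ?_
        | with_reducible exact mf_const _
        | with_reducible apply mf_add
        | with_reducible apply mf_sub
        | with_reducible apply mf_max
        | with_reducible apply mf_min
        | (with_reducible apply meas_coord; with_reducible assumption)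
        | with_reducible (refine meas_coord_app ?_ ?_))
  obtain ⟨n, C, hCm, hCf, hCA⟩ := hlim _ hAm (hcon.mono fun ω hω => by
    rw [Classical.not_imp] at hω
    refine ⟨hω.1, ?_⟩
    rintro ⟨n, hn⟩
    exact hω.2 ⟨n, fun i h1 h2 => Or.inr (hn i h1 h2)⟩)
  have hcn : Cap N m₁ Set.univ (QD fun ω k => ∑ i ∈ Finset.range (k + 1), lst (T n i) ω) g :=
    (hcap n).coarse (fun z ω _ => IMono.qd z ω (fun a c hac =>
      Finset.sum_le_sum_of_subset (Finset.range_mono (Nat.succ_le_succ hac)))) hg (i := n)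
        (fun ω Q a c => hfg n ω Q a c)
  have hgn : Measurable[mn n] g := hg.mono (hle₁ n) le_rfl
  have hlon : Measurable[mn n] lo := hlo.mono (hle₁ n) le_rfl
  have hhin : Measurable[mn n] hi := hhi.mono (hle₁ n) le_rfl
  have hzn : Measurable[mn n] z := hz.1.mono (hle₁ n) le_rfl
  -- a finite possibility
  have h1 : ∃ᶠ ω in N, ∃ p : ℕ × List ℕ, ω ∈ C ∧ ω ∈ H n p.2 ∧ p.2.length = hi ω p.1 ∧
      ∀ i, lo ω p.1 ≤ g ω i → g ω (i + 1) ≤ hi ω p.1 →
        ∃ u, g ω i ≤ u ∧ u < g ω (i + 1) ∧ p.2.getD u 0 ≠ z ω u := by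
    refine (hCf.and_eventually ((hcn z lo hi hz hlo hhi hn).and ((hT n).and
      ((hH2 n).and ((hH4 n).and hCA))))).mono ?_
    rintro ω ⟨h1, h2, h3, h4, h5, h6⟩
    obtain ⟨n', hn'⟩ := h2 trivial
    obtain ⟨h7, -⟩ := h6 h1
    obtain ⟨t, a1, a2, a3⟩ := tree_avoid (Tr := fun t => ω ∈ H n t)
      (h := fun k => ∑ i ∈ Finset.range (k + 1), lst (T n i) ω) (z := z ω)
      (h4 [] h7 (fun k hk => by simp at hk)) h5 (fun k M hkM t ht htk => by
        have h8 := lst_mem (h3 k)
        refine h8 M (le_trans ?_ hkM) t htk ht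
        exact Finset.single_le_sum (f := fun i => lst (T n i) ω) (fun _ _ => Nat.zero_le _)
          (Finset.mem_range.2 (Nat.lt_succ_self _))) (hmg ω) hn'
    exact ⟨(n', t), h1, a1, a2, a3⟩
  obtain ⟨⟨n', t⟩, h2⟩ := freq_exists h1
  simp only at h2
  have hC' : MeasurableSet[mn n] (C ∩ {ω | t.length = hi ω n' ∧
      ∀ i, lo ω n' ≤ g ω i → g ω (i + 1) ≤ hi ω n' →
        ∃ u, g ω i ≤ u ∧ u < g ω (i + 1) ∧ t.getD u 0 ≠ z ω u}) := by
    refine hCm.inter ?_
    (repeat' first
        | with_reducible assumption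
        | with_reducible exact ms_const _
        | with_reducible refine ms_and ?_ ?_
        | with_reducible refine ms_or ?_ ?_
        | with_reducible refine ms_iff ?_ ?_
        | with_reducible refine ms_not ?_
        | with_reducible refine ms_le ?_ ?_
        | with_reducible refine ms_lt ?_ ?_
        | with_reducible refine ms_eq ?_ ?_
        | with_reducible refine ms_imp ?_ ?_
        | with_reducible refine ms_all fun _ => ?_
        | with_reducible refine ms_ex fun _ => ?_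
        | with_reducible exact mf_const _
        | with_reducible apply mf_add
        | with_reducible apply mf_sub
        | with_reducible apply mf_max
        | with_reducible apply mf_min
        | (with_reducible apply meas_coord; with_reducible assumption)
        | with_reducible (refine meas_coord_app ?_ ?_))
  have h3 := hH3 n t _ hC' (h2.mono fun ω hω => ⟨⟨hω.1, hω.2.2.1, hω.2.2.2⟩, hω.2.1⟩)
  obtain ⟨ω, ⟨⟨h4, h5, h6⟩, -, h7⟩, h8⟩ := (h3.and_eventually hCA).exists
  refine (h8 h4).2 ⟨n', fun i hi1 hi2 => ?_⟩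
  obtain ⟨u, h9, h10, h11⟩ := h6 i hi1 hi2
  refine ⟨u, h9, h10, ?_⟩
  rw [h7 u (by omega)]
  exact h11

end

end Pool.Agent.MP9096b7
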