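import Pool.Agent.MP_9096b7_lc.A1

/-! Each event belongs to a stage, and closure points of uncountable cofinality. -/

set_option autoImplicit false
set_option linter.unusedVariables false
set_option linter.unusedSectionVars false

namespace Pool.Agent.MP9096b7

open Filter MeasureTheory Cardinal

section approx

variable {X : Type} {N : Filter X} [CountableInterFilter N]

/-- If the events of the class `𝒞` are dense then each event is a countable union of such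
events. -/
theorem approx_of_dense {m : MeasurableSpace X} (hc : CCC N m) (𝒞 : Set (Set X)) (h0 : ∅ ∈ 𝒞)
    (hm : ∀ C ∈ 𝒞, MeasurableSet[m] C)
    (hd : ∀ A, MeasurableSet[m] A → (∃ᶠ ω in N, ω ∈ A) →
      ∃ C ∈ 𝒞, (∃ᶠ ω in N, ω ∈ C) ∧ ∀ᶠ ω in N, ω ∈ C → ω ∈ A)
    {A : Set X} (hA : MeasurableSet[m] A) :
    ∃ T : ℕ → Set X, (∀ i, T i ∈ 𝒞) ∧ ∀ᶠ ω in N, (ω ∈ A ↔ ω ∈ ⋃ i, T i) := by
  obtain ⟨T, hT, hT'⟩ := exhaust hc {C | C ∈ 𝒞 ∧ ∀ᶠ ω in N, ω ∈ C → ω ∈ A}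
    ⟨∅, h0, Eventually.of_forall fun ω h => h.elim⟩ (fun C hC => hm C hC.1)
  refine ⟨T, fun i => (hT i).1, ?_⟩
  have h1 : ∀ᶠ ω in N, ∀ i, ω ∈ T i → ω ∈ A := eventually_countable_forall.2 fun i => (hT i).2
  have h2 : ∀ᶠ ω in N, ω ∈ A → ω ∈ ⋃ i, T i := by
    by_contra hcon
    have h3 : ∃ᶠ ω in N, ω ∈ A \ ⋃ i, T i :=
      (not_eventually.1 hcon).mono fun ω hω => by
        rw [Classical.not_imp] at hω
        exact hω
    have hmT : MeasurableSet[m] (⋃ i, T i) := MeasurableSet.iUnion fun i => hm _ (hT i).1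
    obtain ⟨C, hC, hf, hCA⟩ := hd _ (hA.diff hmT) h3
    have h4 := hT' C ⟨hC, hCA.mono fun ω h h' => (h h').1⟩
    apply hf
    filter_upwards [h4, hCA] with ω h5 h6 h7
    exact (h6 h7).2 (Set.mem_iUnion.2 (h5 h7))
  filter_upwards [h1, h2] with ω h1 h2
  exact ⟨h2, fun h => let ⟨i, hi⟩ := Set.mem_iUnion.1 h; h1 i hi⟩

end approx

variable {K X : Type} [LinearOrder K] [WellFoundedLT K]

namespace Sys

variable (S : Sys K X)

theorem isNonnull {A : Set X} : Aᶜ ∉ S.N ↔ ∃ᶠ ω in S.N, ω ∈ A := Iff.rfl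

theorem cccN : CCC S.N S.mt := fun 𝒮 h1 h2 => S.ccc 𝒮 h1 h2

theorem meas_ae {α : K} {A C : Set X} (hC : MeasurableSet[S.m α] C)
    (h : ∀ᶠ ω in S.N, (ω ∈ A ↔ ω ∈ C)) : MeasurableSet[S.m α] A := by
  have h1 : MeasurableSet[S.m α] {ω | ω ∈ A ↔ ω ∈ C} := S.null α _ h
  have h2 : MeasurableSet[S.m α] (A ∩ {ω | ω ∈ A ↔ ω ∈ C}ᶜ)ᶜ := by
    refine S.null α _ ?_
    refine mem_of_superset h fun ω hω hω' => hω'.2 hω
  have h3 : A = (C ∩ {ω | ω ∈ A ↔ ω ∈ C}) ∪ (A ∩ {ω | ω ∈ A ↔ ω ∈ C}ᶜ) := by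
    ext ω
    simp only [Set.mem_union, Set.mem_inter_iff, Set.mem_ofPred_eq, Set.mem_compl_iff]
    tauto
  rw [h3]
  have h4 := MeasurableSet.compl h2
  rw [compl_compl] at h4
  exact (hC.inter h1).union h4

include S in
/-- Countably many functions of `(ℕ → ℕ)` to `K` are bounded. -/
theorem cof2 (g : ℕ → (ℕ → ℕ) → K) : ∃ α, ∀ i c, g i c < α := by
  obtain ⟨α, hα⟩ := S.cof (fun c => g (c 0) (fun n => c (n + 1)))
  refine ⟨α, fun i c => ?_⟩
  have := hα (fun n => Nat.casesOn n i c)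
  exact this

include S in
theorem cof1 (g : ℕ → K) : ∃ α, ∀ i, g i < α := by
  obtain ⟨α, hα⟩ := S.cof (fun c => g (c 0))
  exact ⟨α, fun i => hα (fun _ => i)⟩

include S in
theorem ne : Nonempty K := by
  obtain ⟨γ, -⟩ := S.top Set.univ MeasurableSet.univ (by
    have := S.nb
    rw [Set.compl_univ]
    exact empty_notMem S.N)
  exact ⟨γ⟩

theorem event_level {A : Set X} (hA : MeasurableSet[S.mt] A) : ∃ α, MeasurableSet[S.m α] A := by
  have := S.cN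
  obtain ⟨α₀⟩ := S.ne
  obtain ⟨T, hT, hT'⟩ := approx_of_dense (N := S.N) S.cccN {C | ∃ γ, MeasurableSet[S.m γ] C}
    ⟨α₀, @MeasurableSet.empty _ (S.m α₀)⟩ (fun C ⟨γ, hγ⟩ => S.le_mt γ _ hγ)
    (fun A hA hf => by
      obtain ⟨γ, C, h1, h2, h3⟩ := S.top A hA hf
      exact ⟨C, ⟨γ, h1⟩, h2, h3⟩) hA
  choose γ hγ using hT
  obtain ⟨α, hα⟩ := S.cof1 γ
  exact ⟨α, S.meas_ae (@MeasurableSet.iUnion _ _ (S.m α) _ _ fun i => S.mono _ _ (hα i).le _ (hγ i))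
    hT'⟩

theorem level (F : X → ℕ → ℕ) (hF : Measurable[S.mt] F) : ∃ α, Measurable[S.m α] F := by
  have h1 : ∀ k v, ∃ α, MeasurableSet[S.m α] {ω | F ω k = v} := fun k v =>
    S.event_level ((meas_coord hF k) (measurableSet_singleton v))
  choose γ hγ using h1
  obtain ⟨α, hα⟩ := S.cof1 (fun i => γ i.unpair.1 i.unpair.2)
  refine ⟨α, meas_pi fun k v => ?_⟩
  have := hα (Nat.pair k v)
  rw [Nat.unpair_pair] at this
  exact S.mono _ _ this.le _ (hγ k v)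

end Sys

/-- The first uncountable well-ordered type. -/
theorem exists_omega1 : ∃ (I : Type) (_ : LinearOrder I) (_ : WellFoundedLT I),
    (∀ s : ℕ → I, ∃ ξ, ∀ i, s i < ξ) ∧ (∀ ξ : I, (Set.Iio ξ).Countable) ∧
      ∃ e : (ℕ → ℕ) → I, Function.Surjective e := by
  let I : Type := (ℵ_ 1).ord.ToType
  have hI : #I = ℵ_ 1 := Cardinal.mk_ord_toType _
  have hseg : ∀ ξ : I, (Set.Iio ξ).Countable := fun ξ => by
    have := Cardinal.mk_Iio_lt ξ (by simp [I])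
    rw [hI, Cardinal.lt_aleph_one_iff] at this
    exact (Cardinal.le_aleph0_iff_set_countable).1 this
  have hunc : ¬ (Set.univ : Set I).Countable := by
    intro h
    have h1 := (Cardinal.le_aleph0_iff_set_countable).2 h
    rw [Cardinal.mk_univ, hI] at h1
    exact absurd h1 (not_le.2 Cardinal.aleph0_lt_aleph_one)
  have hne : Nonempty I := by
    by_contra h
    rw [not_nonempty_iff] at h
    exact hunc Set.countable_univ
  refine ⟨I, inferInstance, inferInstance, fun s => ?_, hseg, ?_⟩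
  · by_contra hcon
    push Not at hcon
    apply hunc
    have h1 : (Set.univ : Set I) ⊆ ⋃ i, insert (s i) (Set.Iio (s i)) := by
      intro ξ _
      obtain ⟨i, hi⟩ := hcon ξ
      refine Set.mem_iUnion.2 ⟨i, ?_⟩
      rcases hi.lt_or_eq with h | h
      · exact Or.inr h
      · exact Or.inl h
    exact (Set.countable_iUnion fun i => (hseg (s i)).insert _).mono h1
  · have h1 : #I ≤ #(ℕ → ℕ) := by
      rw [hI]
      refine Cardinal.aleph_one_le_continuum.trans ?_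
      simp
    obtain ⟨f⟩ := h1
    exact ⟨Function.invFun f, (Function.leftInverse_invFun f.injective).surjective⟩

namespace Sys

variable (S : Sys K X)

include S in
/-- Above a countable set of stages. -/
theorem exists_next (φ : K → K) (s : Set K) (hs : s.Countable) :
    ∃ α, ∀ β ∈ s, β < α ∧ ∀ γ ≤ β, φ γ < α := by
  classical
  obtain ⟨α₀⟩ := S.ne
  obtain ⟨f, hf⟩ := (hs.insert α₀).exists_eq_range ⟨α₀, Set.mem_insert _ _⟩
  choose e he using S.small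
  obtain ⟨α₁, hα₁⟩ := S.cof2 (fun i c => φ (e (f i) c))
  obtain ⟨α₂, hα₂⟩ := S.cof1 f
  refine ⟨max α₁ α₂, fun β hβ => ?_⟩
  obtain ⟨i, rfl⟩ : β ∈ Set.range f := by rw [← hf]; exact Set.mem_insert_of_mem _ hβ
  refine ⟨(hα₂ i).trans_le (le_max_right _ _), fun γ hγ => ?_⟩
  obtain ⟨c, rfl⟩ := he (f i) γ hγ
  exact (hα₁ i c).trans_le (le_max_left _ _)

theorem clos (φ : K → K) : ∃ α, (∀ β < α, φ β ≤ α) ∧
    ∀ F : X → ℕ → ℕ, Measurable[S.m α] F → ∃ β < α, Measurable[S.m β] F := by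
  classical
  have := S.cN
  obtain ⟨I, _, _, hI1, hI2, e, he⟩ := exists_omega1
  -- the sequence
  have hrec : ∀ ξ : I, ∀ a : (η : I) → η < ξ → K, ∃ α, ∀ η (h : η < ξ), a η h < α ∧
      ∀ γ ≤ a η h, φ γ < α := by
    intro ξ a
    have hc : (Set.range fun η : Set.Iio ξ => a η.1 η.2).Countable := by
      have := (hI2 ξ).to_subtype
      exact Set.countable_range _
    obtain ⟨α, hα⟩ := S.exists_next φ _ hc
    exact ⟨α, fun η h => hα _ ⟨⟨η, h⟩, rfl⟩⟩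
  choose nx hnx using hrec
  let a : I → K := (IsWellFounded.wf (r := ((· < ·) : I → I → Prop))).fix nx
  have ha : ∀ ξ, a ξ = nx ξ (fun η _ => a η) := fun ξ =>
    (IsWellFounded.wf (r := ((· < ·) : I → I → Prop))).fix_eq nx ξ
  have ha1 : ∀ η ξ, η < ξ → a η < a ξ ∧ ∀ γ ≤ a η, φ γ < a ξ := by
    intro η ξ h
    rw [ha ξ]
    exact hnx ξ (fun η _ => a η) η h
  -- the supremum
  have hbd : ({α | ∀ ξ, a ξ < α} : Set K).Nonempty := by
    obtain ⟨α, hα⟩ := S.cof (fun c => a (e c))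
    refine ⟨α, fun ξ => ?_⟩
    obtain ⟨c, rfl⟩ := he ξ
    exact hα c
  let α := wellFounded_lt.min {α | ∀ ξ, a ξ < α} hbd
  have hα : ∀ ξ, a ξ < α := wellFounded_lt.min_mem {α | ∀ ξ, a ξ < α} hbd
  have hα' : ∀ β < α, ∃ ξ, β ≤ a ξ := by
    intro β hβ
    by_contra hcon
    push Not at hcon
    exact wellFounded_lt.not_lt_min {α | ∀ ξ, a ξ < α} hcon hβ
  have hsucc : ∀ ξ : I, ∃ ξ', ξ < ξ' := fun ξ =>
    let ⟨ξ', h⟩ := hI1 (fun _ => ξ); ⟨ξ', h 0⟩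
  have hlim : IsLim α := by
    obtain ⟨ξ, -⟩ := hI1 (fun _ => e (fun _ => 0))
    refine ⟨⟨a ξ, hα ξ⟩, fun γ hγ => ?_⟩
    obtain ⟨ξ, hξ⟩ := hα' γ hγ
    obtain ⟨ξ', hξ'⟩ := hsucc ξ
    exact ⟨a ξ', hξ.trans_lt (ha1 _ _ hξ').1, hα ξ'⟩
  have hev : ∀ A : Set X, MeasurableSet[S.m α] A → ∃ ξ, MeasurableSet[S.m (a ξ)] A := by
    intro A hA
    obtain ⟨ξ₀, -⟩ := hI1 (fun _ => e (fun _ => 0))
    obtain ⟨T, hT, hT'⟩ := approx_of_dense (N := S.N) (m := S.m α)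
      (S.cccN.mono (S.le_mt α)) {C | ∃ ξ, MeasurableSet[S.m (a ξ)] C}
      ⟨ξ₀, @MeasurableSet.empty _ (S.m (a ξ₀))⟩ (fun C ⟨ξ, hξ⟩ => S.mono _ _ (hα ξ).le _ hξ)
      (fun A hA hf => by
        obtain ⟨γ, hγ, C, h1, h2, h3⟩ := S.lim α hlim A hA hf
        obtain ⟨ξ, hξ⟩ := hα' γ hγ
        exact ⟨C, ⟨ξ, S.mono _ _ hξ _ h1⟩, h2, h3⟩) hA
    choose ζ hζ using hT
    obtain ⟨ξ, hξ⟩ := hI1 ζ
    exact ⟨ξ, S.meas_ae (@MeasurableSet.iUnion _ _ (S.m (a ξ)) _ _ fun i =>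
      S.mono _ _ (ha1 _ _ (hξ i)).1.le _ (hζ i)) hT'⟩
  refine ⟨α, fun β hβ => ?_, fun F hF => ?_⟩
  · obtain ⟨ξ, hξ⟩ := hα' β hβ
    obtain ⟨ξ', hξ'⟩ := hsucc ξ
    exact ((ha1 _ _ hξ').2 β hξ).le.trans (hα ξ').le
  · have h1 : ∀ k v, ∃ ξ, MeasurableSet[S.m (a ξ)] {ω | F ω k = v} := fun k v =>
      hev _ ((meas_coord hF k) (measurableSet_singleton v))
    choose ζ hζ using h1
    obtain ⟨ξ, hξ⟩ := hI1 (fun i => ζ i.unpair.1 i.unpair.2)
    refine ⟨a ξ, hα ξ, meas_pi fun k v => ?_⟩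
    have := hξ (Nat.pair k v)
    rw [Nat.unpair_pair] at this
    exact S.mono _ _ (ha1 _ _ this).1.le _ (hζ k v)

end Sys

end Pool.Agent.MP9096b7
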