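import Pool.Agent.MP_9096b7_lc.A8

/-! The generic functions guess all the earlier reals. -/

set_option autoImplicit false
set_option linter.unusedVariables false
set_option linter.unusedSectionVars false

namespace Pool.Agent.MP9096b7

open Filter MeasureTheory

section meet

variable {X : Type} {N : Filter X} [CountableInterFilter N] {m m' : MeasurableSpace X}
  {y b : X → ℕ → ℕ}

/-- The generic function meets all the functions below the bound. -/
theorem Step.meet (h : Step N m m' y b) {F : X → ℕ → ℕ} (hF : Measurable[m] F)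
    (hFb : ∀ ω k, F ω k ≤ b ω k) :
    ∀ᶠ ω in N, ∀ᶠ l in atTop, ∃ k, pos l ≤ k ∧ k < pos (l + 1) ∧ y ω k = F ω k := by
  classical
  by_contra hcon
  have hA : MeasurableSet[m'] {ω | ¬ ∀ᶠ l in atTop, ∃ k, pos l ≤ k ∧ k < pos (l + 1) ∧
      y ω k = F ω k} := by
    simp only [eventually_atTop]
    refine ms_not (ms_ex fun a => ms_all fun l => ms_imp (ms_const _) (ms_ex fun k =>
      ms_and (ms_const _) (ms_and (ms_const _) ?_)))
    exact ms_eq (meas_coord h.hy k) (meas_coord (hF.mono h.le le_rfl) k)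
  obtain ⟨C, n, s, j, G, hC, hfC, hj, hG, hsub⟩ := h.dense _ hA (not_eventually.1 hcon)
  obtain ⟨s', C', hC', hmC', hfC', -, hev⟩ := ev_ext (y := y) hC hfC s hj (Nat.le_succ n) hG
  have hG' : Side m b (fun i => if i < j then G i else F) := by
    intro i
    by_cases hi : i < j
    · simp only [hi, if_true]; exact hG i
    · simp only [hi, if_false]; exact ⟨hF, hFb⟩
  have hp := h.posi C' (n + 1) s' (j + 1) _ hmC' hfC' (by omega) hG'
  obtain ⟨ω, ⟨h1, h2⟩, h3⟩ := (hp.and_eventually hsub).exists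
  have h4 : ω ∈ ev y (n + 1) s' j G := by
    refine ⟨h2.1, fun i hi l hl => ?_⟩
    have := h2.2 i (by omega) l hl
    simpa [hi] using this
  refine (h3 (hC' h1) (hev ω h1 h4)) ?_
  filter_upwards [eventually_ge_atTop (n + 1)] with l hl
  have := h2.2 j (by omega) l hl
  simpa using this

end meet

/-- Binary expansions. -/
theorem bin_lt (z : ℕ → ℕ) (hz : ∀ i, z i ≤ 1) (L : ℕ) :
    ∑ i ∈ Finset.range L, z i * 2 ^ i < 2 ^ L := by
  induction L with
  | zero => simp
  | succ L ih =>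
    rw [Finset.sum_range_succ, pow_succ]
    have := Nat.mul_le_mul_right (2 ^ L) (hz L)
    omega

theorem bin_digit (z : ℕ → ℕ) (hz : ∀ i, z i ≤ 1) (L j : ℕ) (hj : j < L) :
    (∑ i ∈ Finset.range L, z i * 2 ^ i) / 2 ^ j % 2 = z j := by
  induction L with
  | zero => omega
  | succ L ih =>
    rw [Finset.sum_range_succ]
    rcases Nat.lt_succ_iff_lt_or_eq.1 hj with h | rfl
    · have h1 : z L * 2 ^ L = (z L * 2 ^ (L - j - 1) * 2) * 2 ^ j := by
        have : L = (L - j - 1) + 1 + j := by omega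
        conv_lhs => rw [this, pow_add, pow_add, pow_one]
        rw [show L - j - 1 + 1 + j = L by omega]
        ring
      rw [h1, Nat.add_mul_div_right _ _ (by positivity), Nat.add_mul_mod_self_right]
      exact ih h
    · rw [Nat.add_mul_div_right _ _ (by positivity), Nat.div_eq_of_lt (bin_lt z hz j), zero_add]
      have := hz j
      omega

theorem Sys.exists_covBy {K X : Type} [LinearOrder K] [WellFoundedLT K] (S : Sys K X) (γ : K) :
    ∃ δ, γ ⋖ δ := by
  obtain ⟨δ, hδ⟩ := S.cof fun _ => γ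
  have h1 : (Set.Ioi γ).Nonempty := ⟨δ, hδ fun _ => 0⟩
  refine ⟨wellFounded_lt.min (Set.Ioi γ) h1, wellFounded_lt.min_mem (Set.Ioi γ) h1, ?_⟩
  intro ε h2 h3
  exact wellFounded_lt.not_lt_min (Set.Ioi γ) h2 h3

theorem Sys.cap3 {K X : Type} [LinearOrder K] [WellFoundedLT K] (S : Sys K X) (α : K)
    (f : X → ℕ → ℕ) (hf : Measurable[S.m α] f) (hm : ∀ ω, StrictMono (f ω)) :
    ∃ y : X → ℕ → ℕ, Measurable[S.mt] y ∧ (∀ ω k, y ω k ≤ 1) ∧
      ∀ x : X → ℕ → ℕ, Measurable[S.m α] x → (∀ ω k, x ω k ≤ 1) →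
        ∀ᶠ ω in S.N, ∀ᶠ l in atTop, ∃ k, pos l ≤ k ∧ k < pos (l + 1) ∧
          ∀ u, f ω k ≤ u → u < f ω (k + 1) → x ω u = y ω u := by
  classical
  have := S.cN
  -- the bound
  let b' : X → ℕ → ℕ := fun ω k => 2 ^ (f ω (k + 1) - f ω k)
  have hb' : Measurable[S.m α] b' := by
    refine mf_pi fun k => ?_
    exact mf_one (fun v : ℕ => 2 ^ v) (mf_sub (meas_coord hf (k + 1)) (meas_coord hf k))
  obtain ⟨γ, hγ, hbγ⟩ := S.book α b' hb'
  obtain ⟨δ, hδ⟩ := S.exists_covBy γ
  have hstep := S.step hδ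
  -- the decoding
  let idx : ℕ → X → ℕ := fun u => lst (fun k => {ω | u < f ω (k + 1)})
  have hidx : ∀ u, Measurable[S.m δ] (idx u) := fun u =>
    meas_lst fun k => ms_lt (mf_const u)
      (meas_coord (hf.mono (S.mono _ _ (hγ.trans hδ.le)) le_rfl) (k + 1))
  have hidx' : ∀ ω k u, f ω k ≤ u → u < f ω (k + 1) → idx u ω = k := by
    intro ω k u h1 h2
    have h3 : idx u ω ≤ k := lst_le (T := fun k => {ω | u < f ω (k + 1)}) h2
    have h4 : u < f ω (idx u ω + 1) := lst_mem (T := fun k => {ω | u < f ω (k + 1)}) ⟨k, h2⟩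
    have h5 : k < idx u ω + 1 := (hm ω).lt_iff_lt.1 (h1.trans_lt h4)
    omega
  have hfδ : Measurable[S.m δ] f := hf.mono (S.mono _ _ (hγ.trans hδ.le)) le_rfl
  let y : X → ℕ → ℕ := fun ω u => S.y γ ω (idx u ω) / 2 ^ (u - f ω (idx u ω)) % 2
  refine ⟨y, ?_, fun ω k => by simp only [y]; omega, fun x hx hx1 => ?_⟩
  · have h1 : Measurable[S.m δ] y := by
      refine mf_pi fun u => ?_
      refine mf_two (fun a c => a / 2 ^ (u - c) % 2) ?_ ?_
      · exact meas_coord_app (S.y_meas γ δ hδ) (hidx u)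
      · exact meas_coord_app hfδ (hidx u)
    exact h1.mono (S.le_mt δ) le_rfl
  -- the code of x
  let F : X → ℕ → ℕ := fun ω k => ∑ i ∈ Finset.range (f ω (k + 1) - f ω k),
    x ω (f ω k + i) * 2 ^ i
  have hF : Measurable[S.m α] F := by
    refine mf_pi fun k => ?_
    refine mf_sum (fun i => ?_) (mf_sub (meas_coord hf (k + 1)) (meas_coord hf k))
    refine mf_one (fun v : ℕ => v * 2 ^ i) ?_
    exact meas_coord_app hx (mf_add (meas_coord hf k) (mf_const i))
  have hFb : ∀ ω k, F ω k ≤ b' ω k := fun ω k =>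
    (bin_lt (fun i => x ω (f ω k + i)) (fun i => hx1 ω _) _).le
  let F' : X → ℕ → ℕ := fun ω k => min (F ω k) (S.b γ ω k)
  have hF' : Measurable[S.m γ] F' := by
    refine mf_pi fun k => mf_min ?_ ?_
    · exact meas_coord (hF.mono (S.mono _ _ hγ) le_rfl) k
    · exact meas_coord (S.b_meas γ) k
  filter_upwards [hstep.meet hF' (fun ω k => min_le_right _ _), hbγ] with ω h1 h2
  refine h1.mono fun l hl => ?_
  obtain ⟨k, hk1, hk2, hk3⟩ := hl
  refine ⟨k, hk1, hk2, fun u hu1 hu2 => ?_⟩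
  have h3 : F' ω k = F ω k := by
    simp only [F', h2]
    exact min_eq_left (hFb ω k)
  simp only [y]
  rw [hidx' ω k u hu1 hu2, hk3, h3]
  have h4 := bin_digit (fun i => x ω (f ω k + i)) (fun i => hx1 ω _) (f ω (k + 1) - f ω k)
    (u - f ω k) (by omega)
  simp only [F]
  rw [h4]
  congr 1
  omega

end Pool.Agent.MP9096b7
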