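import Pool.Agent.MP_9096b7_lc.A5

/-! The two preservation properties hold between any two stages of the iteration. -/

set_option autoImplicit false
set_option linter.unusedVariables false
set_option linter.unusedSectionVars false

namespace Pool.Agent.MP9096b7

open Filter MeasureTheory

variable {K X : Type} [LinearOrder K] [WellFoundedLT K]

theorem freq_iff {N : Filter X} {A : Set X} : Aᶜ ∉ N ↔ ∃ᶠ ω in N, ω ∈ A := Iff.rfl

theorem Sys.ccc' (S : Sys K X) : CCC S.N S.mt := S.ccc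

/-- A measurable set of a limit stage belongs to an earlier stage if that stage is above a
certain countable set of stages. -/
theorem set_level {N : Filter X} [CountableInterFilter N] {m : K → MeasurableSpace X}
    (mono : ∀ α β, α ≤ β → m α ≤ m β) (null : ∀ α A, A ∈ N → MeasurableSet[m α] A)
    {m' : MeasurableSpace X} (hc : CCC N m') (Γ : Set K) (hΓ : Γ.Nonempty)
    (hle : ∀ γ ∈ Γ, m γ ≤ m')
    (hlim : ∀ A, MeasurableSet[m'] A → (∃ᶠ ω in N, ω ∈ A) → ∃ γ ∈ Γ, ∃ C, MeasurableSet[m γ] C ∧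
      (∃ᶠ ω in N, ω ∈ C) ∧ ∀ᶠ ω in N, ω ∈ C → ω ∈ A) (A : Set X) (hA : MeasurableSet[m'] A) :
    ∃ c : ℕ → K, (∀ n, c n ∈ Γ) ∧ ∀ γ, (∀ n, c n ≤ γ) → MeasurableSet[m γ] A := by
  obtain ⟨γ₀, hγ₀⟩ := hΓ
  obtain ⟨T, hT, hT'⟩ := exhaust hc {C | (∃ γ ∈ Γ, MeasurableSet[m γ] C) ∧ ∀ᶠ ω in N, ω ∈ C → ω ∈ A}
    ⟨∅, ⟨γ₀, hγ₀, @MeasurableSet.empty _ (m γ₀)⟩, Eventually.of_forall fun ω h => h.elim⟩
    (by
      rintro C ⟨⟨γ, hγ, hC⟩, -⟩
      exact hle γ hγ _ hC)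
  choose c hcΓ hcm using fun n => (hT n).1
  refine ⟨c, hcΓ, fun γ hγ => ?_⟩
  have hUm : MeasurableSet[m γ] (⋃ n, T n) :=
    MeasurableSet.iUnion fun n => mono _ _ (hγ n) _ (hcm n)
  have hUm' : MeasurableSet[m'] (⋃ n, T n) :=
    MeasurableSet.iUnion fun n => hle _ (hcΓ n) _ (hcm n)
  have h1 : ∀ᶠ ω in N, ω ∈ A ↔ ω ∈ ⋃ n, T n := by
    have h2 : ∀ᶠ ω in N, ω ∈ A → ω ∈ ⋃ n, T n := by
      by_contra hcon
      rw [not_eventually] at hcon
      obtain ⟨δ, hδ, C, h3, h4, h5⟩ := hlim (A \ ⋃ n, T n) (hA.diff hUm') (hcon.mono fun ω hω => by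
        rw [Classical.not_imp] at hω
        exact ⟨hω.1, hω.2⟩)
      have h6 := hT' C ⟨⟨δ, hδ, h3⟩, h5.mono fun ω h h' => (h h').1⟩
      obtain ⟨ω, h7, h8, h9⟩ := (h4.and_eventually (h5.and h6)).exists
      exact (h8 h7).2 (Set.mem_iUnion.2 (h9 h7))
    filter_upwards [h2, eventually_countable_forall.2 fun n => (hT n).2] with ω h3 h4
    refine ⟨h3, fun h5 => ?_⟩
    obtain ⟨n, hn⟩ := Set.mem_iUnion.1 h5
    exact h4 n hn
  have h2 : MeasurableSet[m γ] {ω | ω ∈ A ↔ ω ∈ ⋃ n, T n} := null γ _ h1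
  have h3 : MeasurableSet[m γ] (A ∩ {ω | ω ∈ A ↔ ω ∈ ⋃ n, T n}ᶜ) := by
    have h4 : MeasurableSet[m γ] (A ∩ {ω | ω ∈ A ↔ ω ∈ ⋃ n, T n}ᶜ)ᶜ := null γ _ (by
      filter_upwards [h1] with ω h h'
      exact h'.2 h)
    have := h4.compl
    rwa [compl_compl] at this
  have h4 : A = ((⋃ n, T n) ∩ {ω | ω ∈ A ↔ ω ∈ ⋃ n, T n}) ∪
      (A ∩ {ω | ω ∈ A ↔ ω ∈ ⋃ n, T n}ᶜ) := by
    ext ω
    simp only [Set.mem_union, Set.mem_inter_iff, Set.mem_compl_iff, Set.mem_ofPred_eq]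
    tauto
  rw [h4]
  exact (hUm.inter h2).union h3

theorem fun_level {N : Filter X} [CountableInterFilter N] {m : K → MeasurableSpace X}
    (mono : ∀ α β, α ≤ β → m α ≤ m β) (null : ∀ α A, A ∈ N → MeasurableSet[m α] A)
    {m' : MeasurableSpace X} (hc : CCC N m') (Γ : Set K) (hΓ : Γ.Nonempty)
    (hle : ∀ γ ∈ Γ, m γ ≤ m')
    (hlim : ∀ A, MeasurableSet[m'] A → (∃ᶠ ω in N, ω ∈ A) → ∃ γ ∈ Γ, ∃ C, MeasurableSet[m γ] C ∧
      (∃ᶠ ω in N, ω ∈ C) ∧ ∀ᶠ ω in N, ω ∈ C → ω ∈ A) (F : X → ℕ → ℕ) (hF : Measurable[m'] F) :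
    ∃ c : ℕ → K, (∀ n, c n ∈ Γ) ∧ ∀ γ, (∀ n, c n ≤ γ) → Measurable[m γ] F := by
  choose c hc1 hc2 using fun k v => set_level mono null hc Γ hΓ hle hlim {ω | F ω k = v}
    (ms_eq (meas_coord hF k) (mf_const v))
  refine ⟨fun p => c p.unpair.1 p.unpair.2.unpair.1 p.unpair.2.unpair.2, fun n => hc1 _ _ _,
    fun γ hγ => meas_pi fun k v => hc2 k v γ fun n => ?_⟩
  have := hγ (Nat.pair k (Nat.pair v n))
  simpa using this

theorem Sys.step (S : Sys K X) {γ δ : K} (h : γ ⋖ δ) : Step S.N (S.m γ) (S.m δ) (S.y γ) (S.b γ) where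
  le := S.mono _ _ h.le
  ccc := S.ccc'.mono (S.le_mt _)
  hy := S.y_meas γ δ h
  hb := S.b_meas γ
  dense := S.gen_dense γ δ h
  posi := S.gen_pos γ

theorem Sys.main (S : Sys K X) (β : K) : ∀ α ≤ β, Dp S.N (S.m α) (S.m β) ∧
    Sp S.N (S.m α) (S.m β) := by
  have hcN := S.cN
  induction β using WellFoundedLT.induction with
  | ind β ih =>
    intro α hα
    rcases hα.eq_or_lt with rfl | hlt
    · exact ⟨Dp.refl _, Sp.refl _⟩
    by_cases hsucc : ∃ γ, γ ⋖ β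
    · obtain ⟨γ, hγ⟩ := hsucc
      have hαγ : α ≤ γ := by
        by_contra hcon
        push Not at hcon
        exact hγ.2 hcon hlt
      obtain ⟨h1, h2⟩ := ih γ hγ.lt α hαγ
      have h3 := Dp.step (S.step hγ)
      have h4 := Sp.step (S.step hγ) (S.ccc'.mono (S.le_mt _))
      exact ⟨Dp.comp (S.mono _ _ hαγ) h1 h3, Sp.comp (S.mono _ _ hαγ) h1 h2 h4⟩
    · have hlim : IsLim β := by
        refine ⟨⟨α, hlt⟩, fun γ hγ => ?_⟩
        by_contra hcon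
        push Not at hcon
        exact hsucc ⟨γ, hγ, fun δ h1 h2 => absurd h2 (not_lt.2 (hcon δ h1))⟩
      by_cases hcof : ∃ c : ℕ → K, (∀ n, c n < β) ∧ ∀ γ < β, ∃ n, γ ≤ c n
      · obtain ⟨c, hc1, hc2⟩ := hcof
        have hle : ∀ n, S.m (max α (c n)) ≤ S.m β := fun n => S.mono _ _ (max_lt hlt (hc1 n)).le
        have hle₁ : ∀ n, S.m α ≤ S.m (max α (c n)) := fun n => S.mono _ _ (le_max_left _ _)
        have hL : LimH S.N (fun n => S.m (max α (c n))) (S.m β) := by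
          intro A hA hf
          obtain ⟨γ, hγ, C, h1, h2, h3⟩ := S.lim β hlim A hA hf
          obtain ⟨n, hn⟩ := hc2 γ hγ
          exact ⟨n, C, S.mono _ _ (hn.trans (le_max_right _ _)) _ h1, h2, h3⟩
        have hih := fun n => ih (max α (c n)) (max_lt hlt (hc1 n)) α (le_max_left _ _)
        exact ⟨Dp.lim hle hle₁ (S.ccc'.mono (S.le_mt _)) hL fun n => (hih n).1,
          Sp.lim hle hle₁ (S.ccc'.mono (S.le_mt _)) hL (fun n => (hih n).1) fun n => (hih n).2⟩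
      · push Not at hcof
        have key : ∀ F : X → ℕ → ℕ, Measurable[S.m β] F → ∃ γ < β, α ≤ γ ∧ Measurable[S.m γ] F := by
          intro F hF
          obtain ⟨c, hc1, hc2⟩ := fun_level S.mono S.null (S.ccc'.mono (S.le_mt β)) (Set.Iio β)
            ⟨α, hlt⟩ (fun γ hγ => S.mono _ _ (le_of_lt hγ)) (fun A hA hf => S.lim β hlim A hA hf) F hF
          obtain ⟨γ, hγ, hγ'⟩ := hcof c hc1
          exact ⟨max α γ, max_lt hlt hγ, le_max_left _ _,
            hc2 _ fun n => (hγ' n).le.trans (le_max_right _ _)⟩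
        constructor
        · intro h hh hmon
          obtain ⟨γ, h1, h2, h3⟩ := key h hh
          exact (ih γ h1 α h2).1 h h3 hmon
        · intro x hx
          obtain ⟨γ, h1, h2, h3⟩ := key x hx.1
          exact (ih γ h1 α h2).2 x ⟨h3, hx.2⟩

theorem Sys.level' (S : Sys K X) (F : X → ℕ → ℕ) (hF : Measurable[S.mt] F) (α : K) :
    ∃ β, α ≤ β ∧ Measurable[S.m β] F := by
  have hcN := S.cN
  obtain ⟨c, -, hc2⟩ := fun_level S.mono S.null S.ccc' Set.univ ⟨α, trivial⟩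
    (fun γ _ => S.le_mt γ) (fun A hA hf => by
      obtain ⟨γ, C, h⟩ := S.top A hA hf
      exact ⟨γ, trivial, C, h⟩) F hF
  obtain ⟨β, hβ⟩ := S.cof fun f => max α (c (f 0))
  refine ⟨β, (le_max_left _ _).trans (hβ 0).le, hc2 _ fun n => ?_⟩
  exact (le_max_right _ _).trans (hβ fun _ => n).le

theorem Sys.exists_least (S : Sys K X) : ∃ α₀ : K, ∀ β, α₀ ≤ β := by
  have hnb := S.nb
  obtain ⟨γ, -⟩ := S.top Set.univ (@MeasurableSet.univ _ S.mt) (by
    rw [Set.compl_univ]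
    exact empty_notMem S.N)
  obtain ⟨α₀, -, h⟩ := WellFounded.has_min (wellFounded_lt (α := K)) Set.univ ⟨γ, trivial⟩
  exact ⟨α₀, fun β => not_lt.1 (h β trivial)⟩

/-- The ground model functions are unbounded. -/
theorem Sys.cap1 (S : Sys K X) (h : X → ℕ → ℕ) (hh : Measurable[S.mt] h) :
    ∃ f : ℕ → ℕ, StrictMono f ∧ ∀ᶠ ω in S.N, ∃ᶠ k in atTop, h ω (f k) ≤ f (k + 1) := by
  have hcN := S.cN
  have hnb := S.nb
  obtain ⟨α₀, hα₀⟩ := S.exists_least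
  obtain ⟨β, hβ, hhβ⟩ := S.level' h hh α₀
  obtain ⟨f, hf, hm, hc⟩ := (S.main β α₀ hβ).1
    (fun ω k => ∑ i ∈ Finset.range (k + 1), h ω i)
    (mf_pi fun k => mf_sum (fun i => meas_coord hhβ i) (mf_const _))
    (fun ω a c hac => Finset.sum_le_sum_of_subset (Finset.range_mono (Nat.succ_le_succ hac)))
  have h1 : ∀ k, ∃ v, ∀ᶠ ω in S.N, f ω k = v := by
    intro k
    obtain ⟨v, hv⟩ := freq_const (N := S.N) (p := fun _ => True) (fun ω => f ω k)
      (Eventually.frequently (Eventually.of_forall fun _ => trivial))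
    refine ⟨v, ?_⟩
    rcases S.triv α₀ hα₀ {ω | f ω k = v} (ms_eq (meas_coord hf k) (mf_const v)) with h2 | h2
    · exact h2
    · exfalso
      refine hv (mem_of_superset h2 fun ω hω h3 => hω h3.2)
  choose f₀ hf₀ using h1
  have h2 : ∀ᶠ ω in S.N, ∀ k, f ω k = f₀ k := eventually_countable_forall.2 hf₀
  refine ⟨f₀, ?_, ?_⟩
  · obtain ⟨ω, hω⟩ := h2.exists
    intro a c hac
    rw [← hω, ← hω]
    exact hm ω hac
  · filter_upwards [h2, hc.large Zok.zero (lo := f) (hi := fun ω n => f ω (n + 1)) hf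
      (mf_pi fun n => meas_coord hf _) (fun ω n => (hm ω).id_le n)] with ω h3 h4
    rw [frequently_atTop]
    intro L
    obtain ⟨n, hn, hG⟩ := h4 trivial L
    refine ⟨n, hn, ?_⟩
    have h5 := hG n le_rfl le_rfl
    rw [← h3, ← h3]
    refine le_trans ?_ h5
    exact Finset.single_le_sum (f := fun i => h ω i) (fun _ _ => Nat.zero_le _)
      (Finset.mem_range.2 (Nat.lt_succ_self _))

/-- New reals are not captured. -/
theorem Sys.cap2 (S : Sys K X) (α : K) (x : X → ℕ → ℕ) (hx : Measurable[S.mt] x)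
    (hx1 : ∀ ω k, x ω k ≤ 1) :
    ∃ (zs : ℕ → X → ℕ → ℕ) (f : X → ℕ → ℕ), (∀ i, Measurable[S.m α] (zs i)) ∧
      Measurable[S.m α] f ∧ (∀ ω, StrictMono (f ω)) ∧
      ∀ g z : X → ℕ → ℕ, Measurable[S.m α] g → (∀ ω, StrictMono (g ω)) → Measurable[S.m α] z →
        (∀ ω k, z ω k ≤ 1) → ∀ᶠ ω in S.N, (∃ i, x ω = zs i ω) ∨ ¬ Capt (f ω) (x ω) (g ω) (z ω) := by
  have hcN := S.cN
  obtain ⟨β, hβ, hxβ⟩ := S.level' x hx α
  obtain ⟨zs, f, hzs, hf, hm, hc⟩ := (S.main β α hβ).2 x ⟨hxβ, hx1⟩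
  refine ⟨zs, f, fun i => (hzs i).1, hf, hm, fun g z hg hmg hz hz1 => ?_⟩
  filter_upwards [hc.large ⟨hz, hz1⟩ (lo := g) (hi := fun ω n => g ω (n + 1)) hg
      (mf_pi fun n => meas_coord hg _) (fun ω n => (hmg ω).id_le n)] with ω h1
  by_cases h2 : ∃ i, x ω = zs i ω
  · exact Or.inl h2
  · right
    intro h3
    obtain ⟨L, hL⟩ := eventually_atTop.1 h3
    obtain ⟨n, hn, hG⟩ := h1 trivial L
    obtain ⟨i, h4, h5, h6⟩ := hL n hn
    rcases hG i h4 h5 with h7 | ⟨t, h7, h8, h9⟩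
    · exact h2 h7
    · exact h9 (h6 t h7 h8)

end Pool.Agent.MP9096b7
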