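import Mathlib

/-! The abstract structure of an iteration, seen from the space of the generic ultrafilters. -/

set_option autoImplicit false

namespace Pool.Agent.MP9096b7

open Filter MeasureTheory

/-- The points `0, 1, 3, 6, …`: the block `[pos l, pos (l + 1))` has `l + 1` elements. -/
def pos : ℕ → ℕ
  | 0 => 0
  | l + 1 => pos l + (l + 1)

/-- `β` is a limit stage. -/
def IsLim {K : Type} [LinearOrder K] (β : K) : Prop :=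
  (∃ γ, γ < β) ∧ ∀ γ < β, ∃ δ, γ < δ ∧ δ < β

/-- The event that the generic function `y` is compatible with the condition `(s ↾ pos n, F ↾ j)`:
`y` extends the stem, and in each block `l ≥ n` it meets each of the side functions. -/
def ev {X : Type} (y : X → ℕ → ℕ) (n : ℕ) (s : ℕ → ℕ) (j : ℕ) (F : ℕ → X → ℕ → ℕ) : Set X :=
  {ω | (∀ k < pos n, y ω k = s k) ∧
    ∀ i < j, ∀ l, n ≤ l → ∃ k, pos l ≤ k ∧ k < pos (l + 1) ∧ y ω k = F i ω k}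

/-- An iteration of length `K`: `N` is the filter of the sets of full measure (comeager sets) of
the space `X`, the sets in `m α` are the events of the stage `α`. -/
structure Sys (K X : Type) [LinearOrder K] [WellFoundedLT K] where
  N : Filter X
  nb : NeBot N
  cN : CountableInterFilter N
  m : K → MeasurableSpace X
  mt : MeasurableSpace X
  mono : ∀ α β, α ≤ β → m α ≤ m β
  le_mt : ∀ α, m α ≤ mt
  null : ∀ α A, A ∈ N → MeasurableSet[m α] A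
  ccc : ∀ 𝒮 : Set (Set X), (∀ A ∈ 𝒮, MeasurableSet[mt] A ∧ Aᶜ ∉ N) → 𝒮.PairwiseDisjoint id →
    𝒮.Countable
  triv : ∀ α, (∀ β, α ≤ β) → ∀ A, MeasurableSet[m α] A → A ∈ N ∨ Aᶜ ∈ N
  lim : ∀ β, IsLim β → ∀ A, MeasurableSet[m β] A → Aᶜ ∉ N →
    ∃ γ < β, ∃ C, MeasurableSet[m γ] C ∧ Cᶜ ∉ N ∧ ∀ᶠ ω in N, ω ∈ C → ω ∈ A
  top : ∀ A, MeasurableSet[mt] A → Aᶜ ∉ N →
    ∃ γ, ∃ C, MeasurableSet[m γ] C ∧ Cᶜ ∉ N ∧ ∀ᶠ ω in N, ω ∈ C → ω ∈ A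
  cof : ∀ g : (ℕ → ℕ) → K, ∃ α, ∀ c, g c < α
  small : ∀ α, ∃ e : (ℕ → ℕ) → K, ∀ β ≤ α, ∃ c, e c = β
  size : ∀ α, ∃ e : (ℕ → ℕ) → X → ℕ → ℕ, ∀ F : X → ℕ → ℕ, Measurable[m α] F →
    ∃ c, ∀ᶠ ω in N, F ω = e c ω
  b : K → X → ℕ → ℕ
  b_meas : ∀ γ, Measurable[m γ] (b γ)
  book : ∀ α (F : X → ℕ → ℕ), Measurable[m α] F → ∃ γ, α ≤ γ ∧ ∀ᶠ ω in N, b γ ω = F ω
  y : K → X → ℕ → ℕ
  y_meas : ∀ γ δ, γ ⋖ δ → Measurable[m δ] (y γ)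
  gen_dense : ∀ γ δ, γ ⋖ δ → ∀ A, MeasurableSet[m δ] A → Aᶜ ∉ N →
    ∃ (C : Set X) (n : ℕ) (s : ℕ → ℕ) (j : ℕ) (F : ℕ → X → ℕ → ℕ),
      MeasurableSet[m γ] C ∧ Cᶜ ∉ N ∧ j ≤ n ∧
      (∀ i, Measurable[m γ] (F i) ∧ ∀ ω k, F i ω k ≤ b γ ω k) ∧
      ∀ᶠ ω in N, ω ∈ C → ω ∈ ev (y γ) n s j F → ω ∈ A
  gen_pos : ∀ γ (C : Set X) (n : ℕ) (s : ℕ → ℕ) (j : ℕ) (F : ℕ → X → ℕ → ℕ),
    MeasurableSet[m γ] C → Cᶜ ∉ N → j ≤ n →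
      (∀ i, Measurable[m γ] (F i) ∧ ∀ ω k, F i ω k ≤ b γ ω k) →
        (C ∩ ev (y γ) n s j F)ᶜ ∉ N

/-- On almost all blocks of `g` there is a block of `f` on which `x` and `z` agree. -/
def Capt (f x g z : ℕ → ℕ) : Prop :=
  ∀ᶠ n in atTop, ∃ i, g n ≤ f i ∧ f (i + 1) ≤ g (n + 1) ∧ ∀ u, f i ≤ u → u < f (i + 1) → x u = z u

end Pool.Agent.MP9096b7
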