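import Pool.Agent.MP_9096b7_lc.Poset

/-! The countable chain condition. -/

set_option autoImplicit false
set_option linter.unusedSectionVars false

namespace Pool.Agent.MP9096b7

theorem color_pair {I K C : Type} [DecidableEq K] [Countable C] (t : I → K → C) :
    ∀ (m : ℕ) (J : Set I), ¬ J.Countable → ∀ S : I → Finset K, (∀ i ∈ J, (S i).card ≤ m) →
      ∃ i ∈ J, ∃ j ∈ J, i ≠ j ∧ ∀ γ ∈ S i, γ ∈ S j → t i γ = t j γ := by
  intro m
  induction m with
  | zero =>
    intro J hJ S hS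
    have h1 : J.Nontrivial := by
      by_contra h
      exact hJ (Set.not_nontrivial_iff.1 h).countable
    obtain ⟨i, hi, j, hj, hij⟩ := h1
    refine ⟨i, hi, j, hj, hij, fun γ hγ => ?_⟩
    have := Finset.card_eq_zero.1 (Nat.le_zero.1 (hS i hi))
    rw [this] at hγ
    simp at hγ
  | succ m ih =>
    intro J hJ S hS
    by_cases hx : ∃ x, ¬ {i ∈ J | x ∈ S i}.Countable
    · obtain ⟨x, hx⟩ := hx
      obtain ⟨c, hc⟩ : ∃ c, ¬ {i ∈ J | x ∈ S i ∧ t i x = c}.Countable := by
        by_contra hcon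
        push Not at hcon
        apply hx
        refine (Set.countable_iUnion hcon).mono ?_
        rintro i ⟨h1, h2⟩
        exact Set.mem_iUnion.2 ⟨t i x, h1, h2, rfl⟩
      obtain ⟨i, hi, j, hj, hij, h⟩ := ih {i ∈ J | x ∈ S i ∧ t i x = c} hc (fun i => (S i).erase x) (by
        rintro i ⟨h1, h2, -⟩
        rw [Finset.card_erase_of_mem h2]
        have := hS i h1
        omega)
      refine ⟨i, hi.1, j, hj.1, hij, fun γ h1 h2 => ?_⟩
      by_cases hγ : γ = x
      · rw [hγ, hi.2.2, hj.2.2]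
      · exact h γ (Finset.mem_erase.2 ⟨hγ, h1⟩) (Finset.mem_erase.2 ⟨hγ, h2⟩)
    · push Not at hx
      obtain ⟨i, hi⟩ : J.Nonempty := by
        by_contra h
        rw [Set.not_nonempty_iff_eq_empty] at h
        exact hJ (h ▸ Set.countable_empty)
      have h1 : ({i} ∪ ⋃ x ∈ S i, {j ∈ J | x ∈ S j}).Countable := by
        refine (Set.countable_singleton i).union ?_
        exact (S i).countable_toSet.biUnion fun x _ => hx x
      obtain ⟨j, hj, hj'⟩ : ∃ j ∈ J, j ∉ ({i} ∪ ⋃ x ∈ S i, {j ∈ J | x ∈ S j}) := by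
        by_contra hcon
        push Not at hcon
        exact hJ (h1.mono hcon)
      simp only [Set.mem_union, Set.mem_singleton_iff, Set.mem_iUnion, not_or, not_exists] at hj'
      exact ⟨i, hi, j, hj, fun h => hj'.1 h.symm, fun γ h1 h2 => absurd ⟨hj, h2⟩ (hj'.2 γ h1)⟩

section

variable {K : Type} [LinearOrder K] [WellFoundedLT K] {int : K → Nm K} {bk : K → K}

/-- the union of two conditions -/
def uni (p q : Pc K) (hp : ∀ γ, 2 * (p.F γ).card ≤ p.n γ) (hq : ∀ γ, 2 * (q.F γ).card ≤ q.n γ) :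
    Pc K where
  n := fun γ => max (p.n γ) (q.n γ)
  s := fun γ => if p.n γ = 0 then q.s γ else if q.n γ ≤ p.n γ then p.s γ else q.s γ
  F := fun γ => p.F γ ∪ q.F γ
  fin := by
    refine (p.fin.union q.fin).subset fun γ hγ => ?_
    simp only [Set.mem_ofPred_eq, Set.mem_union] at hγ ⊢
    omega
  hs := by
    intro γ k hk
    have h1 := pos_monoP (le_max_left (p.n γ) (q.n γ))
    have h2 := pos_monoP (le_max_right (p.n γ) (q.n γ))
    split_ifs
    · exact q.hs γ k (h2.trans hk)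
    · exact p.hs γ k (h1.trans hk)
    · exact q.hs γ k (h2.trans hk)
  hF := by
    intro γ
    have h1 := Finset.card_union_le (p.F γ) (q.F γ)
    have h2 := hp γ
    have h3 := hq γ
    omega

theorem uni_In {α : K} {p q : Pc K} (hp : ∀ γ, 2 * (p.F γ).card ≤ p.n γ)
    (hq : ∀ γ, 2 * (q.F γ).card ≤ q.n γ) (h1 : In int bk α p) (h2 : In int bk α q) :
    In int bk α (uni p q hp hq) := by
  rw [In_iff] at h1 h2 ⊢
  refine ⟨fun γ hγ => ?_, fun γ hγ ν hν => ?_⟩
  · show max (p.n γ) (q.n γ) = 0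
    rw [h1.1 γ hγ, h2.1 γ hγ]; rfl
  · rcases Finset.mem_union.1 hν with h | h
    · exact h1.2 γ hγ ν h
    · exact h2.2 γ hγ ν h

theorem uni_le {p q : Pc K} (hp : ∀ γ, 2 * (p.F γ).card ≤ p.n γ)
    (hq : ∀ γ, 2 * (q.F γ).card ≤ q.n γ)
    (hc : ∀ γ, p.n γ ≠ 0 → q.n γ ≠ 0 → p.n γ = q.n γ ∧ p.s γ = q.s γ) (α : K) :
    PLE int α (uni p q hp hq) p ∧ PLE int α (uni p q hp hq) q := by
  constructor
  · rw [PLE_iff]
    intro γ _
    by_cases h0 : p.n γ = 0
    · have h2 := p.F_empty h0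
      refine ⟨by rw [h0]; exact Nat.zero_le _, fun k hk => ?_, by rw [h2]; simp, by rw [h2]; simp⟩
      rw [h0] at hk
      exact absurd hk (Nat.not_lt_zero _)
    · have h1 : q.n γ ≤ p.n γ := by
        by_cases h3 : q.n γ = 0
        · omega
        · exact (hc γ h0 h3).1.ge
      have h2 : (uni p q hp hq).n γ = p.n γ := max_eq_left h1
      refine ⟨h2.ge, fun k _ => ?_, Finset.subset_union_left, fun ν _ l l1 l2 => by omega⟩
      simp [uni, h0, h1]
  · rw [PLE_iff]
    intro γ _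
    by_cases h0 : q.n γ = 0
    · have h2 := q.F_empty h0
      refine ⟨by rw [h0]; exact Nat.zero_le _, fun k hk => ?_, by rw [h2]; simp, by rw [h2]; simp⟩
      rw [h0] at hk
      exact absurd hk (Nat.not_lt_zero _)
    · have h1 : p.n γ ≤ q.n γ := by
        by_cases h3 : p.n γ = 0
        · omega
        · exact (hc γ h3 h0).1.le
      have h2 : (uni p q hp hq).n γ = q.n γ := max_eq_right h1
      refine ⟨h2.ge, fun k _ => ?_, Finset.subset_union_right, fun ν _ l l1 l2 => by omega⟩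
      by_cases h3 : p.n γ = 0
      · simp [uni, h3]
      · obtain ⟨e1, e2⟩ := hc γ h3 h0
        simp [uni, h3, e1.ge, e2]

theorem ccc_P {I : Type} (p : I → Pc K) (hp : ∀ i, ∃ α, In int bk α (p i))
    (inc : ∀ i j, i ≠ j → ¬ ∃ r, (∃ α, In int bk α r) ∧ (∀ β, PLE int β r (p i)) ∧
      ∀ β, PLE int β r (p j)) : Countable I := by
  classical
  by_contra hI
  choose α hα using hp
  choose q q1 q2 q3 using fun i => nice_dense (α i) (p i) (hα i)
  obtain ⟨m, hm⟩ : ∃ m : ℕ, ¬ {i | (q i).fin.toFinset.card ≤ m}.Countable := by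
    by_contra hcon
    push Not at hcon
    apply hI
    rw [← Set.countable_univ_iff]
    refine (Set.countable_iUnion hcon).mono fun i _ => ?_
    exact Set.mem_iUnion.2 ⟨(q i).fin.toFinset.card, le_refl (q i).fin.toFinset.card⟩
  obtain ⟨i, -, j, -, hij, h⟩ := color_pair
    (fun i γ => ((q i).n γ, (List.range (pos ((q i).n γ))).map ((q i).s γ))) m _ hm
      (fun i => (q i).fin.toFinset) (fun i hi => hi)
  have hc : ∀ γ, (q i).n γ ≠ 0 → (q j).n γ ≠ 0 → (q i).n γ = (q j).n γ ∧ (q i).s γ = (q j).s γ := by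
    intro γ h1 h2
    have h3 := h γ (by simpa using h1) (by simpa using h2)
    rw [Prod.mk.injEq] at h3
    refine ⟨h3.1, funext fun k => ?_⟩
    by_cases hk : k < pos ((q i).n γ)
    · have h4 := h3.2
      rw [← h3.1] at h4
      exact List.map_eq_map_iff.1 h4 k (List.mem_range.2 hk)
    · rw [(q i).hs γ k (not_lt.1 hk), (q j).hs γ k (by rw [← h3.1]; exact not_lt.1 hk)]
  apply inc i j hij
  refine ⟨uni (q i) (q j) (q3 i) (q3 j), ⟨max (α i) (α j), uni_In _ _
    ((q1 i).mono (le_max_left _ _)) ((q1 j).mono (le_max_right _ _))⟩, fun β => ?_, fun β => ?_⟩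
  · exact (uni_le (q3 i) (q3 j) hc β).1.trans (PLE.of_le (hα i) (q2 i))
  · exact (uni_le (q3 i) (q3 j) hc β).2.trans (PLE.of_le (hα j) (q2 j))

end

end Pool.Agent.MP9096b7
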