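import Pool.Agent.Lib.helper63.Ult

/-! The filter of the comeager sets of ultrafilters and the sets with the Baire property. -/

set_option autoImplicit false

namespace Pool.Agent.MP9096b7

open Filter MeasureTheory BVM

universe u

variable {B : Type u} [CompleteBooleanAlgebra B]

/-- A decreasing sequence of nonzero elements is contained in an ultrafilter. -/
theorem exists_ult (b : ℕ → B) (hb : Antitone b) (h0 : ∀ n, b n ≠ ⊥) :
    ∃ h : Ult B, ∀ n, h.V (b n) := by
  classical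
  let F : Order.PFilter B := ⟨⟨⟨{x | ∃ n, b n ≤ OrderDual.ofDual x}, by
      intro x y hxy hx
      obtain ⟨n, hn⟩ := hx
      exact ⟨n, hn.trans hxy⟩⟩, ⟨OrderDual.toDual (b 0), 0, le_rfl⟩, by
      rintro x ⟨n, hn⟩ y ⟨m, hm⟩
      refine ⟨OrderDual.toDual (b (max n m)), ⟨max n m, le_rfl⟩, ?_, ?_⟩
      · exact (hb (le_max_left n m)).trans hn
      · exact (hb (le_max_right n m)).trans hm⟩⟩
  have hF : ∀ x : B, x ∈ F ↔ ∃ n, b n ≤ x := fun x => Iff.rfl
  have hd : Disjoint (F : Set B) (Order.Ideal.principal (⊥ : B) : Set B) := by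
    rw [Set.disjoint_left]
    intro x hx hx'
    obtain ⟨n, hn⟩ := (hF x).1 hx
    simp only [SetLike.mem_coe, Order.Ideal.mem_principal, le_bot_iff] at hx'
    subst hx'
    exact h0 n (le_bot_iff.1 hn)
  obtain ⟨J, hJ, -, hJd⟩ := DistribLattice.prime_ideal_of_disjoint_filter_ideal hd
  refine ⟨⟨fun x => x ∉ J, ?_, ?_, ?_⟩, ?_⟩
  · exact Order.Ideal.isProper_iff_top_notMem.1 hJ.toIsProper
  · intro x y
    constructor
    · intro hxy
      exact ⟨fun hx => hxy (J.lower inf_le_left hx), fun hy => hxy (J.lower inf_le_right hy)⟩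
    · rintro ⟨hx, hy⟩ hxy
      rcases hJ.mem_or_mem hxy with h | h
      · exact hx h
      · exact hy h
  · intro x
    constructor
    · intro hx hx'
      exact hx (hJ.compl_mem_of_notMem hx')
    · intro hx hx'
      rw [not_not] at hx
      exact (hJ.toIsProper.notMem_of_compl_mem hx') hx
  · intro n hb'
    exact (Set.disjoint_left.1 hJd) ((hF _).2 ⟨n, le_rfl⟩) hb'

variable (B) in
/-- The filter of the comeager sets of ultrafilters. -/
def genN : Filter (Ult B) where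
  sets := {A | ∃ D : ℕ → Set B, (∀ n, sSup (D n) = ⊤) ∧
    ∀ ω : Ult B, (∀ n, ∃ d ∈ D n, ω.V d) → ω ∈ A}
  univ_sets := ⟨fun _ => {⊤}, fun _ => sSup_singleton, fun _ _ => trivial⟩
  sets_of_superset := by
    rintro A A' ⟨D, h1, h2⟩ hA
    exact ⟨D, h1, fun ω h => hA (h2 ω h)⟩
  inter_sets := by
    rintro A A' ⟨D, h1, h2⟩ ⟨D', h1', h2'⟩
    refine ⟨fun n => if Even n then D (n / 2) else D' (n / 2), fun n => ?_, fun ω h => ⟨?_, ?_⟩⟩
    · dsimp only
      split_ifs
      · exact h1 _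
      · exact h1' _
    · refine h2 ω fun n => ?_
      have := h (2 * n)
      simpa using this
    · refine h2' ω fun n => ?_
      have := h (2 * n + 1)
      have e1 : ¬ Even (2 * n + 1) := by
        rw [Nat.not_even_iff_odd]; exact odd_two_mul_add_one n
      have e2 : (2 * n + 1) / 2 = n := by omega
      simpa only [e1, if_false, e2] using this

theorem mem_genN {A : Set (Ult B)} : A ∈ genN B ↔ ∃ D : ℕ → Set B, (∀ n, sSup (D n) = ⊤) ∧
    ∀ ω : Ult B, (∀ n, ∃ d ∈ D n, ω.V d) → ω ∈ A := Iff.rfl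

instance : CountableInterFilter (genN B) := ⟨by
  intro S hS hA
  rcases S.eq_empty_or_nonempty with rfl | hne
  · simp
  obtain ⟨f, rfl⟩ := hS.exists_eq_range hne
  have h1 : ∀ n, f n ∈ genN B := fun n => hA _ ⟨n, rfl⟩
  simp only [mem_genN] at h1
  choose D hD hD' using h1
  refine ⟨fun k => D k.unpair.1 k.unpair.2, fun n => hD _ _, fun ω h => ?_⟩
  rintro _ ⟨n, rfl⟩
  refine hD' n ω fun k => ?_
  have := h (Nat.pair n k)
  simpa using this⟩

/-- An arbitrary supremum is evaluated pointwise, up to a meager set. -/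
theorem gen_iSup {ι : Sort*} (b : ι → B) : ∀ᶠ ω in genN B, (ω.V (⨆ i, b i) ↔ ∃ i, ω.V (b i)) := by
  refine mem_genN.2 ⟨fun _ => Set.range b ∪ {(⨆ i, b i)ᶜ}, fun _ => ?_, fun ω h => ?_⟩
  · rw [sSup_union, sSup_range, sSup_singleton, sup_compl_eq_top]
  · constructor
    · intro h1
      obtain ⟨d, hd, hd'⟩ := h 0
      rcases hd with ⟨i, rfl⟩ | hd
      · exact ⟨i, hd'⟩
      · rw [Set.mem_singleton_iff.1 hd, ω.compl'] at hd'
        exact absurd h1 hd'
    · rintro ⟨i, hi⟩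
      exact ω.iSup_of b i hi

/-- An arbitrary infimum is evaluated pointwise, up to a meager set. -/
theorem gen_iInf {ι : Sort*} (b : ι → B) : ∀ᶠ ω in genN B, (ω.V (⨅ i, b i) ↔ ∀ i, ω.V (b i)) := by
  filter_upwards [gen_iSup (fun i => (b i)ᶜ)] with ω h
  have h1 : (⨅ i, b i) = (⨆ i, (b i)ᶜ)ᶜ := by rw [compl_iSup]; simp
  rw [h1, ω.compl', h, not_exists]
  refine forall_congr' fun i => ?_
  rw [ω.compl', not_not]

/-- Comeager sets meet all nonempty open sets. -/
theorem gen_exists {A : Set (Ult B)} (hA : A ∈ genN B) {b : B} (hb : b ≠ ⊥) :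
    ∃ ω ∈ A, ω.V b := by
  classical
  obtain ⟨D, h1, h2⟩ := mem_genN.1 hA
  have key : ∀ n (c : {c : B // c ≠ ⊥}), ∃ c' : {c : B // c ≠ ⊥}, c'.1 ≤ c.1 ∧ ∃ d ∈ D n, c'.1 ≤ d := by
    rintro n ⟨c, hc⟩
    have h3 : c ⊓ sSup (D n) ≠ ⊥ := by rw [h1, inf_top_eq]; exact hc
    rw [inf_sSup_eq] at h3
    have : ∃ d ∈ D n, c ⊓ d ≠ ⊥ := by
      by_contra hcon
      push Not at hcon
      apply h3
      rw [eq_bot_iff]
      exact iSup₂_le fun d hd => (hcon d hd).le
    obtain ⟨d, hd, hd'⟩ := this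
    exact ⟨⟨c ⊓ d, hd'⟩, inf_le_left, d, hd, inf_le_right⟩
  choose g hg1 hg2 using key
  let s : ℕ → {c : B // c ≠ ⊥} := fun n => Nat.rec ⟨b, hb⟩ (fun n c => g n c) n
  have hs : ∀ n, s (n + 1) = g n (s n) := fun n => rfl
  have hanti : Antitone fun n => (s n).1 := antitone_nat_of_succ_le fun n => by
    rw [hs]; exact hg1 _ _
  obtain ⟨ω, hω⟩ := exists_ult (fun n => (s n).1) hanti fun n => (s n).2
  refine ⟨ω, h2 ω fun n => ?_, hω 0⟩
  obtain ⟨d, hd, hd'⟩ := hg2 n (s n)
  exact ⟨d, hd, ω.mono hd' (by rw [← hs]; exact hω (n + 1))⟩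

theorem le_iff_gen {a b : B} : a ≤ b ↔ ∀ᶠ ω in genN B, ω.V a → ω.V b := by
  constructor
  · intro h
    exact Eventually.of_forall fun ω => ω.mono h
  · intro h
    by_contra hab
    have hne : a ⊓ bᶜ ≠ ⊥ := by
      intro h0
      apply hab
      have := disjoint_iff.2 h0
      exact (le_compl_iff_disjoint_right.2 this).trans (compl_compl b).le
    obtain ⟨ω, hω, hω'⟩ := gen_exists h hne
    rw [ω.inf', ω.compl'] at hω'
    exact hω'.2 (hω hω'.1)

theorem eq_bot_iff_gen {a : B} : a = ⊥ ↔ ∀ᶠ ω in genN B, ¬ ω.V a := by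
  rw [← le_bot_iff, le_iff_gen]
  exact eventually_congr (Eventually.of_forall fun ω => ⟨fun h ha => ω.bot (h ha), fun h ha => (h ha).elim⟩)

theorem eq_iff_gen {a b : B} : a = b ↔ ∀ᶠ ω in genN B, (ω.V a ↔ ω.V b) := by
  constructor
  · rintro rfl; exact Eventually.of_forall fun ω => Iff.rfl
  · intro h
    apply le_antisymm
    · exact le_iff_gen.2 (h.mono fun ω h => h.1)
    · exact le_iff_gen.2 (h.mono fun ω h => h.2)

variable (B) in
/-- The σ-algebra of the sets which are equal to a clopen set modulo a meager set. -/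
@[reducible]
def genM : MeasurableSpace (Ult B) where
  MeasurableSet' A := ∃ b : B, ∀ᶠ ω in genN B, (ω ∈ A ↔ ω.V b)
  measurableSet_empty := ⟨⊥, Eventually.of_forall fun ω => ⟨fun h => h.elim, fun h => ω.bot h⟩⟩
  measurableSet_compl := by
    rintro A ⟨b, hb⟩
    refine ⟨bᶜ, hb.mono fun ω h => ?_⟩
    rw [ω.compl', ← h]; rfl
  measurableSet_iUnion := by
    intro f hf
    choose b hb using hf
    refine ⟨⨆ n, b n, ?_⟩
    filter_upwards [eventually_countable_forall.2 hb, gen_iSup b] with ω h1 h2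
    rw [h2, Set.mem_iUnion]
    exact exists_congr h1

theorem genM_iff {A : Set (Ult B)} :
    MeasurableSet[genM B] A ↔ ∃ b : B, ∀ᶠ ω in genN B, (ω ∈ A ↔ ω.V b) := Iff.rfl

theorem genM_V (b : B) : MeasurableSet[genM B] {ω : Ult B | ω.V b} :=
  ⟨b, Eventually.of_forall fun _ => Iff.rfl⟩

end Pool.Agent.MP9096b7
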