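import Pool.Agent.MP_9096b7_lc.Trans

/-! The generic functions. -/

set_option autoImplicit false
set_option linter.unusedSectionVars false

namespace Pool.Agent.MP9096b7

open Filter MeasureTheory

section

variable {K : Type} [LinearOrder K] [WellFoundedLT K] {int : K → Nm K} {bk : K → K}

variable {X : Type} {N : Filter X} {G : X → Pc K → Prop}

/-- replace the side conditions at `γ` -/
def side (γ : K) (p : Pc K) (E : Finset K) (hE : E.card ≤ p.n γ) : Pc K where
  n := p.n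
  s := p.s
  F := fun δ => if δ = γ then E else p.F δ
  fin := p.fin
  hs := p.hs
  hF := by
    intro δ
    split_ifs with h
    · rw [h]; exact hE
    · exact p.hF δ

theorem side_agree (γ : K) (p : Pc K) (E : Finset K) (hE : E.card ≤ p.n γ) :
    PAgree γ (side γ p E hE) p := by
  intro δ hδ
  simp [side, hδ.ne]

/-- a condition with given data at `γ` -/
def cnd (γ : K) (q : Pc K) (n : ℕ) (s : ℕ → ℕ) (E : Finset K) (hE : E.card ≤ n) : Pc K where
  n := fun δ => if δ < γ then q.n δ else if δ = γ then n else 0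
  s := fun δ => if δ < γ then q.s δ else if δ = γ then (fun k => if k < pos n then s k else 0)
    else fun _ => 0
  F := fun δ => if δ < γ then q.F δ else if δ = γ then E else ∅
  fin := by
    refine (q.fin.union (Set.finite_singleton γ)).subset fun δ hδ => ?_
    simp only [Set.mem_ofPred_eq, Set.mem_union, Set.mem_singleton_iff] at hδ ⊢
    split_ifs at hδ with h h'
    · exact Or.inl hδ
    · exact Or.inr h'
    · exact absurd rfl hδ
  hs := by
    intro δ k
    split_ifs with h h'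
    · exact q.hs δ k
    · intro hk
      show (if k < pos n then s k else 0) = 0
      rw [if_neg (by omega)]
    · exact fun _ => rfl
  hF := by
    intro δ
    split_ifs with h h'
    · exact q.hF δ
    · exact hE
    · simp

theorem cnd_agree (γ : K) (q : Pc K) (n : ℕ) (s : ℕ → ℕ) (E : Finset K) (hE : E.card ≤ n) :
    PAgree γ (cnd γ q n s E hE) q := by
  intro δ hδ
  simp [cnd, hδ]

namespace Gnc

variable (g : Gnc int bk N G)
include g

open Classical in
/-- the generic function -/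
noncomputable def gf (_ : Gnc int bk N G) (γ : K) (ω : X) (k : ℕ) : ℕ :=
  if h : ∃ p, G ω p ∧ k < pos (p.n γ) then h.choose.s γ k else 0

theorem gf_eq {γ δ : K} (hγ : γ < δ) {ω : X} {p : Pc K} (hp : G ω p) {k : ℕ}
    (hk : k < pos (p.n γ)) : g.gf γ ω k = p.s γ k := by
  have h1 : ∃ p, G ω p ∧ k < pos (p.n γ) := ⟨p, hp, hk⟩
  rw [gf, dif_pos h1]
  obtain ⟨h2, h3⟩ := h1.choose_spec
  obtain ⟨r, -, r1, r2⟩ := g.g2 ω _ p h2 hp
  have e1 := (PLE_iff.1 (r1 δ) γ hγ).2.1 k h3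
  have e2 := (PLE_iff.1 (r2 δ) γ hγ).2.1 k hk
  rw [← e1, e2]

theorem gf_ex {γ δ : K} (hγ : γ < δ) (k : ℕ) :
    ∀ᶠ ω in N, ∃ p, In int bk δ p ∧ G ω p ∧ k < pos (p.n γ) := by
  have h1 := g.g3 (fun r => k < pos (r.n γ)) (by
    rintro p ⟨β, hp⟩
    obtain ⟨q, q1, q2, q3, -, -⟩ := ext_many (lt_max_of_lt_left hγ : γ < max δ β) (k + 1)
      (hp.mono (le_max_right δ β))
    refine ⟨q, q1.isP, ?_, q2.let (hp.mono (le_max_right δ β))⟩
    have := le_posP (q.n γ)
    omega)
  filter_upwards [h1] with ω hω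
  obtain ⟨p, hp, hp'⟩ := hω
  obtain ⟨β, hβ⟩ := g.g0 ω p hp'
  refine ⟨res δ p, res_In hβ, g.of_ple hp' (res_In hβ) (le_res δ), ?_⟩
  rw [(res_agree δ p γ hγ).1]
  exact hp

variable [CountableInterFilter N]

theorem gf_meas {γ δ : K} (hγ : γ < δ) : Measurable[g.m δ] (g.gf γ) := by
  let _ := g.m δ
  refine measurable_pi_iff.2 fun k => measurable_to_countable' fun v => ?_
  refine ⟨{p | In int bk δ p ∧ k < pos (p.n γ) ∧ p.s γ k = v}, fun p hp => hp.1, ?_⟩
  filter_upwards [g.gf_ex hγ k] with ω hω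
  simp only [Set.mem_preimage, Set.mem_singleton_iff]
  constructor
  · intro h
    obtain ⟨p, h1, h2, h3⟩ := hω
    rw [g.gf_eq hγ h2 h3] at h
    exact ⟨p, ⟨h1, h3, h⟩, h2⟩
  · rintro ⟨p, ⟨h1, h2, h3⟩, h4⟩
    rw [g.gf_eq hγ h4 h2, h3]

/-- the bound is respected -/
theorem bd_ev {γ ν : K} (h1 : OK int bk γ (int ν)) (h2 : Bd int bk γ (int ν) (bn int bk γ)) :
    ∀ᶠ ω in N, ∀ k, g.val (int ν) ω k ≤ g.val (bn int bk γ) ω k := by
  filter_upwards [g.val_ex h1, g.val_ex (bn_OK γ)] with ω e1 e2 k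
  obtain ⟨i, hi⟩ := e1 k
  obtain ⟨i', hi'⟩ := e2 k
  rw [g.val_eq h1 hi, g.val_eq (bn_OK γ) hi']
  obtain ⟨r, r1, r2, r3⟩ := g.comp_res (α := γ) hi hi'
  exact h2 k i i' r r1 r2 r3

theorem gen_dense {γ δ : K} (hγ : γ ⋖ δ) {A : Set X} (hA : MeasurableSet[g.m δ] A)
    (h0 : Aᶜ ∉ N) :
    ∃ (C : Set X) (n : ℕ) (s : ℕ → ℕ) (j : ℕ) (F : ℕ → X → ℕ → ℕ),
      MeasurableSet[g.m γ] C ∧ Cᶜ ∉ N ∧ j ≤ n ∧
      (∀ i, Measurable[g.m γ] (F i) ∧ ∀ ω k, F i ω k ≤ g.val (bn int bk γ) ω k) ∧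
      ∀ᶠ ω in N, ω ∈ C → ω ∈ ev (g.gf γ) n s j F → ω ∈ A := by
  classical
  obtain ⟨p, hp, hpA⟩ := g.cone hA h0
  have hpF := (In_iff.1 hp).2 γ hγ.lt
  let ν : Fin (p.F γ).card → K := fun i => ((p.F γ).equivFin.symm i).1
  have hν : ∀ i, ν i ∈ p.F γ := fun i => ((p.F γ).equivFin.symm i).2
  have hν' : ∀ κ ∈ p.F γ, ∃ i, ν i = κ := fun κ hκ => ⟨(p.F γ).equivFin ⟨κ, hκ⟩, by simp [ν]⟩
  let F : ℕ → X → ℕ → ℕ := fun i ω k => if h : i < (p.F γ).card then
    min (g.val (int (ν ⟨i, h⟩)) ω k) (g.val (bn int bk γ) ω k) else 0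
  refine ⟨{ω | G ω (res γ p)}, p.n γ, p.s γ, (p.F γ).card, F, g.m_cone (res_In hp),
    g.nonnull (res_In (α := γ) hp).isP (Eventually.of_forall fun ω h => h), p.hF γ, fun i => ⟨?_, fun ω k => ?_⟩, ?_⟩
  · let _ := g.m γ
    by_cases h : i < (p.F γ).card
    · have h1 := g.val_meas (hpF _ (hν ⟨i, h⟩)).1
      have h2 := g.val_meas (bn_OK (int := int) (bk := bk) γ)
      refine measurable_pi_iff.2 fun k => ?_
      have h3 : (fun ω => F i ω k) =
          fun ω => min (g.val (int (ν ⟨i, h⟩)) ω k) (g.val (bn int bk γ) ω k) := by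
        funext ω
        simp only [F, dif_pos h]
      rw [h3]
      exact (measurable_pi_iff.1 h1 k).min (measurable_pi_iff.1 h2 k)
    · have h3 : F i = fun _ _ => 0 := by
        funext ω k
        simp only [F, dif_neg h]
      rw [h3]
      exact measurable_const
  · simp only [F]
    split_ifs
    · exact min_le_right _ _
    · exact Nat.zero_le _
  · have hD := g.g3 (fun r => LEt int r p ∨ (¬ ∃ t, IsP int bk t ∧ LEt int t (res γ p) ∧ LEt int t r) ∨
      (p.n γ ≤ r.n γ ∧ ∃ k < pos (p.n γ), r.s γ k ≠ p.s γ k) ∨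
      ∃ κ ∈ p.F γ, ∃ l, p.n γ ≤ l ∧ l < r.n γ ∧ ∀ k, pos l ≤ k → k < pos (l + 1) →
        ∃ i, PLE int γ r (int κ k i).1 ∧ r.s γ k ≠ (int κ k i).2) (by
      rintro r0 ⟨β, hr0⟩
      have hr0' := hr0.mono (le_max_right δ β)
      have hγβ : γ < max δ β := lt_max_of_lt_left hγ.lt
      obtain ⟨r1, a1, a2, a3, a4, -⟩ := ext_many hγβ
        (2 * (r0.F γ).card + 2 * (p.F γ).card + p.n γ) hr0'
      by_cases hc : ∃ t, IsP int bk t ∧ LEt int t (res γ p) ∧ LEt int t r1
      swap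
      · exact ⟨r1, a1.isP, Or.inr (Or.inl hc), a2.let hr0'⟩
      obtain ⟨t, ⟨β', t1⟩, t2, t3⟩ := hc
      have b1 : PLE int γ (res γ t) r1 := (res_agree γ t).ple.trans (t3 γ)
      have b2 : PLE int γ (res γ t) p := ((res_agree γ t).ple.trans (t2 γ)).trans
        (res_agree γ p).ple
      obtain ⟨u, u1, u2, u3⟩ := decide_fin (int := int) (bk := bk) (γ := γ)
        ((p.F γ) ×ˢ (Finset.range (pos (r1.n γ)))) (by
          intro z hz
          exact (hpF _ (Finset.mem_product.1 hz).1).1) (res_In (α := γ) t1)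
      have c1 : PLE int γ u r1 := u2.trans b1
      have c2 : PLE int γ u p := u2.trans b2
      have d1 : In int bk (max δ β) (amal γ u r1) := amal_In hγβ.le (u1.mono hγβ.le) a1
      have d2 : LEt int (amal γ u r1) r0 := LEt.trans (fun δ => amal_le c1) (a2.let hr0')
      have d3 : (amal γ u r1).n γ = r1.n γ := (amal_high le_rfl).1
      have d4 : (amal γ u r1).F γ = r0.F γ := (amal_high le_rfl).2.2.trans a4
      by_cases e1 : ∃ k < pos (p.n γ), (amal γ u r1).s γ k ≠ p.s γ k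
      · exact ⟨_, d1.isP, Or.inr (Or.inr (Or.inl ⟨by rw [d3, a3]; omega, e1⟩)), d2⟩
      by_cases e2 : ∃ κ ∈ p.F γ, ∃ l, p.n γ ≤ l ∧ l < (amal γ u r1).n γ ∧ ∀ k, pos l ≤ k →
        k < pos (l + 1) → ∃ i, PLE int γ (amal γ u r1) (int κ k i).1 ∧
          (amal γ u r1).s γ k ≠ (int κ k i).2
      · exact ⟨_, d1.isP, Or.inr (Or.inr (Or.inr e2)), d2⟩
      push Not at e1 e2
      have hE : ((amal γ u r1).F γ ∪ p.F γ).card ≤ (amal γ u r1).n γ := by
        refine (Finset.card_union_le _ _).trans ?_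
        rw [d4, d3, a3]
        omega
      have hag := side_agree γ (amal γ u r1) _ hE
      have f0 : In int bk (max δ β) (side γ (amal γ u r1) _ hE) := by
        rw [In_iff] at d1 ⊢
        refine ⟨d1.1, fun ε hε κ hκ => ?_⟩
        by_cases h : ε = γ
        · subst h
          simp only [side, if_true, Finset.mem_union] at hκ
          rcases hκ with hκ | hκ
          · exact d1.2 ε hε κ hκ
          · exact hpF κ hκ
        · simp only [side, h, if_false] at hκ
          exact d1.2 ε hε κ hκ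
      have f1 : LEt int (side γ (amal γ u r1) _ hE) (amal γ u r1) := by
        intro α
        rw [PLE_iff]
        intro ε _
        refine ⟨le_rfl, fun _ _ => rfl, ?_, fun κ _ l l1 l2 => ?_⟩
        · by_cases h : ε = γ
          · subst h
            simp [side]
          · simp [side, h]
        · have : (side γ (amal γ u r1) _ hE).n ε = (amal γ u r1).n ε := rfl
          omega
      have f2 : PLE int δ (side γ (amal γ u r1) _ hE) p := by
        rw [PLE_iff]
        intro ε hε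
        have hε' : ε ≤ γ := hγ.le_of_lt hε
        rcases hε'.lt_or_eq with h | h
        · exact PLE_iff.1 ((PLE.congr_left hag).2 (amal_le_left.trans c2)) ε h
        · subst h
          refine ⟨?_, ?_, ?_, ?_⟩
          · show p.n ε ≤ (amal ε u r1).n ε
            rw [d3, a3]; omega
          · exact e1
          · simp [side]
          · intro κ hκ l l1 l2
            obtain ⟨k, k1, k2, k3⟩ := e2 κ hκ l l1 l2
            have l3 : l < (amal ε u r1).n ε := l2
            obtain ⟨i, hi⟩ := u3 (κ, k) (Finset.mem_product.2 ⟨hκ, Finset.mem_range.2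
              (k2.trans_le (pos_monoP (by rw [← d3]; exact l3)))⟩)
            have hi' : PLE int ε (amal ε u r1) (int κ k i).1 := amal_le_left.trans hi
            exact ⟨k, k1, k2, i, (PLE.congr_left hag).2 hi', k3 i hi'⟩
      exact ⟨_, f0.isP, Or.inl (f2.let hp), f1.trans d2⟩)
    have hval : ∀ᶠ ω in N, ∀ i, F i ω = if h : i < (p.F γ).card then g.val (int (ν ⟨i, h⟩)) ω
        else fun _ => 0 := by
      rw [eventually_countable_forall]
      intro i
      by_cases h : i < (p.F γ).card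
      · filter_upwards [g.bd_ev (hpF _ (hν ⟨i, h⟩)).1 (hpF _ (hν ⟨i, h⟩)).2] with ω hω
        rw [dif_pos h]
        funext k
        simp only [F, dif_pos h]
        exact min_eq_left (hω k)
      · refine Eventually.of_forall fun ω => ?_
        rw [dif_neg h]
        funext k
        simp only [F, dif_neg h]
    filter_upwards [hpA, hD, hval] with ω h1 h2 h3 h4 h5
    apply h1
    obtain ⟨r, hr, hr'⟩ := h2
    rcases hr with hr | hr | ⟨hr, k, hk, hk'⟩ | ⟨κ, hκ, l, l1, l2, hl⟩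
    · exact g.g1 ω r p hr' hp.isP hr
    · exact absurd (g.g2 ω _ r h4 hr') hr
    · exfalso
      have e1 := g.gf_eq hγ.lt hr' (hk.trans_le (pos_monoP hr))
      exact hk' (e1.symm.trans (h5.1 k hk))
    · exfalso
      obtain ⟨i, rfl⟩ := hν' κ hκ
      obtain ⟨k, k1, k2, k3⟩ := h5.2 i.1 i.2 l l1
      rw [h3 i.1, dif_pos i.2] at k3
      obtain ⟨i', e1, e2⟩ := hl k k1 k2
      have e3 := g.gf_eq hγ.lt hr' (k2.trans_le (pos_monoP l2))
      have e4 := g.val_eq (hpF _ hκ).1 (g.of_ple hr' ((hpF _ hκ).1.1 k i') e1)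
      rw [e3] at k3
      exact e2 (k3.trans e4)

theorem gen_pos [NeBot N] (hint : Function.Surjective int) {γ δ : K} (hγ : γ ⋖ δ) {C : Set X} {n : ℕ}
    {s : ℕ → ℕ} {j : ℕ} {F : ℕ → X → ℕ → ℕ} (hC : MeasurableSet[g.m γ] C) (h0 : Cᶜ ∉ N)
    (hj : j ≤ n) (hF : ∀ i, Measurable[g.m γ] (F i) ∧ ∀ ω k, F i ω k ≤ g.val (bn int bk γ) ω k) :
    (C ∩ ev (g.gf γ) n s j F)ᶜ ∉ N := by
  classical
  obtain ⟨q, hq, hqC⟩ := g.cone hC h0
  have h1 : ∀ i, ∃ ν, OK int bk γ (int ν) ∧ ∀ᶠ ω in N, g.val (int ν) ω = F i ω := by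
    intro i
    obtain ⟨x, hx, hx'⟩ := g.exists_name (hF i).1
    obtain ⟨ν, rfl⟩ := hint x
    exact ⟨ν, hx, hx'⟩
  choose ν hν hν' using h1
  have hbd : ∀ i, Bd int bk γ (int (ν i)) (bn int bk γ) := by
    intro i k a a' r hr e1 e2
    obtain ⟨ω, o1, o2⟩ := g.g4 _ (hν' i) r hr.isP
    have o1 : g.val (int (ν i)) ω = F i ω := o1
    have e3 := g.val_eq (hν i) (g.of_ple o2 ((hν i).1 k a) e1)
    have e4 := g.val_eq (bn_OK γ) (g.of_ple o2 ((bn_OK γ).1 k a') e2)
    rw [← e3, ← e4, o1]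
    exact (hF i).2 ω k
  have hE : ((Finset.range j).image ν).card ≤ n :=
    Finset.card_image_le.trans (by rw [Finset.card_range]; exact hj)
  have hp : In int bk δ (cnd γ q n s _ hE) := by
    rw [In_iff]
    constructor
    · intro ε hε
      have e1 : ¬ ε < γ := not_lt.2 (hγ.lt.le.trans hε)
      have e2 : ε ≠ γ := (hγ.lt.trans_le hε).ne'
      simp [cnd, e1, e2]
    · intro ε hε κ hκ
      rcases (hγ.le_of_lt hε).lt_or_eq with h | h
      · simp only [cnd, h, if_true] at hκ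
        exact (In_iff.1 hq).2 ε h κ hκ
      · subst h
        simp only [cnd, lt_irrefl, if_false, if_true, Finset.mem_image] at hκ
        obtain ⟨i, -, rfl⟩ := hκ
        exact ⟨hν i, hbd i⟩
  refine g.nonnull hp.isP ?_
  have hpn : (cnd γ q n s _ hE).n γ = n := by simp [cnd]
  have hps : ∀ k < pos n, (cnd γ q n s _ hE).s γ k = s k := by
    intro k hk
    simp [cnd, hk]
  have hpF : ∀ i < j, ν i ∈ (cnd γ q n s _ hE).F γ := by
    intro i hi
    simp only [cnd, lt_irrefl, if_false, if_true]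
    exact Finset.mem_image_of_mem _ (Finset.mem_range.2 hi)
  have h2 : ∀ᶠ ω in N, ∀ l, G ω (cnd γ q n s _ hE) → ∃ r, (LEt int r (cnd γ q n s _ hE) ∧
      l < r.n γ) ∧ G ω r := by
    rw [eventually_countable_forall]
    intro l
    refine g.below (cnd γ q n s _ hE) (fun r => LEt int r (cnd γ q n s _ hE) ∧ l < r.n γ) ?_
    rintro r ⟨β, hr⟩ hr'
    obtain ⟨t, t1, t2, t3, -, -⟩ := ext_many (lt_max_of_lt_left hγ.lt : γ < max δ β) (l + 1)
      (hr.mono (le_max_right δ β))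
    have t4 := t2.let (hr.mono (le_max_right δ β))
    exact ⟨t, t1.isP, ⟨t4.trans hr', by omega⟩, t4⟩
  filter_upwards [hqC, h2, eventually_countable_forall.2 hν'] with ω e1 e2 e3 hω
  refine ⟨e1 (g.of_ple hω hq (cnd_agree γ q n s _ hE).ple), fun k hk => ?_, fun i hi l hl => ?_⟩
  · rw [g.gf_eq hγ.lt hω (by rw [hpn]; exact hk), hps k hk]
  · obtain ⟨r, ⟨r1, r2⟩, r3⟩ := e2 l hω
    obtain ⟨-, -, -, r4⟩ := PLE_iff.1 (r1 δ) γ hγ.lt
    obtain ⟨k, k1, k2, a, a1, a2⟩ := r4 (ν i) (hpF i hi) l (by rw [hpn]; exact hl) r2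
    refine ⟨k, k1, k2, ?_⟩
    rw [g.gf_eq hγ.lt r3 (k2.trans_le (pos_monoP r2)), a2, ← e3 i,
      g.val_eq (hν i) (g.of_ple r3 ((hν i).1 k a) a1)]

end Gnc

end

end Pool.Agent.MP9096b7
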