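import Pool.Agent.Lib.helper63.Completion
import Pool.Agent.MP_9096b7_lc.Gen
import Pool.Agent.MP_9096b7_lc.Generic

/-! The existence of the iteration. -/

set_option autoImplicit false
set_option linter.unusedSectionVars false

namespace Pool.Agent.MP9096b7

open Filter MeasureTheory BVM Cardinal Gnc

section

variable {K : Type} [LinearOrder K] [WellFoundedLT K] {int : K → Nm K} {bk : K → K}

/-- the preorder of the conditions -/
@[reducible]
def preP (int : K → Nm K) (bk : K → K) : Preorder {p : Pc K // IsP int bk p} where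
  le p q := LEt int p.1 q.1
  le_refl p := LEt.refl p.1
  le_trans _ _ _ h h' := LEt.trans h h'

theorem exists_gnc (int : K → Nm K) (bk : K → K) [Nonempty K] :
    ∃ (B : Type) (_ : CompleteBooleanAlgebra B) (G : Ult B → Pc K → Prop),
      Gnc int bk (genN B) G ∧ Nonempty (Ult B) ∧
        (∀ A, MeasurableSet[genM B] A → ∃ S : Set (Pc K), (∀ p ∈ S, IsP int bk p) ∧
          ∀ᶠ ω in genN B, (ω ∈ A ↔ ∃ p ∈ S, G ω p)) ∧
        ∀ (A : Set (Ult B)) (S : Set (Pc K)), (∀ᶠ ω in genN B, (ω ∈ A ↔ ∃ p ∈ S, G ω p)) →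
          MeasurableSet[genM B] A := by
  classical
  obtain ⟨B, iB, em, h1, h2, h3, h4⟩ :=
    @exists_completion {p : Pc K // IsP int bk p} (preP int bk)
  have hb : ∀ b : B, b = ⨆ p : {p // em p ≤ b}, em p.1 := by
    intro b
    apply le_antisymm
    · by_contra hcon
      have hne : b ⊓ (⨆ p : {p // em p ≤ b}, em p.1)ᶜ ≠ ⊥ := by
        intro h0
        exact hcon ((le_compl_iff_disjoint_right.2 (disjoint_iff.2 h0)).trans
          (compl_compl _).le)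
      obtain ⟨p, hp⟩ := h3 _ hne
      have e1 : em p ≤ ⨆ p : {p // em p ≤ b}, em p.1 :=
        le_iSup (fun p : {p // em p ≤ b} => em p.1) ⟨p, hp.trans inf_le_left⟩
      have e2 : em p ≤ ⊥ := by
        have := le_inf e1 (hp.trans inf_le_right)
        rwa [inf_compl_self] at this
      exact h1 p (le_bot_iff.1 e2)
    · exact iSup_le fun p => p.2
  refine ⟨B, iB, fun ω p => ∃ h : IsP int bk p, ω.V (em ⟨p, h⟩), ?_, ?_, ?_, ?_⟩
  · constructor
    · rintro ω p ⟨h, -⟩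
      exact h
    · rintro ω p q ⟨h, h'⟩ hq hpq
      exact ⟨hq, ω.mono (h2 ⟨p, h⟩ ⟨q, hq⟩ hpq) h'⟩
    · rintro ω p q ⟨hp, hp'⟩ ⟨hq, hq'⟩
      obtain ⟨⟨r, hr⟩, r1, r2⟩ := h4 ⟨p, hp⟩ ⟨q, hq⟩
        (Ult.ne_bot (h := ω) ((ω.inf' _ _).2 ⟨hp', hq'⟩))
      exact ⟨r, hr, r1, r2⟩
    · intro D hD
      have e1 : (⨆ p : {p : {p : Pc K // IsP int bk p} // D p.1}, em p.1) = ⊤ := by
        by_contra hcon
        have hne : (⨆ p : {p : {p : Pc K // IsP int bk p} // D p.1}, em p.1)ᶜ ≠ ⊥ := by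
          rw [Ne, compl_eq_bot]
          exact hcon
        obtain ⟨⟨p, hp⟩, hp'⟩ := h3 _ hne
        obtain ⟨q, q1, q2, q3⟩ := hD p hp
        have e2 : em ⟨q, q1⟩ ≤ ⨆ p : {p : {p : Pc K // IsP int bk p} // D p.1}, em p.1 :=
          le_iSup (fun p : {p : {p : Pc K // IsP int bk p} // D p.1} => em p.1) ⟨⟨q, q1⟩, q2⟩
        have e3 : em ⟨q, q1⟩ ≤ ⊥ := by
          have := le_inf e2 ((h2 ⟨q, q1⟩ ⟨p, hp⟩ q3).trans hp')
          rwa [inf_compl_self] at this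
        exact h1 _ (le_bot_iff.1 e3)
      filter_upwards [gen_iSup fun p : {p : {p : Pc K // IsP int bk p} // D p.1} => em p.1]
        with ω hω
      rw [e1] at hω
      obtain ⟨⟨⟨p, hp⟩, hD'⟩, hp'⟩ := hω.1 ω.top'
      exact ⟨p, hD', hp, hp'⟩
    · intro A hA p hp
      obtain ⟨ω, o1, o2⟩ := gen_exists hA (h1 ⟨p, hp⟩)
      exact ⟨ω, o1, hp, o2⟩
  · obtain ⟨α⟩ := (inferInstance : Nonempty K)
    obtain ⟨ω, -⟩ := Ult.exists_of_ne_bot (h1 ⟨Pc.one K, α, one_In α⟩)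
    exact ⟨ω⟩
  · rintro A ⟨b, hA⟩
    refine ⟨{p | ∃ h : IsP int bk p, em ⟨p, h⟩ ≤ b}, fun p hp => hp.1, ?_⟩
    filter_upwards [hA, gen_iSup fun p : {p // em p ≤ b} => em p.1] with ω e1 e2
    rw [← hb b] at e2
    rw [e1, e2]
    constructor
    · rintro ⟨⟨⟨p, hp⟩, hp1⟩, hp2⟩
      exact ⟨p, ⟨hp, hp1⟩, hp, hp2⟩
    · rintro ⟨p, ⟨hp, hp1⟩, _, hp2⟩
      exact ⟨⟨⟨p, hp⟩, hp1⟩, hp2⟩

  · intro A S hA
    refine ⟨⨆ p : {p : {p : Pc K // IsP int bk p} // p.1 ∈ S}, em p.1, ?_⟩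
    filter_upwards [hA, gen_iSup fun p : {p : {p : Pc K // IsP int bk p} // p.1 ∈ S} => em p.1]
      with ω e1 e2
    rw [e1, e2]
    constructor
    · rintro ⟨p, hp, hp1, hp2⟩
      exact ⟨⟨⟨p, hp1⟩, hp⟩, hp2⟩
    · rintro ⟨⟨⟨p, hp⟩, hp1⟩, hp2⟩
      exact ⟨p, hp1, hp, hp2⟩

end

theorem exists_sys : ∃ (B : Type) (_ : CompleteBooleanAlgebra B) (K : Type) (_ : LinearOrder K)
    (_ : WellFoundedLT K) (S : Sys K (Ult B)), S.N = genN B ∧ S.mt = genM B ∧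
      Nonempty (Ult B) := by
  classical
  obtain ⟨K, iL, iW, int, bk, hIio, hcof, hint, hbk⟩ := exists_K
  obtain ⟨α0, -⟩ := hint.2 (zeroNm K)
  have : Nonempty K := ⟨α0⟩
  obtain ⟨B, iB, G, g, hne, hM1, hM2⟩ := exists_gnc int bk
  have hcone : ∀ A, MeasurableSet[genM B] A → Aᶜ ∉ genN B →
      ∃ p, IsP int bk p ∧ ∀ᶠ ω in genN B, G ω p → ω ∈ A := by
    intro A hA h0
    obtain ⟨S, hS, hA⟩ := hM1 A hA
    rcases S.eq_empty_or_nonempty with rfl | ⟨p, hp⟩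
    · exfalso
      apply h0
      filter_upwards [hA] with ω h
      simpa using h
    · refine ⟨p, hS p hp, ?_⟩
      filter_upwards [hA] with ω h h'
      exact h.2 ⟨p, hp, h'⟩
  refine ⟨B, iB, K, iL, iW,
    { N := genN B
      nb := ?_
      cN := inferInstance
      m := g.m
      mt := genM B
      mono := fun α β h => g.m_mono h
      le_mt := ?_
      null := fun α A hA => g.m_null hA
      ccc := ?_
      triv := fun α hα A hA => g.m_bot hα hA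
      lim := ?_
      top := ?_
      cof := hcof
      small := ?_
      size := ?_
      b := fun γ => g.val (bn int bk γ)
      b_meas := fun γ => g.val_meas (bn_OK γ)
      book := ?_
      y := g.gf
      y_meas := fun γ δ h => g.gf_meas h.lt
      gen_dense := fun γ δ h A hA h0 => g.gen_dense h hA h0
      gen_pos := ?_ }, rfl, rfl, hne⟩
  · rw [neBot_iff]
    intro h
    obtain ⟨ω, o1, -⟩ := g.g4 ∅ (by rw [h]; trivial) (Pc.one K) ⟨α0, one_In α0⟩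
    exact o1
  · rintro α A ⟨S, -, hA⟩
    exact hM2 A S hA
  · intro 𝒮 h1 h2
    have h3 : ∀ A : 𝒮, ∃ p, IsP int bk p ∧ ∀ᶠ ω in genN B, G ω p → ω ∈ A.1 :=
      fun A => hcone A.1 (h1 A.1 A.2).1 (h1 A.1 A.2).2
    choose p hp hp' using h3
    have : Countable 𝒮 := by
      refine ccc_P (int := int) (bk := bk) p hp ?_
      rintro A A' hne ⟨r, hr, r1, r2⟩
      obtain ⟨ω, ⟨o1, o2⟩, o3⟩ := g.g4 _ (inter_mem (hp' A) (hp' A')) r hr
      have o4 := o1 (g.g1 ω r _ o3 (hp A) r1)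
      have o5 := o2 (g.g1 ω r _ o3 (hp A') r2)
      exact Set.disjoint_left.1 (h2 A.2 A'.2 fun h => hne (Subtype.ext h)) o4 o5
    exact Set.countable_coe_iff.1 this
  · intro β hβ A hA h0
    obtain ⟨p, hp, hA'⟩ := g.cone hA h0
    obtain ⟨γ, hγ, hp2⟩ := g.In_lim hβ hp
    exact ⟨γ, hγ, {ω | G ω p}, g.m_cone hp2, g.nonnull hp.isP (Eventually.of_forall fun ω h => h),
      hA'⟩
  · intro A hA h0
    obtain ⟨p, ⟨γ, hp⟩, hA'⟩ := hcone A hA h0
    exact ⟨γ, {ω | G ω p}, g.m_cone hp, g.nonnull hp.isP (Eventually.of_forall fun ω h => h),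
      hA'⟩
  · intro α
    have h1 : #(Set.Iic α) ≤ #(ℕ → ℕ) := by
      rw [← Set.Iio_insert]
      refine (mk_insert_le).trans ?_
      calc #(Set.Iio α) + 1 ≤ 𝔠 + 𝔠 :=
            add_le_add (hIio α) (one_le_aleph0.trans aleph0_le_continuum)
        _ = 𝔠 := continuum_add_self
        _ ≤ #(ℕ → ℕ) := by simp
    have : Nonempty (Set.Iic α) := ⟨⟨α, le_rfl⟩⟩
    obtain ⟨f⟩ := h1
    refine ⟨fun c => (Function.invFun f c).1, fun β hβ => ⟨f ⟨β, hβ⟩, ?_⟩⟩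
    exact congrArg Subtype.val (Function.leftInverse_invFun f.injective ⟨β, hβ⟩)
  · intro α
    have h1 : #{ν | OK int bk α (int ν)} ≤ #(ℕ → ℕ) :=
      (size_OK hint.1 (size_P hIio hint.1 α)).trans (by simp)
    obtain ⟨ν0, hν0⟩ := hint.2 (zeroNm K)
    have : Nonempty {ν | OK int bk α (int ν)} := ⟨⟨ν0, by
      show OK int bk α (int ν0)
      rw [hν0]
      exact zeroNm_OK α⟩⟩
    obtain ⟨f⟩ := h1
    refine ⟨fun c => g.val (int (Function.invFun f c).1), fun F hF => ?_⟩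
    obtain ⟨x, hx, hx'⟩ := g.exists_name hF
    obtain ⟨ν, rfl⟩ := hint.2 x
    refine ⟨f ⟨ν, hx⟩, ?_⟩
    filter_upwards [hx'] with ω h
    rw [← h]
    exact congrArg (fun z : {ν | OK int bk α (int ν)} => g.val (int z.1) ω)
      (Function.leftInverse_invFun f.injective ⟨ν, hx⟩).symm
  · intro α F hF
    obtain ⟨x, hx, hx'⟩ := g.exists_name hF
    obtain ⟨ν, rfl⟩ := hint.2 x
    obtain ⟨γ, hγ, rfl⟩ := hbk ν α
    refine ⟨γ, hγ, ?_⟩
    have h1 : bn int bk γ = int (bk γ) := by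
      unfold bn fixNm
      rw [if_pos]
      exact OK_mono hγ hx
    filter_upwards [hx'] with ω h
    rw [h1, h]
  · intro γ C n s j F hC h0 hj hF
    obtain ⟨δ, hδ⟩ : ∃ δ, γ ⋖ δ := by
      obtain ⟨δ, hδ⟩ := hcof fun _ => γ
      have h1 : (Set.Ioi γ).Nonempty := ⟨δ, hδ 0⟩
      refine ⟨wellFounded_lt.min (Set.Ioi γ) h1, wellFounded_lt.min_mem (Set.Ioi γ) h1, ?_⟩
      intro ε h2 h3
      exact wellFounded_lt.not_lt_min (Set.Ioi γ) h2 h3
    have : NeBot (genN B) := by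
      rw [neBot_iff]
      intro h
      obtain ⟨ω, o1, -⟩ := g.g4 ∅ (by rw [h]; trivial) (Pc.one K) ⟨α0, one_In α0⟩
      exact o1
    exact g.gen_pos hint.2 hδ hC h0 hj hF

end Pool.Agent.MP9096b7
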