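import Pool.Agent.MP_9096b7_lc.Base
import Pool.Agent.MP_9096b7_lc.Gen

/-! The combinatorial facts about the reals of the generic extension which are used to compute
the two cardinal invariants. The reals of the extension are the measurable functions on the space
of the ultrafilters of `B`, those of the stage `α` are the `m α`-measurable functions. -/

set_option autoImplicit false

namespace Pool.Agent.MP9096b7

open Filter MeasureTheory BVM

structure Facts (B K : Type) [CompleteBooleanAlgebra B] [LinearOrder K] where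
  /-- The events of the stages. -/
  m : K → MeasurableSpace (Ult B)
  mono : ∀ α β, α ≤ β → m α ≤ m β
  le_genM : ∀ α, m α ≤ genM B
  null : ∀ α A, A ∈ genN B → MeasurableSet[m α] A
  /-- each real belongs to some stage -/
  level : ∀ F : Ult B → ℕ → ℕ, Measurable[genM B] F → ∃ α, Measurable[m α] F
  /-- continuum many stages are bounded -/
  cof : ∀ g : (ℕ → ℕ) → K, ∃ α, ∀ c, g c < α
  /-- there are at most continuum many reals of the stage `α` -/
  size : ∀ α, ∃ e : (ℕ → ℕ) → Ult B → ℕ → ℕ, ∀ F : Ult B → ℕ → ℕ, Measurable[m α] F →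
    ∃ c, ∀ᶠ ω in genN B, F ω = e c ω
  /-- closure points of uncountable cofinality -/
  clos : ∀ φ : K → K, ∃ α, (∀ β < α, φ β ≤ α) ∧ ∀ F : Ult B → ℕ → ℕ, Measurable[m α] F →
    ∃ β < α, Measurable[m β] F
  /-- the ground model functions are unbounded, in a strong sense -/
  cap1 : ∀ h : Ult B → ℕ → ℕ, Measurable[genM B] h → ∃ f : ℕ → ℕ, StrictMono f ∧
    ∀ᶠ ω in genN B, ∃ᶠ k in atTop, h ω (f k) ≤ f (k + 1)
  /-- new reals are not captured -/
  cap2 : ∀ (α : K) (x : Ult B → ℕ → ℕ), Measurable[genM B] x → (∀ ω k, x ω k ≤ 1) →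
    ∃ (zs : ℕ → Ult B → ℕ → ℕ) (f : Ult B → ℕ → ℕ), (∀ i, Measurable[m α] (zs i)) ∧
      Measurable[m α] f ∧ (∀ ω, StrictMono (f ω)) ∧
      ∀ g z : Ult B → ℕ → ℕ, Measurable[m α] g → (∀ ω, StrictMono (g ω)) → Measurable[m α] z →
        (∀ ω k, z ω k ≤ 1) → ∀ᶠ ω in genN B, (∃ i, x ω = zs i ω) ∨ ¬ Capt (f ω) (x ω) (g ω) (z ω)
  /-- all the old reals are captured by a later real -/
  cap3 : ∀ (α : K) (f : Ult B → ℕ → ℕ), Measurable[m α] f → (∀ ω, StrictMono (f ω)) →
    ∃ y : Ult B → ℕ → ℕ, Measurable[genM B] y ∧ (∀ ω k, y ω k ≤ 1) ∧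
      ∀ x : Ult B → ℕ → ℕ, Measurable[m α] x → (∀ ω k, x ω k ≤ 1) →
        ∀ᶠ ω in genN B, ∀ᶠ l in atTop, ∃ k, pos l ≤ k ∧ k < pos (l + 1) ∧
          ∀ u, f ω k ≤ u → u < f ω (k + 1) → x ω u = y ω u

end Pool.Agent.MP9096b7
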