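import Pool.Agent.MP_9096b7_lc.M6

/-! The additivity numbers in the model. -/

set_option autoImplicit false
set_option linter.unusedVariables false
set_option linter.unusedSectionVars false
set_option linter.unreachableTactic false
set_option linter.unusedTactic false

namespace Pool.Agent.MP9096b7

open Filter MeasureTheory BVM BName SetModel MP63050e MP7e7dde

/-! ### The combinatorics of the union of the sets `A_f` -/

section comb

variable (f g y : ℕ → ℕ) (J : ℕ → ℕ)

/-- The block `k` of `f` contains the blocks `J k` and `J k + 1` of `g`. -/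
def GdB (k : ℕ) : Prop := g (J k + 2) ≤ f (k + 1)

/-- `u` belongs to one of the chosen blocks. -/
def InG (u : ℕ) : Prop := ∃ k, GdB f g J k ∧ g (J k) ≤ u ∧ u < g (J k + 1)

open Classical in
/-- The point of `A_f` outside of `B(g, y)`. -/
noncomputable def xx (u : ℕ) : ℕ := if InG f g J u then y u else 1

variable {f g y J}

theorem xx_le (hy : ∀ u, y u ≤ 1) (u : ℕ) : xx f g y J u ≤ 1 := by
  unfold xx; split_ifs
  · exact hy u
  · exact le_rfl

theorem blk_uniq {f : ℕ → ℕ} (hf : StrictMono f) {k k' u : ℕ} (h1 : f k ≤ u) (h2 : u < f (k + 1))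
    (h3 : f k' ≤ u) (h4 : u < f (k' + 1)) : k = k' := by
  have h5 : k < k' + 1 := hf.lt_iff_lt.1 (h1.trans_lt h4)
  have h6 : k' < k + 1 := hf.lt_iff_lt.1 (h3.trans_lt h2)
  omega

theorem xx_ne (hf : StrictMono f) (hg : StrictMono g) (hJ : ∀ k, f k ≤ g (J k)) (k : ℕ) :
    ∃ u, f k ≤ u ∧ u < f (k + 1) ∧ xx f g y J u ≠ 0 := by
  by_cases hk : GdB f g J k
  · refine ⟨g (J k + 1), (hJ k).trans (hg.monotone (Nat.le_succ _)),
      lt_of_lt_of_le (hg (Nat.lt_succ_self _)) hk, ?_⟩
    unfold xx
    rw [if_neg]
    · exact one_ne_zero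
    rintro ⟨k', hk', h1, h2⟩
    have h3 : J k' ≤ J k + 1 := hg.le_iff_le.1 h1
    have h4 : J k + 1 < J k' + 1 := hg.lt_iff_lt.1 h2
    have h5 : J k' = J k + 1 := by omega
    have h6 : k = k' := by
      refine blk_uniq hf (u := g (J k + 1)) ((hJ k).trans (hg.monotone (Nat.le_succ _)))
        (lt_of_lt_of_le (hg (Nat.lt_succ_self _)) hk) ?_ ?_
      · rw [← h5]; exact hJ k'
      · rw [← h5]
        exact lt_of_lt_of_le (hg (by omega)) hk'
    subst h6
    omega
  · refine ⟨f k, le_rfl, hf (Nat.lt_succ_self _), ?_⟩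
    unfold xx
    rw [if_neg]
    · exact one_ne_zero
    rintro ⟨k', hk', h1, h2⟩
    apply hk
    have h3 : k' = k := by
      refine blk_uniq hf (u := f k) ((hJ k').trans h1) ?_ le_rfl (hf (Nat.lt_succ_self _))
      exact h2.trans (lt_of_lt_of_le (hg (by omega)) hk')
    rwa [← h3]

theorem xx_not_inB (hf : StrictMono f) (hg : StrictMono g) (hJ : ∀ k, f k ≤ g (J k))
    (h : ∃ᶠ k in atTop, GdB f g J k) : ¬ InB g y (xx f g y J) := by
  intro hB
  unfold InB at hB
  rw [eventually_atTop] at hB
  obtain ⟨N, hN⟩ := hB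
  rw [frequently_atTop] at h
  obtain ⟨k, hk, hk'⟩ := h (g N)
  have h1 : N ≤ J k := by
    rw [← hg.le_iff_le]
    exact hk.trans ((hf.le_apply).trans (hJ k))
  obtain ⟨u, hu1, hu2, hu3⟩ := hN _ h1
  apply hu3
  unfold xx
  rw [if_pos ⟨k, hk', hu1, hu2⟩]

end comb

variable {B K : Type} [CompleteBooleanAlgebra B] [LinearOrder K]

open Classical in
/-- A strictly monotone function. -/
noncomputable def sm (f : ℕ → ℕ) : ℕ → ℕ := if StrictMono f then f else id

theorem sm_strictMono (f : ℕ → ℕ) : StrictMono (sm f) := by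
  unfold sm; split_ifs with h
  · exact h
  · exact strictMono_id

theorem meas_cst (f : ℕ → ℕ) : Measurable[genM B] (fun _ : Ult B => f) :=
  @measurable_const _ _ _ (genM B) f

/-- The name of the set of the functions from `ω` to `ω` of the ground model. -/
noncomputable def kN (B : Type) [CompleteBooleanAlgebra B] : BName B :=
  BName.mk (ℕ → ℕ) nm (fun _ => ⊤)

/-- The name of the family of the sets `A_f` where `f` is in the ground model. -/
noncomputable def FN (B : Type) [CompleteBooleanAlgebra B] : BName B :=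
  BName.mk (ℕ → ℕ) (fun f => AN (fun _ => sm f)) (fun _ => ⊤)

theorem union_not_meager (F : Facts B K) (h : Ult B) :
    ¬ IsMeager (E h) (wM h) (tM h) (Mdl.mk h (sunion (FN B))) := by
  classical
  intro hh
  have hcl : Clop (fun h : Ult B => IsMeager (E h) (wM h) (tM h) (Mdl.mk h (sunion (FN B)))) := by
    refine BPred.clop (P := fun h (_ : PUnit.{1}) => IsMeager (E h) (wM h) (tM h)
      (Mdl.mk h (sunion (FN B)))) ?_ PUnit.unit
    repeat' first
      | exact BMap.id
      | apply BMap.fst
      | apply BMap.snd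
      | exact BTerm.const _
      | apply bterm_opair
      | apply BTerm.of
      | apply BPred.mem
      | apply BPred.eq
      | apply bp_has2
      | apply bp_has3
      | apply bp_isTuple3
      | apply bp_eq_pr
      | apply bp_isPair
      | apply bp_isUPair
      | apply bp_isFun
      | apply bp_injects
      | apply bp_isMeager
      | apply BPred.not
      | apply BPred.and
      | apply BPred.or
      | apply BPred.iff
      | apply BPred.imp
      | refine BPred.ex ?_
      | refine BPred.all ?_
      | exact BPred.const _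
  set b : B := bval (fun h : Ult B => IsMeager (E h) (wM h) (tM h) (Mdl.mk h (sunion (FN B))))
    with hb
  have hV := fun h => (hcl.iff h).symm
  obtain ⟨g, y, hg, hg', hy, hy', hcode⟩ := meager_code (A := sunion (FN B)) (b := b)
    (fun h hh => (hV h).1 hh)
  let J : ℕ → Ult B → ℕ := fun k => lst (fun i => {ω | k ≤ g ω i})
  have hJm : ∀ k, Measurable[genM B] (J k) := fun k =>
    meas_lst fun i => meas_rel1 (meas_coord hg i) (fun v => k ≤ v)
  have hJ : ∀ k ω, k ≤ g ω (J k ω) := fun k ω =>
    lst_mem (T := fun i => {ω | k ≤ g ω i}) ⟨k, (hg' ω).le_apply⟩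
  have hJadd : ∀ k i, Measurable[genM B] fun ω => g ω (J k ω + i) := by
    intro k i
    exact meas_coord_app hg ((measurable_from_top (f := fun v : ℕ => v + i)).comp (hJm k))
  obtain ⟨f, hf, hcap⟩ := F.cap1 (fun ω k => g ω (J k ω + 2)) (meas_pi' fun k => hJadd k 2)
  let x : Ult B → ℕ → ℕ := fun ω => xx f (g ω) (y ω) (fun k => J (f k) ω)
  have hx : Measurable[genM B] x := by
    refine meas_pi' fun u => ?_
    have h2 : MeasurableSet[genM B] {ω | InG f (g ω) (fun k => J (f k) ω) u} := by
      unfold InG GdB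
      refine meas_ex fun k => meas_and ?_ (meas_and ?_ ?_)
      · exact meas_rel1 (hJadd (f k) 2) (fun v => v ≤ f (k + 1))
      · exact meas_rel1 (hJadd (f k) 0) (fun v => v ≤ u)
      · exact meas_rel1 (hJadd (f k) 1) (fun v => u < v)
    simp only [x, xx]
    exact Measurable.ite h2 (meas_coord hy u) (@measurable_const _ _ _ (genM B) 1)
  have hx' : ∀ ω u, x ω u ≤ 1 := fun ω u => xx_le (hy' ω) u
  have hbot : b = ⊥ := by
    rw [eq_bot_iff_gen]
    filter_upwards [hcode (code x), rv_code hx hx', mem_AN (meas_cst f) (code x), hcap]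
      with ω h1 h2 h3 h4 h5
    have h6 : E ω (Mdl.mk ω (fnm (code x))) (Mdl.mk ω (sunion (FN B))) := by
      rw [E_sunion]
      refine ⟨Mdl.mk ω (AN (fun _ => sm f)), E_of_coe (e := fun f => AN (fun _ => sm f))
        (i := f) ω.top', ?_⟩
      have h7 : sm f = f := by unfold sm; rw [if_pos hf]
      rw [h7, h3, h2, inB_iff]
      exact ⟨0, fun k _ => xx_ne hf (hg' ω) (fun k => hJ (f k) ω) k⟩
    have h7 := h1 h5 h6
    rw [h2] at h7
    exact xx_not_inB hf (hg' ω) (fun k => hJ (f k) ω) h4 h7
  exact h.ne_bot ((hV h).2 hh) hbot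

theorem sunion_uniq {h : Ult B} {F : BName B} {U : Mdl h}
    (hU : ∀ z, E h z U ↔ ∃ A, E h A (Mdl.mk h F) ∧ E h z A) : U = Mdl.mk h (sunion F) := by
  apply Mdl.ext
  intro z
  rw [hU, E_sunion]

theorem addLe_meager (F : Facts B K) (h : Ult B) :
    AddLe (E h) (IsMeager (E h) (wM h) (tM h)) (Mdl.mk h (kN B)) := by
  refine ⟨Mdl.mk h (FN B), injects_idx _ _ (fun i j hij => nm_ne hij) h, ?_, ?_⟩
  · refine forall_mem' (P := fun h A => IsMeager (E h) (wM h) (tM h) A) _ _ ?_ ?_ h
    · repeat' first
        | exact BMap.id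
        | apply BMap.fst
        | apply BMap.snd
        | exact BTerm.const _
        | apply bterm_opair
        | apply BTerm.of
        | apply BPred.mem
        | apply BPred.eq
        | apply bp_has2
        | apply bp_has3
        | apply bp_isTuple3
        | apply bp_eq_pr
        | apply bp_isPair
        | apply bp_isUPair
        | apply bp_isFun
        | apply bp_injects
        | apply bp_isMeager
        | apply BPred.not
        | apply BPred.and
        | apply BPred.or
        | apply BPred.iff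
        | apply BPred.imp
        | refine BPred.ex ?_
        | refine BPred.all ?_
        | exact BPred.const _
    · intro h f _
      exact meager_AN (meas_cst _) (fun _ => sm_strictMono f) h
  · intro U hU
    rw [sunion_uniq hU]
    exact union_not_meager F h

theorem not_addLe_MA (F : Facts B K) (h : Ult B) :
    ¬ AddLe (E h) (IsMA (E h) (wM h) (oM h) (tM h)) (Mdl.mk h (kN B)) := by
  classical
  rintro ⟨Fam, hinj, hMA, hU⟩
  obtain ⟨Fam, rfl⟩ := Fam.exists_rep
  apply hU (Mdl.mk h (sunion Fam)) (fun z => E_sunion h Fam z)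
  have hcl : Clop (fun h : Ult B => Injects (E h) (Mdl.mk h Fam) (Mdl.mk h (kN B)) ∧
      ∀ A, E h A (Mdl.mk h Fam) → IsMA (E h) (wM h) (oM h) (tM h) A) := by
    refine BPred.clop (P := fun h (_ : PUnit.{1}) => Injects (E h) (Mdl.mk h Fam)
      (Mdl.mk h (kN B)) ∧ ∀ A, E h A (Mdl.mk h Fam) → IsMA (E h) (wM h) (oM h) (tM h) A) ?_
      PUnit.unit
    repeat' first
      | exact BMap.id
      | apply BMap.fst
      | apply BMap.snd
      | exact BTerm.const _
      | apply bterm_opair
      | apply BTerm.of
      | apply BPred.mem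
      | apply BPred.eq
      | apply bp_has2
      | apply bp_has3
      | apply bp_isTuple3
      | apply bp_eq_pr
      | apply bp_isPair
      | apply bp_isUPair
      | apply bp_isFun
      | apply bp_injects
      | apply bp_isMA
      | apply BPred.not
      | apply BPred.and
      | apply BPred.or
      | apply BPred.iff
      | apply BPred.imp
      | refine BPred.ex ?_
      | refine BPred.all ?_
      | exact BPred.const _
  set b : B := bval (fun h : Ult B => Injects (E h) (Mdl.mk h Fam) (Mdl.mk h (kN B)) ∧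
      ∀ A, E h A (Mdl.mk h Fam) → IsMA (E h) (wM h) (oM h) (tM h) A) with hb
  have hV := fun h => (hcl.iff h).symm
  have hbV : h.V b := (hV h).2 ⟨hinj, hMA⟩
  obtain ⟨f, hf⟩ := exists_wit (P := fun h f => IsFun (E h) f (Mdl.mk h Fam) (Mdl.mk h (kN B)) ∧
    ∀ a a' c, E h a (Mdl.mk h Fam) → E h a' (Mdl.mk h Fam) → Has (E h) f [a, c] →
      Has (E h) f [a', c] → a = a') (by
      repeat' first
        | exact BMap.id
        | apply BMap.fst
        | apply BMap.snd
        | exact BTerm.const _
        | apply bterm_opair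
        | apply BTerm.of
        | apply BPred.mem
        | apply BPred.eq
        | apply bp_has2
        | apply bp_has3
        | apply bp_isTuple3
        | apply bp_eq_pr
        | apply bp_isPair
        | apply bp_isUPair
        | apply bp_isFun
        | apply bp_injects
        | apply BPred.not
        | apply BPred.and
        | apply BPred.or
        | apply BPred.iff
        | apply BPred.imp
        | refine BPred.ex ?_
        | refine BPred.all ?_
        | exact BPred.const _
      ) (Q := fun h => h.V b) (fun h hh => ((hV h).1 hh).1)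
  have hcla : ∀ a : ℕ → ℕ, Clop (fun h : Ult B => h.V b ∧ ∃ A, E h A (Mdl.mk h Fam) ∧
      Has (E h) (Mdl.mk h f) [A, Mdl.mk h (nm a)]) := by
    intro a
    refine Clop.and (clop_V _) ?_
    refine BPred.clop (P := fun h (_ : PUnit.{1}) => ∃ A, E h A (Mdl.mk h Fam) ∧
      Has (E h) (Mdl.mk h f) [A, Mdl.mk h (nm a)]) ?_ PUnit.unit
    repeat' first
      | exact BMap.id
      | apply BMap.fst
      | apply BMap.snd
      | exact BTerm.const _
      | apply bterm_opair
      | apply BTerm.of
      | apply BPred.mem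
      | apply BPred.eq
      | apply bp_has2
      | apply bp_has3
      | apply bp_isTuple3
      | apply bp_eq_pr
      | apply bp_isPair
      | apply bp_isUPair
      | apply bp_isFun
      | apply bp_injects
      | apply BPred.not
      | apply BPred.and
      | apply BPred.or
      | apply BPred.iff
      | apply BPred.imp
      | refine BPred.ex ?_
      | refine BPred.all ?_
      | exact BPred.const _
  let ba : (ℕ → ℕ) → B := fun a => bval (fun h : Ult B => h.V b ∧ ∃ A, E h A (Mdl.mk h Fam) ∧
      Has (E h) (Mdl.mk h f) [A, Mdl.mk h (nm a)])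
  have hba : ∀ a h, h.V (ba a) ↔ (h.V b ∧ ∃ A, E h A (Mdl.mk h Fam) ∧
      Has (E h) (Mdl.mk h f) [A, Mdl.mk h (nm a)]) := fun a h => ((hcla a).iff h).symm
  have hX : ∀ a : ℕ → ℕ, ∃ X : BName B, ∀ h : Ult B, h.V (ba a) →
      (E h (Mdl.mk h X) (Mdl.mk h Fam) ∧ Has (E h) (Mdl.mk h f) [Mdl.mk h X, Mdl.mk h (nm a)]) := by
    intro a
    refine exists_wit (P := fun h X => E h X (Mdl.mk h Fam) ∧
      Has (E h) (Mdl.mk h f) [X, Mdl.mk h (nm a)]) ?_ fun h hh => ((hba a h).1 hh).2
    repeat' first
      | exact BMap.id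
      | apply BMap.fst
      | apply BMap.snd
      | exact BTerm.const _
      | apply bterm_opair
      | apply BTerm.of
      | apply BPred.mem
      | apply BPred.eq
      | apply bp_has2
      | apply bp_has3
      | apply bp_isTuple3
      | apply bp_eq_pr
      | apply bp_isPair
      | apply bp_isUPair
      | apply bp_isFun
      | apply bp_injects
      | apply BPred.not
      | apply BPred.and
      | apply BPred.or
      | apply BPred.iff
      | apply BPred.imp
      | refine BPred.ex ?_
      | refine BPred.all ?_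
      | exact BPred.const _
  choose X hX using hX
  have hsmall : ∀ a : ℕ → ℕ, ∃ α : K, ∀ c : ℕ → B, Cov F α (rv c)
      (fun ω => ω.V (ba a) ∧ E ω (Mdl.mk ω (fnm c)) (Mdl.mk ω (X a))) := by
    intro a
    refine small_of_MA F fun h hh => ?_
    exact ((hV h).1 ((hba a h).1 hh).1).2 _ (hX a h hh).1
  choose αs hαs using hsmall
  obtain ⟨α, hα⟩ := F.cof αs
  refine MA_of_small F (b := b) (α := α) ?_ ?_ h hbV
  · intro h hh z hz
    rw [E_sunion] at hz
    obtain ⟨A, hA, hzA⟩ := hz
    exact (((hV h).1 hh).2 A hA).1 z hzA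
  intro c
  obtain ⟨zs, f₁, hzs, hf₁, hf₁', hcap⟩ := F.cap2 α (rv c) (meas_rv c) (fun ω k => rv_le c ω k)
  refine ⟨zs, hzs, ?_⟩
  have hmeas : MeasurableSet[genM B] {ω | ∃ i, rv c ω = zs i ω} := by
    refine meas_ex fun i => ?_
    have : {ω | rv c ω = zs i ω} = {ω | ∀ k, rv c ω k = zs i ω k} := by
      ext ω; exact funext_iff
    rw [this]
    refine meas_all fun k => meas_rel2 (meas_coord (meas_rv c) k)
      (meas_coord ((hzs i).mono (F.le_genM α) le_rfl) k) (fun a b => a = b)
  set d : B := bv {ω | ∃ i, rv c ω = zs i ω} with hd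
  have hle : ∀ a, ba a ⊓ bmem (fnm c) (X a) ≤ d := by
    intro a
    obtain ⟨za, hza, hza'⟩ := hαs a c
    let zt : ℕ → Ult B → ℕ → ℕ := fun i ω k => min (za i ω k) 1
    have hzt : ∀ i, Measurable[F.m α] (zt i) := by
      intro i
      refine meas_pi' fun k => ?_
      exact (measurable_from_top (f := fun v : ℕ => min v 1)).comp
        (meas_coord ((hza i).mono (F.mono _ _ (hα a).le) le_rfl) k)
    have h1 : ∀ᶠ ω in genN B, ∀ i, (∃ i, rv c ω = zs i ω) ∨
        ¬ Capt (f₁ ω) (rv c ω) (f₁ ω) (zt i ω) :=
      eventually_countable_forall.2 fun i => hcap f₁ (zt i) hf₁ hf₁' (hzt i)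
        fun ω k => min_le_right _ _
    rw [le_iff_gen]
    filter_upwards [h1, hza', bv_spec hmeas] with ω h1 h2 h3 h4
    rw [ω.inf'] at h4
    rw [hd, h3]
    obtain ⟨i, hi⟩ := h2 h4
    rcases h1 i with h5 | h5
    · exact h5
    · refine absurd ?_ h5
      have h6 : zt i ω = rv c ω := by
        funext k
        have h7 := congrFun hi k
        have h8 := rv_le c ω k
        simp only [zt]
        omega
      rw [h6]
      exact capt_self
  have h2 := ae_exists_mem (B := B) (fun a : ℕ → ℕ => nm a) (fun _ => ⊤)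
    (P := fun h k => ∃ A, E h A (Mdl.mk h Fam) ∧ Has (E h) (Mdl.mk h f) [A, k] ∧
      E h (Mdl.mk h (fnm c)) A) (by
      repeat' first
        | exact BMap.id
        | apply BMap.fst
        | apply BMap.snd
        | exact BTerm.const _
        | apply bterm_opair
        | apply BTerm.of
        | apply BPred.mem
        | apply BPred.eq
        | apply bp_has2
        | apply bp_has3
        | apply bp_isTuple3
        | apply bp_eq_pr
        | apply bp_isPair
        | apply bp_isUPair
        | apply bp_isFun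
        | apply bp_injects
        | apply BPred.not
        | apply BPred.and
        | apply BPred.or
        | apply BPred.iff
        | apply BPred.imp
        | refine BPred.ex ?_
        | refine BPred.all ?_
        | exact BPred.const _
      )
  filter_upwards [h2, bv_spec hmeas] with ω h2 h3
  rintro ⟨h4, h5⟩
  rw [E_sunion] at h5
  obtain ⟨A, hA, hcA⟩ := h5
  obtain ⟨k, hk, -⟩ := (hf ω h4).1.2 A hA
  obtain ⟨a, -, A', hA', hAa, hcA'⟩ := h2 ⟨k, (isFun_has (hf ω h4).1 hk).2, A, hA, hk, hcA⟩
  have h6 : ω.V (ba a) := (hba a ω).2 ⟨h4, A', hA', hAa⟩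
  have h7 := hX a ω h6
  have h8 : Mdl.mk ω (X a) = A' := (hf ω h4).2 _ _ _ h7.1 hA' h7.2 hAa
  rw [← h8] at hcA'
  have h9 : ω.V d := ω.mono (hle a) ((ω.inf' _ _).2 ⟨h6, hcA'⟩)
  exact h3.1 h9

/-- The final statement, from the facts on the forcing. -/
theorem main [Nontrivial B] (F : Facts B K) :
    ∃ (M : Type 1) (E : M → M → Prop), IsModelZFC E ∧ ∃ w o t k, IsOmega E w ∧ IsTwo E o t ∧
      AddLe E (IsMeager E w t) k ∧ ¬ AddLe E (IsMA E w o t) k := by
  obtain ⟨h, -⟩ := Ult.exists_of_ne_bot (top_ne_bot (α := B))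
  exact ⟨Mdl h, E h, mod_zfc h, wM h, oM h, tM h, Mdl.mk h (kN B), isOmega h, isTwo h,
    addLe_meager F h, not_addLe_MA F h⟩

end Pool.Agent.MP9096b7
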