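import Pool.Agent.MP_9096b7_lc.A8
import Pool.Agent.MP_9096b7_lc.A6
import Pool.Agent.MP_9096b7_lc.A7
import Pool.Agent.MP_9096b7_lc.ExistsSys
import Pool.Agent.MP_9096b7_lc.M7

/-! The iteration satisfies the combinatorial facts; the final theorem. -/

set_option autoImplicit false

namespace Pool.Agent.MP9096b7

open Filter MeasureTheory BVM SetModel MP63050e

/-- The facts hold in the iteration. -/
noncomputable def Sys.facts {B K : Type} [CompleteBooleanAlgebra B] [LinearOrder K]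
    [WellFoundedLT K] (S : Sys K (Ult B)) (hN : S.N = genN B) (hM : S.mt = genM B) :
    Facts B K where
  m := S.m
  mono := S.mono
  le_genM := fun α => by rw [← hM]; exact S.le_mt α
  null := fun α A hA => S.null α A (by rw [hN]; exact hA)
  level := fun F hF => by
    rw [← hM] at hF
    obtain ⟨α₀, -⟩ := S.exists_least
    obtain ⟨β, -, h⟩ := S.level' F hF α₀
    exact ⟨β, h⟩
  cof := S.cof
  size := fun α => by
    obtain ⟨e, he⟩ := S.size α
    rw [hN] at he
    exact ⟨e, he⟩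
  clos := S.clos
  cap1 := fun h hh => by
    rw [← hM] at hh
    obtain ⟨f, h1, h2⟩ := S.cap1 h hh
    rw [hN] at h2
    exact ⟨f, h1, h2⟩
  cap2 := fun α x hx hx1 => by
    rw [← hM] at hx
    obtain ⟨zs, f, h1, h2, h3, h4⟩ := S.cap2 α x hx hx1
    rw [hN] at h4
    exact ⟨zs, f, h1, h2, h3, h4⟩
  cap3 := fun α f hf hm => by
    obtain ⟨y, h1, h2, h3⟩ := S.cap3 α f hf hm
    rw [hN] at h3
    rw [hM] at h1
    exact ⟨y, h1, h2, h3⟩

/-- **Final theorem**: it is consistent that `add(M) < add(MA)`. -/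
theorem final : ∃ (M : Type 1) (E : M → M → Prop), IsModelZFC E ∧ ∃ w o t k,
    IsOmega E w ∧ IsTwo E o t ∧ AddLe E (IsMeager E w t) k ∧ ¬ AddLe E (IsMA E w o t) k := by
  obtain ⟨B, _, K, _, _, S, hN, hM, ⟨h⟩⟩ := exists_sys
  have : Nontrivial B := ⟨⟨⊤, ⊥, fun hh => h.bot (hh ▸ h.top')⟩⟩
  exact main (S.facts hN hM)

end Pool.Agent.MP9096b7
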