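import Pool.Agent.MP_9096b7_lc.Stmt
import Pool.Agent.MP_9096b7_lc.A1
import Pool.Agent.MP_9096b7_lc.Gen
import Pool.Agent.MP_7e7dde_gt.Ctbl

/-! Uniform definability of the vocabulary of the statement, and statements which hold for almost
all ultrafilters. -/

set_option autoImplicit false
set_option linter.unusedVariables false
set_option linter.unusedSectionVars false
set_option linter.unreachableTactic false
set_option linter.unusedTactic false

namespace Pool.Agent.MP9096b7

open Filter MeasureTheory BVM BName SetModel MP63050e MP7e7dde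

universe v

section bp

variable {B : Type} [CompleteBooleanAlgebra B] {J : Type*} {H : J → Ult B} {Γ : Type v}
  [BSet B Γ]

variable {f1 f2 f3 f4 f5 f6 f7 f8 : Γ → BName B}

theorem bp_subC (h1 : BTerm f1) (h2 : BTerm f2) (h3 : BTerm f3) :
    BPred H (fun j γ => SubC (E (H j)) (Mdl.mk _ (f1 γ)) (Mdl.mk _ (f2 γ)) (Mdl.mk _ (f3 γ))) := by
  unfold SubC
  repeat' first
    | exact BMap.id
    | apply BMap.fst
    | apply BMap.snd
    | apply BTerm.cmp h1
    | apply BTerm.cmp h2
    | apply BTerm.cmp h3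
    | exact BTerm.const _
    | apply bterm_opair
    | apply BTerm.of
    | apply BPred.mem
    | apply BPred.eq
    | apply bp_has2
    | apply bp_has3
    | apply bp_isTuple3
    | apply bp_eq_pr
    | apply bp_isPair
    | apply bp_isUPair
    | apply bp_isFun
    | apply bp_injects
    | apply BPred.not
    | apply BPred.and
    | apply BPred.or
    | apply BPred.iff
    | apply BPred.imp
    | refine BPred.ex ?_
    | refine BPred.all ?_
    | exact BPred.const _

theorem bp_isSum (h1 : BTerm f1) (h2 : BTerm f2) (h3 : BTerm f3) (h4 : BTerm f4)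
    (h5 : BTerm f5) :
    BPred H (fun j γ => IsSum (E (H j)) (Mdl.mk _ (f1 γ)) (Mdl.mk _ (f2 γ)) (Mdl.mk _ (f3 γ))
      (Mdl.mk _ (f4 γ)) (Mdl.mk _ (f5 γ))) := by
  unfold IsSum
  repeat' first
    | exact BMap.id
    | apply BMap.fst
    | apply BMap.snd
    | apply BTerm.cmp h1
    | apply BTerm.cmp h2
    | apply BTerm.cmp h3
    | apply BTerm.cmp h4
    | apply BTerm.cmp h5
    | exact BTerm.const _
    | apply bterm_opair
    | apply BTerm.of
    | apply BPred.mem
    | apply BPred.eq
    | apply bp_has2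
    | apply bp_has3
    | apply bp_isTuple3
    | apply bp_eq_pr
    | apply bp_isPair
    | apply bp_isUPair
    | apply bp_isFun
    | apply bp_injects
    | apply BPred.not
    | apply BPred.and
    | apply BPred.or
    | apply BPred.iff
    | apply BPred.imp
    | refine BPred.ex ?_
    | refine BPred.all ?_
    | exact BPred.const _

theorem bp_agree (h1 : BTerm f1) (h2 : BTerm f2) (h3 : BTerm f3) :
    BPred H (fun j γ => Agree (E (H j)) (Mdl.mk _ (f1 γ)) (Mdl.mk _ (f2 γ)) (Mdl.mk _ (f3 γ))) := by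
  unfold Agree
  repeat' first
    | exact BMap.id
    | apply BMap.fst
    | apply BMap.snd
    | apply BTerm.cmp h1
    | apply BTerm.cmp h2
    | apply BTerm.cmp h3
    | exact BTerm.const _
    | apply bterm_opair
    | apply BTerm.of
    | apply BPred.mem
    | apply BPred.eq
    | apply bp_has2
    | apply bp_has3
    | apply bp_isTuple3
    | apply bp_eq_pr
    | apply bp_isPair
    | apply bp_isUPair
    | apply bp_isFun
    | apply bp_injects
    | apply BPred.not
    | apply BPred.and
    | apply BPred.or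
    | apply BPred.iff
    | apply BPred.imp
    | refine BPred.ex ?_
    | refine BPred.all ?_
    | exact BPred.const _

theorem bp_isNwd (h1 : BTerm f1) (h2 : BTerm f2) (h3 : BTerm f3) :
    BPred H (fun j γ => IsNwd (E (H j)) (Mdl.mk _ (f1 γ)) (Mdl.mk _ (f2 γ)) (Mdl.mk _ (f3 γ))) := by
  unfold IsNwd
  repeat' first
    | exact BMap.id
    | apply BMap.fst
    | apply BMap.snd
    | apply BTerm.cmp h1
    | apply BTerm.cmp h2
    | apply BTerm.cmp h3
    | exact BTerm.const _
    | apply bterm_opair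
    | apply BTerm.of
    | apply BPred.mem
    | apply BPred.eq
    | apply bp_has2
    | apply bp_has3
    | apply bp_isTuple3
    | apply bp_eq_pr
    | apply bp_isPair
    | apply bp_isUPair
    | apply bp_isFun
    | apply bp_injects
    | apply bp_subC
    | apply bp_agree
    | apply BPred.not
    | apply BPred.and
    | apply BPred.or
    | apply BPred.iff
    | apply BPred.imp
    | refine BPred.ex ?_
    | refine BPred.all ?_
    | exact BPred.const _

theorem bp_isMeager (h1 : BTerm f1) (h2 : BTerm f2) (h3 : BTerm f3) :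
    BPred H (fun j γ => IsMeager (E (H j)) (Mdl.mk _ (f1 γ)) (Mdl.mk _ (f2 γ))
      (Mdl.mk _ (f3 γ))) := by
  unfold IsMeager
  repeat' first
    | exact BMap.id
    | apply BMap.fst
    | apply BMap.snd
    | apply BTerm.cmp h1
    | apply BTerm.cmp h2
    | apply BTerm.cmp h3
    | exact BTerm.const _
    | apply bterm_opair
    | apply BTerm.of
    | apply BPred.mem
    | apply BPred.eq
    | apply bp_has2
    | apply bp_has3
    | apply bp_isTuple3
    | apply bp_eq_pr
    | apply bp_isPair
    | apply bp_isUPair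
    | apply bp_isFun
    | apply bp_injects
    | apply bp_subC
    | apply bp_isNwd
    | apply BPred.not
    | apply BPred.and
    | apply BPred.or
    | apply BPred.iff
    | apply BPred.imp
    | refine BPred.ex ?_
    | refine BPred.all ?_
    | exact BPred.const _

theorem bp_isSumSet (h1 : BTerm f1) (h2 : BTerm f2) (h3 : BTerm f3) (h4 : BTerm f4)
    (h5 : BTerm f5) (h6 : BTerm f6) :
    BPred H (fun j γ => IsSumSet (E (H j)) (Mdl.mk _ (f1 γ)) (Mdl.mk _ (f2 γ)) (Mdl.mk _ (f3 γ))
      (Mdl.mk _ (f4 γ)) (Mdl.mk _ (f5 γ)) (Mdl.mk _ (f6 γ))) := by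
  unfold IsSumSet
  repeat' first
    | exact BMap.id
    | apply BMap.fst
    | apply BMap.snd
    | apply BTerm.cmp h1
    | apply BTerm.cmp h2
    | apply BTerm.cmp h3
    | apply BTerm.cmp h4
    | apply BTerm.cmp h5
    | apply BTerm.cmp h6
    | exact BTerm.const _
    | apply bterm_opair
    | apply BTerm.of
    | apply BPred.mem
    | apply BPred.eq
    | apply bp_has2
    | apply bp_has3
    | apply bp_isTuple3
    | apply bp_eq_pr
    | apply bp_isPair
    | apply bp_isUPair
    | apply bp_isFun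
    | apply bp_injects
    | apply bp_isSum
    | apply BPred.not
    | apply BPred.and
    | apply BPred.or
    | apply BPred.iff
    | apply BPred.imp
    | refine BPred.ex ?_
    | refine BPred.all ?_
    | exact BPred.const _

theorem bp_isMA (h1 : BTerm f1) (h2 : BTerm f2) (h3 : BTerm f3) (h4 : BTerm f4) :
    BPred H (fun j γ => IsMA (E (H j)) (Mdl.mk _ (f1 γ)) (Mdl.mk _ (f2 γ)) (Mdl.mk _ (f3 γ))
      (Mdl.mk _ (f4 γ))) := by
  unfold IsMA
  repeat' first
    | exact BMap.id
    | apply BMap.fst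
    | apply BMap.snd
    | apply BTerm.cmp h1
    | apply BTerm.cmp h2
    | apply BTerm.cmp h3
    | apply BTerm.cmp h4
    | exact BTerm.const _
    | apply bterm_opair
    | apply BTerm.of
    | apply BPred.mem
    | apply BPred.eq
    | apply bp_has2
    | apply bp_has3
    | apply bp_isTuple3
    | apply bp_eq_pr
    | apply bp_isPair
    | apply bp_isUPair
    | apply bp_isFun
    | apply bp_injects
    | apply bp_subC
    | apply bp_isMeager
    | apply bp_isSumSet
    | apply BPred.not
    | apply BPred.and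
    | apply BPred.or
    | apply BPred.iff
    | apply BPred.imp
    | refine BPred.ex ?_
    | refine BPred.all ?_
    | exact BPred.const _

end bp

section ae

variable {B : Type} [CompleteBooleanAlgebra B]

/-- To prove a statement about all ultrafilters it suffices to consider almost all of them. -/
theorem of_gen {Q P : Ult B → Prop} (hQ : Clop Q) (hP : Clop P)
    (H : ∀ᶠ ω in genN B, Q ω → P ω) : ∀ h, Q h → P h := by
  obtain ⟨a, ha⟩ := hQ
  obtain ⟨b, hb⟩ := hP
  have h1 : a ≤ b := le_iff_gen.2 (H.mono fun ω h hω => (hb ω).1 (h ((ha ω).2 hω)))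
  exact fun h hQ => (hb h).2 (h.mono h1 ((ha h).1 hQ))

theorem ae_exists_mem {ι : Type} (e : ι → BName B) (c : ι → B) {P : (h : Ult B) → Mdl h → Prop}
    (hP : BPred (fun h : Ult B => h) (fun h (x : BName B) => P h (Mdl.mk h x))) :
    ∀ᶠ ω in genN B, (∃ z, E ω z (Mdl.mk ω (BName.mk ι e c)) ∧ P ω z) →
      ∃ i, ω.V (c i) ∧ P ω (Mdl.mk ω (e i)) := by
  obtain ⟨φ, hφ, hφ'⟩ := hP
  filter_upwards [gen_iSup (fun i => c i ⊓ φ (e i))] with ω hω
  rintro ⟨z, hz, hPz⟩
  obtain ⟨z, rfl⟩ := z.exists_rep
  have h1 : ω.V (⨆ i, c i ⊓ φ (e i)) := by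
    refine ω.mono (bex_eq (φ := φ) hφ (BName.mk ι e c)).le ?_
    refine ω.iSup_of (fun z => bmem z (BName.mk ι e c) ⊓ φ z) z ?_
    rw [ω.inf']
    exact ⟨hz, (hφ' ω z).1 hPz⟩
  obtain ⟨i, hi⟩ := hω.1 h1
  rw [ω.inf'] at hi
  exact ⟨i, hi.1, (hφ' ω (e i)).2 hi.2⟩

theorem ae_forall_mem {ι : Type} (e : ι → BName B) (c : ι → B) {P : (h : Ult B) → Mdl h → Prop}
    (hP : BPred (fun h : Ult B => h) (fun h (x : BName B) => P h (Mdl.mk h x))) :
    ∀ᶠ ω in genN B, (∀ i, ω.V (c i) → P ω (Mdl.mk ω (e i))) →
      ∀ z, E ω z (Mdl.mk ω (BName.mk ι e c)) → P ω z := by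
  filter_upwards [ae_exists_mem e c (P := fun h z => ¬ P h z) hP.not] with ω hω H z hz
  by_contra hcon
  obtain ⟨i, hi, hi'⟩ := hω ⟨z, hz, hcon⟩
  exact hi' (H i hi)

/-- The Boolean value of an event. -/
noncomputable def bv (A : Set (Ult B)) : B :=
  open Classical in if h : ∃ b : B, ∀ᶠ ω in genN B, (ω ∈ A ↔ ω.V b) then h.choose else ⊥

theorem bv_spec {A : Set (Ult B)} (hA : MeasurableSet[genM B] A) :
    ∀ᶠ ω in genN B, (ω.V (bv A) ↔ ω ∈ A) := by
  have h : ∃ b : B, ∀ᶠ ω in genN B, (ω ∈ A ↔ ω.V b) := hA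
  rw [bv, dif_pos h]
  exact h.choose_spec.mono fun ω h => h.symm

theorem meas_V (b : B) : MeasurableSet[genM B] {ω : Ult B | ω.V b} := genM_V b

theorem meas_clop {P : Ult B → Prop} (hP : Clop P) : MeasurableSet[genM B] {ω : Ult B | P ω} := by
  obtain ⟨b, hb⟩ := hP
  have : {ω : Ult B | P ω} = {ω : Ult B | ω.V b} := by ext ω; exact hb ω
  rw [this]; exact genM_V b

end ae

end Pool.Agent.MP9096b7
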