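import Pool.Agent.MP_9096b7_lc.M1
import Pool.Agent.MP_7e7dde_gt.Dec

/-! Names of the elements of `2^ω`. -/

set_option autoImplicit false
set_option linter.unusedVariables false
set_option linter.unusedSectionVars false
set_option linter.unreachableTactic false
set_option linter.unusedTactic false

namespace Pool.Agent.MP9096b7

open Filter MeasureTheory BVM BName SetModel MP63050e MP7e7dde

universe v

variable {B : Type} [CompleteBooleanAlgebra B]

theorem E_vN_two {h : Ult B} (z : Mdl h) : E h z (Mdl.mk h (vN (2 : ℕ))) ↔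
    z = Mdl.mk h (vN (0 : ℕ)) ∨ z = Mdl.mk h (vN (1 : ℕ)) := by
  rw [show (2 : ℕ) = 1 + 1 from rfl, E_vN_succ, show (1 : ℕ) = 0 + 1 from rfl, E_vN_succ]
  constructor
  · rintro ((h1 | h1) | h1)
    · exact absurd h1 (isEmp_vN_zero h z)
    · exact Or.inl h1
    · exact Or.inr h1
  · rintro (h1 | h1)
    · exact Or.inl (Or.inr h1)
    · exact Or.inr h1

theorem isTwo (h : Ult B) : IsTwo (E h) (Mdl.mk h (vN (0 : ℕ))) (Mdl.mk h (vN (2 : ℕ))) :=
  ⟨isEmp_vN_zero h, Mdl.mk h (vN (1 : ℕ)), fun z => E_vN_succ 0 z, fun z => E_vN_two z⟩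

theorem vN01 {h : Ult B} : Mdl.mk h (vN (0 : ℕ)) ≠ Mdl.mk h (vN (1 : ℕ)) := by
  rw [Ne, vN_inj]; exact Nat.zero_ne_one

/-- `ω` in the model. -/
noncomputable abbrev wM (h : Ult B) : Mdl h := Mdl.mk h (omN B)

/-- `0` in the model. -/
noncomputable abbrev oM (h : Ult B) : Mdl h := Mdl.mk h (vN (0 : ℕ))

/-- `2` in the model. -/
noncomputable abbrev tM (h : Ult B) : Mdl h := Mdl.mk h (vN (2 : ℕ))

/-- The natural numbers of the model. -/
noncomputable abbrev nM (h : Ult B) (n : ℕ) : Mdl h := Mdl.mk h (vN n)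

theorem E_nM (h : Ult B) (n : ℕ) : E h (nM h n) (wM h) := E_vN_vNset n

/-- Statements about the natural numbers of the model. -/
theorem forall_om {P : (h : Ult B) → Mdl h → Prop}
    (hP : BPred (fun h : Ult B => h) (fun h (x : BName B) => P h (Mdl.mk h x)))
    {Q : Ult B → Prop} (hQ : Clop Q) (H : ∀ h : Ult B, Q h → ∀ n : ℕ, P h (nM h n)) :
    ∀ h : Ult B, Q h → ∀ z, E h z (wM h) → P h z :=
  forall_mem (fun n : ℕ => vN n) (fun _ => ⊤) hP hQ fun h hQ n _ => H h hQ n

theorem ae_exists_om {P : (h : Ult B) → Mdl h → Prop}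
    (hP : BPred (fun h : Ult B => h) (fun h (x : BName B) => P h (Mdl.mk h x))) :
    ∀ᶠ ω in genN B, (∃ z, E ω z (wM ω) ∧ P ω z) → ∃ n : ℕ, P ω (nM ω n) :=
  (ae_exists_mem (fun n : ℕ => vN n) (fun _ => ⊤) hP).mono fun ω h h' =>
    (h h').imp fun n hn => hn.2

theorem ae_forall_om {P : (h : Ult B) → Mdl h → Prop}
    (hP : BPred (fun h : Ult B => h) (fun h (x : BName B) => P h (Mdl.mk h x))) :
    ∀ᶠ ω in genN B, (∀ n : ℕ, P ω (nM ω n)) → ∀ z, E ω z (wM ω) → P ω z :=
  (ae_forall_mem (fun n : ℕ => vN n) (fun _ => ⊤) hP).mono fun ω h h' =>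
    h fun n _ => h' n

/-- The name of the function from `ω` to `2` which takes the value `1` at `n` with the
truth value `c n`. -/
noncomputable def fnm (c : ℕ → B) : BName B :=
  BName.mk (ℕ × Bool) (fun p => opair (vN p.1) (vN (cond p.2 1 0 : ℕ)))
    (fun p => cond p.2 (c p.1) (c p.1)ᶜ)

theorem has_fnm (c : ℕ → B) (h : Ult B) (n : ℕ) (b : Bool) :
    Has (E h) (Mdl.mk h (fnm c)) [nM h n, nM h (cond b 1 0)] ↔
      h.V (cond b (c n) (c n)ᶜ) := by
  rw [has_iff (by simp)]
  change h.V (bmem (opair (vN n) (vN (cond b 1 0 : ℕ))) (fnm c)) ↔ _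
  have hinj : ∀ x y : ℕ × Bool, x ≠ y → beq (opair (vN x.1) (vN (cond x.2 1 0 : ℕ)) : BName B)
      (opair (vN y.1) (vN (cond y.2 1 0 : ℕ))) = ⊥ := by
    intro x y hxy
    rw [beq_opair]
    by_cases h1 : x.1 = y.1
    · have h2 : x.2 ≠ y.2 := fun h2 => hxy (Prod.ext h1 h2)
      have h3 : (cond x.2 1 0 : ℕ) ≠ cond y.2 1 0 := by
        cases hx : x.2 <;> cases hy : y.2 <;> simp_all
      rw [beq_vN_ne h3, inf_bot_eq]
    · rw [beq_vN_ne h1, bot_inf_eq]
  have := bmem_inj hinj (fun p => cond p.2 (c p.1) (c p.1)ᶜ) (n, b)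
  simp only at this
  rw [fnm, this]

theorem has_fnm1 (c : ℕ → B) (h : Ult B) (n : ℕ) :
    Has (E h) (Mdl.mk h (fnm c)) [nM h n, nM h 1] ↔ h.V (c n) := has_fnm c h n true

theorem has_fnm0 (c : ℕ → B) (h : Ult B) (n : ℕ) :
    Has (E h) (Mdl.mk h (fnm c)) [nM h n, oM h] ↔ ¬ h.V (c n) := by
  rw [← h.compl']; exact has_fnm c h n false

theorem fnm_pair (c : ℕ → B) (h : Ult B) (p : Mdl h) (hp : E h p (Mdl.mk h (fnm c))) :
    ∃ a b, E h a (wM h) ∧ E h b (tM h) ∧ p = pr h a b := by
  refine forall_mem' (P := fun h p => ∃ a b, E h a (wM h) ∧ E h b (tM h) ∧ p = pr h a b)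
    _ _ ?_ ?_ h p hp
  · repeat' first
      | exact BMap.id
      | apply BMap.fst
      | apply BMap.snd
      | exact BTerm.const _
      | apply bterm_opair
      | apply BTerm.of
      | apply BPred.mem
      | apply BPred.eq
      | apply bp_has2
      | apply bp_has3
      | apply bp_isTuple3
      | apply bp_eq_pr
      | apply bp_isPair
      | apply bp_isUPair
      | apply bp_isFun
      | apply bp_injects
      | apply BPred.not
      | apply BPred.and
      | apply BPred.or
      | apply BPred.iff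
      | apply BPred.imp
      | refine BPred.ex ?_
      | refine BPred.all ?_
      | exact BPred.const _
  · intro h i _
    refine ⟨nM h i.1, nM h (cond i.2 1 0), E_nM h i.1, (E_vN_two _).2 ?_, rfl⟩
    cases i.2
    · exact Or.inl rfl
    · exact Or.inr rfl

theorem fnm_val (c : ℕ → B) (h : Ult B) (a b : Mdl h)
    (hab : Has (E h) (Mdl.mk h (fnm c)) [a, b]) : E h a (wM h) ∧ E h b (tM h) := by
  rw [has_iff (by simp)] at hab
  obtain ⟨a', b', ha, hb, hp⟩ := fnm_pair c h _ hab
  obtain ⟨rfl, rfl⟩ := pr_inj.1 (show pr h a b = pr h a' b' from hp)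
  exact ⟨ha, hb⟩

theorem isFun_fnm (c : ℕ → B) (h : Ult B) : IsFun (E h) (Mdl.mk h (fnm c)) (wM h) (tM h) := by
  refine ⟨fun p hp => ?_, ?_⟩
  · obtain ⟨a, b, ha, hb, hp⟩ := fnm_pair c h p hp
    exact ⟨a, b, ha, hb, isPair_iff.2 hp⟩
  · refine forall_om (P := fun h a => ∃! b, Has (E h) (Mdl.mk h (fnm c)) [a, b]) ?_ clop_true
      ?_ h trivial
    · unfold ExistsUnique
      repeat' first
        | exact BMap.id
        | apply BMap.fst
        | apply BMap.snd
        | exact BTerm.const _
        | apply bterm_opair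
        | apply BTerm.of
        | apply BPred.mem
        | apply BPred.eq
        | apply bp_has2
        | apply bp_has3
        | apply bp_isTuple3
        | apply bp_eq_pr
        | apply bp_isPair
        | apply bp_isUPair
        | apply bp_isFun
        | apply bp_injects
        | apply BPred.not
        | apply BPred.and
        | apply BPred.or
        | apply BPred.iff
        | apply BPred.imp
        | refine BPred.ex ?_
        | refine BPred.all ?_
        | exact BPred.const _
    · intro h _ n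
      by_cases hn : h.V (c n)
      · refine ⟨nM h 1, (has_fnm1 c h n).2 hn, fun b hb => ?_⟩
        rcases (E_vN_two b).1 (fnm_val c h _ _ hb).2 with rfl | rfl
        · exact absurd hn ((has_fnm0 c h n).1 hb)
        · rfl
      · refine ⟨oM h, (has_fnm0 c h n).2 hn, fun b hb => ?_⟩
        rcases (E_vN_two b).1 (fnm_val c h _ _ hb).2 with rfl | rfl
        · rfl
        · exact absurd ((has_fnm1 c h n).1 hb) hn

theorem fun_le {h : Ult B} {f g x y : Mdl h} (hf : IsFun (E h) f x y)
    (H : ∀ a b, E h a x → E h b y → Has (E h) f [a, b] → Has (E h) g [a, b]) :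
    ∀ z, E h z f → E h z g := by
  intro z hz
  obtain ⟨a, b, ha, hb, hab⟩ := hf.1 z hz
  rw [isPair_iff] at hab
  subst hab
  have := H a b ha hb ((has_iff (by simp)).2 hz)
  rw [has_iff (by simp)] at this
  exact this

/-- Each element of `2^ω` in the model has a name of the form `fnm c`. -/
theorem exists_fcode (x : BName B) : ∃ c : ℕ → B, ∀ h : Ult B,
    IsFun (E h) (Mdl.mk h x) (wM h) (tM h) → Mdl.mk h x = Mdl.mk h (fnm c) := by
  have hcl : ∀ n : ℕ, Clop (fun h : Ult B => Has (E h) (Mdl.mk h x) [nM h n, nM h 1]) := by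
    intro n
    exact BPred.clop (P := fun h (_ : PUnit.{1}) => Has (E h) (Mdl.mk h x) [nM h n, nM h 1])
      (bp_has2 (BTerm.const _) (BTerm.const _) (BTerm.const _)) PUnit.unit
  refine ⟨fun n => bval (fun h : Ult B => Has (E h) (Mdl.mk h x) [nM h n, nM h 1]), ?_⟩
  set c : ℕ → B := fun n => bval (fun h : Ult B => Has (E h) (Mdl.mk h x) [nM h n, nM h 1])
    with hc
  have hcV : ∀ (h : Ult B) n, h.V (c n) ↔ Has (E h) (Mdl.mk h x) [nM h n, nM h 1] :=
    fun h n => ((hcl n).iff h).symm
  have hQ : Clop (fun h : Ult B => IsFun (E h) (Mdl.mk h x) (wM h) (tM h)) :=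
    BPred.clop (P := fun h (_ : PUnit.{1}) => IsFun (E h) (Mdl.mk h x) (wM h) (tM h))
      (bp_isFun (BTerm.const _) (BTerm.const _) (BTerm.const _)) PUnit.unit
  intro h hx
  have hc' := isFun_fnm c h
  have key : ∀ a, E h a (wM h) → ∀ b, Has (E h) (Mdl.mk h x) [a, b] →
      Has (E h) (Mdl.mk h (fnm c)) [a, b] := by
    refine forall_om (P := fun h a => ∀ b, Has (E h) (Mdl.mk h x) [a, b] →
      Has (E h) (Mdl.mk h (fnm c)) [a, b]) ?_ hQ ?_ h hx
    · repeat' first
        | exact BMap.id
        | apply BMap.fst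
        | apply BMap.snd
        | exact BTerm.const _
        | apply bterm_opair
        | apply BTerm.of
        | apply BPred.mem
        | apply BPred.eq
        | apply bp_has2
        | apply bp_has3
        | apply bp_isTuple3
        | apply bp_eq_pr
        | apply bp_isPair
        | apply bp_isUPair
        | apply bp_isFun
        | apply bp_injects
        | apply BPred.not
        | apply BPred.and
        | apply BPred.or
        | apply BPred.iff
        | apply BPred.imp
        | refine BPred.ex ?_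
        | refine BPred.all ?_
        | exact BPred.const _
    · intro h hx n b hb
      rcases (E_vN_two b).1 (isFun_has hx hb).2 with rfl | rfl
      · refine (has_fnm0 c h n).2 fun hn => vN01 (h := h) ?_
        exact (hx.2 _ (E_nM h n)).unique hb ((hcV h n).1 hn)
      · exact (has_fnm1 c h n).2 ((hcV h n).2 hb)
  apply Mdl.ext
  intro z
  refine ⟨fun_le hx (fun a b ha _ hab => key a ha b hab) z,
    fun_le hc' (fun a b ha _ hab => ?_) z⟩
  obtain ⟨b', hb', -⟩ := hx.2 a ha
  have := (hc'.2 a ha).unique hab (key a ha b' hb')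
  rw [this]
  exact hb'

/-- The value of a real at an ultrafilter. -/
noncomputable def rv (c : ℕ → B) (ω : Ult B) (n : ℕ) : ℕ :=
  open Classical in if ω.V (c n) then 1 else 0

theorem rv_le (c : ℕ → B) (ω : Ult B) (n : ℕ) : rv c ω n ≤ 1 := by
  unfold rv; split_ifs <;> omega

theorem rv_eq_one {c : ℕ → B} {ω : Ult B} {n : ℕ} : rv c ω n = 1 ↔ ω.V (c n) := by
  unfold rv; split_ifs with h <;> simp [h]

theorem rv_eq_zero {c : ℕ → B} {ω : Ult B} {n : ℕ} : rv c ω n = 0 ↔ ¬ ω.V (c n) := by
  unfold rv; split_ifs with h <;> simp [h]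

theorem rv_eq_iff {c d : ℕ → B} {ω : Ult B} {n m : ℕ} :
    rv c ω n = rv d ω m ↔ (ω.V (c n) ↔ ω.V (d m)) := by
  unfold rv; split_ifs with h1 h2 h2 <;> simp [h1, h2]

theorem meas_rv (c : ℕ → B) : Measurable[genM B] (rv c) := by
  refine meas_pi fun k v => ?_
  have h1 : MeasurableSet[genM B] {ω : Ult B | ω.V (c k)} := genM_V _
  rcases Nat.lt_trichotomy v 0 with h | h | h
  · omega
  · subst h
    have : {ω : Ult B | rv c ω k = 0} = {ω : Ult B | ω.V (c k)}ᶜ := by
      ext ω; exact rv_eq_zero
    rw [this]; exact h1.compl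
  · by_cases h' : v = 1
    · subst h'
      have : {ω : Ult B | rv c ω k = 1} = {ω : Ult B | ω.V (c k)} := by
        ext ω; exact rv_eq_one
      rw [this]; exact h1
    · have : {ω : Ult B | rv c ω k = v} = ∅ := by
        ext ω
        have := rv_le c ω k
        simp only [Set.mem_ofPred_eq, Set.mem_empty_iff_false, iff_false]
        omega
      rw [this]; exact @MeasurableSet.empty _ (genM B)

/-- The code of a measurable function with values in `2^ω`. -/
noncomputable def code (x : Ult B → ℕ → ℕ) (n : ℕ) : B := bv {ω | x ω n = 1}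

theorem rv_code {x : Ult B → ℕ → ℕ} (hx : Measurable[genM B] x) (h1 : ∀ ω k, x ω k ≤ 1) :
    ∀ᶠ ω in genN B, rv (code x) ω = x ω := by
  have h2 : ∀ᶠ ω in genN B, ∀ n, (ω.V (code x n) ↔ x ω n = 1) := by
    refine eventually_countable_forall.2 fun n => ?_
    have h3 : Measurable[genM B] fun ω => x ω n := meas_coord hx n
    exact bv_spec (A := {ω | x ω n = 1}) (h3 (measurableSet_singleton 1))
  filter_upwards [h2] with ω hω
  funext n
  have h3 := h1 ω n
  by_cases h4 : x ω n = 1
  · rw [h4, rv_eq_one, hω, h4]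
  · have h5 : x ω n = 0 := by omega
    rw [h5, rv_eq_zero, hω]
    exact h4

theorem rv_of_eq {c d : ℕ → B} {h : Ult B} (H : Mdl.mk h (fnm c) = Mdl.mk h (fnm d)) :
    rv c h = rv d h := by
  funext n
  rw [rv_eq_iff, ← has_fnm1, ← has_fnm1, H]

theorem eq_of_rv (c d : ℕ → B) : ∀ᶠ ω in genN B, rv c ω = rv d ω →
    Mdl.mk ω (fnm c) = Mdl.mk ω (fnm d) := by
  have h1 := ae_forall_om (B := B) (P := fun h a => ∀ b, Has (E h) (Mdl.mk h (fnm c)) [a, b] →
    Has (E h) (Mdl.mk h (fnm d)) [a, b]) (by
    repeat' first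
      | exact BMap.id
      | apply BMap.fst
      | apply BMap.snd
      | exact BTerm.const _
      | apply bterm_opair
      | apply BTerm.of
      | apply BPred.mem
      | apply BPred.eq
      | apply bp_has2
      | apply bp_has3
      | apply bp_isTuple3
      | apply bp_eq_pr
      | apply bp_isPair
      | apply bp_isUPair
      | apply bp_isFun
      | apply bp_injects
      | apply BPred.not
      | apply BPred.and
      | apply BPred.or
      | apply BPred.iff
      | apply BPred.imp
      | refine BPred.ex ?_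
      | refine BPred.all ?_
      | exact BPred.const _
    )
  have h2 := ae_forall_om (B := B) (P := fun h a => ∀ b, Has (E h) (Mdl.mk h (fnm d)) [a, b] →
    Has (E h) (Mdl.mk h (fnm c)) [a, b]) (by
    repeat' first
      | exact BMap.id
      | apply BMap.fst
      | apply BMap.snd
      | exact BTerm.const _
      | apply bterm_opair
      | apply BTerm.of
      | apply BPred.mem
      | apply BPred.eq
      | apply bp_has2
      | apply bp_has3
      | apply bp_isTuple3
      | apply bp_eq_pr
      | apply bp_isPair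
      | apply bp_isUPair
      | apply bp_isFun
      | apply bp_injects
      | apply BPred.not
      | apply BPred.and
      | apply BPred.or
      | apply BPred.iff
      | apply BPred.imp
      | refine BPred.ex ?_
      | refine BPred.all ?_
      | exact BPred.const _
    )
  have key : ∀ (c d : ℕ → B) (ω : Ult B), rv c ω = rv d ω → ∀ n : ℕ, ∀ b,
      Has (E ω) (Mdl.mk ω (fnm c)) [nM ω n, b] → Has (E ω) (Mdl.mk ω (fnm d)) [nM ω n, b] := by
    intro c d ω h n b hb
    have h3 := rv_eq_iff.1 (congrFun h n)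
    rcases (E_vN_two b).1 (fnm_val c ω _ _ hb).2 with rfl | rfl
    · rw [has_fnm0] at hb
      rw [has_fnm0, ← h3]
      exact hb
    · rw [has_fnm1] at hb
      rw [has_fnm1, ← h3]
      exact hb
  filter_upwards [h1, h2] with ω h1 h2 h
  apply Mdl.ext
  intro z
  exact ⟨fun_le (isFun_fnm c ω) (fun a b ha _ hab => h1 (key c d ω h) a ha b hab) z,
    fun_le (isFun_fnm d ω) (fun a b ha _ hab => h2 (key d c ω h.symm) a ha b hab) z⟩

/-- Addition modulo `2`. -/
def xadd (x y : ℕ → ℕ) (n : ℕ) : ℕ := (x n + y n) % 2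

theorem rv_of_isSum {a b c : ℕ → B} {h : Ult B}
    (H : IsSum (E h) (wM h) (oM h) (Mdl.mk h (fnm a)) (Mdl.mk h (fnm b)) (Mdl.mk h (fnm c))) :
    rv c h = xadd (rv a h) (rv b h) := by
  funext n
  have h1 : Has (E h) (Mdl.mk h (fnm c)) [nM h n, oM h] ↔
      (Has (E h) (Mdl.mk h (fnm a)) [nM h n, oM h] ↔
        Has (E h) (Mdl.mk h (fnm b)) [nM h n, oM h]) := H _ (E_nM h n)
  rw [has_fnm0, has_fnm0, has_fnm0] at h1
  unfold xadd rv
  split_ifs with h2 h3 h4 h4 h3 h4 h4 <;> simp_all

theorem isSum_of_rv (a b c : ℕ → B) : ∀ᶠ ω in genN B, rv c ω = xadd (rv a ω) (rv b ω) →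
    IsSum (E ω) (wM ω) (oM ω) (Mdl.mk ω (fnm a)) (Mdl.mk ω (fnm b)) (Mdl.mk ω (fnm c)) := by
  have h1 := ae_forall_om (B := B) (P := fun h n => (Has (E h) (Mdl.mk h (fnm c)) [n, oM h] ↔
      (Has (E h) (Mdl.mk h (fnm a)) [n, oM h] ↔ Has (E h) (Mdl.mk h (fnm b)) [n, oM h])))
      (by
    repeat' first
      | exact BMap.id
      | apply BMap.fst
      | apply BMap.snd
      | exact BTerm.const _
      | apply bterm_opair
      | apply BTerm.of
      | apply BPred.mem
      | apply BPred.eq
      | apply bp_has2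
      | apply bp_has3
      | apply bp_isTuple3
      | apply bp_eq_pr
      | apply bp_isPair
      | apply bp_isUPair
      | apply bp_isFun
      | apply bp_injects
      | apply BPred.not
      | apply BPred.and
      | apply BPred.or
      | apply BPred.iff
      | apply BPred.imp
      | refine BPred.ex ?_
      | refine BPred.all ?_
      | exact BPred.const _
    )
  filter_upwards [h1] with ω h1 h
  refine h1 fun n => ?_
  rw [has_fnm0, has_fnm0, has_fnm0]
  have h2 := congrFun h n
  unfold xadd rv at h2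
  split_ifs at h2 with h3 h4 h5 h5 h4 h5 h5 <;> simp_all

theorem agree_fnm {a b : ℕ → B} {h : Ult B} {m : ℕ} :
    Agree (E h) (nM h m) (Mdl.mk h (fnm a)) (Mdl.mk h (fnm b)) ↔
      ∀ k < m, rv a h k = rv b h k := by
  constructor
  · intro H k hk
    have := H (nM h k) (nM h 1) (E_vN_vN.2 hk)
    rw [has_fnm1, has_fnm1] at this
    exact rv_eq_iff.2 this
  · intro H
    have h1 : ∀ m : ℕ, (∀ k < m, rv a h k = rv b h k) → ∀ k, E h k (nM h m) → ∀ e,
        (Has (E h) (Mdl.mk h (fnm a)) [k, e] ↔ Has (E h) (Mdl.mk h (fnm b)) [k, e]) := by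
      intro m
      induction m with
      | zero => intro _ k hk; exact absurd hk (isEmp_vN_zero h k)
      | succ m ih =>
        intro H k hk e
        rw [E_vN_succ] at hk
        rcases hk with hk | rfl
        · exact ih (fun k hk => H k (by omega)) k hk e
        · have h2 := rv_eq_iff.1 (H m (by omega))
          constructor
          · intro he
            rcases (E_vN_two e).1 (fnm_val a h _ _ he).2 with rfl | rfl
            · rw [has_fnm0] at he ⊢
              rwa [← h2]
            · rw [has_fnm1] at he ⊢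
              rwa [← h2]
          · intro he
            rcases (E_vN_two e).1 (fnm_val b h _ _ he).2 with rfl | rfl
            · rw [has_fnm0] at he ⊢
              rwa [h2]
            · rw [has_fnm1] at he ⊢
              rwa [h2]
    exact fun k e hk => h1 m H k hk e

/-- The name of the set of the reals which satisfy `D`. -/
noncomputable def setN (D : Ult B → (ℕ → ℕ) → Prop) : BName B :=
  BName.mk (ℕ → B) fnm (fun c => bv {ω | D ω (rv c ω)})

theorem subC_mk (coef : (ℕ → B) → B) (h : Ult B) :
    SubC (E h) (wM h) (tM h) (Mdl.mk h (BName.mk (ℕ → B) fnm coef)) := by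
  intro z hz
  refine forall_mem' (P := fun h z => IsFun (E h) z (wM h) (tM h)) _ _ ?_ ?_ h z hz
  · repeat' first
      | exact BMap.id
      | apply BMap.fst
      | apply BMap.snd
      | exact BTerm.const _
      | apply bterm_opair
      | apply BTerm.of
      | apply BPred.mem
      | apply BPred.eq
      | apply bp_has2
      | apply bp_has3
      | apply bp_isTuple3
      | apply bp_eq_pr
      | apply bp_isPair
      | apply bp_isUPair
      | apply bp_isFun
      | apply bp_injects
      | apply BPred.not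
      | apply BPred.and
      | apply BPred.or
      | apply BPred.iff
      | apply BPred.imp
      | refine BPred.ex ?_
      | refine BPred.all ?_
      | exact BPred.const _
  · intro h c _
    exact isFun_fnm c h

theorem mem_setN {D : Ult B → (ℕ → ℕ) → Prop}
    (hD : ∀ c : ℕ → B, MeasurableSet[genM B] {ω | D ω (rv c ω)}) (c : ℕ → B) :
    ∀ᶠ ω in genN B, (E ω (Mdl.mk ω (fnm c)) (Mdl.mk ω (setN D)) ↔ D ω (rv c ω)) := by
  have h1 : bmem (fnm c) (setN D) = bv {ω | D ω (rv c ω)} := by
    apply le_antisymm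
    · rw [setN, bmem_mk]
      refine iSup_le fun c' => ?_
      rw [le_iff_gen]
      filter_upwards [bv_spec (hD c), bv_spec (hD c')] with ω h1 h2 h
      rw [ω.inf'] at h
      rw [h1]
      have h3 := h2.1 h.1
      have h4 := rv_of_eq (Mdl.mk_eq.2 h.2)
      change D ω (rv c ω)
      rw [h4]
      exact h3
    · exact coe_le_bmem (setN D) c
  filter_upwards [bv_spec (hD c)] with ω h
  rw [E_mk, h1]
  exact h

end Pool.Agent.MP9096b7
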