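import Pool.Agent.MP_9096b7_lc.M2

/-! Meager sets in the model: a sufficient condition. -/

set_option autoImplicit false
set_option linter.unusedVariables false
set_option linter.unusedSectionVars false
set_option linter.unreachableTactic false
set_option linter.unusedTactic false

namespace Pool.Agent.MP9096b7

open Filter MeasureTheory BVM BName SetModel MP63050e MP7e7dde

/-! ### Measurability -/

section meas

variable {X : Type} {m : MeasurableSpace X}

theorem meas_rel1 {a : X → ℕ} (ha : Measurable[m] a) (R : ℕ → Prop) :
    MeasurableSet[m] {ω | R (a ω)} := ha (MeasurableSet.of_discrete (s := {p : ℕ | R p}))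

theorem meas_rel2 {a b : X → ℕ} (ha : Measurable[m] a) (hb : Measurable[m] b)
    (R : ℕ → ℕ → Prop) : MeasurableSet[m] {ω | R (a ω) (b ω)} :=
  (ha.prodMk hb) (MeasurableSet.of_discrete (s := {p : ℕ × ℕ | R p.1 p.2}))

theorem meas_and {P Q : X → Prop} (hP : MeasurableSet[m] {ω | P ω})
    (hQ : MeasurableSet[m] {ω | Q ω}) : MeasurableSet[m] {ω | P ω ∧ Q ω} := hP.inter hQ

theorem meas_or {P Q : X → Prop} (hP : MeasurableSet[m] {ω | P ω})
    (hQ : MeasurableSet[m] {ω | Q ω}) : MeasurableSet[m] {ω | P ω ∨ Q ω} := hP.union hQ

theorem meas_not {P : X → Prop} (hP : MeasurableSet[m] {ω | P ω}) :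
    MeasurableSet[m] {ω | ¬ P ω} := hP.compl

theorem meas_const (p : Prop) : MeasurableSet[m] {_ω : X | p} := MeasurableSet.const p

theorem meas_imp {P Q : X → Prop} (hP : MeasurableSet[m] {ω | P ω})
    (hQ : MeasurableSet[m] {ω | Q ω}) : MeasurableSet[m] {ω | P ω → Q ω} := by
  have : {ω | P ω → Q ω} = {ω | ¬ P ω ∨ Q ω} := by
    ext ω; simp only [Set.mem_ofPred_eq]; tauto
  rw [this]; exact meas_or (meas_not hP) hQ

theorem meas_ex {ι : Type} [Countable ι] {P : ι → X → Prop}
    (hP : ∀ i, MeasurableSet[m] {ω | P i ω}) : MeasurableSet[m] {ω | ∃ i, P i ω} := by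
  have : {ω | ∃ i, P i ω} = ⋃ i, {ω | P i ω} := by ext ω; simp
  rw [this]; exact MeasurableSet.iUnion hP

theorem meas_all {ι : Type} [Countable ι] {P : ι → X → Prop}
    (hP : ∀ i, MeasurableSet[m] {ω | P i ω}) : MeasurableSet[m] {ω | ∀ i, P i ω} := by
  have : {ω | ∀ i, P i ω} = ⋂ i, {ω | P i ω} := by ext ω; simp
  rw [this]; exact MeasurableSet.iInter hP

theorem meas_ev {P : ℕ → X → Prop} (hP : ∀ i, MeasurableSet[m] {ω | P i ω}) :
    MeasurableSet[m] {ω | ∀ᶠ k in atTop, P k ω} := by
  simp only [eventually_atTop]
  exact meas_ex fun N => meas_all fun k => meas_imp (meas_const _) (hP k)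

theorem meas_ite {P : X → Prop} [DecidablePred P] {a b : X → ℕ}
    (hP : MeasurableSet[m] {ω | P ω}) (ha : Measurable[m] a) (hb : Measurable[m] b) :
    Measurable[m] fun ω => if P ω then a ω else b ω := Measurable.ite hP ha hb

theorem meas_pi' {ι : Type} {F : X → ι → ℕ} (h : ∀ k, Measurable[m] fun ω => F ω k) :
    Measurable[m] F := by
  rw [@measurable_pi_iff]
  exact h

end meas

/-! ### Injections of families -/

variable {B : Type} [CompleteBooleanAlgebra B]

section inj

variable {ι : Type} (u e : ι → BName B)

/-- The name of the injection which maps `u i` to `e j`, where `j` is the least index with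
`u i = u j`. -/
noncomputable def injI : BName B :=
  BName.mk ι (fun i => opair (u i) (e i))
    (fun i => (⨆ j : {j : ι // WellOrderingRel j i}, beq (u j.1) (u i))ᶜ)

theorem injI_ne {h : Ult B} {i j : ι}
    (hi : h.V (⨆ j : {j : ι // WellOrderingRel j i}, beq (u j.1) (u i))ᶜ)
    (hj : WellOrderingRel j i) : Mdl.mk h (u j) ≠ Mdl.mk h (u i) := by
  intro he
  rw [h.compl'] at hi
  exact hi (h.iSup_of (fun j : {j : ι // WellOrderingRel j i} => beq (u j.1) (u i)) ⟨j, hj⟩
    (Mdl.mk_eq.1 he))

theorem injI_uniq (he : ∀ i j, i ≠ j → beq (e i) (e j) = ⊥) {h : Ult B} {a a' b b' : Mdl h}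
    (h1 : Has (E h) (Mdl.mk h (injI u e)) [a, b])
    (h2 : Has (E h) (Mdl.mk h (injI u e)) [a', b']) : a = a' ↔ b = b' := by
  rw [has_iff (by simp)] at h1 h2
  refine forall_mem' (P := fun h p => ∀ p' a b a' b', E h p' (Mdl.mk h (injI u e)) →
    p = pr h a b → p' = pr h a' b' → (a = a' ↔ b = b')) _ _ ?_ ?_ h _ h1 _ a b a' b' h2 rfl rfl
  · repeat' first
      | exact BMap.id
      | apply BMap.fst
      | apply BMap.snd
      | exact BTerm.const _
      | apply bterm_opair
      | apply BTerm.of
      | apply BPred.mem
      | apply BPred.eq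
      | apply bp_has2
      | apply bp_has3
      | apply bp_isTuple3
      | apply bp_eq_pr
      | apply bp_isPair
      | apply bp_isUPair
      | apply bp_isFun
      | apply bp_injects
      | apply BPred.not
      | apply BPred.and
      | apply BPred.or
      | apply BPred.iff
      | apply BPred.imp
      | refine BPred.ex ?_
      | refine BPred.all ?_
      | exact BPred.const _
  · intro h n hn p' a b a' b' hp' hp hp'2
    obtain ⟨rfl, rfl⟩ := pr_inj.1 (show pr h (Mdl.mk h (u n)) (Mdl.mk h (e n)) =
        pr h a b from hp)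
    refine forall_mem (P := fun h p' => ∀ a' b', p' = pr h a' b' →
        (Mdl.mk h (u n) = a' ↔ Mdl.mk h (e n) = b')) _ _ ?_ (clop_V _) ?_ h hn p' hp' a' b'
        hp'2
    · repeat' first
        | exact BMap.id
        | apply BMap.fst
        | apply BMap.snd
        | exact BTerm.const _
        | apply bterm_opair
        | apply BTerm.of
        | apply BPred.mem
        | apply BPred.eq
        | apply bp_has2
        | apply bp_has3
        | apply bp_isTuple3
        | apply bp_eq_pr
        | apply bp_isPair
        | apply bp_isUPair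
        | apply bp_isFun
        | apply bp_injects
        | apply BPred.not
        | apply BPred.and
        | apply BPred.or
        | apply BPred.iff
        | apply BPred.imp
        | refine BPred.ex ?_
        | refine BPred.all ?_
        | exact BPred.const _
    · intro h hn n' hn' a' b' hp
      obtain ⟨rfl, rfl⟩ := pr_inj.1 (show pr h (Mdl.mk h (u n')) (Mdl.mk h (e n')) =
        pr h a' b' from hp)
      constructor
      · intro hu
        rcases trichotomous_of WellOrderingRel n n' with h3 | h3 | h3
        · exact absurd hu (injI_ne u hn' h3)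
        · rw [h3]
        · exact absurd hu.symm (injI_ne u hn h3)
      · intro hv
        by_contra hne
        have hnn : n ≠ n' := by rintro rfl; exact hne rfl
        rw [Mdl.mk_eq, he n n' hnn] at hv
        exact h.bot hv

theorem injI_ex (i : ι) : (⊤ : B) ≤ ⨆ j : ι, beq (u j) (u i) ⊓
    (⨆ k : {k : ι // WellOrderingRel k j}, beq (u k.1) (u j))ᶜ := by
  set s : B := ⨆ j : ι, beq (u j) (u i) ⊓
    (⨆ k : {k : ι // WellOrderingRel k j}, beq (u k.1) (u j))ᶜ with hs
  have key : ∀ j : ι, beq (u j) (u i) ≤ s := by
    intro j
    induction j using (IsWellFounded.wf (r := (WellOrderingRel : ι → ι → Prop))).induction with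
    | _ j ih =>
      refine Ult.le_iff.2 fun h hj => ?_
      by_cases h1 : h.V (⨆ k : {k : ι // WellOrderingRel k j}, beq (u k.1) (u j))
      · have h2 : (⨆ k : {k : ι // WellOrderingRel k j}, beq (u k.1) (u j)) ⊓ beq (u j) (u i)
            ≤ s := by
          rw [iSup_inf_eq]
          refine iSup_le fun k => (beq_trans _ _ _).trans (ih k.1 k.2)
        exact h.mono h2 ((h.inf' _ _).2 ⟨h1, hj⟩)
      · refine h.iSup_of (fun j : ι => beq (u j) (u i) ⊓
          (⨆ k : {k : ι // WellOrderingRel k j}, beq (u k.1) (u j))ᶜ) j ?_
        rw [h.inf', h.compl']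
        exact ⟨hj, h1⟩
  have := key i
  rwa [beq_refl] at this

/-- A family of names indexed by `ι` injects into a discrete family of names indexed by `ι`. -/
theorem injects_idx (he : ∀ i j, i ≠ j → beq (e i) (e j) = ⊥) (h : Ult B) :
    Injects (E h) (Mdl.mk h (BName.mk ι u (fun _ => ⊤)))
      (Mdl.mk h (BName.mk ι e (fun _ => ⊤))) := by
  refine ⟨Mdl.mk h (injI u e), ⟨?_, ?_⟩, fun a a' b _ _ h1 h2 => (injI_uniq u e he h1 h2).2 rfl⟩
  · refine forall_mem' (P := fun h p => ∃ a b,
      E h a (Mdl.mk h (BName.mk ι u (fun _ => ⊤))) ∧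
      E h b (Mdl.mk h (BName.mk ι e (fun _ => ⊤))) ∧
      IsPair (E h) p a b) _ _ ?_ ?_ h
    · repeat' first
        | exact BMap.id
        | apply BMap.fst
        | apply BMap.snd
        | exact BTerm.const _
        | apply bterm_opair
        | apply BTerm.of
        | apply BPred.mem
        | apply BPred.eq
        | apply bp_has2
        | apply bp_has3
        | apply bp_isTuple3
        | apply bp_eq_pr
        | apply bp_isPair
        | apply bp_isUPair
        | apply bp_isFun
        | apply bp_injects
        | apply BPred.not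
        | apply BPred.and
        | apply BPred.or
        | apply BPred.iff
        | apply BPred.imp
        | refine BPred.ex ?_
        | refine BPred.all ?_
        | exact BPred.const _
    · intro h n _
      exact ⟨Mdl.mk h (u n), Mdl.mk h (e n), E_of_coe h.top', E_of_coe h.top', isPair_iff.2 rfl⟩
  · refine forall_mem' (P := fun h a => ∃! b, Has (E h) (Mdl.mk h (injI u e)) [a, b]) _ _ ?_ ?_ h
    · unfold ExistsUnique
      repeat' first
        | exact BMap.id
        | apply BMap.fst
        | apply BMap.snd
        | exact BTerm.const _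
        | apply bterm_opair
        | apply BTerm.of
        | apply BPred.mem
        | apply BPred.eq
        | apply bp_has2
        | apply bp_has3
        | apply bp_isTuple3
        | apply bp_eq_pr
        | apply bp_isPair
        | apply bp_isUPair
        | apply bp_isFun
        | apply bp_injects
        | apply BPred.not
        | apply BPred.and
        | apply BPred.or
        | apply BPred.iff
        | apply BPred.imp
        | refine BPred.ex ?_
        | refine BPred.all ?_
        | exact BPred.const _
    · intro h i _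
      have hex : ∃ b, Has (E h) (Mdl.mk h (injI u e)) [Mdl.mk h (u i), b] := by
        obtain ⟨z, -, hz⟩ := exists_of_iSup (P := fun h b =>
          Has (E h) (Mdl.mk h (injI u e)) [Mdl.mk h (u i), b]) e
          (fun j => beq (u j) (u i) ⊓
            (⨆ k : {k : ι // WellOrderingRel k j}, beq (u k.1) (u j))ᶜ) (by
            repeat' first
              | exact BMap.id
              | apply BMap.fst
              | apply BMap.snd
              | exact BTerm.const _
              | apply bterm_opair
              | apply BTerm.of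
              | apply BPred.mem
              | apply BPred.eq
              | apply bp_has2
              | apply bp_has3
              | apply bp_isTuple3
              | apply bp_eq_pr
              | apply bp_isPair
              | apply bp_isUPair
              | apply bp_isFun
              | apply bp_injects
              | apply BPred.not
              | apply BPred.and
              | apply BPred.or
              | apply BPred.iff
              | apply BPred.imp
              | refine BPred.ex ?_
              | refine BPred.all ?_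
              | exact BPred.const _
            ) (b := ⊤) (by
            intro h _ j hj
            rw [h.inf'] at hj
            have h1 : Mdl.mk h (u j) = Mdl.mk h (u i) := Mdl.mk_eq.2 hj.1
            rw [← h1, has_iff (by simp)]
            exact E_of_coe (e := fun i => opair (u i) (e i)) (i := j) hj.2) h.top'
            (h.mono (injI_ex u i) h.top')
        exact ⟨z, hz⟩
      obtain ⟨b, hb⟩ := hex
      exact ⟨b, hb, fun b' hb' => ((injI_uniq u e he hb hb').1 rfl).symm⟩

end inj

/-! ### Meager sets -/

/-- The meager set given by a partition `g` and a point `y`. -/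
def InB (g y z : ℕ → ℕ) : Prop := ∀ᶠ k in atTop, ∃ u, g k ≤ u ∧ u < g (k + 1) ∧ z u ≠ y u

/-- The nowhere dense parts of the meager set. -/
def BB (n : ℕ) (g y z : ℕ → ℕ) : Prop := ∀ k, n ≤ k → ∃ u, g k ≤ u ∧ u < g (k + 1) ∧ z u ≠ y u

theorem inB_iff {g y z : ℕ → ℕ} : InB g y z ↔ ∃ n, BB n g y z := by
  unfold InB BB
  rw [eventually_atTop]

theorem meas_BB {X : Type} {m : MeasurableSpace X} {g y z : X → ℕ → ℕ} (hg : Measurable[m] g)
    (hy : Measurable[m] y) (hz : Measurable[m] z) (n : ℕ) :
    MeasurableSet[m] {ω | BB n (g ω) (y ω) (z ω)} := by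
  unfold BB
  refine meas_all fun k => meas_imp (meas_const _) (meas_ex fun u => meas_and ?_ (meas_and ?_ ?_))
  · exact meas_rel1 (meas_coord hg k) (fun v => v ≤ u)
  · exact meas_rel1 (meas_coord hg (k + 1)) (fun v => u < v)
  · exact meas_rel2 (meas_coord hz u) (meas_coord hy u) (fun a b => a ≠ b)

theorem meas_InB {X : Type} {m : MeasurableSpace X} {g y z : X → ℕ → ℕ} (hg : Measurable[m] g)
    (hy : Measurable[m] y) (hz : Measurable[m] z) :
    MeasurableSet[m] {ω | InB (g ω) (y ω) (z ω)} := by
  simp only [inB_iff]
  exact meas_ex fun n => meas_BB hg hy hz n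

section nwd

variable {g y : Ult B → ℕ → ℕ} (hg : Measurable[genM B] g) (hg' : ∀ ω, StrictMono (g ω))
  (hy : Measurable[genM B] y) (hy' : ∀ ω k, y ω k ≤ 1)

include hg hg' hy hy'

theorem isNwd_BB (n : ℕ) (h : Ult B) :
    IsNwd (E h) (wM h) (tM h) (Mdl.mk h (setN (fun ω z => BB n (g ω) (y ω) z))) := by
  classical
  set D : BName B := setN (fun ω z => BB n (g ω) (y ω) z) with hD
  refine ⟨subC_mk _ h, ?_⟩
  intro x n' hx hn'
  obtain ⟨x, rfl⟩ := x.exists_rep
  obtain ⟨c, hc⟩ := exists_fcode x
  have hQ : Clop (fun h : Ult B => IsFun (E h) (Mdl.mk h x) (wM h) (tM h)) :=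
    BPred.clop (P := fun h (_ : PUnit.{1}) => IsFun (E h) (Mdl.mk h x) (wM h) (tM h))
      (bp_isFun (BTerm.const _) (BTerm.const _) (BTerm.const _)) PUnit.unit
  refine forall_om (P := fun h n' => ∃ y m, IsFun (E h) y (wM h) (tM h) ∧ E h m (wM h) ∧
    Agree (E h) n' (Mdl.mk h x) y ∧ ∀ z, E h z (Mdl.mk h D) → ¬ Agree (E h) m y z) ?_ hQ ?_ h hx
    n' hn'
  · repeat' first
      | exact BMap.id
      | apply BMap.fst
      | apply BMap.snd
      | exact BTerm.const _
      | apply bterm_opair
      | apply BTerm.of
      | apply BPred.mem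
      | apply BPred.eq
      | apply bp_has2
      | apply bp_has3
      | apply bp_isTuple3
      | apply bp_eq_pr
      | apply bp_isPair
      | apply bp_isUPair
      | apply bp_isFun
      | apply bp_injects
      | apply bp_agree
      | apply BPred.not
      | apply BPred.and
      | apply BPred.or
      | apply BPred.iff
      | apply BPred.imp
      | refine BPred.ex ?_
      | refine BPred.all ?_
      | exact BPred.const _
  intro h hx j
  refine of_gen (P := fun h => ∃ y m, IsFun (E h) y (wM h) (tM h) ∧ E h m (wM h) ∧
    Agree (E h) (nM h j) (Mdl.mk h x) y ∧ ∀ z, E h z (Mdl.mk h D) → ¬ Agree (E h) m y z) hQ ?_ ?_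
    h hx
  · refine BPred.clop (P := fun h (_ : PUnit.{1}) => ∃ y m, IsFun (E h) y (wM h) (tM h) ∧
      E h m (wM h) ∧ Agree (E h) (nM h j) (Mdl.mk h x) y ∧
      ∀ z, E h z (Mdl.mk h D) → ¬ Agree (E h) m y z) ?_ PUnit.unit
    repeat' first
      | exact BMap.id
      | apply BMap.fst
      | apply BMap.snd
      | exact BTerm.const _
      | apply bterm_opair
      | apply BTerm.of
      | apply BPred.mem
      | apply BPred.eq
      | apply bp_has2
      | apply bp_has3
      | apply bp_isTuple3
      | apply bp_eq_pr
      | apply bp_isPair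
      | apply bp_isUPair
      | apply bp_isFun
      | apply bp_injects
      | apply bp_agree
      | apply BPred.not
      | apply BPred.and
      | apply BPred.or
      | apply BPred.iff
      | apply BPred.imp
      | refine BPred.ex ?_
      | refine BPred.all ?_
      | exact BPred.const _
  -- the extension
  let k := max n j
  let y' : Ult B → ℕ → ℕ := fun ω u => if u < g ω k then rv c ω u else y ω u
  have hy1 : Measurable[genM B] y' := by
    refine meas_pi' fun u => meas_ite ?_ (meas_coord (meas_rv c) u) (meas_coord hy u)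
    exact meas_rel1 (meas_coord hg k) (fun v => u < v)
  have hy2 : ∀ ω u, y' ω u ≤ 1 := by
    intro ω u
    simp only [y']
    split_ifs
    · exact rv_le _ _ _
    · exact hy' _ _
  have hQv : ∀ v : ℕ, Clop (fun h : Ult B => h.V (bv {ω | g ω (k + 1) = v})) := fun v => clop_V _
  have hbv : ∀ v : ℕ, ∀ᶠ ω in genN B, (ω.V (bv {ω | g ω (k + 1) = v}) ↔ g ω (k + 1) = v) := by
    intro v
    exact bv_spec (A := {ω | g ω (k + 1) = v}) (meas_rel1 (meas_coord hg (k + 1)) (fun a => a = v))
  have hBB : ∀ c : ℕ → B, MeasurableSet[genM B] {ω | BB n (g ω) (y ω) (rv c ω)} :=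
    fun c => meas_BB hg hy (meas_rv c) n
  have key : ∀ v : ℕ, ∀ h : Ult B, h.V (bv {ω | g ω (k + 1) = v}) → ∀ z, E h z (Mdl.mk h D) →
      ¬ Agree (E h) (nM h v) (Mdl.mk h (fnm (code y'))) z := by
    intro v
    refine forall_mem (P := fun h z => ¬ Agree (E h) (nM h v) (Mdl.mk h (fnm (code y'))) z) _ _ ?_
      (hQv v) ?_
    · repeat' first
        | exact BMap.id
        | apply BMap.fst
        | apply BMap.snd
        | exact BTerm.const _
        | apply bterm_opair
        | apply BTerm.of
        | apply BPred.mem
        | apply BPred.eq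
        | apply bp_has2
        | apply bp_has3
        | apply bp_isTuple3
        | apply bp_eq_pr
        | apply bp_isPair
        | apply bp_isUPair
        | apply bp_isFun
        | apply bp_injects
        | apply bp_agree
        | apply BPred.not
        | apply BPred.and
        | apply BPred.or
        | apply BPred.iff
        | apply BPred.imp
        | refine BPred.ex ?_
        | refine BPred.all ?_
        | exact BPred.const _
    intro h hv c'' hc''
    refine of_gen (Q := fun h => h.V (bv {ω | g ω (k + 1) = v}) ∧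
      h.V (bv {ω | BB n (g ω) (y ω) (rv c'' ω)})) (P := fun h => ¬ Agree (E h) (nM h v)
      (Mdl.mk h (fnm (code y'))) (Mdl.mk h (fnm c''))) ?_ ?_ ?_ h ⟨hv, hc''⟩
    · exact Clop.and (hQv v) (clop_V _)
    · refine BPred.clop (P := fun h (_ : PUnit.{1}) => ¬ Agree (E h) (nM h v)
        (Mdl.mk h (fnm (code y'))) (Mdl.mk h (fnm c''))) ?_ PUnit.unit
      repeat' first
        | exact BMap.id
        | apply BMap.fst
        | apply BMap.snd
        | exact BTerm.const _
        | apply bterm_opair
        | apply BTerm.of
        | apply BPred.mem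
        | apply BPred.eq
        | apply bp_has2
        | apply bp_has3
        | apply bp_isTuple3
        | apply bp_eq_pr
        | apply bp_isPair
        | apply bp_isUPair
        | apply bp_isFun
        | apply bp_injects
        | apply bp_agree
        | apply BPred.not
        | apply BPred.and
        | apply BPred.or
        | apply BPred.iff
        | apply BPred.imp
        | refine BPred.ex ?_
        | refine BPred.all ?_
        | exact BPred.const _
    filter_upwards [hbv v, bv_spec (hBB c''), rv_code hy1 hy2] with ω h1 h2 h3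
    rintro ⟨h4, h5⟩ h6
    rw [h1] at h4
    rw [agree_fnm, h3] at h6
    obtain ⟨u, hu1, hu2, hu3⟩ := (h2.1 h5 : BB n (g ω) (y ω) (rv c'' ω)) k (le_max_left _ _)
    rw [h4] at hu2
    apply hu3
    rw [← h6 u hu2]
    simp only [y']
    rw [if_neg (not_lt.2 hu1)]
  filter_upwards [rv_code hy1 hy2, eventually_countable_forall.2 hbv] with ω h1 h2 hxω
  refine ⟨Mdl.mk ω (fnm (code y')), nM ω (g ω (k + 1)), isFun_fnm _ ω, E_nM ω _, ?_,
    key _ ω ((h2 _).2 rfl)⟩
  rw [hc ω hxω, agree_fnm, h1]
  intro i hi
  simp only [y']
  have h3 : k ≤ g ω k := (hg' ω).le_apply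
  have h4 : j ≤ k := le_max_right _ _
  rw [if_pos (by omega)]

/-- A sufficient condition for meagerness. -/
theorem meager_of {S : BName B} {b : B} (hS : ∀ h : Ult B, h.V b →
    SubC (E h) (wM h) (tM h) (Mdl.mk h S))
    (H : ∀ c : ℕ → B, ∀ᶠ ω in genN B, ω.V b → E ω (Mdl.mk ω (fnm c)) (Mdl.mk ω S) →
      InB (g ω) (y ω) (rv c ω)) :
    ∀ h : Ult B, h.V b → IsMeager (E h) (wM h) (tM h) (Mdl.mk h S) := by
  classical
  let D : ℕ → BName B := fun n => setN (fun ω z => BB n (g ω) (y ω) z)
  have hBB : ∀ n, ∀ c : ℕ → B, MeasurableSet[genM B] {ω | BB n (g ω) (y ω) (rv c ω)} :=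
    fun n c => meas_BB hg hy (meas_rv c) n
  intro h hb
  refine ⟨hS h hb, Mdl.mk h (BName.mk ℕ D (fun _ => ⊤)), ?_, ?_, ?_⟩
  · exact injects_idx D (fun n => vN n) (fun i j hij => beq_vN_ne hij) h
  · refine forall_mem' (P := fun h D => IsNwd (E h) (wM h) (tM h) D) _ _ ?_ ?_ h
    · repeat' first
        | exact BMap.id
        | apply BMap.fst
        | apply BMap.snd
        | exact BTerm.const _
        | apply bterm_opair
        | apply BTerm.of
        | apply BPred.mem
        | apply BPred.eq
        | apply bp_has2
        | apply bp_has3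
        | apply bp_isTuple3
        | apply bp_eq_pr
        | apply bp_isPair
        | apply bp_isUPair
        | apply bp_isFun
        | apply bp_injects
        | apply bp_isNwd
        | apply BPred.not
        | apply BPred.and
        | apply BPred.or
        | apply BPred.iff
        | apply BPred.imp
        | refine BPred.ex ?_
        | refine BPred.all ?_
        | exact BPred.const _
    · intro h n _
      exact isNwd_BB hg hg' hy hy' n h
  · intro x hx
    obtain ⟨x, rfl⟩ := x.exists_rep
    obtain ⟨c, hc⟩ := exists_fcode x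
    refine of_gen (Q := fun h => h.V b ∧ E h (Mdl.mk h x) (Mdl.mk h S)) (P := fun h =>
      ∃ D', E h D' (Mdl.mk h (BName.mk ℕ D (fun _ => ⊤))) ∧ E h (Mdl.mk h x) D') ?_ ?_ ?_ h
      ⟨hb, hx⟩
    · exact Clop.and (clop_V _) (clop_V _)
    · refine BPred.clop (P := fun h (_ : PUnit.{1}) =>
        ∃ D', E h D' (Mdl.mk h (BName.mk ℕ D (fun _ => ⊤))) ∧ E h (Mdl.mk h x) D') ?_ PUnit.unit
      repeat' first
        | exact BMap.id
        | apply BMap.fst
        | apply BMap.snd
        | exact BTerm.const _
        | apply bterm_opair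
        | apply BTerm.of
        | apply BPred.mem
        | apply BPred.eq
        | apply bp_has2
        | apply bp_has3
        | apply bp_isTuple3
        | apply bp_eq_pr
        | apply bp_isPair
        | apply bp_isUPair
        | apply bp_isFun
        | apply bp_injects
        | apply BPred.not
        | apply BPred.and
        | apply BPred.or
        | apply BPred.iff
        | apply BPred.imp
        | refine BPred.ex ?_
        | refine BPred.all ?_
        | exact BPred.const _
    have h2 : ∀ᶠ ω in genN B, ∀ n, (E ω (Mdl.mk ω (fnm c)) (Mdl.mk ω (D n)) ↔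
        BB n (g ω) (y ω) (rv c ω)) :=
      eventually_countable_forall.2 fun n => mem_setN (hBB n) c
    filter_upwards [H c, h2] with ω h1 h2
    rintro ⟨h3, h4⟩
    have h5 := hc ω (hS ω h3 _ h4)
    rw [h5] at h4 ⊢
    obtain ⟨n, hn⟩ := inB_iff.1 (h1 h3 h4)
    exact ⟨Mdl.mk ω (D n), E_of_coe ω.top', (h2 n).2 hn⟩

end nwd

end Pool.Agent.MP9096b7
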