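import Pool.Agent.MP_9096b7_lc.M3

/-! Meager sets in the model: each meager set is covered by a set `B(g, y)`. -/

set_option autoImplicit false
set_option linter.unusedVariables false
set_option linter.unusedSectionVars false
set_option linter.unreachableTactic false
set_option linter.unusedTactic false

namespace Pool.Agent.MP9096b7

open Filter MeasureTheory BVM BName SetModel MP63050e MP7e7dde

instance instMSListBool : MeasurableSpace (List Bool) := ⊤

instance : DiscreteMeasurableSpace (List Bool) := ⟨fun _ => trivial⟩

section comb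

/-- `0` or `1`. -/
def btn (b : Bool) : ℕ := cond b 1 0

theorem btn_le (b : Bool) : btn b ≤ 1 := by cases b <;> simp [btn]

theorem btn_dec {n : ℕ} (h : n ≤ 1) : btn (decide (n = 1)) = n := by
  by_cases h1 : n = 1
  · simp [h1, btn]
  · have : n = 0 := by omega
    simp [this, btn]

theorem btn_inj {b b' : Bool} (h : btn b = btn b') : b = b' := by
  cases b <;> cases b' <;> simp_all [btn]

/-- The restriction of a real to `L`. -/
def rst (x : ℕ → ℕ) (L : ℕ) : List Bool := (List.range L).map fun u => decide (x u = 1)

theorem rst_length (x : ℕ → ℕ) (L : ℕ) : (rst x L).length = L := by simp [rst]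

theorem rst_getD (x : ℕ → ℕ) (L : ℕ) (hx : ∀ u, x u ≤ 1) {u : ℕ} (hu : u < L) :
    btn ((rst x L).getD u false) = x u := by
  have : (rst x L).getD u false = decide (x u = 1) := by
    rw [List.getD_eq_getElem _ _ (by rw [rst_length]; exact hu)]
    simp [rst]
  rw [this, btn_dec (hx u)]

/-- The simultaneous extension. -/
theorem exists_ext {T : ℕ → List Bool → Prop} (hmono : ∀ n s s', s <+: s' → T n s → T n s')
    (hex : ∀ n s, ∃ s', s <+: s' ∧ T n s') (F : Finset (ℕ × List Bool)) :
    ∃ v : List Bool, v ≠ [] ∧ ∀ p ∈ F, T p.1 (p.2 ++ v) := by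
  classical
  induction F using Finset.induction_on with
  | empty => exact ⟨[false], by simp, by simp⟩
  | insert p F _ ih =>
    obtain ⟨v, hv, hv'⟩ := ih
    obtain ⟨s', ⟨v', rfl⟩, hs'⟩ := hex p.1 (p.2 ++ v)
    refine ⟨v ++ v', by simp [hv], fun q hq => ?_⟩
    rcases Finset.mem_insert.1 hq with rfl | hq
    · rw [← List.append_assoc]; exact hs'
    · refine hmono q.1 (q.2 ++ v) _ ?_ (hv' q hq)
      rw [← List.append_assoc]
      exact List.prefix_append _ _

theorem exists_ext' {T : ℕ → List Bool → Prop} (hmono : ∀ n s s', s <+: s' → T n s → T n s')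
    (hex : ∀ n s, ∃ s', s <+: s' ∧ T n s') (k : ℕ) (u : List Bool) :
    ∃ u' : List Bool, (u <+: u' ∧ u.length < u'.length) ∧
      ∀ n s, n ≤ k → s.length = u.length → T n (s ++ u'.drop u.length) := by
  classical
  have hfin : {p : ℕ × List Bool | p.1 ≤ k ∧ p.2.length = u.length}.Finite := by
    have h1 : {n : ℕ | n ≤ k}.Finite := Set.finite_le_nat k
    have h2 : {s : List Bool | s.length = u.length}.Finite := List.finite_length_eq Bool u.length
    exact (h1.prod h2).subset fun p hp => ⟨hp.1, hp.2⟩
  obtain ⟨v, hv, hv'⟩ := exists_ext hmono hex hfin.toFinset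
  refine ⟨u ++ v, ⟨List.prefix_append _ _, ?_⟩, fun n s hn hs => ?_⟩
  · rw [List.length_append]
    have := List.length_pos_iff.2 hv
    omega
  · rw [List.drop_left]
    exact hv' (n, s) (hfin.mem_toFinset.2 ⟨hn, hs⟩)

end comb

variable {B : Type} [CompleteBooleanAlgebra B]

/-- The code of a finite sequence. -/
noncomputable def sc (B : Type) [CompleteBooleanAlgebra B] (s : List Bool) (u : ℕ) : B :=
  tv B (s.getD u false = true)

theorem rv_sc (s : List Bool) (ω : Ult B) (u : ℕ) : rv (sc B s) ω u = btn (s.getD u false) := by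
  unfold rv sc
  simp only [V_tv]
  cases s.getD u false <;> simp [btn]

section

variable (N f : BName B)

/-- No element of the `n`-th set extends `s`. -/
def TT (n : ℕ) (s : List Bool) (h : Ult B) : Prop :=
  ∀ D, E h D (Mdl.mk h N) → Has (E h) (Mdl.mk h f) [D, nM h n] → ∀ z, E h z D →
    ¬ Agree (E h) (nM h s.length) (Mdl.mk h (fnm (sc B s))) z

theorem clop_TT (n : ℕ) (s : List Bool) : Clop (TT N f n s) := by
  refine BPred.clop (P := fun h (_ : PUnit.{1}) => TT N f n s h) ?_ PUnit.unit
  unfold TT
  repeat' first
    | exact BMap.id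
    | apply BMap.fst
    | apply BMap.snd
    | exact BTerm.const _
    | apply bterm_opair
    | apply BTerm.of
    | apply BPred.mem
    | apply BPred.eq
    | apply bp_has2
    | apply bp_has3
    | apply bp_isTuple3
    | apply bp_eq_pr
    | apply bp_isPair
    | apply bp_isUPair
    | apply bp_isFun
    | apply bp_injects
    | apply bp_agree
    | apply BPred.not
    | apply BPred.and
    | apply BPred.or
    | apply BPred.iff
    | apply BPred.imp
    | refine BPred.ex ?_
    | refine BPred.all ?_
    | exact BPred.const _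

end

/-- The witnesses for a meager set. -/
structure Wit (b : B) (N f A : BName B) : Prop where
  nwd : ∀ h : Ult B, h.V b → ∀ D, E h D (Mdl.mk h N) → IsNwd (E h) (wM h) (tM h) D
  cov : ∀ h : Ult B, h.V b → ∀ x, E h x (Mdl.mk h A) → ∃ D, E h D (Mdl.mk h N) ∧ E h x D
  fn : ∀ h : Ult B, h.V b → IsFun (E h) (Mdl.mk h f) (Mdl.mk h N) (wM h)
  inj : ∀ h : Ult B, h.V b → ∀ a a' c, E h a (Mdl.mk h N) → E h a' (Mdl.mk h N) →
    Has (E h) (Mdl.mk h f) [a, c] → Has (E h) (Mdl.mk h f) [a', c] → a = a'

theorem exists_witN {A : BName B} {b : B}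
    (hA : ∀ h : Ult B, h.V b → IsMeager (E h) (wM h) (tM h) (Mdl.mk h A)) :
    ∃ N f : BName B, Wit b N f A := by
  obtain ⟨N, hN⟩ := exists_wit (P := fun h N => Injects (E h) N (wM h) ∧
    (∀ D, E h D N → IsNwd (E h) (wM h) (tM h) D) ∧
    ∀ x, E h x (Mdl.mk h A) → ∃ D, E h D N ∧ E h x D) (by
      repeat' first
        | exact BMap.id
        | apply BMap.fst
        | apply BMap.snd
        | exact BTerm.const _
        | apply bterm_opair
        | apply BTerm.of
        | apply BPred.mem
        | apply BPred.eq
        | apply bp_has2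
        | apply bp_has3
        | apply bp_isTuple3
        | apply bp_eq_pr
        | apply bp_isPair
        | apply bp_isUPair
        | apply bp_isFun
        | apply bp_injects
        | apply bp_isNwd
        | apply BPred.not
        | apply BPred.and
        | apply BPred.or
        | apply BPred.iff
        | apply BPred.imp
        | refine BPred.ex ?_
        | refine BPred.all ?_
        | exact BPred.const _
      ) (Q := fun h => h.V b) (fun h hh => (hA h hh).2)
  obtain ⟨f, hf⟩ := exists_wit (P := fun h f => IsFun (E h) f (Mdl.mk h N) (wM h) ∧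
    ∀ a a' c, E h a (Mdl.mk h N) → E h a' (Mdl.mk h N) → Has (E h) f [a, c] →
      Has (E h) f [a', c] → a = a') (by
      repeat' first
        | exact BMap.id
        | apply BMap.fst
        | apply BMap.snd
        | exact BTerm.const _
        | apply bterm_opair
        | apply BTerm.of
        | apply BPred.mem
        | apply BPred.eq
        | apply bp_has2
        | apply bp_has3
        | apply bp_isTuple3
        | apply bp_eq_pr
        | apply bp_isPair
        | apply bp_isUPair
        | apply bp_isFun
        | apply bp_injects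
        | apply BPred.not
        | apply BPred.and
        | apply BPred.or
        | apply BPred.iff
        | apply BPred.imp
        | refine BPred.ex ?_
        | refine BPred.all ?_
        | exact BPred.const _
      ) (Q := fun h => h.V b) (fun h hh => (hN h hh).1)
  exact ⟨N, f, ⟨fun h hh => (hN h hh).2.1, fun h hh => (hN h hh).2.2, fun h hh => (hf h hh).1,
    fun h hh => (hf h hh).2⟩⟩

section wit

variable {b : B} {N f A : BName B} (W : Wit b N f A)

include W

theorem Wit.mono {h : Ult B} (hb : h.V b) (n : ℕ) {s s' : List Bool} (hs : s <+: s')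
    (H : TT N f n s h) : TT N f n s' h := by
  intro D hD hf z hz hag
  refine H D hD hf z hz ?_
  have hzf := (W.nwd h hb D hD).1 z hz
  obtain ⟨z, rfl⟩ := z.exists_rep
  obtain ⟨c, hc⟩ := exists_fcode z
  rw [hc h hzf] at hag ⊢
  rw [agree_fnm] at hag ⊢
  intro k hk
  rw [← hag k (hk.trans_le hs.length_le), rv_sc, rv_sc]
  obtain ⟨t, rfl⟩ := hs
  rw [List.getD_append _ _ _ _ hk]

theorem Wit.ext (n : ℕ) (s : List Bool) :
    ∀ᶠ ω in genN B, ω.V b → ∃ s', s <+: s' ∧ TT N f n s' ω := by
  obtain ⟨y, hy⟩ := exists_wit (P := fun h y => ∃ m, IsFun (E h) y (wM h) (tM h) ∧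
    E h m (wM h) ∧ Agree (E h) (nM h s.length) (Mdl.mk h (fnm (sc B s))) y ∧
    ∀ D, E h D (Mdl.mk h N) → Has (E h) (Mdl.mk h f) [D, nM h n] → ∀ z, E h z D →
      ¬ Agree (E h) m y z) (by
      repeat' first
        | exact BMap.id
        | apply BMap.fst
        | apply BMap.snd
        | exact BTerm.const _
        | apply bterm_opair
        | apply BTerm.of
        | apply BPred.mem
        | apply BPred.eq
        | apply bp_has2
        | apply bp_has3
        | apply bp_isTuple3
        | apply bp_eq_pr
        | apply bp_isPair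
        | apply bp_isUPair
        | apply bp_isFun
        | apply bp_injects
        | apply bp_agree
        | apply BPred.not
        | apply BPred.and
        | apply BPred.or
        | apply BPred.iff
        | apply BPred.imp
        | refine BPred.ex ?_
        | refine BPred.all ?_
        | exact BPred.const _
      ) (Q := fun h => h.V b) (by
      intro h hb
      by_cases hD : ∃ D, E h D (Mdl.mk h N) ∧ Has (E h) (Mdl.mk h f) [D, nM h n]
      · obtain ⟨D, hD, hDn⟩ := hD
        obtain ⟨y, m, h1, h2, h3, h4⟩ := (W.nwd h hb D hD).2 (Mdl.mk h (fnm (sc B s)))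
          (nM h s.length) (isFun_fnm _ h) (E_nM h _)
        refine ⟨y, m, h1, h2, h3, fun D' hD' hDn' z hz => ?_⟩
        rw [W.inj h hb D' D _ hD' hD hDn' hDn] at hz
        exact h4 z hz
      · refine ⟨Mdl.mk h (fnm (sc B s)), nM h s.length, isFun_fnm _ h, E_nM h _,
          agree_fnm.2 fun k _ => rfl, fun D' hD' hDn' => absurd ⟨D', hD', hDn'⟩ hD⟩)
  obtain ⟨m, hm⟩ := exists_wit (P := fun h m => IsFun (E h) (Mdl.mk h y) (wM h) (tM h) ∧
    E h m (wM h) ∧ Agree (E h) (nM h s.length) (Mdl.mk h (fnm (sc B s))) (Mdl.mk h y) ∧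
    ∀ D, E h D (Mdl.mk h N) → Has (E h) (Mdl.mk h f) [D, nM h n] → ∀ z, E h z D →
      ¬ Agree (E h) m (Mdl.mk h y) z) (by
      repeat' first
        | exact BMap.id
        | apply BMap.fst
        | apply BMap.snd
        | exact BTerm.const _
        | apply bterm_opair
        | apply BTerm.of
        | apply BPred.mem
        | apply BPred.eq
        | apply bp_has2
        | apply bp_has3
        | apply bp_isTuple3
        | apply bp_eq_pr
        | apply bp_isPair
        | apply bp_isUPair
        | apply bp_isFun
        | apply bp_injects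
        | apply bp_agree
        | apply BPred.not
        | apply BPred.and
        | apply BPred.or
        | apply BPred.iff
        | apply BPred.imp
        | refine BPred.ex ?_
        | refine BPred.all ?_
        | exact BPred.const _
      ) (Q := fun h => h.V b) hy
  obtain ⟨c, hc⟩ := exists_fcode y
  have h1 := ae_exists_om (B := B) (P := fun h z => z = Mdl.mk h m) (by
      repeat' first
        | exact BMap.id
        | apply BMap.fst
        | apply BMap.snd
        | exact BTerm.const _
        | apply bterm_opair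
        | apply BTerm.of
        | apply BPred.mem
        | apply BPred.eq
        | apply bp_has2
        | apply bp_has3
        | apply bp_isTuple3
        | apply bp_eq_pr
        | apply bp_isPair
        | apply bp_isUPair
        | apply bp_isFun
        | apply bp_injects
        | apply BPred.not
        | apply BPred.and
        | apply BPred.or
        | apply BPred.iff
        | apply BPred.imp
        | refine BPred.ex ?_
        | refine BPred.all ?_
        | exact BPred.const _
      )
  filter_upwards [h1] with ω h1 hb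
  obtain ⟨h2, h3, h4, h5⟩ := hm ω hb
  obtain ⟨v, hv⟩ := h1 ⟨_, h3, rfl⟩
  rw [hc ω h2] at h4 h5
  rw [← hv] at h5
  rw [agree_fnm] at h4
  have hpre : s <+: rst (rv c ω) (max v s.length) := by
    rw [List.prefix_iff_getElem?]
    intro i hi
    have h6 : i < max v s.length := lt_of_lt_of_le hi (le_max_right _ _)
    rw [List.getElem?_eq_getElem (by rw [rst_length]; exact h6)]
    have h7 := rst_getD (rv c ω) (max v s.length) (rv_le c ω) h6
    rw [← h4 i hi, rv_sc] at h7
    have h8 := btn_inj h7
    rw [List.getD_eq_getElem _ _ (by rw [rst_length]; exact h6), List.getD_eq_getElem _ _ hi] at h8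
    rw [h8]
  refine ⟨_, hpre, ?_⟩
  intro D hD hDn z hz hag
  refine h5 D hD hDn z hz ?_
  have hzf := (W.nwd ω hb D hD).1 z hz
  obtain ⟨z, rfl⟩ := z.exists_rep
  obtain ⟨c', hc'⟩ := exists_fcode z
  rw [hc' ω hzf] at hag ⊢
  rw [agree_fnm, rst_length] at hag
  rw [agree_fnm]
  intro k hk
  have h6 : k < max v s.length := lt_of_lt_of_le hk (le_max_left _ _)
  rw [← hag k h6, rv_sc, rst_getD _ _ (rv_le c ω) h6]

end wit

/-- Each meager set of the model is covered by a set `B(g, y)`. -/
theorem meager_code {A : BName B} {b : B}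
    (hA : ∀ h : Ult B, h.V b → IsMeager (E h) (wM h) (tM h) (Mdl.mk h A)) :
    ∃ g y : Ult B → ℕ → ℕ, Measurable[genM B] g ∧ (∀ ω, StrictMono (g ω)) ∧
      Measurable[genM B] y ∧ (∀ ω k, y ω k ≤ 1) ∧
      ∀ c : ℕ → B, ∀ᶠ ω in genN B, ω.V b → E ω (Mdl.mk ω (fnm c)) (Mdl.mk ω A) →
        InB (g ω) (y ω) (rv c ω) := by
  classical
  obtain ⟨N, f, W⟩ := exists_witN hA
  -- the events of the selection
  let G : ℕ → List Bool → List Bool → Set (Ult B) := fun k u u' =>
    {ω | (u <+: u' ∧ u.length < u'.length) ∧
      ∀ n s, n ≤ k → s.length = u.length → TT N f n (s ++ u'.drop u.length) ω}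
  have hG : ∀ k u u', MeasurableSet[genM B] (G k u u') := by
    intro k u u'
    refine meas_and (meas_const _) (meas_all fun n => meas_all fun s => meas_imp (meas_const _)
      (meas_imp (meas_const _) ?_))
    exact meas_clop (clop_TT N f n _)
  let G' : ℕ → List Bool → List Bool → Set (Ult B) := fun k u u' =>
    {ω | ω ∈ G k u u' ∨ ((¬ ∃ v, ω ∈ G k u v) ∧ u' = u ++ [false])}
  have hG' : ∀ k u u', MeasurableSet[genM B] (G' k u u') := fun k u u' =>
    meas_or (hG k u u') (meas_and (meas_not (meas_ex fun v => hG k u v)) (meas_const _))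
  obtain ⟨s, hs1, hs2, hs3⟩ := exists_meas_seq (m := genM B) G' hG' (fun _ => ([] : List Bool))
    measurable_const
  have hstep : ∀ k ω, ω ∈ G' k (s k ω) (s (k + 1) ω) := by
    intro k ω
    refine hs3 k ω ?_
    by_cases h : ∃ v, ω ∈ G k (s k ω) v
    · obtain ⟨v, hv⟩ := h
      exact ⟨v, Or.inl hv⟩
    · exact ⟨_, Or.inr ⟨h, rfl⟩⟩
  have hpre : ∀ k ω, s k ω <+: s (k + 1) ω ∧ (s k ω).length < (s (k + 1) ω).length := by
    intro k ω
    rcases hstep k ω with h | h
    · exact h.1
    · rw [h.2]
      exact ⟨List.prefix_append _ _, by simp⟩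
  have hpre' : ∀ ω k l, k ≤ l → s k ω <+: s l ω := by
    intro ω k l hkl
    induction l, hkl using Nat.le_induction with
    | base => exact List.prefix_rfl
    | succ l _ ih => exact ih.trans (hpre l ω).1
  let g : Ult B → ℕ → ℕ := fun ω k => (s k ω).length
  have hgm : ∀ ω, StrictMono (g ω) := fun ω => strictMono_nat_of_lt_succ fun k => (hpre k ω).2
  let y : Ult B → ℕ → ℕ := fun ω i => btn ((s (i + 1) ω).getD i false)
  have hy : ∀ ω k i, i < g ω k → y ω i = btn ((s k ω).getD i false) := by
    intro ω k i hi
    have h1 : i < (s (i + 1) ω).length := by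
      have := (hgm ω).le_apply (x := i + 1)
      change i + 1 ≤ (s (i + 1) ω).length at this
      omega
    rcases le_total k (i + 1) with h | h
    · obtain ⟨t, ht⟩ := hpre' ω _ _ h
      simp only [y]
      rw [← ht, List.getD_append _ _ _ _ hi]
    · obtain ⟨t, ht⟩ := hpre' ω _ _ h
      simp only [y]
      rw [← ht, List.getD_append _ _ _ _ h1]
  refine ⟨g, y, meas_pi' fun k => ?_, hgm, meas_pi' fun k => ?_, fun ω k => btn_le _, fun c => ?_⟩
  · exact (measurable_from_top (f := fun l : List Bool => l.length)).comp (hs1 k)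
  · exact (measurable_from_top (f := fun l : List Bool => btn (l.getD k false))).comp
      (hs1 (k + 1))
  have h1 : ∀ᶠ ω in genN B, ∀ n s, ω.V b → ∃ s', s <+: s' ∧ TT N f n s' ω :=
    eventually_countable_forall.2 fun n => eventually_countable_forall.2 fun s => W.ext n s
  have h2 := ae_exists_om (B := B) (P := fun h n => ∃ D, E h D (Mdl.mk h N) ∧
    Has (E h) (Mdl.mk h f) [D, n] ∧ E h (Mdl.mk h (fnm c)) D) (by
      repeat' first
        | exact BMap.id
        | apply BMap.fst
        | apply BMap.snd
        | exact BTerm.const _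
        | apply bterm_opair
        | apply BTerm.of
        | apply BPred.mem
        | apply BPred.eq
        | apply bp_has2
        | apply bp_has3
        | apply bp_isTuple3
        | apply bp_eq_pr
        | apply bp_isPair
        | apply bp_isUPair
        | apply bp_isFun
        | apply bp_injects
        | apply BPred.not
        | apply BPred.and
        | apply BPred.or
        | apply BPred.iff
        | apply BPred.imp
        | refine BPred.ex ?_
        | refine BPred.all ?_
        | exact BPred.const _
      )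
  filter_upwards [h1, h2] with ω h1 h2 hb hc
  obtain ⟨D, hD, hcD⟩ := W.cov ω hb _ hc
  obtain ⟨n', hn', -⟩ := (W.fn ω hb).2 D hD
  obtain ⟨n, D, hD, hDn, hcD⟩ := h2 ⟨n', (isFun_has (W.fn ω hb) hn').2, D, hD, hn', hcD⟩
  have hGood : ∀ k, ω ∈ G k (s k ω) (s (k + 1) ω) := by
    intro k
    rcases hstep k ω with h | h
    · exact h
    · refine absurd ?_ h.1
      exact exists_ext' (T := fun n s => TT N f n s ω) (fun n s s' hs => W.mono hb n hs)
        (fun n s => h1 n s hb) k (s k ω)
  refine inB_iff.2 ⟨n, fun k hk => ?_⟩
  by_contra hcon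
  push Not at hcon
  have h3 := (hGood k).2 n (rst (rv c ω) (g ω k)) hk (rst_length _ _)
  refine h3 D hD hDn _ hcD ?_
  rw [agree_fnm]
  intro i hi
  have h4 : (s k ω).length ≤ (s (k + 1) ω).length := (hpre k ω).2.le
  rw [List.length_append, rst_length, List.length_drop] at hi
  have hi' : i < (s (k + 1) ω).length := by
    change i < (s k ω).length + _ at hi
    omega
  rw [rv_sc]
  by_cases h5 : i < g ω k
  · rw [List.getD_append _ _ _ _ (by rw [rst_length]; exact h5), rst_getD _ _ (rv_le c ω) h5]
  · rw [hcon i (not_lt.1 h5) hi', hy ω (k + 1) i hi', List.getD_append_right _ _ _ _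
      (by rw [rst_length]; exact not_lt.1 h5), rst_length]
    congr 1
    rw [List.getD_eq_getElem?_getD, List.getD_eq_getElem?_getD, List.getElem?_drop]
    congr 2
    change (s k ω).length + (i - (s k ω).length) = i
    have : (s k ω).length ≤ i := not_lt.1 h5
    omega

end Pool.Agent.MP9096b7
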