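import Pool.Agent.MP_9096b7_lc.M4
import Pool.Agent.MP_9096b7_lc.Facts

/-! Meager-additive sets in the model. -/

set_option autoImplicit false
set_option linter.unusedVariables false
set_option linter.unusedSectionVars false
set_option linter.unreachableTactic false
set_option linter.unusedTactic false

namespace Pool.Agent.MP9096b7

open Filter MeasureTheory BVM BName SetModel MP63050e MP7e7dde

/-! ### Combinatorics of a translation -/

section comb

variable (f g x y : ℕ → ℕ)

/-- No block of `f` inside the `n`-th block of `g` is a block of agreement. -/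
def Bad (n : ℕ) : Prop :=
  ¬ ∃ i, g n ≤ f i ∧ f (i + 1) ≤ g (n + 1) ∧ ∀ u, f i ≤ u → u < f (i + 1) → x u = y u

/-- A sparse set of bad blocks. -/
def JJ : ℕ → Prop
  | 0 => Bad f g x y 0
  | n + 1 => Bad f g x y (n + 1) ∧ ¬ JJ n

/-- `u` belongs to one of the chosen blocks. -/
def InJ (u : ℕ) : Prop := ∃ n, JJ f g x y n ∧ g n ≤ u ∧ u < g (n + 1)

open Classical in
/-- The translated point. -/
noncomputable def zz (u : ℕ) : ℕ := if InJ f g x y u then y u else 1 - x u

variable {f g x y}

theorem JJ.bad {n : ℕ} (h : JJ f g x y n) : Bad f g x y n := by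
  cases n with
  | zero => exact h
  | succ n => exact h.1

theorem zz_le (hy : ∀ u, y u ≤ 1) (u : ℕ) : zz f g x y u ≤ 1 := by
  unfold zz; split_ifs
  · exact hy u
  · omega

theorem zz_ne (hf : StrictMono f) (hg : StrictMono g) (hx : ∀ u, x u ≤ 1) (i : ℕ) :
    ∃ u, f i ≤ u ∧ u < f (i + 1) ∧ zz f g x y u ≠ x u := by
  by_contra hcon
  push Not at hcon
  have h1 : ∀ u, f i ≤ u → u < f (i + 1) → InJ f g x y u ∧ x u = y u := by
    intro u hu hu'
    have h2 := hcon u hu hu'
    unfold zz at h2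
    have h3 := hx u
    split_ifs at h2 with h4
    · exact ⟨h4, h2.symm⟩
    · omega
  have hfi : f i < f (i + 1) := hf (Nat.lt_succ_self i)
  obtain ⟨⟨n, hn, h2, h3⟩, -⟩ := h1 (f i) le_rfl hfi
  have h4 : f (i + 1) ≤ g (n + 1) := by
    by_contra h5
    push Not at h5
    obtain ⟨⟨n', hn', h6, h7⟩, -⟩ := h1 (g (n + 1)) h3.le h5
    rw [hg.le_iff_le] at h6
    rw [hg.lt_iff_lt] at h7
    have : n' = n + 1 := by omega
    subst this
    exact hn'.2 hn
  exact hn.bad ⟨i, h2, h4, fun u hu hu' => (h1 u hu hu').2⟩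

theorem capt_of_inB (h : InB g y (zz f g x y)) : Capt f x g y := by
  have h1 : ∀ n, JJ f g x y n → ¬ ∃ u, g n ≤ u ∧ u < g (n + 1) ∧ zz f g x y u ≠ y u := by
    rintro n hn ⟨u, hu, hu', hne⟩
    apply hne
    unfold zz
    rw [if_pos ⟨n, hn, hu, hu'⟩]
  unfold InB at h
  rw [eventually_atTop] at h
  obtain ⟨N, hN⟩ := h
  have h2 : ∀ n, N ≤ n → ¬ JJ f g x y n := fun n hn hJ => h1 n hJ (hN n hn)
  unfold Capt
  rw [eventually_atTop]
  refine ⟨N + 1, fun n hn => ?_⟩
  by_contra hbad
  obtain ⟨m, rfl⟩ : ∃ m, n = m + 1 := ⟨n - 1, by omega⟩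
  exact h2 (m + 1) (by omega) ⟨hbad, h2 m (by omega)⟩

theorem meas_Bad {X : Type} {m : MeasurableSpace X} {f g x y : X → ℕ → ℕ}
    (hf : Measurable[m] f) (hg : Measurable[m] g) (hx : Measurable[m] x) (hy : Measurable[m] y)
    (n : ℕ) : MeasurableSet[m] {ω | Bad (f ω) (g ω) (x ω) (y ω) n} := by
  unfold Bad
  refine meas_not (meas_ex fun i => meas_and ?_ (meas_and ?_ (meas_all fun u => meas_imp ?_
    (meas_imp ?_ ?_))))
  · exact meas_rel2 (meas_coord hg n) (meas_coord hf i) (fun a b => a ≤ b)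
  · exact meas_rel2 (meas_coord hf (i + 1)) (meas_coord hg (n + 1)) (fun a b => a ≤ b)
  · exact meas_rel1 (meas_coord hf i) (fun a => a ≤ u)
  · exact meas_rel1 (meas_coord hf (i + 1)) (fun a => u < a)
  · exact meas_rel2 (meas_coord hx u) (meas_coord hy u) (fun a b => a = b)

theorem meas_JJ {X : Type} {m : MeasurableSpace X} {f g x y : X → ℕ → ℕ}
    (hf : Measurable[m] f) (hg : Measurable[m] g) (hx : Measurable[m] x) (hy : Measurable[m] y)
    (n : ℕ) : MeasurableSet[m] {ω | JJ (f ω) (g ω) (x ω) (y ω) n} := by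
  induction n with
  | zero => exact meas_Bad hf hg hx hy 0
  | succ n ih => exact meas_and (meas_Bad hf hg hx hy (n + 1)) (meas_not ih)

theorem meas_zz {X : Type} {m : MeasurableSpace X} {f g x y : X → ℕ → ℕ}
    (hf : Measurable[m] f) (hg : Measurable[m] g) (hx : Measurable[m] x) (hy : Measurable[m] y) :
    Measurable[m] fun ω => zz (f ω) (g ω) (x ω) (y ω) := by
  classical
  refine meas_pi' fun u => ?_
  have h1 : Measurable[m] fun ω => 1 - x ω u :=
    (measurable_from_top (f := fun v : ℕ => 1 - v)).comp (meas_coord hx u)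
  have h2 : MeasurableSet[m] {ω | InJ (f ω) (g ω) (x ω) (y ω) u} := by
    unfold InJ
    refine meas_ex fun n => meas_and (meas_JJ hf hg hx hy n) (meas_and ?_ ?_)
    · exact meas_rel1 (meas_coord hg n) (fun a => a ≤ u)
    · exact meas_rel1 (meas_coord hg (n + 1)) (fun a => u < a)
  unfold zz
  exact Measurable.ite h2 (meas_coord hy u) h1

theorem meas_xadd {X : Type} {m : MeasurableSpace X} {x y : X → ℕ → ℕ} (hx : Measurable[m] x)
    (hy : Measurable[m] y) : Measurable[m] fun ω => xadd (x ω) (y ω) := by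
  refine meas_pi' fun u => ?_
  have h1 : Measurable (fun p : ℕ × ℕ => (p.1 + p.2) % 2) := Measurable.of_discrete
  exact h1.comp ((meas_coord hx u).prodMk (meas_coord hy u))

theorem xadd_le (x y : ℕ → ℕ) (u : ℕ) : xadd x y u ≤ 1 := by unfold xadd; omega

end comb

variable {B : Type} [CompleteBooleanAlgebra B]

/-! ### The sets `A_f` and the sum sets -/

/-- The name of the set of the reals which are not `0` on almost all blocks of `g`. -/
noncomputable def AN (g : Ult B → ℕ → ℕ) : BName B := setN (fun ω z => InB (g ω) (fun _ => 0) z)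

theorem mem_AN {g : Ult B → ℕ → ℕ} (hg : Measurable[genM B] g) (c : ℕ → B) :
    ∀ᶠ ω in genN B, (E ω (Mdl.mk ω (fnm c)) (Mdl.mk ω (AN g)) ↔
      InB (g ω) (fun _ => 0) (rv c ω)) :=
  mem_setN (D := fun ω z => InB (g ω) (fun _ => 0) z)
    (fun c => meas_InB hg (meas_pi' fun _ => @measurable_const _ _ _ (genM B) 0) (meas_rv c)) c

theorem meager_AN {g : Ult B → ℕ → ℕ} (hg : Measurable[genM B] g)
    (hg' : ∀ ω, StrictMono (g ω)) (h : Ult B) :
    IsMeager (E h) (wM h) (tM h) (Mdl.mk h (AN g)) := by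
  refine meager_of (y := fun _ _ => 0) (b := (⊤ : B)) hg hg'
    (meas_pi' fun _ => @measurable_const _ _ _ (genM B) 0) (fun _ _ => Nat.zero_le _)
    (fun h _ => subC_mk _ h) (fun c => ?_) h h.top'
  filter_upwards [mem_AN hg c] with ω h1 _ h2
  exact h1.1 h2

/-- The name of the sum set. -/
noncomputable def sumN (X A : BName B) : BName B :=
  BName.mk (ℕ → B) fnm (fun c => bval (fun h : Ult B => ∃ x a, E h x (Mdl.mk h X) ∧
    E h a (Mdl.mk h A) ∧ IsSum (E h) (wM h) (oM h) x a (Mdl.mk h (fnm c))))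

theorem isSumSet_sumN (X A : BName B) (h : Ult B) :
    IsSumSet (E h) (wM h) (oM h) (tM h) (Mdl.mk h X) (Mdl.mk h A) (Mdl.mk h (sumN X A)) := by
  have hcl : ∀ c : ℕ → B, Clop (fun h : Ult B => ∃ x a, E h x (Mdl.mk h X) ∧
      E h a (Mdl.mk h A) ∧ IsSum (E h) (wM h) (oM h) x a (Mdl.mk h (fnm c))) := by
    intro c
    refine BPred.clop (P := fun h (_ : PUnit.{1}) => ∃ x a, E h x (Mdl.mk h X) ∧
      E h a (Mdl.mk h A) ∧ IsSum (E h) (wM h) (oM h) x a (Mdl.mk h (fnm c))) ?_ PUnit.unit
    repeat' first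
      | exact BMap.id
      | apply BMap.fst
      | apply BMap.snd
      | exact BTerm.const _
      | apply bterm_opair
      | apply BTerm.of
      | apply BPred.mem
      | apply BPred.eq
      | apply bp_has2
      | apply bp_has3
      | apply bp_isTuple3
      | apply bp_eq_pr
      | apply bp_isPair
      | apply bp_isUPair
      | apply bp_isFun
      | apply bp_injects
      | apply bp_isSum
      | apply BPred.not
      | apply BPred.and
      | apply BPred.or
      | apply BPred.iff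
      | apply BPred.imp
      | refine BPred.ex ?_
      | refine BPred.all ?_
      | exact BPred.const _
  intro z
  constructor
  · intro hz
    refine ⟨subC_mk _ h z hz, ?_⟩
    refine forall_mem' (P := fun h z => ∃ x a, E h x (Mdl.mk h X) ∧
      E h a (Mdl.mk h A) ∧ IsSum (E h) (wM h) (oM h) x a z) _ _ ?_ ?_ h z hz
    · repeat' first
        | exact BMap.id
        | apply BMap.fst
        | apply BMap.snd
        | exact BTerm.const _
        | apply bterm_opair
        | apply BTerm.of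
        | apply BPred.mem
        | apply BPred.eq
        | apply bp_has2
        | apply bp_has3
        | apply bp_isTuple3
        | apply bp_eq_pr
        | apply bp_isPair
        | apply bp_isUPair
        | apply bp_isFun
        | apply bp_injects
        | apply bp_isSum
        | apply BPred.not
        | apply BPred.and
        | apply BPred.or
        | apply BPred.iff
        | apply BPred.imp
        | refine BPred.ex ?_
        | refine BPred.all ?_
        | exact BPred.const _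
    · intro h c hc
      exact ((hcl c).iff h).2 hc
  · rintro ⟨hz, hx⟩
    obtain ⟨z, rfl⟩ := z.exists_rep
    obtain ⟨c, hc⟩ := exists_fcode z
    rw [hc h hz] at hx ⊢
    exact E_of_coe (e := fnm) (i := c) (((hcl c).iff h).1 hx)

/-- A meager-additive set is captured along all partitions. -/
theorem capt_of_MA {X : BName B} {b : B} (hX : ∀ h : Ult B, h.V b →
    IsMA (E h) (wM h) (oM h) (tM h) (Mdl.mk h X)) {f : Ult B → ℕ → ℕ}
    (hf : Measurable[genM B] f) (hf' : ∀ ω, StrictMono (f ω)) :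
    ∃ g y : Ult B → ℕ → ℕ, Measurable[genM B] g ∧ (∀ ω, StrictMono (g ω)) ∧
      Measurable[genM B] y ∧ (∀ ω k, y ω k ≤ 1) ∧
      ∀ c : ℕ → B, ∀ᶠ ω in genN B, ω.V b → E ω (Mdl.mk ω (fnm c)) (Mdl.mk ω X) →
        Capt (f ω) (rv c ω) (g ω) (y ω) := by
  obtain ⟨g, y, hg, hg', hy, hy', H⟩ := meager_code (A := sumN X (AN f)) (b := b)
    (fun h hb => (hX h hb).2 _ _ (meager_AN hf hf' h) (isSumSet_sumN X (AN f) h))
  refine ⟨g, y, hg, hg', hy, hy', fun c => ?_⟩
  let z : Ult B → ℕ → ℕ := fun ω => zz (f ω) (g ω) (rv c ω) (y ω)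
  have hz : Measurable[genM B] z := meas_zz hf hg (meas_rv c) hy
  have hz' : ∀ ω u, z ω u ≤ 1 := fun ω u => zz_le (hy' ω) u
  let a : Ult B → ℕ → ℕ := fun ω => xadd (z ω) (rv c ω)
  have ha : Measurable[genM B] a := meas_xadd hz (meas_rv c)
  have ha' : ∀ ω u, a ω u ≤ 1 := fun ω u => xadd_le _ _ u
  filter_upwards [H (code z), rv_code hz hz', rv_code ha ha', mem_AN hf (code a),
    isSum_of_rv c (code a) (code z)] with ω h1 h2 h3 h4 h5 hb hc
  have h6 : E ω (Mdl.mk ω (fnm (code a))) (Mdl.mk ω (AN f)) := by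
    rw [h4, h3, inB_iff]
    refine ⟨0, fun k _ => ?_⟩
    obtain ⟨u, hu1, hu2, hu3⟩ := zz_ne (y := y ω) (hf' ω) (hg' ω) (rv_le c ω) k
    refine ⟨u, hu1, hu2, fun h7 => hu3 ?_⟩
    have h8 := hz' ω u
    have h9 := rv_le c ω u
    simp only [a, xadd] at h7
    change z ω u = rv c ω u
    omega
  have h7 : IsSum (E ω) (wM ω) (oM ω) (Mdl.mk ω (fnm c)) (Mdl.mk ω (fnm (code a)))
      (Mdl.mk ω (fnm (code z))) := by
    apply h5
    rw [h2, h3]
    funext u
    simp only [a, xadd]
    have h8 := hz' ω u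
    have h9 := rv_le c ω u
    omega
  have h8 : E ω (Mdl.mk ω (fnm (code z))) (Mdl.mk ω (sumN X (AN f))) :=
    (isSumSet_sumN X (AN f) ω _).2 ⟨isFun_fnm _ ω, _, _, hc, h6, h7⟩
  have h9 := h1 hb h8
  rw [h2] at h9
  exact capt_of_inB h9

end Pool.Agent.MP9096b7
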