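import Pool.Agent.MP_9096b7_lc.M5

/-! The meager-additive sets are the small sets. -/

set_option autoImplicit false
set_option linter.unusedVariables false
set_option linter.unusedSectionVars false
set_option linter.unreachableTactic false
set_option linter.unusedTactic false

namespace Pool.Agent.MP9096b7

open Filter MeasureTheory BVM BName SetModel MP63050e MP7e7dde

variable {B K : Type} [CompleteBooleanAlgebra B] [LinearOrder K] (F : Facts B K)

/-- On the event `P` the real `x` is one of countably many reals of the stage `α`. -/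
def Cov (α : K) (x : Ult B → ℕ → ℕ) (P : Ult B → Prop) : Prop :=
  ∃ zs : ℕ → Ult B → ℕ → ℕ, (∀ i, Measurable[F.m α] (zs i)) ∧
    ∀ᶠ ω in genN B, P ω → ∃ i, x ω = zs i ω

theorem capt_self {f x : ℕ → ℕ} : Capt f x f x :=
  Eventually.of_forall fun n => ⟨n, le_rfl, le_rfl, fun _ _ _ => rfl⟩

/-- Meager-additive sets are contained in a stage. -/
theorem small_of_MA {X : BName B} {b : B} (hX : ∀ h : Ult B, h.V b →
    IsMA (E h) (wM h) (oM h) (tM h) (Mdl.mk h X)) :
    ∃ α : K, ∀ c : ℕ → B, Cov F α (rv c)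
      (fun ω => ω.V b ∧ E ω (Mdl.mk ω (fnm c)) (Mdl.mk ω X)) := by
  classical
  -- the functions given by captures
  have h1 : ∀ f : {f : Ult B → ℕ → ℕ // Measurable[genM B] f ∧ ∀ ω, StrictMono (f ω)},
      ∃ g y : Ult B → ℕ → ℕ, Measurable[genM B] g ∧ (∀ ω, StrictMono (g ω)) ∧
      Measurable[genM B] y ∧ (∀ ω k, y ω k ≤ 1) ∧
      ∀ c : ℕ → B, ∀ᶠ ω in genN B, ω.V b → E ω (Mdl.mk ω (fnm c)) (Mdl.mk ω X) →
        Capt (f.1 ω) (rv c ω) (g ω) (y ω) := fun f => capt_of_MA hX f.2.1 f.2.2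
  choose g y hg hg' hy hy' hcapt using h1
  have h2 : ∀ f : {f : Ult B → ℕ → ℕ // Measurable[genM B] f ∧ ∀ ω, StrictMono (f ω)},
      ∃ α : K, Measurable[F.m α] (g f) ∧ Measurable[F.m α] (y f) := by
    intro f
    obtain ⟨α, hα⟩ := F.level _ (hg f)
    obtain ⟨β, hβ⟩ := F.level _ (hy f)
    rcases le_total α β with h | h
    · exact ⟨β, hα.mono (F.mono _ _ h) le_rfl, hβ⟩
    · exact ⟨α, hα, hβ.mono (F.mono _ _ h) le_rfl⟩
  choose lv hlv1 hlv2 using h2
  have h3 : ∀ β : K, ∃ e : (ℕ → ℕ) → Ult B → ℕ → ℕ, ∀ f : Ult B → ℕ → ℕ, Measurable[F.m β] f →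
    ∃ c, ∀ᶠ ω in genN B, f ω = e c ω := F.size
  choose e he using h3
  obtain ⟨α₀, -⟩ := F.level (fun _ _ => 0) (meas_pi' fun _ => @measurable_const _ _ _ (genM B) 0)
  let PP : K → (ℕ → ℕ) → {f : Ult B → ℕ → ℕ // Measurable[genM B] f ∧ ∀ ω, StrictMono (f ω)} →
    Prop := fun β c f => ∀ᶠ ω in genN B, f.1 ω = e β c ω
  let lev : K → (ℕ → ℕ) → K := fun β c => if h : ∃ f, PP β c f then lv h.choose else α₀
  choose φ hφ using fun β => F.cof (lev β)
  obtain ⟨α, hα1, hα2⟩ := F.clos φ
  refine ⟨α, fun c => ?_⟩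
  obtain ⟨zs, f, hzs, hf, hf', hcap⟩ := F.cap2 α (rv c) (meas_rv c) (fun ω k => rv_le c ω k)
  refine ⟨zs, hzs, ?_⟩
  obtain ⟨β, hβ, hfβ⟩ := hα2 f hf
  obtain ⟨cc, hcc⟩ := he β f hfβ
  have hex : ∃ f, PP β cc f := ⟨⟨f, hf.mono (F.le_genM α) le_rfl, hf'⟩, hcc⟩
  have hlev : lev β cc = lv hex.choose := by simp only [lev, dif_pos hex]
  have hspec := hex.choose_spec
  set f' := hex.choose with hf'def
  have hle : lv f' ≤ α := by
    rw [← hlev]
    exact (hφ β cc).le.trans (hα1 β hβ)
  have h4 := hcap (g f') (y f') ((hlv1 f').mono (F.mono _ _ hle) le_rfl) (hg' f')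
    ((hlv2 f').mono (F.mono _ _ hle) le_rfl) (hy' f')
  filter_upwards [h4, hcc, hspec, hcapt f' c] with ω h5 h6 h7 h8
  rintro ⟨h9, h10⟩
  rcases h5 with h5 | h5
  · exact h5
  · refine absurd ?_ h5
    have h11 := h8 h9 h10
    rw [h7, ← h6] at h11
    exact h11

/-- The pointwise argument. -/
theorem inB_sum {g y y' x a c : ℕ → ℕ} (hg : StrictMono g) (hy : ∀ u, y u ≤ 1)
    (ha1 : ∀ u, a u ≤ 1)
    (hx : ∀ᶠ l in atTop, ∃ k, pos l ≤ k ∧ k < pos (l + 1) ∧
      ∀ u, g k ≤ u → u < g (k + 1) → x u = y' u)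
    (ha : InB g y a) (hc : c = xadd x a) : InB (fun l => g (pos l)) (xadd y y') c := by
  have hpos : ∀ l, l ≤ pos l := by
    intro l
    induction l with
    | zero => exact le_rfl
    | succ l ih => unfold pos; omega
  unfold InB at ha ⊢
  rw [eventually_atTop] at ha
  obtain ⟨N, hN⟩ := ha
  filter_upwards [hx, eventually_ge_atTop N] with l hl hlN
  obtain ⟨k, hk1, hk2, hk3⟩ := hl
  have h1 := hpos l
  obtain ⟨u, hu1, hu2, hu3⟩ := hN k (by omega)
  refine ⟨u, (hg.monotone hk1).trans hu1, lt_of_lt_of_le hu2 (hg.monotone (by omega)), ?_⟩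
  rw [hc]
  have h2 := hk3 u hu1 hu2
  have h3 := hy u
  have h4 := ha1 u
  unfold xadd
  omega

/-- The sets which are contained in a stage are meager-additive. -/
theorem MA_of_small {X : BName B} {b : B} (hX : ∀ h : Ult B, h.V b →
    SubC (E h) (wM h) (tM h) (Mdl.mk h X)) {α : K} (H : ∀ c : ℕ → B, Cov F α (rv c)
      (fun ω => ω.V b ∧ E ω (Mdl.mk ω (fnm c)) (Mdl.mk ω X))) :
    ∀ h : Ult B, h.V b → IsMA (E h) (wM h) (oM h) (tM h) (Mdl.mk h X) := by
  classical
  intro h hb
  refine ⟨hX h hb, fun A S hA hS => ?_⟩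
  obtain ⟨A, rfl⟩ := A.exists_rep
  obtain ⟨S, rfl⟩ := S.exists_rep
  have hcl : Clop (fun h : Ult B => h.V b ∧ IsMeager (E h) (wM h) (tM h) (Mdl.mk h A) ∧
      IsSumSet (E h) (wM h) (oM h) (tM h) (Mdl.mk h X) (Mdl.mk h A) (Mdl.mk h S)) := by
    refine Clop.and (clop_V _) ?_
    refine BPred.clop (P := fun h (_ : PUnit.{1}) => IsMeager (E h) (wM h) (tM h) (Mdl.mk h A) ∧
      IsSumSet (E h) (wM h) (oM h) (tM h) (Mdl.mk h X) (Mdl.mk h A) (Mdl.mk h S)) ?_ PUnit.unit
    repeat' first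
      | exact BMap.id
      | apply BMap.fst
      | apply BMap.snd
      | exact BTerm.const _
      | apply bterm_opair
      | apply BTerm.of
      | apply BPred.mem
      | apply BPred.eq
      | apply bp_has2
      | apply bp_has3
      | apply bp_isTuple3
      | apply bp_eq_pr
      | apply bp_isPair
      | apply bp_isUPair
      | apply bp_isFun
      | apply bp_injects
      | apply bp_isMeager
      | apply bp_isSumSet
      | apply BPred.not
      | apply BPred.and
      | apply BPred.or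
      | apply BPred.iff
      | apply BPred.imp
      | refine BPred.ex ?_
      | refine BPred.all ?_
      | exact BPred.const _
  set b₁ : B := bval (fun h : Ult B => h.V b ∧ IsMeager (E h) (wM h) (tM h) (Mdl.mk h A) ∧
      IsSumSet (E h) (wM h) (oM h) (tM h) (Mdl.mk h X) (Mdl.mk h A) (Mdl.mk h S)) with hb₁
  have hV : ∀ h : Ult B, h.V b₁ ↔ (h.V b ∧ IsMeager (E h) (wM h) (tM h) (Mdl.mk h A) ∧
      IsSumSet (E h) (wM h) (oM h) (tM h) (Mdl.mk h X) (Mdl.mk h A) (Mdl.mk h S)) :=
    fun h => (hcl.iff h).symm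
  have hb1 : h.V b₁ := (hV h).2 ⟨hb, hA, hS⟩
  obtain ⟨g, y, hg, hg', hy, hy', hcode⟩ := meager_code (A := A) (b := b₁)
    (fun h hh => ((hV h).1 hh).2.1)
  obtain ⟨α₁, hα₁⟩ := F.level g hg
  let β := max α α₁
  have hgβ : Measurable[F.m β] g := hα₁.mono (F.mono _ _ (le_max_right _ _)) le_rfl
  obtain ⟨y₁, hy₁, hy₁', hcap⟩ := F.cap3 β g hgβ hg'
  refine meager_of (g := fun ω l => g ω (pos l)) (y := fun ω => xadd (y ω) (y₁ ω)) (b := b₁)
    (meas_pi' fun l => meas_coord hg (pos l)) (fun ω => ?_) (meas_xadd hy hy₁)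
    (fun ω u => xadd_le _ _ u) (fun h hh z hz => ((((hV h).1 hh).2.2 z).1 hz).1)
    (fun c => ?_) h hb1
  · refine strictMono_nat_of_lt_succ fun l => (hg' ω) ?_
    change pos l < pos l + (l + 1)
    omega
  -- the names of the summands
  obtain ⟨x, hx⟩ := exists_wit (P := fun h x => ∃ a, E h x (Mdl.mk h X) ∧
      E h a (Mdl.mk h A) ∧ IsSum (E h) (wM h) (oM h) x a (Mdl.mk h (fnm c))) (by
      repeat' first
        | exact BMap.id
        | apply BMap.fst
        | apply BMap.snd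
        | exact BTerm.const _
        | apply bterm_opair
        | apply BTerm.of
        | apply BPred.mem
        | apply BPred.eq
        | apply bp_has2
        | apply bp_has3
        | apply bp_isTuple3
        | apply bp_eq_pr
        | apply bp_isPair
        | apply bp_isUPair
        | apply bp_isFun
        | apply bp_injects
        | apply bp_isSum
        | apply BPred.not
        | apply BPred.and
        | apply BPred.or
        | apply BPred.iff
        | apply BPred.imp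
        | refine BPred.ex ?_
        | refine BPred.all ?_
        | exact BPred.const _
      ) (Q := fun h => h.V b₁ ∧ E h (Mdl.mk h (fnm c)) (Mdl.mk h S))
      (fun h hh => (((hV h).1 hh.1).2.2 _).1 hh.2 |>.2)
  obtain ⟨a, ha⟩ := exists_wit (P := fun h a => E h (Mdl.mk h x) (Mdl.mk h X) ∧
      E h a (Mdl.mk h A) ∧ IsSum (E h) (wM h) (oM h) (Mdl.mk h x) a (Mdl.mk h (fnm c))) (by
      repeat' first
        | exact BMap.id
        | apply BMap.fst
        | apply BMap.snd
        | exact BTerm.const _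
        | apply bterm_opair
        | apply BTerm.of
        | apply BPred.mem
        | apply BPred.eq
        | apply bp_has2
        | apply bp_has3
        | apply bp_isTuple3
        | apply bp_eq_pr
        | apply bp_isPair
        | apply bp_isUPair
        | apply bp_isFun
        | apply bp_injects
        | apply bp_isSum
        | apply BPred.not
        | apply BPred.and
        | apply BPred.or
        | apply BPred.iff
        | apply BPred.imp
        | refine BPred.ex ?_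
        | refine BPred.all ?_
        | exact BPred.const _
      ) (Q := fun h => h.V b₁ ∧ E h (Mdl.mk h (fnm c)) (Mdl.mk h S)) hx
  obtain ⟨cx, hcx⟩ := exists_fcode x
  obtain ⟨ca, hca⟩ := exists_fcode a
  obtain ⟨zs, hzs, hzs'⟩ := H cx
  -- truncation
  let zt : ℕ → Ult B → ℕ → ℕ := fun i ω k => min (zs i ω k) 1
  have hzt : ∀ i, Measurable[F.m β] (zt i) := by
    intro i
    refine meas_pi' fun k => ?_
    exact (measurable_from_top (f := fun v : ℕ => min v 1)).comp
      (meas_coord ((hzs i).mono (F.mono _ _ (le_max_left _ _)) le_rfl) k)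
  have h1 : ∀ᶠ ω in genN B, ∀ i, ∀ᶠ l in atTop, ∃ k, pos l ≤ k ∧ k < pos (l + 1) ∧
      ∀ u, g ω k ≤ u → u < g ω (k + 1) → zt i ω u = y₁ ω u :=
    eventually_countable_forall.2 fun i => hcap (zt i) (hzt i) fun ω k => min_le_right _ _
  filter_upwards [h1, hzs', hcode ca] with ω h1 h2 h3 h4 h5
  obtain ⟨h6, h7, h8⟩ := ha ω ⟨h4, h5⟩
  have h9 := (hV ω).1 h4
  have h10 := hcx ω (hX ω h9.1 _ h6)
  have h11 := hca ω (h9.2.1.1 _ h7)
  rw [h10] at h6 h8
  rw [h11] at h7 h8
  obtain ⟨i, hi⟩ := h2 ⟨h9.1, h6⟩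
  have h12 : rv cx ω = zt i ω := by
    funext k
    have h13 := rv_le cx ω k
    have h14 := congrFun hi k
    simp only [zt]
    omega
  refine inB_sum (x := rv cx ω) (a := rv ca ω) (hg' ω) (hy' ω) (rv_le ca ω) ?_ (h3 h4 h7)
    (rv_of_isSum h8)
  rw [h12]
  exact h1 i

end Pool.Agent.MP9096b7
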