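import Pool.Agent.MP_9096b7_lc.Base

/-! The finite support iteration, as a preorder on finite support functions. The side conditions
are given by indices of names. -/

set_option autoImplicit false
set_option linter.unusedSectionVars false

namespace Pool.Agent.MP9096b7

theorem pos_succP (l : ℕ) : pos (l + 1) = pos l + (l + 1) := rfl

theorem pos_monoP : Monotone pos := monotone_nat_of_le_succ fun n => by rw [pos_succP]; omega

theorem le_posP (n : ℕ) : n ≤ pos n := by
  induction n with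
  | zero => exact le_rfl
  | succ n ih => rw [pos_succP]; omega

/-- The conditions: a stem `s ↾ pos n` and a finite set of (indices of) functions on each
coordinate. -/
@[ext] structure Pc (K : Type) where
  n : K → ℕ
  s : K → ℕ → ℕ
  F : K → Finset K
  fin : {γ | n γ ≠ 0}.Finite
  hs : ∀ γ k, pos (n γ) ≤ k → s γ k = 0
  hF : ∀ γ, (F γ).card ≤ n γ

/-- Names of reals. -/
abbrev Nm (K : Type) := ℕ → ℕ → Pc K × ℕ

section Basic

variable {K : Type}

theorem Pc.F_empty {p : Pc K} {γ : K} (h : p.n γ = 0) : p.F γ = ∅ := by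
  have := p.hF γ
  rw [h] at this
  exact Finset.card_eq_zero.1 (Nat.le_zero.1 this)

theorem Pc.s_zero {p : Pc K} {γ : K} (h : p.n γ = 0) : p.s γ = 0 := by
  funext k
  apply p.hs
  rw [h]
  exact Nat.zero_le _

/-- The trivial condition. -/
def Pc.one (K : Type) : Pc K where
  n := fun _ => 0
  s := fun _ _ => 0
  F := fun _ => ∅
  fin := by simp
  hs := fun _ _ _ => rfl
  hF := fun _ => by simp

/-- The name of the zero function. -/
def zeroNm (K : Type) : Nm K := fun _ _ => (Pc.one K, 0)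

end Basic

section Defs

variable {K : Type} [LinearOrder K] [WellFoundedLT K] (int : K → Nm K) (bk : K → K)

/-- The order at the coordinate `γ`, given the order of the conditions below `γ`. -/
def LocLE (L : Pc K → Pc K → Prop) (γ : K) (p q : Pc K) : Prop :=
  q.n γ ≤ p.n γ ∧ (∀ k < pos (q.n γ), p.s γ k = q.s γ k) ∧ q.F γ ⊆ p.F γ ∧
    ∀ ν ∈ q.F γ, ∀ l, q.n γ ≤ l → l < p.n γ → ∃ k, pos l ≤ k ∧ k < pos (l + 1) ∧
      ∃ i, L p (int ν k i).1 ∧ p.s γ k = (int ν k i).2

/-- `LE int α p q`: the restriction of `p` to `α` is stronger than the restriction of `q`. -/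
def PLE : K → Pc K → Pc K → Prop :=
  (wellFounded_lt (α := K)).fix fun α rec p q => ∀ γ (h : γ < α), LocLE int (rec γ h) γ p q

/-- Names of reals of a stage with the given conditions and the given order. -/
def OKf (I : Pc K → Prop) (L : Pc K → Pc K → Prop) (x : Nm K) : Prop :=
  (∀ k i, I (x k i).1) ∧ (∀ k p, I p → ∃ i r, I r ∧ L r p ∧ L r (x k i).1) ∧
    ∀ k i i' r, I r → L r (x k i).1 → L r (x k i').1 → (x k i).2 = (x k i').2

/-- `x` is forced to be bounded by `y`. -/
def Bdf (I : Pc K → Prop) (L : Pc K → Pc K → Prop) (x y : Nm K) : Prop :=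
  ∀ k i i' r, I r → L r (x k i).1 → L r (y k i').1 → (x k i).2 ≤ (y k i').2

open Classical in
/-- Replace names which are not good. -/
noncomputable def fixNm (I : Pc K → Prop) (L : Pc K → Pc K → Prop) (x : Nm K) : Nm K :=
  if OKf I L x then x else zeroNm K

/-- `In int bk α p`: `p` is a condition of the stage `α`. -/
noncomputable def In : K → Pc K → Prop :=
  (wellFounded_lt (α := K)).fix fun α rec p =>
    (∀ γ, α ≤ γ → p.n γ = 0) ∧ ∀ γ (h : γ < α), ∀ ν ∈ p.F γ,
      OKf (rec γ h) (PLE int γ) (int ν) ∧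
        Bdf (rec γ h) (PLE int γ) (int ν) (fixNm (rec γ h) (PLE int γ) (int (bk γ)))

/-- good names of the stage `α` -/
def OK (α : K) (x : Nm K) : Prop := OKf (In int bk α) (PLE int α) x

/-- the bound at the stage `γ` -/
noncomputable def bn (γ : K) : Nm K := fixNm (In int bk γ) (PLE int γ) (int (bk γ))

def Bd (α : K) (x y : Nm K) : Prop := Bdf (In int bk α) (PLE int α) x y

variable {int bk}

theorem PLE_iff {α : K} {p q : Pc K} :
    PLE int α p q ↔ ∀ γ, γ < α → LocLE int (PLE int γ) γ p q := by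
  rw [PLE, WellFounded.fix_eq]

theorem In_iff {α : K} {p : Pc K} :
    In int bk α p ↔ (∀ γ, α ≤ γ → p.n γ = 0) ∧ ∀ γ, γ < α → ∀ ν ∈ p.F γ,
      OK int bk γ (int ν) ∧ Bd int bk γ (int ν) (bn int bk γ) := by
  rw [In, WellFounded.fix_eq]; rfl

theorem PLE.mono {α β : K} (h : α ≤ β) {p q : Pc K} (hpq : PLE int β p q) : PLE int α p q :=
  PLE_iff.2 fun γ hγ => PLE_iff.1 hpq γ (hγ.trans_le h)

theorem PLE.refl (α : K) (p : Pc K) : PLE int α p p :=
  PLE_iff.2 fun γ _ => ⟨le_rfl, fun _ _ => rfl, fun _ h => h, fun ν _ l h1 h2 => by omega⟩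

theorem PLE.trans : ∀ {α : K} {p q r : Pc K}, PLE int α p q → PLE int α q r → PLE int α p r := by
  intro α
  induction α using WellFoundedLT.induction with
  | ind α ih =>
  intro p q r hpq hqr
  rw [PLE_iff]
  intro γ hγ
  obtain ⟨a1, a2, a3, a4⟩ := PLE_iff.1 hpq γ hγ
  obtain ⟨b1, b2, b3, b4⟩ := PLE_iff.1 hqr γ hγ
  refine ⟨b1.trans a1, fun k hk => ?_, b3.trans a3, fun ν hν l h1 h2 => ?_⟩
  · rw [a2 k (hk.trans_le (pos_monoP b1)), b2 k hk]
  · by_cases h3 : l < q.n γ
    · obtain ⟨k, k1, k2, i, i1, i2⟩ := b4 ν hν l h1 h3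
      refine ⟨k, k1, k2, i, ih γ hγ (hpq.mono hγ.le) i1, ?_⟩
      rw [a2 k (k2.trans_le (pos_monoP h3)), i2]
    · exact a4 ν (b3 hν) l (not_lt.1 h3) h2

/-- agreement below `α` -/
def PAgree (α : K) (p q : Pc K) : Prop := ∀ γ, γ < α → p.n γ = q.n γ ∧ p.s γ = q.s γ ∧ p.F γ = q.F γ

theorem PAgree.symm {α : K} {p q : Pc K} (h : PAgree α p q) : PAgree α q p :=
  fun γ hγ => ⟨(h γ hγ).1.symm, (h γ hγ).2.1.symm, (h γ hγ).2.2.symm⟩

theorem PAgree.mono {α β : K} (h : α ≤ β) {p q : Pc K} (hpq : PAgree β p q) : PAgree α p q :=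
  fun γ hγ => hpq γ (hγ.trans_le h)

theorem PAgree.ple {α : K} {p q : Pc K} (h : PAgree α p q) : PLE int α p q := by
  rw [PLE_iff]
  intro γ hγ
  obtain ⟨h1, h2, h3⟩ := h γ hγ
  exact ⟨h1.ge, fun k _ => by rw [h2], h3.ge, fun ν _ l l1 l2 => by omega⟩

theorem PLE.congr_left {α : K} {p p' q : Pc K} (h : PAgree α p p') :
    PLE int α p q ↔ PLE int α p' q :=
  ⟨fun h' => h.symm.ple.trans h', fun h' => h.ple.trans h'⟩

theorem PLE.congr_right {α : K} {p q q' : Pc K} (h : PAgree α q q') :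
    PLE int α p q ↔ PLE int α p q' :=
  ⟨fun h' => h'.trans h.ple, fun h' => h'.trans h.symm.ple⟩

theorem In.n_zero {α γ : K} {p : Pc K} (h : In int bk α p) (hγ : α ≤ γ) : p.n γ = 0 :=
  (In_iff.1 h).1 γ hγ

theorem In.mono {α β : K} (h : α ≤ β) {p : Pc K} (hp : In int bk α p) : In int bk β p := by
  rw [In_iff] at hp ⊢
  refine ⟨fun γ hγ => hp.1 γ (h.trans hγ), fun γ _ ν hν => ?_⟩
  by_cases h1 : γ < α
  · exact hp.2 γ h1 ν hν
  · rw [p.F_empty (hp.1 γ (not_lt.1 h1))] at hν
    simp at hν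

theorem PLE.of_le {α β : K} {p q : Pc K} (hq : In int bk α q) (h : PLE int α p q) :
    PLE int β p q := by
  rw [PLE_iff]
  intro γ _
  by_cases h1 : γ < α
  · exact PLE_iff.1 h γ h1
  · have h0 := hq.n_zero (not_lt.1 h1)
    have h2 := q.F_empty h0
    refine ⟨by rw [h0]; exact Nat.zero_le _, fun k hk => ?_, by rw [h2]; simp, by rw [h2]; simp⟩
    rw [h0] at hk
    exact absurd hk (Nat.not_lt_zero _)

theorem one_In (α : K) : In int bk α (Pc.one K) := by
  rw [In_iff]
  exact ⟨fun _ _ => rfl, fun γ _ ν hν => by simp [Pc.one] at hν⟩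

theorem le_one (α : K) (p : Pc K) : PLE int α p (Pc.one K) := by
  rw [PLE_iff]
  intro γ _
  refine ⟨Nat.zero_le _, fun k hk => absurd hk (Nat.not_lt_zero _), by simp [Pc.one],
    by simp [Pc.one]⟩

/-- `q` below `α` and `p` above. -/
def amal (α : K) (q p : Pc K) : Pc K where
  n := fun γ => if γ < α then q.n γ else p.n γ
  s := fun γ => if γ < α then q.s γ else p.s γ
  F := fun γ => if γ < α then q.F γ else p.F γ
  fin := by
    refine (q.fin.union p.fin).subset fun γ hγ => ?_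
    simp only [Set.mem_ofPred_eq, Set.mem_union] at hγ ⊢
    split_ifs at hγ with h
    · exact Or.inl hγ
    · exact Or.inr hγ
  hs := by
    intro γ k
    split_ifs
    · exact q.hs γ k
    · exact p.hs γ k
  hF := by
    intro γ
    split_ifs
    · exact q.hF γ
    · exact p.hF γ

theorem amal_low {α γ : K} {q p : Pc K} (h : γ < α) :
    (amal α q p).n γ = q.n γ ∧ (amal α q p).s γ = q.s γ ∧ (amal α q p).F γ = q.F γ := by
  simp [amal, h]

theorem amal_high {α γ : K} {q p : Pc K} (h : α ≤ γ) :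
    (amal α q p).n γ = p.n γ ∧ (amal α q p).s γ = p.s γ ∧ (amal α q p).F γ = p.F γ := by
  simp [amal, not_lt.2 h]

theorem amal_agree (α : K) (q p : Pc K) : PAgree α (amal α q p) q := fun _ hγ => amal_low hγ

/-- the restriction to `α` -/
def res (α : K) (p : Pc K) : Pc K := amal α p (Pc.one K)

theorem res_agree (α : K) (p : Pc K) : PAgree α (res α p) p := amal_agree _ _ _

theorem amal_In {α β : K} {q p : Pc K} (hαβ : α ≤ β) (hq : In int bk β q) (hp : In int bk β p) :
    In int bk β (amal α q p) := by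
  rw [In_iff] at hq hp ⊢
  constructor
  · intro γ hγ
    rw [(amal_high (hαβ.trans hγ)).1]
    exact hp.1 γ hγ
  · intro γ hγ ν hν
    by_cases h1 : γ < α
    · rw [(amal_low h1).2.2] at hν
      exact hq.2 γ hγ ν hν
    · rw [(amal_high (not_lt.1 h1)).2.2] at hν
      exact hp.2 γ hγ ν hν

theorem amal_le {α β : K} {q p : Pc K} (h : PLE int α q p) : PLE int β (amal α q p) p := by
  rw [PLE_iff]
  intro γ hγ
  by_cases h1 : γ < α
  · exact PLE_iff.1 ((PLE.congr_left (amal_agree α q p)).2 h) γ h1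
  · obtain ⟨a1, a2, a3⟩ := amal_high (q := q) (p := p) (not_lt.1 h1)
    exact ⟨a1.ge, fun k _ => by rw [a2], a3.ge, fun ν _ l l1 l2 => by omega⟩

theorem amal_le_left {α : K} {q p : Pc K} : PLE int α (amal α q p) q :=
  (amal_agree α q p).ple

theorem res_In {α β : K} {p : Pc K} (hp : In int bk β p) : In int bk α (res α p) := by
  rw [In_iff] at hp ⊢
  refine ⟨fun γ hγ => (amal_high hγ).1, fun γ hγ ν hν => ?_⟩
  rw [(res_agree α p γ hγ).2.2] at hν
  by_cases h1 : γ < β
  · exact hp.2 γ h1 ν hν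
  · rw [p.F_empty (hp.1 γ (not_lt.1 h1))] at hν
    simp at hν

theorem le_res {α : K} (β : K) {p : Pc K} : PLE int β p (res α p) := by
  rw [PLE_iff]
  intro γ hγ
  by_cases h1 : γ < α
  · exact PLE_iff.1 (res_agree α p).symm.ple γ h1
  · obtain ⟨a1, a2, a3⟩ := amal_high (q := p) (p := Pc.one K) (not_lt.1 h1)
    refine ⟨?_, ?_, ?_, ?_⟩
    · rw [res, a1]; exact Nat.zero_le _
    · rw [res, a1]; intro k hk; exact absurd hk (Nat.not_lt_zero _)
    · rw [res, a3]; simp [Pc.one]
    · rw [res, a3]; simp [Pc.one]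

/-- extension of the stem, given the values -/
def stem (γ : K) (q p : Pc K) (val : ℕ → ℕ) : Pc K where
  n := fun δ => if δ < γ then q.n δ else if δ = γ then p.n γ + 1 else p.n δ
  s := fun δ => if δ < γ then q.s δ else if δ = γ then
    (fun k => if k < pos (p.n γ) then p.s γ k else if k < pos (p.n γ + 1) then val k else 0)
      else p.s δ
  F := fun δ => if δ < γ then q.F δ else p.F δ
  fin := by
    refine ((q.fin.union p.fin).union (Set.finite_singleton γ)).subset fun δ hδ => ?_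
    simp only [Set.mem_ofPred_eq, Set.mem_union, Set.mem_singleton_iff] at hδ ⊢
    split_ifs at hδ with h h'
    · exact Or.inl (Or.inl hδ)
    · exact Or.inr h'
    · exact Or.inl (Or.inr hδ)
  hs := by
    intro δ k
    split_ifs with h h'
    · exact q.hs δ k
    · intro hk
      have := pos_monoP (Nat.le_succ (p.n γ))
      rw [Nat.succ_eq_add_one] at this
      show (if k < pos (p.n γ) then p.s γ k else if k < pos (p.n γ + 1) then val k else 0) = 0
      rw [if_neg (by omega), if_neg (by omega)]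
    · exact p.hs δ k
  hF := by
    intro δ
    split_ifs with h h'
    · exact q.hF δ
    · rw [h']; exact (p.hF γ).trans (Nat.le_succ _)
    · exact p.hF δ

/-- decide finitely many values -/
theorem decide_fin {γ : K} (T : Finset (K × ℕ)) (hT : ∀ z ∈ T, OK int bk γ (int z.1)) {p : Pc K}
    (hp : In int bk γ p) :
    ∃ q, In int bk γ q ∧ PLE int γ q p ∧ ∀ z ∈ T, ∃ i, PLE int γ q (int z.1 z.2 i).1 := by
  classical
  induction T using Finset.induction_on with
  | empty => exact ⟨p, hp, PLE.refl _ _, by simp⟩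
  | insert z T hz ih =>
    obtain ⟨q, q1, q2, q3⟩ := ih fun z' hz' => hT z' (Finset.mem_insert_of_mem hz')
    obtain ⟨i, r, r1, r2, r3⟩ := (hT z (Finset.mem_insert_self _ _)).2.1 z.2 q q1
    refine ⟨r, r1, r2.trans q2, fun z' hz' => ?_⟩
    rcases Finset.mem_insert.1 hz' with rfl | h
    · exact ⟨i, r3⟩
    · obtain ⟨i', hi'⟩ := q3 z' h
      exact ⟨i', r2.trans hi'⟩

theorem ext_stem {β γ : K} (hγ : γ < β) {p : Pc K} (hp : In int bk β p) :
    ∃ q, In int bk β q ∧ PLE int β q p ∧ q.n γ = p.n γ + 1 ∧ q.F γ = p.F γ ∧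
      ∀ δ, γ < δ → q.n δ = p.n δ ∧ q.s δ = p.s δ ∧ q.F δ = p.F δ := by
  classical
  have hF : ∀ ν ∈ p.F γ, OK int bk γ (int ν) := fun ν hν => ((In_iff.1 hp).2 γ hγ ν hν).1
  obtain ⟨idx, idx1, idx2⟩ : ∃ idx : K → ℕ, (∀ ν ∈ p.F γ, idx ν ≤ p.n γ) ∧
      ∀ ν ∈ p.F γ, ∀ ν' ∈ p.F γ, idx ν = idx ν' → ν = ν' := by
    refine ⟨fun ν => if h : ν ∈ p.F γ then ((p.F γ).equivFin ⟨ν, h⟩ : ℕ) else 0, ?_, ?_⟩
    · intro ν hν
      beta_reduce
      rw [dif_pos hν]
      exact (((p.F γ).equivFin ⟨ν, hν⟩).2.trans_le (p.hF γ)).le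
    · intro ν hν ν' hν' h
      beta_reduce at h
      rw [dif_pos hν, dif_pos hν'] at h
      have := (p.F γ).equivFin.injective (Fin.ext h)
      exact congrArg Subtype.val this
  obtain ⟨q, q1, q2, q3⟩ := decide_fin ((p.F γ).image fun ν => (ν, pos (p.n γ) + idx ν)) (by
    intro z hz
    obtain ⟨ν, hν, rfl⟩ := Finset.mem_image.1 hz
    exact hF ν hν) (res_In (α := γ) hp)
  have q3' : ∀ ν, ∃ i, ν ∈ p.F γ → PLE int γ q (int ν (pos (p.n γ) + idx ν) i).1 := by
    intro ν
    by_cases hν : ν ∈ p.F γ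
    · obtain ⟨i, hi⟩ := q3 _ (Finset.mem_image_of_mem _ hν)
      exact ⟨i, fun _ => hi⟩
    · exact ⟨0, fun h => absurd h hν⟩
  choose iv hiv using q3'
  obtain ⟨val, hval⟩ : ∃ val : ℕ → ℕ, ∀ ν ∈ p.F γ, val (pos (p.n γ) + idx ν) =
      (int ν (pos (p.n γ) + idx ν) (iv ν)).2 := by
    refine ⟨fun k => if h : ∃ ν ∈ p.F γ, pos (p.n γ) + idx ν = k then
      (int h.choose k (iv h.choose)).2 else 0, fun ν hν => ?_⟩
    have h : ∃ ν' ∈ p.F γ, pos (p.n γ) + idx ν' = pos (p.n γ) + idx ν := ⟨ν, hν, rfl⟩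
    beta_reduce
    rw [dif_pos h]
    have h1 := h.choose_spec
    rw [idx2 _ h1.1 _ hν (by omega)]
  have hq2 : PLE int γ q p := q2.trans (res_agree γ p).ple
  have hag : PAgree γ (stem γ q p val) q := by
    intro δ hδ
    simp [stem, hδ]
  refine ⟨stem γ q p val, ?_, ?_, ?_, ?_, ?_⟩
  · rw [In_iff]
    constructor
    · intro δ hδ
      have h1 : ¬ δ < γ := not_lt.2 (hγ.le.trans hδ)
      have h2 : δ ≠ γ := (hγ.trans_le hδ).ne'
      simp only [stem, h1, h2, if_false]
      exact hp.n_zero hδ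
    · intro δ hδ ν hν
      by_cases h1 : δ < γ
      · simp only [stem, h1, if_true] at hν
        exact (In_iff.1 q1).2 δ h1 ν hν
      · simp only [stem, h1, if_false] at hν
        exact (In_iff.1 hp).2 δ hδ ν hν
  · rw [PLE_iff]
    intro δ hδ
    rcases lt_trichotomy δ γ with h1 | rfl | h1
    · exact PLE_iff.1 ((PLE.congr_left hag).2 hq2) δ h1
    · refine ⟨?_, ?_, ?_, ?_⟩
      · simp [stem]
      · intro k hk
        simp [stem, hk]
      · simp [stem]
      · intro ν hν l h2 h3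
        have h4 : l = p.n δ := by
          simp only [stem, lt_irrefl, if_false, if_true] at h3
          omega
        subst h4
        have h5 := idx1 ν hν
        have h6 := pos_succP (p.n δ)
        refine ⟨pos (p.n δ) + idx ν, by omega, by omega, iv ν,
          (PLE.congr_left hag).2 (hiv ν hν), ?_⟩
        rw [← hval ν hν]
        simp only [stem, lt_irrefl, if_false, if_true]
        rw [if_neg (by omega), if_pos (by omega)]
    · have h2 : ¬ δ < γ := not_lt.2 h1.le
      have h3 : δ ≠ γ := h1.ne'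
      have e1 : (stem γ q p val).n δ = p.n δ := by simp [stem, h2, h3]
      refine ⟨e1.ge, fun k _ => by simp [stem, h2, h3], by simp [stem, h2],
        fun ν _ l l1 l2 => by omega⟩
  · simp [stem]
  · simp [stem]
  · intro δ h1
    have h2 : ¬ δ < γ := not_lt.2 h1.le
    have h3 : δ ≠ γ := h1.ne'
    simp [stem, h2, h3]

theorem ext_many {β γ : K} (hγ : γ < β) (m : ℕ) {p : Pc K} (hp : In int bk β p) :
    ∃ q, In int bk β q ∧ PLE int β q p ∧ q.n γ = p.n γ + m ∧ q.F γ = p.F γ ∧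
      ∀ δ, γ < δ → q.n δ = p.n δ ∧ q.s δ = p.s δ ∧ q.F δ = p.F δ := by
  induction m with
  | zero => exact ⟨p, hp, PLE.refl _ _, rfl, rfl, fun _ _ => ⟨rfl, rfl, rfl⟩⟩
  | succ m ih =>
    obtain ⟨q, q1, q2, q3, q4, q5⟩ := ih
    obtain ⟨r, r1, r2, r3, r4, r5⟩ := ext_stem hγ q1
    refine ⟨r, r1, r2.trans q2, by omega, by rw [r4, q4], fun δ hδ => ?_⟩
    obtain ⟨a1, a2, a3⟩ := q5 δ hδ
    obtain ⟨b1, b2, b3⟩ := r5 δ hδ
    exact ⟨b1.trans a1, b2.trans a2, b3.trans a3⟩

/-- the conditions with `2 |F| ≤ n` are dense -/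
theorem nice_dense : ∀ (α : K) (p : Pc K), In int bk α p → ∃ q, In int bk α q ∧ PLE int α q p ∧
    ∀ γ, 2 * (q.F γ).card ≤ q.n γ := by
  intro α
  induction α using WellFoundedLT.induction with
  | ind α ih =>
  intro p hp
  classical
  by_cases h0 : p.fin.toFinset.Nonempty
  · let γ := p.fin.toFinset.max' h0
    have hγ1 : p.n γ ≠ 0 := by
      have := p.fin.toFinset.max'_mem h0
      simpa using this
    have hγ2 : ∀ δ, γ < δ → p.n δ = 0 := by
      intro δ hδ
      by_contra h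
      have : δ ≤ γ := p.fin.toFinset.le_max' δ (by simpa using h)
      exact absurd hδ (not_lt.2 this)
    have hγα : γ < α := by
      by_contra h
      exact hγ1 (hp.n_zero (not_lt.1 h))
    obtain ⟨r, r1, r2, r3, r4, r5⟩ := ext_many hγα (2 * (p.F γ).card) hp
    obtain ⟨q, q1, q2, q3⟩ := ih γ hγα (res γ r) (res_In r1)
    have q2' : PLE int γ q r := q2.trans (res_agree γ r).ple
    refine ⟨amal γ q r, amal_In hγα.le (q1.mono hγα.le) r1, (amal_le q2').trans r2, fun δ => ?_⟩
    rcases lt_trichotomy δ γ with h1 | h1 | h1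
    · rw [(amal_low h1).1, (amal_low h1).2.2]
      exact q3 δ
    · rw [(amal_high h1.ge).1, (amal_high h1.ge).2.2, h1, r3, r4]
      omega
    · rw [(amal_high h1.le).1, (amal_high h1.le).2.2, (r5 δ h1).1, (r5 δ h1).2.2, hγ2 δ h1,
        p.F_empty (hγ2 δ h1)]
      simp
  · refine ⟨p, hp, PLE.refl _ _, fun γ => ?_⟩
    have : p.n γ = 0 := by
      by_contra h
      exact h0 ⟨γ, by simpa using h⟩
    rw [this, p.F_empty this]
    simp

end Defs

end Pool.Agent.MP9096b7
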