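import Pool.Agent.MP_9096b7_lc.Ccc

/-! The sizes of the stages, and the index set of the iteration. -/

set_option autoImplicit false
set_option linter.unusedSectionVars false

namespace Pool.Agent.MP9096b7

open Cardinal

theorem card_Pc {K : Type} (κ : Cardinal.{0}) (hκ : ℵ₀ ≤ κ) (S T : Set K) (hS : #S ≤ κ)
    (hT : #T ≤ κ) :
    #{p : Pc K | (∀ γ, p.n γ ≠ 0 → γ ∈ S) ∧ ∀ γ, ∀ ν ∈ p.F γ, ν ∈ T} ≤ κ := by
  classical
  let g : S × ℕ × List ℕ × List T → K × ℕ × List ℕ × List K :=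
    fun z => (z.1, z.2.1, z.2.2.1, z.2.2.2.map Subtype.val)
  let f : Pc K → List (K × ℕ × List ℕ × List K) := fun p => p.fin.toFinset.toList.map
    fun γ => (γ, p.n γ, (List.range (pos (p.n γ))).map (p.s γ), (p.F γ).toList)
  have hf1 : ∀ p q, f p = f q → ∀ γ, p.n γ ≠ 0 →
      p.n γ = q.n γ ∧ p.s γ = q.s γ ∧ p.F γ = q.F γ := by
    intro p q h γ hγ
    have h1 : (γ, p.n γ, (List.range (pos (p.n γ))).map (p.s γ), (p.F γ).toList) ∈ f p :=
      List.mem_map.2 ⟨γ, by simpa using hγ, rfl⟩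
    rw [h] at h1
    obtain ⟨γ', -, h2⟩ := List.mem_map.1 h1
    simp only [Prod.mk.injEq] at h2
    obtain ⟨rfl, h3, h4, h5⟩ := h2
    refine ⟨h3.symm, funext fun k => ?_, ?_⟩
    · by_cases hk : k < pos (p.n γ')
      · rw [h3] at h4
        exact (List.map_eq_map_iff.1 h4 k (List.mem_range.2 hk)).symm
      · rw [p.hs _ k (not_lt.1 hk), q.hs _ k (by rw [h3]; exact not_lt.1 hk)]
    · have := congrArg List.toFinset h5
      simpa using this.symm
  have hf : Function.Injective f := by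
    intro p q h
    have key : ∀ γ, p.n γ = q.n γ ∧ p.s γ = q.s γ ∧ p.F γ = q.F γ := by
      intro γ
      by_cases h1 : p.n γ = 0
      · by_cases h2 : q.n γ = 0
        · exact ⟨h1.trans h2.symm, (Pc.s_zero h1).trans (Pc.s_zero h2).symm,
            (Pc.F_empty h1).trans (Pc.F_empty h2).symm⟩
        · obtain ⟨a, b, c⟩ := hf1 q p h.symm γ h2
          exact ⟨a.symm, b.symm, c.symm⟩
      · exact hf1 p q h γ h1
    exact Pc.ext (funext fun γ => (key γ).1) (funext fun γ => (key γ).2.1)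
      (funext fun γ => (key γ).2.2)
  have h1 : f '' {p : Pc K | (∀ γ, p.n γ ≠ 0 → γ ∈ S) ∧ ∀ γ, ∀ ν ∈ p.F γ, ν ∈ T} ⊆
      Set.range (List.map g) := by
    rintro _ ⟨p, ⟨hp1, hp2⟩, rfl⟩
    rw [Set.range_list_map]
    intro x hx
    obtain ⟨γ, hγ, rfl⟩ := List.mem_map.1 hx
    have hγ' : p.n γ ≠ 0 := by simpa using hγ
    obtain ⟨l, hl⟩ : (p.F γ).toList ∈ Set.range (List.map (Subtype.val : T → K)) := by
      rw [Set.range_list_map_coe]
      intro ν hν
      exact hp2 γ ν (by simpa using hν)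
    exact ⟨(⟨γ, hp1 γ hγ'⟩, p.n γ, (List.range (pos (p.n γ))).map (p.s γ), l), by
      simp only [g, hl]⟩
  have h2 : #(f '' {p : Pc K | (∀ γ, p.n γ ≠ 0 → γ ∈ S) ∧ ∀ γ, ∀ ν ∈ p.F γ, ν ∈ T}) ≤ κ := by
    refine (mk_le_mk_of_subset h1).trans (mk_range_le.trans ?_)
    refine (mk_list_le_max _).trans (max_le hκ ?_)
    rw [mk_prod, mk_prod, mk_prod]
    simp only [lift_id]
    have hL : #(List ℕ) ≤ κ := (mk_list_le_max _).trans (max_le hκ (by simpa using hκ))
    have hLT : #(List T) ≤ κ := (mk_list_le_max _).trans (max_le hκ hT)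
    have hN : #ℕ ≤ κ := by simpa using hκ
    calc #S * (#ℕ * (#(List ℕ) * #(List T))) ≤ κ * (κ * (κ * κ)) :=
          mul_le_mul' hS (mul_le_mul' hN (mul_le_mul' hL hLT))
      _ = κ := by rw [mul_eq_self hκ, mul_eq_self hκ, mul_eq_self hκ]
  rwa [mk_image_eq hf] at h2

section

variable {K : Type} [LinearOrder K] [WellFoundedLT K] {int : K → Nm K} {bk : K → K}

theorem size_OK (hint : Function.Injective int) {γ : K}
    (h2 : #{p : Pc K | In int bk γ p} ≤ 𝔠) : #{ν | OK int bk γ (int ν)} ≤ 𝔠 := by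
  let F : {ν | OK int bk γ (int ν)} → (ℕ → ℕ → {p : Pc K | In int bk γ p} × ℕ) :=
    fun ν k i => (⟨(int ν.1 k i).1, ν.2.1 k i⟩, (int ν.1 k i).2)
  have hF : Function.Injective F := by
    intro ν ν' h
    apply Subtype.ext
    apply hint
    funext k i
    have h3 := congrFun (congrFun h k) i
    simp only [F, Prod.mk.injEq, Subtype.mk.injEq] at h3
    exact Prod.ext h3.1 h3.2
  refine (mk_le_of_injective hF).trans ?_
  rw [← power_def, ← power_def, mk_prod]
  simp only [lift_id, mk_nat]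
  calc ((#{p : Pc K | In int bk γ p} * ℵ₀) ^ ℵ₀) ^ ℵ₀ ≤ ((𝔠 * ℵ₀) ^ ℵ₀) ^ ℵ₀ := by
        exact power_le_power_right (power_le_power_right (mul_le_mul' h2 le_rfl))
    _ = 𝔠 := by
        rw [continuum_mul_aleph0, continuum_power_aleph0, continuum_power_aleph0]

theorem size_P (hK : ∀ α : K, #(Set.Iio α) ≤ 𝔠) (hint : Function.Injective int) :
    ∀ α, #{p : Pc K | In int bk α p} ≤ 𝔠 := by
  intro α
  induction α using WellFoundedLT.induction with
  | ind α ih =>
  have h1 : ∀ γ : Set.Iio α, #{ν | OK int bk γ (int ν)} ≤ 𝔠 :=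
    fun γ => size_OK hint (ih γ.1 γ.2)
  have h3 : #(⋃ γ : Set.Iio α, {ν | OK int bk γ.1 (int ν)} : Set K) ≤ 𝔠 := by
    refine (mk_iUnion_le _).trans ?_
    calc #(Set.Iio α) * ⨆ γ : Set.Iio α, #{ν | OK int bk γ.1 (int ν)} ≤ 𝔠 * 𝔠 :=
          mul_le_mul' (hK α) (ciSup_le' h1)
      _ = 𝔠 := continuum_mul_self
  refine (mk_le_mk_of_subset ?_).trans (card_Pc 𝔠 aleph0_le_continuum (Set.Iio α) _ (hK α) h3)
  intro p hp
  have hp' : In int bk α p := hp
  refine ⟨fun γ hγ => ?_, fun γ ν hν => ?_⟩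
  · by_contra h
    exact hγ (hp'.n_zero (not_lt.1 h))
  · have hγ : γ < α := by
      by_contra h
      rw [p.F_empty (hp'.n_zero (not_lt.1 h))] at hν
      simp at hν
    exact Set.mem_iUnion.2 ⟨⟨γ, hγ⟩, ((In_iff.1 hp').2 γ hγ ν hν).1⟩

end

/-- The index set of the iteration. -/
theorem exists_K : ∃ (K : Type) (_ : LinearOrder K) (_ : WellFoundedLT K) (int : K → Nm K)
    (bk : K → K), (∀ α : K, #(Set.Iio α) ≤ 𝔠) ∧ (∀ g : (ℕ → ℕ) → K, ∃ α, ∀ c, g c < α) ∧
      Function.Bijective int ∧ ∀ ν α, ∃ γ, α ≤ γ ∧ bk γ = ν := by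
  classical
  let K : Type := (Order.succ 𝔠).ord.ToType
  have hcK : #K = Order.succ 𝔠 := mk_ord_toType _
  have hIio : ∀ α : K, #(Set.Iio α) ≤ 𝔠 := fun α => by
    have h1 : #(Set.Iio α) < #K := mk_Iio_lt α (by rw [hcK]; exact (Ordinal.type_toType _).symm)
    rw [hcK] at h1
    exact Order.lt_succ_iff.1 h1
  have hIic : ∀ α : K, #(Set.Iic α) ≤ 𝔠 := fun α => by
    rw [← Set.Iio_insert]
    refine (mk_insert_le).trans ?_
    calc #(Set.Iio α) + 1 ≤ 𝔠 + 𝔠 := add_le_add (hIio α) (one_le_aleph0.trans aleph0_le_continuum)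
      _ = 𝔠 := continuum_add_self
  have hcof : ∀ (A : Type) (_ : #A ≤ 𝔠) (g : A → K), ∃ α, ∀ a, g a < α := by
    intro A hA g
    by_contra hcon
    push Not at hcon
    have h1 : (Set.univ : Set K) ⊆ ⋃ a, Set.Iic (g a) := fun α _ => by
      obtain ⟨a, ha⟩ := hcon α
      exact Set.mem_iUnion.2 ⟨a, ha⟩
    have h2 : #K ≤ 𝔠 := by
      rw [← mk_univ]
      refine (mk_le_mk_of_subset h1).trans ((mk_iUnion_le _).trans ?_)
      calc #A * ⨆ a, #(Set.Iic (g a)) ≤ 𝔠 * 𝔠 := mul_le_mul' hA (ciSup_le' fun a => hIic (g a))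
        _ = 𝔠 := continuum_mul_self
    rw [hcK] at h2
    exact absurd (Order.lt_succ 𝔠) (not_lt.2 h2)
  have hcK' : 𝔠 ≤ #K := by rw [hcK]; exact Order.le_succ 𝔠
  have hinf : ℵ₀ ≤ #K := aleph0_le_continuum.trans hcK'
  have hseq : #K ^ ℵ₀ = #K := by
    apply le_antisymm
    · rw [← mk_nat, power_def]
      have h1 : (Set.univ : Set (ℕ → K)) ⊆
          ⋃ α : K, Set.range (fun (f : ℕ → Set.Iio α) (n : ℕ) => (f n).1) := by
        intro f _
        obtain ⟨α, hα⟩ := hcof ℕ (by simpa using aleph0_le_continuum) f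
        exact Set.mem_iUnion.2 ⟨α, fun n => ⟨f n, hα n⟩, rfl⟩
      rw [← mk_univ]
      refine (mk_le_mk_of_subset h1).trans ((mk_iUnion_le _).trans ?_)
      calc #K * ⨆ α : K, #(Set.range (fun (f : ℕ → Set.Iio α) (n : ℕ) => (f n).1)) ≤ #K * #K := by
            refine mul_le_mul' le_rfl (ciSup_le' fun α => ?_)
            refine mk_range_le.trans ?_
            rw [← power_def, mk_nat]
            refine le_trans ?_ hcK'
            calc #(Set.Iio α) ^ ℵ₀ ≤ 𝔠 ^ ℵ₀ := power_le_power_right (hIio α)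
              _ = 𝔠 := continuum_power_aleph0
        _ = #K := mul_eq_self hinf
    · calc #K = #K ^ (1 : Cardinal.{0}) := (power_one _).symm
        _ ≤ #K ^ ℵ₀ := power_le_power_left (by
            rw [Ne, mk_eq_zero_iff, not_isEmpty_iff]
            exact (infinite_iff.2 hinf).nonempty) one_le_aleph0
  have hPc : #(Pc K) ≤ #K := by
    have h1 := card_Pc (K := K) #K hinf Set.univ Set.univ (by rw [mk_univ]) (by rw [mk_univ])
    have h2 : {p : Pc K | (∀ γ, p.n γ ≠ 0 → γ ∈ (Set.univ : Set K)) ∧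
        ∀ γ, ∀ ν ∈ p.F γ, ν ∈ (Set.univ : Set K)} = Set.univ := by
      ext p; simp
    rwa [h2, mk_univ] at h1
  have hNm : #(Nm K) = #K := by
    apply le_antisymm
    · show #(ℕ → ℕ → Pc K × ℕ) ≤ #K
      rw [← power_def, ← power_def, mk_prod]
      simp only [lift_id, mk_nat]
      calc ((#(Pc K) * ℵ₀) ^ ℵ₀) ^ ℵ₀ ≤ ((#K * #K) ^ ℵ₀) ^ ℵ₀ :=
            power_le_power_right (power_le_power_right (mul_le_mul' hPc hinf))
        _ = #K := by rw [mul_eq_self hinf, hseq, hseq]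
    · let one' : K → Pc K := fun γ =>
        { n := fun δ => if δ = γ then 1 else 0
          s := fun _ _ => 0
          F := fun _ => ∅
          fin := (Set.finite_singleton γ).subset fun δ hδ => by
            simp only [Set.mem_ofPred_eq] at hδ
            by_contra h
            exact hδ (if_neg h)
          hs := fun _ _ _ => rfl
          hF := fun _ => by simp }
      refine mk_le_of_injective (f := fun γ _ _ => (one' γ, 0)) ?_
      intro γ γ' h
      have h1 := congrFun (congrFun h 0) 0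
      simp only [Prod.mk.injEq, and_true] at h1
      have h2 := congrFun (congrArg Pc.n h1) γ
      simp only [one', if_true] at h2
      by_contra hne
      rw [if_neg hne] at h2
      exact one_ne_zero h2
  obtain ⟨int⟩ := Cardinal.eq.1 hNm.symm
  have hKK : #K = #(K × K) := by rw [mk_prod]; simp only [lift_id]; exact (mul_eq_self hinf).symm
  obtain ⟨e⟩ := Cardinal.eq.1 hKK
  refine ⟨K, inferInstance, inferInstance, int, fun γ => (e γ).1, hIio,
    fun g => hcof (ℕ → ℕ) (by simp) g, int.bijective, fun ν α => ?_⟩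
  by_contra hcon
  push Not at hcon
  have h1 : #K ≤ 𝔠 := by
    refine le_trans ?_ (hIio α)
    refine mk_le_of_injective (f := fun κ => (⟨e.symm (ν, κ), ?_⟩ : Set.Iio α)) ?_
    · by_contra h
      exact hcon _ (not_lt.1 h) (by simp)
    · intro κ κ' h
      have h2 := congrArg (fun z => e z.1) h
      simpa using h2
  rw [hcK] at h1
  exact absurd (Order.lt_succ 𝔠) (not_lt.2 h1)

end Pool.Agent.MP9096b7
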