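import Pool.Agent.MP_63050e_lc.Statement

/-! The vocabulary of the statement, interpreted in a model `(M, E)` of ZFC. All quantifiers range
over the model. Throughout, `w` is the ordinal `ω` of the model, `o = 0` and `t = 2 = {0, 1}`, so
that `2^ω` is the set of the functions from `w` to `t`. -/

set_option autoImplicit false

namespace Pool.Agent.MP9096b7

open MP63050e

universe u

variable {M : Type u} (E : M → M → Prop)

/-- `t = {o, i}` where `o = 0 = ∅` and `i = 1 = {∅}`. -/
def IsTwo (o t : M) : Prop := IsEmp E o ∧ ∃ i, IsSucc E i o ∧ IsUPair E t o i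

/-- `A ⊆ 2^ω`. -/
def SubC (w t A : M) : Prop := ∀ x, E x A → IsFun E x w t

/-- `z = x + y` in the group `2^ω`: for all `n`, `z(n) = 0` if and only if `x(n)` and `y(n)` are
both `0` or both different from `0`. -/
def IsSum (w o x y z : M) : Prop :=
  ∀ n, E n w → (Has E z [n, o] ↔ (Has E x [n, o] ↔ Has E y [n, o]))

/-- The restrictions of `x` and `y` to the natural number `n` agree, i.e. `y` belongs to the basic
open set `[x ↾ n]` of `2^ω`. -/
def Agree (n x y : M) : Prop := ∀ k e, E k n → (Has E x [k, e] ↔ Has E y [k, e])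

/-- `D` is a nowhere dense subset of `2^ω`: each basic open set `[x ↾ n]` meets (equivalently,
contains) a basic open set `[y ↾ m]`, with `y ∈ [x ↾ n]`, which is disjoint from `D`. -/
def IsNwd (w t D : M) : Prop :=
  SubC E w t D ∧ ∀ x n, IsFun E x w t → E n w →
    ∃ y m, IsFun E y w t ∧ E m w ∧ Agree E n x y ∧ ∀ z, E z D → ¬ Agree E m y z

/-- `A` is a meager subset of `2^ω`: it is covered by a countable set of nowhere dense sets. -/
def IsMeager (w t A : M) : Prop :=
  SubC E w t A ∧ ∃ N, Injects E N w ∧ (∀ D, E D N → IsNwd E w t D) ∧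
    ∀ x, E x A → ∃ D, E D N ∧ E x D

/-- `S = X + A`, for subsets of `2^ω`. -/
def IsSumSet (w o t X A S : M) : Prop :=
  ∀ z, E z S ↔ IsFun E z w t ∧ ∃ x a, E x X ∧ E a A ∧ IsSum E w o x a z

/-- `X` is a meager-additive subset of `2^ω`. -/
def IsMA (w o t X : M) : Prop :=
  SubC E w t X ∧ ∀ A S, IsMeager E w t A → IsSumSet E w o t X A S → IsMeager E w t S

/-- `add(I) ≤ |k|` for an ideal `I`: there is a family `F ⊆ I` of cardinality at most `|k|` whose
union is not in `I`. -/
def AddLe (I : M → Prop) (k : M) : Prop :=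
  ∃ F, Injects E F k ∧ (∀ A, E A F → I A) ∧ ∀ U, (∀ z, E z U ↔ ∃ A, E A F ∧ E z A) → ¬ I U

end Pool.Agent.MP9096b7
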