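import Pool.Agent.MP_9096b7_lc.Size

/-! From the poset to the measurable spaces of the stages. -/

set_option autoImplicit false
set_option linter.unusedSectionVars false
set_option linter.style.haveILetI false

namespace Pool.Agent.MP9096b7

open Filter MeasureTheory

section

variable {K : Type} [LinearOrder K] [WellFoundedLT K] (int : K → Nm K) (bk : K → K)

/-- the conditions of the whole iteration -/
def IsP (p : Pc K) : Prop := ∃ α, In int bk α p

/-- the order of the whole iteration -/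
def LEt (p q : Pc K) : Prop := ∀ α, PLE int α p q

/-- Generic filters. -/
structure Gnc {X : Type} (N : Filter X) (G : X → Pc K → Prop) : Prop where
  g0 : ∀ ω p, G ω p → IsP int bk p
  g1 : ∀ ω p q, G ω p → IsP int bk q → LEt int p q → G ω q
  g2 : ∀ ω p q, G ω p → G ω q → ∃ r, IsP int bk r ∧ LEt int r p ∧ LEt int r q
  g3 : ∀ D : Pc K → Prop, (∀ p, IsP int bk p → ∃ q, IsP int bk q ∧ D q ∧ LEt int q p) →
    ∀ᶠ ω in N, ∃ p, D p ∧ G ω p
  g4 : ∀ A ∈ N, ∀ p, IsP int bk p → ∃ ω ∈ A, G ω p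

variable {int bk}

theorem LEt.refl (p : Pc K) : LEt int p p := fun _ => PLE.refl _ _

theorem LEt.trans {p q r : Pc K} (h : LEt int p q) (h' : LEt int q r) : LEt int p r :=
  fun α => (h α).trans (h' α)

theorem PLE.let {α : K} {p q : Pc K} (hq : In int bk α q) (h : PLE int α p q) : LEt int p q :=
  fun _ => PLE.of_le hq h

theorem In.isP {α : K} {p : Pc K} (h : In int bk α p) : IsP int bk p := ⟨α, h⟩

variable {X : Type} {N : Filter X} {G : X → Pc K → Prop}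

namespace Gnc

variable (g : Gnc int bk N G)
include g

theorem below (p : Pc K) (D : Pc K → Prop)
    (hD : ∀ q, IsP int bk q → LEt int q p → ∃ r, IsP int bk r ∧ D r ∧ LEt int r q) :
    ∀ᶠ ω in N, G ω p → ∃ r, D r ∧ G ω r := by
  have h1 := g.g3 (fun r => D r ∨ ¬ ∃ t, IsP int bk t ∧ LEt int t p ∧ LEt int t r) (by
    intro q hq
    by_cases h : ∃ t, IsP int bk t ∧ LEt int t p ∧ LEt int t q
    · obtain ⟨t, t1, t2, t3⟩ := h
      obtain ⟨r, r1, r2, r3⟩ := hD t t1 t2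
      exact ⟨r, r1, Or.inl r2, r3.trans t3⟩
    · exact ⟨q, hq, Or.inr h, LEt.refl q⟩)
  filter_upwards [h1] with ω hω hp
  obtain ⟨r, hr | hr, hr'⟩ := hω
  · exact ⟨r, hr, hr'⟩
  · exact absurd (g.g2 ω p r hp hr') hr

theorem one : ∀ᶠ ω in N, G ω (Pc.one K) := by
  have h1 := g.g3 (fun _ => True) (fun p hp => ⟨p, hp, trivial, LEt.refl p⟩)
  filter_upwards [h1] with ω hω
  obtain ⟨p, -, hp⟩ := hω
  obtain ⟨α, _⟩ := g.g0 ω p hp
  exact g.g1 ω p _ hp ⟨α, one_In α⟩ fun β => le_one β p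

theorem nonnull {p : Pc K} (hp : IsP int bk p) {A : Set X} (h : ∀ᶠ ω in N, G ω p → ω ∈ A) :
    Aᶜ ∉ N := by
  intro hA
  obtain ⟨ω, ⟨h1, h2⟩, h3⟩ := g.g4 _ (inter_mem h hA) p hp
  exact h2 (h1 h3)

/-- compatible conditions of the stage `α` are compatible in the stage `α` -/
theorem comp_res {α : K} {p q : Pc K} {ω : X} (hp : G ω p) (hq : G ω q) :
    ∃ r, In int bk α r ∧ PLE int α r p ∧ PLE int α r q := by
  obtain ⟨r, ⟨β, hr⟩, h1, h2⟩ := g.g2 ω p q hp hq
  exact ⟨res α r, res_In hr, (res_agree α r).ple.trans (h1 α), (res_agree α r).ple.trans (h2 α)⟩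

theorem of_ple {α : K} {p q : Pc K} {ω : X} (hp : G ω p) (hq : In int bk α q)
    (h : PLE int α p q) : G ω q := g.g1 ω p q hp hq.isP (h.let hq)

theorem compl_aux (α : K) (S : Set (Pc K)) (hS : ∀ p ∈ S, In int bk α p) :
    ∀ᶠ ω in N, ((¬ ∃ p ∈ S, G ω p) ↔ ∃ q ∈ {q | In int bk α q ∧ ∀ p ∈ S, ¬ ∃ r, In int bk α r ∧
      PLE int α r p ∧ PLE int α r q}, G ω q) := by
  have h1 := g.g3 (fun r => (∃ p ∈ S, LEt int r p) ∨ (∀ p ∈ S, ¬ ∃ t, In int bk α t ∧
      PLE int α t p ∧ PLE int α t (res α r))) (by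
    rintro q ⟨β, hq⟩
    by_cases h : ∀ p ∈ S, ¬ ∃ t, In int bk α t ∧ PLE int α t p ∧ PLE int α t (res α q)
    · exact ⟨q, ⟨β, hq⟩, Or.inr h, LEt.refl q⟩
    · push Not at h
      obtain ⟨p, hp, t, t1, t2, t3⟩ := h
      have t4 : PLE int α t q := t3.trans (res_agree α q).ple
      refine ⟨amal α t q, ⟨max α β, amal_In (le_max_left _ _) (t1.mono (le_max_left _ _))
        (hq.mono (le_max_right _ _))⟩, Or.inl ⟨p, hp, ?_⟩, fun δ => amal_le t4⟩
      exact (amal_le_left.trans t2).let (hS p hp))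
  filter_upwards [h1] with ω hω
  constructor
  · intro hno
    obtain ⟨r, ⟨p, hp, hrp⟩ | hr, hr'⟩ := hω
    · exact absurd ⟨p, hp, g.g1 ω r p hr' (hS p hp).isP hrp⟩ hno
    · obtain ⟨β, hβ⟩ := g.g0 ω r hr'
      exact ⟨res α r, ⟨res_In hβ, hr⟩, g.of_ple hr' (res_In hβ) (le_res α)⟩
  · rintro ⟨q, ⟨_, hq2⟩, hq3⟩ ⟨p, hp, hp'⟩
    exact hq2 p hp (g.comp_res hp' hq3)

/-- The events of the stage `α`. -/
@[reducible]
def m [CountableInterFilter N] (α : K) : MeasurableSpace X where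
  MeasurableSet' A := ∃ S : Set (Pc K), (∀ p ∈ S, In int bk α p) ∧
    ∀ᶠ ω in N, (ω ∈ A ↔ ∃ p ∈ S, G ω p)
  measurableSet_empty := ⟨∅, by simp, Eventually.of_forall fun ω => by simp⟩
  measurableSet_compl := by
    rintro A ⟨S, hS, hA⟩
    refine ⟨{q | In int bk α q ∧ ∀ p ∈ S, ¬ ∃ r, In int bk α r ∧ PLE int α r p ∧ PLE int α r q},
      fun q hq => hq.1, ?_⟩
    filter_upwards [hA, g.compl_aux α S hS] with ω h1 h2
    rw [← h2, ← h1]
    rfl
  measurableSet_iUnion := by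
    intro f hf
    choose S hS hS' using hf
    refine ⟨⋃ n, S n, ?_, ?_⟩
    · intro p hp
      obtain ⟨n, hn⟩ := Set.mem_iUnion.1 hp
      exact hS n p hn
    · filter_upwards [eventually_countable_forall.2 hS'] with ω h1
      constructor
      · intro h2
        obtain ⟨n, hn⟩ := Set.mem_iUnion.1 h2
        obtain ⟨p, hp, hp'⟩ := (h1 n).1 hn
        exact ⟨p, Set.mem_iUnion.2 ⟨n, hp⟩, hp'⟩
      · rintro ⟨p, hp, hp'⟩
        obtain ⟨n, hn⟩ := Set.mem_iUnion.1 hp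
        exact Set.mem_iUnion.2 ⟨n, (h1 n).2 ⟨p, hn, hp'⟩⟩

variable [CountableInterFilter N]

theorem m_iff {α : K} {A : Set X} : MeasurableSet[g.m α] A ↔ ∃ S : Set (Pc K),
    (∀ p ∈ S, In int bk α p) ∧ ∀ᶠ ω in N, (ω ∈ A ↔ ∃ p ∈ S, G ω p) := Iff.rfl

theorem m_cone {α : K} {p : Pc K} (hp : In int bk α p) : MeasurableSet[g.m α] {ω | G ω p} :=
  ⟨{p}, by simpa using hp, Eventually.of_forall fun ω => by simp⟩

theorem m_congr {α : K} {A A' : Set X} (h : ∀ᶠ ω in N, (ω ∈ A' ↔ ω ∈ A))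
    (hA : MeasurableSet[g.m α] A) : MeasurableSet[g.m α] A' := by
  obtain ⟨S, hS, hA⟩ := hA
  refine ⟨S, hS, ?_⟩
  filter_upwards [h, hA] with ω h1 h2
  rw [h1, h2]

theorem m_null {α : K} {A : Set X} (hA : A ∈ N) : MeasurableSet[g.m α] A := by
  refine g.m_congr (A := Set.univ) ?_ MeasurableSet.univ
  filter_upwards [hA] with ω h
  simp [h]

theorem m_mono {α β : K} (h : α ≤ β) : g.m α ≤ g.m β := by
  rintro A ⟨S, hS, hA⟩
  exact ⟨S, fun p hp => (hS p hp).mono h, hA⟩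

theorem cone {α : K} {A : Set X} (hA : MeasurableSet[g.m α] A) (h0 : Aᶜ ∉ N) :
    ∃ p, In int bk α p ∧ ∀ᶠ ω in N, G ω p → ω ∈ A := by
  obtain ⟨S, hS, hA⟩ := hA
  rcases S.eq_empty_or_nonempty with rfl | ⟨p, hp⟩
  · exfalso
    apply h0
    filter_upwards [hA] with ω h
    simpa using h
  · refine ⟨p, hS p hp, ?_⟩
    filter_upwards [hA] with ω h h'
    exact h.2 ⟨p, hp, h'⟩

theorem m_bot {α : K} (hα : ∀ β, α ≤ β) {A : Set X} (hA : MeasurableSet[g.m α] A) :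
    A ∈ N ∨ Aᶜ ∈ N := by
  by_cases h0 : Aᶜ ∈ N
  · exact Or.inr h0
  · obtain ⟨p, hp, hA⟩ := g.cone hA h0
    refine Or.inl ?_
    filter_upwards [hA, g.one] with ω h1 h2
    refine h1 (g.g1 ω _ p h2 hp.isP ?_)
    intro β
    rw [PLE_iff]
    intro γ _
    have h3 := hp.n_zero (hα γ)
    refine ⟨by rw [h3]; exact Nat.zero_le _, fun k hk => ?_, by rw [p.F_empty h3]; simp,
      by rw [p.F_empty h3]; simp⟩
    rw [h3] at hk
    exact absurd hk (Nat.not_lt_zero _)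

theorem In_lim {β : K} (hβ : IsLim β) {p : Pc K} (hp : In int bk β p) :
    ∃ γ < β, In int bk γ p := by
  classical
  by_cases h0 : p.fin.toFinset.Nonempty
  · let γ := p.fin.toFinset.max' h0
    have hγ1 : p.n γ ≠ 0 := by
      have := p.fin.toFinset.max'_mem h0
      simpa using this
    have hγ2 : ∀ δ, γ < δ → p.n δ = 0 := by
      intro δ hδ
      by_contra h
      have : δ ≤ γ := p.fin.toFinset.le_max' δ (by simpa using h)
      exact absurd hδ (not_lt.2 this)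
    have hγα : γ < β := by
      by_contra h
      exact hγ1 (hp.n_zero (not_lt.1 h))
    obtain ⟨δ, h1, h2⟩ := hβ.2 γ hγα
    refine ⟨δ, h2, ?_⟩
    rw [In_iff] at hp ⊢
    exact ⟨fun ε hε => hγ2 ε (h1.trans_le hε), fun ε hε => hp.2 ε (hε.trans h2)⟩
  · obtain ⟨γ, hγ⟩ := hβ.1
    refine ⟨γ, hγ, ?_⟩
    rw [In_iff] at hp ⊢
    refine ⟨fun ε _ => ?_, fun ε hε => hp.2 ε (hε.trans hγ)⟩
    by_contra h
    exact h0 ⟨ε, by simpa using h⟩

open Classical in
/-- the value of a name -/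
noncomputable def val (_ : Gnc int bk N G) (x : Nm K) (ω : X) (k : ℕ) : ℕ :=
  if h : ∃ i, G ω (x k i).1 then (x k h.choose).2 else 0

theorem val_eq {α : K} {x : Nm K} (hx : OK int bk α x) {ω : X} {k i : ℕ} (h : G ω (x k i).1) :
    g.val x ω k = (x k i).2 := by
  have h1 : ∃ i, G ω (x k i).1 := ⟨i, h⟩
  rw [val, dif_pos h1]
  obtain ⟨r, r1, r2, r3⟩ := g.comp_res (α := α) h1.choose_spec h
  exact hx.2.2 k _ _ r r1 r2 r3

theorem val_ex {α : K} {x : Nm K} (hx : OK int bk α x) :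
    ∀ᶠ ω in N, ∀ k, ∃ i, G ω (x k i).1 := by
  rw [eventually_countable_forall]
  intro k
  have h1 := g.g3 (fun r => ∃ i, PLE int α r (x k i).1) (by
    rintro p ⟨β, hp⟩
    obtain ⟨i, r, r1, r2, r3⟩ := hx.2.1 k (res α p) (res_In hp)
    have r4 : PLE int α r p := r2.trans (res_agree α p).ple
    exact ⟨amal α r p, ⟨max α β, amal_In (le_max_left _ _) (r1.mono (le_max_left _ _))
      (hp.mono (le_max_right _ _))⟩, ⟨i, amal_le_left.trans r3⟩, fun δ => amal_le r4⟩)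
  filter_upwards [h1] with ω hω
  obtain ⟨p, ⟨i, hi⟩, hp⟩ := hω
  exact ⟨i, g.of_ple hp (hx.1 k i) hi⟩

theorem val_meas {α : K} {x : Nm K} (hx : OK int bk α x) : Measurable[g.m α] (g.val x) := by
  let _ := g.m α
  refine measurable_pi_iff.2 fun k => measurable_to_countable' fun v => ?_
  refine ⟨{p | ∃ i, p = (x k i).1 ∧ (x k i).2 = v}, ?_, ?_⟩
  · rintro p ⟨i, rfl, -⟩
    exact hx.1 k i
  · filter_upwards [g.val_ex hx] with ω hω
    simp only [Set.mem_preimage, Set.mem_singleton_iff]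
    constructor
    · intro h
      obtain ⟨i, hi⟩ := hω k
      rw [g.val_eq hx hi] at h
      exact ⟨_, ⟨i, rfl, h⟩, hi⟩
    · rintro ⟨p, ⟨i, rfl, hv⟩, hp⟩
      rw [g.val_eq hx hp, hv]

omit [CountableInterFilter N] g in
theorem zeroNm_OK (α : K) : OK int bk α (zeroNm K) :=
  ⟨fun _ _ => one_In α, fun _ p hp => ⟨0, p, hp, PLE.refl _ _, le_one _ _⟩,
    fun _ _ _ _ _ _ _ => rfl⟩

omit [CountableInterFilter N] g in
theorem bn_OK (γ : K) : OK int bk γ (bn int bk γ) := by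
  unfold bn fixNm
  split_ifs with h
  · exact h
  · exact zeroNm_OK γ

omit [CountableInterFilter N] g in
theorem OK_mono {α β : K} (h : α ≤ β) {x : Nm K} (hx : OK int bk α x) : OK int bk β x := by
  refine ⟨fun k i => (hx.1 k i).mono h, fun k p hp => ?_, fun k i i' r hr h1 h2 => ?_⟩
  · obtain ⟨i, r, r1, r2, r3⟩ := hx.2.1 k (res α p) (res_In hp)
    have r4 : PLE int α r p := r2.trans (res_agree α p).ple
    exact ⟨i, amal α r p, amal_In h (r1.mono h) hp, amal_le r4,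
      PLE.of_le (hx.1 k i) (amal_le_left.trans r3)⟩
  · exact hx.2.2 k i i' (res α r) (res_In hr) ((res_agree α r).ple.trans (h1.mono h))
      ((res_agree α r).ple.trans (h2.mono h))

/-- Each measurable function has a name. -/
theorem exists_name {α : K} {F : X → ℕ → ℕ} (hF : Measurable[g.m α] F) :
    ∃ x, OK int bk α x ∧ ∀ᶠ ω in N, g.val x ω = F ω := by
  classical
  have h1 : ∀ k v, ∃ S : Set (Pc K), (∀ p ∈ S, In int bk α p) ∧
      ∀ᶠ ω in N, (F ω k = v ↔ ∃ p ∈ S, G ω p) := by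
    intro k v
    let _ := g.m α
    exact (measurable_pi_iff.1 hF k) (measurableSet_singleton v)
  choose S hS hS' using h1
  let T : ℕ → Set (Pc K) := fun k => {p | In int bk α p ∧ ∃ v, ∃ q ∈ S k v, PLE int α p q}
  have hT : ∀ k p, In int bk α p → ∃ r ∈ T k, PLE int α r p := by
    intro k p hp
    obtain ⟨ω, h1, h2⟩ := g.g4 _ (eventually_countable_forall.2 fun v => hS' k v) p hp.isP
    obtain ⟨q, hq, hq'⟩ := (h1 (F ω k)).1 rfl
    obtain ⟨r, r1, r2, r3⟩ := g.comp_res (α := α) h2 hq'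
    exact ⟨r, ⟨r1, F ω k, q, hq, r3⟩, r2⟩
  have hA : ∀ k, ∃ A : Set (Pc K), A ⊆ T k ∧ A.Countable ∧
      (∀ p ∈ A, ∀ q ∈ A, (∃ r, In int bk α r ∧ PLE int α r p ∧ PLE int α r q) → p = q) ∧
      ∀ p ∈ T k, ∃ q ∈ A, ∃ r, In int bk α r ∧ PLE int α r p ∧ PLE int α r q := by
    intro k
    obtain ⟨A, hA⟩ := zorn_subset {A : Set (Pc K) | A ⊆ T k ∧ A.Pairwise
      fun p q => ¬ ∃ r, In int bk α r ∧ PLE int α r p ∧ PLE int α r q} (by
        intro c hc hc'
        refine ⟨⋃₀ c, ⟨Set.sUnion_subset fun A hA => (hc hA).1,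
          (Set.pairwise_sUnion hc'.directedOn).2 fun A hA => (hc hA).2⟩,
          fun A hA => Set.subset_sUnion_of_mem hA⟩)
    obtain ⟨⟨hA1, hA2⟩, hA3⟩ := hA
    refine ⟨A, hA1, ?_, ?_, ?_⟩
    · have : Countable A := by
        refine ccc_P (int := int) (bk := bk) (fun p : A => p.1) (fun p => ⟨α, (hA1 p.2).1⟩) ?_
        rintro p q hpq ⟨r, ⟨β, hr⟩, r1, r2⟩
        exact hA2 p.2 q.2 (fun h => hpq (Subtype.ext h)) ⟨res α r, res_In hr,
          (res_agree α r).ple.trans (r1 α), (res_agree α r).ple.trans (r2 α)⟩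
      exact Set.countable_coe_iff.1 this
    · intro p hp q hq h
      by_contra hne
      exact hA2 hp hq hne h
    · intro p hp
      by_contra hcon
      push Not at hcon
      have hpA : p ∉ A := fun h => hcon p h p hp.1 (PLE.refl _ _) (PLE.refl _ _)
      apply hpA
      refine hA3 (y := insert p A) ⟨Set.insert_subset hp hA1, ?_⟩ (Set.subset_insert p A)
        (Set.mem_insert p A)
      refine Set.pairwise_insert.2 ⟨hA2, fun q hq _ => ⟨?_, ?_⟩⟩
      · rintro ⟨r, h1, h2, h3⟩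
        exact hcon q hq r h1 h2 h3
      · rintro ⟨r, h1, h2, h3⟩
        exact hcon q hq r h1 h3 h2
  choose A hA1 hA2 hA3 hA4 using hA
  have hne : ∀ k, (A k).Nonempty := by
    intro k
    obtain ⟨r, hr, -⟩ := hT k (Pc.one K) (one_In α)
    obtain ⟨q, hq, -⟩ := hA4 k r hr
    exact ⟨q, hq⟩
  have hen : ∀ k, ∃ f : ℕ → Pc K, A k = Set.range f := fun k => (hA2 k).exists_eq_range (hne k)
  choose f hf using hen
  have hfA : ∀ k i, f k i ∈ A k := fun k i => by rw [hf k]; exact ⟨i, rfl⟩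
  have hv : ∀ k (p : Pc K), ∃ v, p ∈ A k → ∃ q ∈ S k v, PLE int α p q := by
    intro k p
    by_cases hp : p ∈ A k
    · obtain ⟨-, v, hv⟩ := hA1 k hp
      exact ⟨v, fun _ => hv⟩
    · exact ⟨0, fun h => absurd h hp⟩
  choose v hv using hv
  have hx : OK int bk α (fun k i => (f k i, v k (f k i))) := by
    refine ⟨fun k i => (hA1 k (hfA k i)).1, fun k p hp => ?_, fun k i i' r hr h1 h2 => ?_⟩
    · obtain ⟨r, hr, hr'⟩ := hT k p hp
      obtain ⟨q, hq, t, t1, t2, t3⟩ := hA4 k r hr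
      rw [hf k] at hq
      obtain ⟨i, rfl⟩ := hq
      exact ⟨i, t, t1, t2.trans hr', t3⟩
    · have := hA3 k _ (hfA k i) _ (hfA k i') ⟨r, hr, h1, h2⟩
      show v k (f k i) = v k (f k i')
      rw [this]
  refine ⟨_, hx, ?_⟩
  filter_upwards [g.val_ex hx, eventually_countable_forall.2 fun k =>
    eventually_countable_forall.2 fun v => hS' k v] with ω h1 h2
  funext k
  obtain ⟨i, hi⟩ := h1 k
  rw [g.val_eq hx hi]
  obtain ⟨q, hq, hq'⟩ := hv k (f k i) (hfA k i)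
  exact ((h2 k _).2 ⟨q, hq, g.of_ple hi (hS k _ q hq) hq'⟩).symm

end Gnc

end

end Pool.Agent.MP9096b7
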